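import Pool.Agent.HYM.MainB

set_option autoImplicit false

/-!
# WYL/Mvl: mean values of the regularised integrands on the critical line
-/

open Complex MeasureTheory

namespace WYL

open HYM

theorem Lam_pt (K : Sel) {V : ℝ} (hV : 1 ≤ V) (t : ℝ) :
    ‖K.Lam V t‖ ≤ 3 * Real.exp 1 *
      ((1 + |t|)⁻¹ * Real.exp (-(t / V) ^ 2) * ‖K.L (ln (1 / 2) t)‖) := by
  unfold Sel.Lam
  rw [norm_mul, norm_div]
  have h1 := ln_half_norm t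
  have ht : 0 < 1 + |t| := by positivity
  have h3 : ‖ln (1 / 2) t‖⁻¹ ≤ 3 * (1 + |t|)⁻¹ := by
    rw [inv_le_comm₀ (lt_of_lt_of_le (by positivity) h1) (by positivity), mul_inv, inv_inv]
    linarith
  rw [div_eq_mul_inv]
  calc _ ≤ (‖K.L (ln (1 / 2) t)‖ * (3 * (1 + |t|)⁻¹)) *
        (Real.exp 1 * Real.exp (-(t / V) ^ 2)) :=
        mul_le_mul (mul_le_mul_of_nonneg_left h3 (norm_nonneg _)) (gauss_half_norm hV t)
          (norm_nonneg _) (by positivity)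
    _ = _ := by ring

theorem sqrt2_pos : 0 < √(2 : ℝ) := Real.sqrt_pos.2 (by norm_num)

theorem sqrt2_ge : 1 ≤ √(2 : ℝ) := by
  rw [Real.le_sqrt (by norm_num) (by norm_num)]; norm_num

theorem sqrt2_le : √(2 : ℝ) ≤ 2 := by
  rw [Real.sqrt_le_left (by norm_num)]; norm_num

theorem gsplit {V : ℝ} (hV : 0 < V) (t : ℝ) : Real.exp (-(t / V) ^ 2) =
    Real.exp (-(t / (√2 * V)) ^ 2) * Real.exp (-(t / (√2 * V)) ^ 2) := by
  have hs2 : √2 ^ 2 = (2 : ℝ) := Real.sq_sqrt (by norm_num)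
  rw [← Real.exp_add]
  congr 1
  rw [div_pow, div_pow, mul_pow, hs2]
  field_simp
  ring

theorem pow_gauss2 {q : ℝ} (hq : 0 ≤ q) : ∃ C : ℝ, 0 < C ∧ ∀ V : ℝ, 1 ≤ V → ∀ t : ℝ,
    (1 + |t|) ^ q * Real.exp (-(t / V) ^ 2) ≤
      C * V ^ q * Real.exp (-(t / (√2 * V)) ^ 2) := by
  obtain ⟨C, hC, H⟩ := pow_gauss hq
  refine ⟨C * 2 ^ q, by positivity, fun V hV t => ?_⟩
  have hV0 : 0 < V := by linarith
  have hW : 1 ≤ √2 * V := by nlinarith [sqrt2_ge]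
  have h1 := H (√2 * V) hW t
  rw [gsplit hV0, ← mul_assoc]
  refine mul_le_mul_of_nonneg_right (h1.trans ?_) (Real.exp_pos _).le
  rw [mul_assoc, ← Real.mul_rpow (by norm_num) hV0.le]
  refine mul_le_mul_of_nonneg_left (Real.rpow_le_rpow (by positivity) ?_ hq) hC.le
  exact mul_le_mul_of_nonneg_right sqrt2_le hV0.le

theorem absln_cont : Continuous (fun t : ℝ => 1 + |t|) := by fun_prop

theorem rpow_cont (q : ℝ) : Continuous (fun t : ℝ => (1 + |t|) ^ q) :=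
  Continuous.rpow_const (by fun_prop) (fun t => Or.inl (by positivity))

theorem inv_cont : Continuous (fun t : ℝ => (1 + |t|)⁻¹) :=
  Continuous.inv₀ (by fun_prop) (fun t => by positivity)

/-- The weighted mean square of a function of degree at most two. -/
theorem ms_pow (F : Sel) (hF : F.deg ≤ 2) {q ε : ℝ} (hq : 0 ≤ q) (hε : 0 < ε) :
    ∃ C : ℝ, 0 < C ∧ ∀ V : ℝ, 1 ≤ V →
    Integrable (fun t : ℝ => (1 + |t|) ^ q *
      ((1 + |t|)⁻¹ * Real.exp (-(t / V) ^ 2) * ‖F.L (ln (1 / 2) t)‖ ^ 2)) ∧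
    ∫ t : ℝ, (1 + |t|) ^ q *
      ((1 + |t|)⁻¹ * Real.exp (-(t / V) ^ 2) * ‖F.L (ln (1 / 2) t)‖ ^ 2) ≤ C * V ^ (q + ε) := by
  obtain ⟨C₀, hC₀, H₀⟩ := pow_gauss2 hq
  obtain ⟨C₁, hC₁, H₁⟩ := ms_half F hF hε
  refine ⟨C₀ * (C₁ * 2 ^ ε), by positivity, fun V hV => ?_⟩
  have hV0 : 0 < V := by linarith
  have hW : 1 ≤ √2 * V := by nlinarith [sqrt2_ge]
  obtain ⟨i1, b1⟩ := H₁ (√2 * V) hW
  have hpt : ∀ t : ℝ, (1 + |t|) ^ q *
      ((1 + |t|)⁻¹ * Real.exp (-(t / V) ^ 2) * ‖F.L (ln (1 / 2) t)‖ ^ 2) ≤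
      C₀ * V ^ q * ((1 + |t|)⁻¹ * Real.exp (-(t / (√2 * V)) ^ 2) *
        ‖F.L (ln (1 / 2) t)‖ ^ 2) := by
    intro t
    have h := H₀ V hV t
    have h0 : 0 ≤ (1 + |t|)⁻¹ * ‖F.L (ln (1 / 2) t)‖ ^ 2 := by positivity
    calc _ = ((1 + |t|) ^ q * Real.exp (-(t / V) ^ 2)) *
          ((1 + |t|)⁻¹ * ‖F.L (ln (1 / 2) t)‖ ^ 2) := by ring
      _ ≤ (C₀ * V ^ q * Real.exp (-(t / (√2 * V)) ^ 2)) *
          ((1 + |t|)⁻¹ * ‖F.L (ln (1 / 2) t)‖ ^ 2) := mul_le_mul_of_nonneg_right h h0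
      _ = _ := by ring
  have hcont : Continuous (fun t : ℝ => (1 + |t|) ^ q *
      ((1 + |t|)⁻¹ * Real.exp (-(t / V) ^ 2) * ‖F.L (ln (1 / 2) t)‖ ^ 2)) := by
    refine (rpow_cont q).mul ((inv_cont.mul (by fun_prop)).mul ?_)
    exact (L_half_continuous F).norm.pow 2
  have hint : Integrable (fun t : ℝ => (1 + |t|) ^ q *
      ((1 + |t|)⁻¹ * Real.exp (-(t / V) ^ 2) * ‖F.L (ln (1 / 2) t)‖ ^ 2)) := by
    refine (i1.const_mul (C₀ * V ^ q)).mono' hcont.aestronglyMeasurable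
      (Filter.Eventually.of_forall fun t => ?_)
    rw [Real.norm_of_nonneg (by positivity)]
    exact hpt t
  refine ⟨hint, ?_⟩
  calc _ ≤ ∫ t : ℝ, C₀ * V ^ q * ((1 + |t|)⁻¹ * Real.exp (-(t / (√2 * V)) ^ 2) *
        ‖F.L (ln (1 / 2) t)‖ ^ 2) := integral_mono hint (i1.const_mul _) hpt
    _ = C₀ * V ^ q * ∫ t : ℝ, ((1 + |t|)⁻¹ * Real.exp (-(t / (√2 * V)) ^ 2) *
        ‖F.L (ln (1 / 2) t)‖ ^ 2) := integral_const_mul _ _
    _ ≤ C₀ * V ^ q * (C₁ * (√2 * V) ^ ε) :=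
        mul_le_mul_of_nonneg_left b1 (by positivity)
    _ ≤ C₀ * V ^ q * (C₁ * (2 ^ ε * V ^ ε)) := by
        refine mul_le_mul_of_nonneg_left (mul_le_mul_of_nonneg_left ?_ hC₁.le) (by positivity)
        rw [← Real.mul_rpow (by norm_num) hV0.le]
        exact Real.rpow_le_rpow (by positivity)
          (mul_le_mul_of_nonneg_right sqrt2_le hV0.le) hε.le
    _ = _ := by rw [Real.rpow_add hV0]; ring

/-- The first moment of the regularised integrand with a decaying weight. -/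
theorem Lam_one (G H K : Sel) (hG : G.deg ≤ 2) (hH : H.deg ≤ 2) {a A : ℝ} (ha : 0 ≤ a)
    (ha1 : a ≤ 1) (hA : 0 < A)
    (hK : ∀ t : ℝ, ‖K.L (ln (1 / 2) t)‖ ≤
      A * (1 + |t|) ^ a * (‖G.L (ln (1 / 2) t)‖ ^ 2 + ‖H.L (ln (1 / 2) t)‖ ^ 2))
    {ε : ℝ} (hε : 0 < ε) :
    ∃ C : ℝ, 0 < C ∧ ∀ V : ℝ, 1 ≤ V → Integrable (K.Lam V) ∧ ∀ U : ℝ, 1 ≤ U →
      ∫ t : ℝ, ‖K.Lam V t‖ * (1 + |t| / U)⁻¹ ≤ C * U ^ a * V ^ ε := by
  obtain ⟨C₁, hC₁, H₁⟩ := ms_pow G hG ha hε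
  obtain ⟨C₂, hC₂, H₂⟩ := ms_pow H hH ha hε
  obtain ⟨D₁, hD₁, K₁⟩ := ms_half G hG hε
  obtain ⟨D₂, hD₂, K₂⟩ := ms_half H hH hε
  refine ⟨3 * Real.exp 1 * A * (D₁ + D₂), by positivity, fun V hV => ?_⟩
  have hV0 : 0 < V := by linarith
  obtain ⟨i1, -⟩ := H₁ V hV
  obtain ⟨i2, -⟩ := H₂ V hV
  obtain ⟨j1, b1⟩ := K₁ V hV
  obtain ⟨j2, b2⟩ := K₂ V hV
  have hpt : ∀ t : ℝ, ‖K.Lam V t‖ ≤ 3 * Real.exp 1 * A *
      ((1 + |t|) ^ a * ((1 + |t|)⁻¹ * Real.exp (-(t / V) ^ 2) * ‖G.L (ln (1 / 2) t)‖ ^ 2) +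
        (1 + |t|) ^ a * ((1 + |t|)⁻¹ * Real.exp (-(t / V) ^ 2) *
          ‖H.L (ln (1 / 2) t)‖ ^ 2)) := by
    intro t
    refine (Lam_pt K hV t).trans ?_
    calc _ ≤ 3 * Real.exp 1 * ((1 + |t|)⁻¹ * Real.exp (-(t / V) ^ 2) *
          (A * (1 + |t|) ^ a * (‖G.L (ln (1 / 2) t)‖ ^ 2 + ‖H.L (ln (1 / 2) t)‖ ^ 2))) := by
          refine mul_le_mul_of_nonneg_left ?_ (by positivity)
          exact mul_le_mul_of_nonneg_left (hK t) (by positivity)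
      _ = _ := by ring
  have hint : Integrable (K.Lam V) :=
    ((i1.add i2).const_mul (3 * Real.exp 1 * A)).mono' (Lam_continuous K V).aestronglyMeasurable
      (Filter.Eventually.of_forall hpt)
  refine ⟨hint, fun U hU => ?_⟩
  have hU0 : 0 < U := by linarith
  have hpt2 : ∀ t : ℝ, ‖K.Lam V t‖ * (1 + |t| / U)⁻¹ ≤ 3 * Real.exp 1 * A * U ^ a *
      ((1 + |t|)⁻¹ * Real.exp (-(t / V) ^ 2) * ‖G.L (ln (1 / 2) t)‖ ^ 2 +
        (1 + |t|)⁻¹ * Real.exp (-(t / V) ^ 2) * ‖H.L (ln (1 / 2) t)‖ ^ 2) := by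
    intro t
    have hd : 0 < 1 + |t| / U := by positivity
    have hd1 : 1 ≤ 1 + |t| / U := by
      have : 0 ≤ |t| / U := by positivity
      linarith
    have h1 : (1 + |t|) ^ a * (1 + |t| / U)⁻¹ ≤ U ^ a := by
      have h2 : 1 + |t| ≤ U * (1 + |t| / U) := by
        rw [mul_add, mul_one, mul_div_cancel₀ _ hU0.ne']
        linarith
      rw [← div_eq_mul_inv, div_le_iff₀ hd]
      calc (1 + |t|) ^ a ≤ (U * (1 + |t| / U)) ^ a := Real.rpow_le_rpow (by positivity) h2 ha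
        _ = U ^ a * (1 + |t| / U) ^ a := Real.mul_rpow hU0.le hd.le
        _ ≤ U ^ a * (1 + |t| / U) ^ (1 : ℝ) :=
            mul_le_mul_of_nonneg_left (Real.rpow_le_rpow_of_exponent_le hd1 ha1) (by positivity)
        _ = _ := by rw [Real.rpow_one]
    set X := (1 + |t|)⁻¹ * Real.exp (-(t / V) ^ 2) * ‖G.L (ln (1 / 2) t)‖ ^ 2 +
        (1 + |t|)⁻¹ * Real.exp (-(t / V) ^ 2) * ‖H.L (ln (1 / 2) t)‖ ^ 2 with hX
    have hX0 : 0 ≤ X := by positivity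
    calc _ ≤ (3 * Real.exp 1 * A * ((1 + |t|) ^ a * X)) * (1 + |t| / U)⁻¹ := by
          refine mul_le_mul_of_nonneg_right ((hpt t).trans (le_of_eq ?_)) (by positivity)
          rw [hX]; ring
      _ = 3 * Real.exp 1 * A * (((1 + |t|) ^ a * (1 + |t| / U)⁻¹) * X) := by ring
      _ ≤ 3 * Real.exp 1 * A * (U ^ a * X) := by
          refine mul_le_mul_of_nonneg_left ?_ (by positivity)
          exact mul_le_mul_of_nonneg_right h1 hX0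
      _ = _ := by ring
  have hint2 : Integrable (fun t : ℝ => ‖K.Lam V t‖ * (1 + |t| / U)⁻¹) := by
    refine ((j1.add j2).const_mul (3 * Real.exp 1 * A * U ^ a)).mono' ?_
      (Filter.Eventually.of_forall fun t => ?_)
    · refine Continuous.aestronglyMeasurable ((Lam_continuous K V).norm.mul ?_)
      exact Continuous.inv₀ (by fun_prop) (fun t => by positivity)
    · rw [Real.norm_of_nonneg (by positivity)]
      exact hpt2 t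
  calc _ ≤ ∫ t : ℝ, 3 * Real.exp 1 * A * U ^ a *
      ((1 + |t|)⁻¹ * Real.exp (-(t / V) ^ 2) * ‖G.L (ln (1 / 2) t)‖ ^ 2 +
        (1 + |t|)⁻¹ * Real.exp (-(t / V) ^ 2) * ‖H.L (ln (1 / 2) t)‖ ^ 2) :=
        integral_mono hint2 ((j1.add j2).const_mul _) hpt2
    _ = 3 * Real.exp 1 * A * U ^ a * ((∫ t : ℝ, (1 + |t|)⁻¹ * Real.exp (-(t / V) ^ 2) *
        ‖G.L (ln (1 / 2) t)‖ ^ 2) + ∫ t : ℝ, (1 + |t|)⁻¹ * Real.exp (-(t / V) ^ 2) *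
        ‖H.L (ln (1 / 2) t)‖ ^ 2) := by
        rw [integral_const_mul, integral_add j1 j2]
    _ ≤ 3 * Real.exp 1 * A * U ^ a * (D₁ * V ^ ε + D₂ * V ^ ε) :=
        mul_le_mul_of_nonneg_left (add_le_add b1 b2) (by positivity)
    _ = _ := by ring

/-- The second moment of the regularised integrand. -/
theorem Lam_two (H K : Sel) (hH : H.deg ≤ 2) {b A δ : ℝ} (hb : 0 ≤ b) (hA : 0 < A) (hδ : 0 ≤ δ)
    (hK : ∀ t : ℝ, ‖K.L (ln (1 / 2) t)‖ ≤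
      A * (1 + |t|) ^ (1 / 2 + b) * ‖H.L (ln (1 / 2) t)‖)
    {ε : ℝ} (hε : 0 < ε) :
    ∃ C : ℝ, 0 < C ∧ ∀ V : ℝ, 1 ≤ V →
      Integrable (fun t : ℝ => (1 + |t|) ^ (2 * δ) * ‖K.Lam V t‖ ^ 2) ∧
      ∫ t : ℝ, (1 + |t|) ^ (2 * δ) * ‖K.Lam V t‖ ^ 2 ≤ C * V ^ (2 * δ + 2 * b + ε) := by
  obtain ⟨C₁, hC₁, H₁⟩ := ms_pow H hH (q := 2 * δ + 2 * b) (by positivity) hε
  refine ⟨(3 * Real.exp 1) ^ 2 * A ^ 2 * C₁, by positivity, fun V hV => ?_⟩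
  have hV0 : 0 < V := by linarith
  obtain ⟨i1, b1⟩ := H₁ V hV
  have hpt : ∀ t : ℝ, (1 + |t|) ^ (2 * δ) * ‖K.Lam V t‖ ^ 2 ≤ (3 * Real.exp 1) ^ 2 * A ^ 2 *
      ((1 + |t|) ^ (2 * δ + 2 * b) * ((1 + |t|)⁻¹ * Real.exp (-(t / V) ^ 2) *
        ‖H.L (ln (1 / 2) t)‖ ^ 2)) := by
    intro t
    have ht : 0 < 1 + |t| := by positivity
    have hg : Real.exp (-(t / V) ^ 2) ≤ 1 := Real.exp_le_one_iff.2 (by
      have := sq_nonneg (t / V); linarith)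
    have h1 : ‖K.Lam V t‖ ≤ 3 * Real.exp 1 * ((1 + |t|)⁻¹ * Real.exp (-(t / V) ^ 2) *
        (A * (1 + |t|) ^ (1 / 2 + b) * ‖H.L (ln (1 / 2) t)‖)) := by
      refine (Lam_pt K hV t).trans ?_
      refine mul_le_mul_of_nonneg_left ?_ (by positivity)
      exact mul_le_mul_of_nonneg_left (hK t) (by positivity)
    have h2 : ‖K.Lam V t‖ ^ 2 ≤ (3 * Real.exp 1) ^ 2 * A ^ 2 *
        ((((1 + |t|)⁻¹) ^ 2 * ((1 + |t|) ^ (1 / 2 + b)) ^ 2) * Real.exp (-(t / V) ^ 2) *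
          ‖H.L (ln (1 / 2) t)‖ ^ 2) * Real.exp (-(t / V) ^ 2) := by
      calc _ ≤ (3 * Real.exp 1 * ((1 + |t|)⁻¹ * Real.exp (-(t / V) ^ 2) *
        (A * (1 + |t|) ^ (1 / 2 + b) * ‖H.L (ln (1 / 2) t)‖))) ^ 2 :=
            pow_le_pow_left₀ (norm_nonneg _) h1 2
        _ = _ := by ring
    have h3 : ((1 + |t|)⁻¹) ^ 2 * ((1 + |t|) ^ (1 / 2 + b)) ^ 2 =
        (1 + |t|) ^ (2 * b) * (1 + |t|)⁻¹ := by
      rw [← Real.rpow_natCast ((1 + |t|) ^ (1 / 2 + b)) 2, ← Real.rpow_mul ht.le]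
      have : (1 / 2 + b) * ((2 : ℕ) : ℝ) = 1 + 2 * b := by push_cast; ring
      rw [this, Real.rpow_add ht, Real.rpow_one]
      field_simp
    rw [h3] at h2
    have h4 : 0 ≤ (3 * Real.exp 1) ^ 2 * A ^ 2 * ((1 + |t|) ^ (2 * b) * (1 + |t|)⁻¹ *
        Real.exp (-(t / V) ^ 2) * ‖H.L (ln (1 / 2) t)‖ ^ 2) := by positivity
    have h5 : ‖K.Lam V t‖ ^ 2 ≤ (3 * Real.exp 1) ^ 2 * A ^ 2 * ((1 + |t|) ^ (2 * b) * (1 + |t|)⁻¹ *
        Real.exp (-(t / V) ^ 2) * ‖H.L (ln (1 / 2) t)‖ ^ 2) :=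
      h2.trans (mul_le_of_le_one_right h4 hg)
    calc _ ≤ (1 + |t|) ^ (2 * δ) * ((3 * Real.exp 1) ^ 2 * A ^ 2 * ((1 + |t|) ^ (2 * b) *
          (1 + |t|)⁻¹ * Real.exp (-(t / V) ^ 2) * ‖H.L (ln (1 / 2) t)‖ ^ 2)) :=
          mul_le_mul_of_nonneg_left h5 (by positivity)
      _ = _ := by rw [Real.rpow_add ht]; ring
  have hint : Integrable (fun t : ℝ => (1 + |t|) ^ (2 * δ) * ‖K.Lam V t‖ ^ 2) := by
    refine (i1.const_mul ((3 * Real.exp 1) ^ 2 * A ^ 2)).mono' ?_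
      (Filter.Eventually.of_forall fun t => ?_)
    · exact ((rpow_cont _).mul ((Lam_continuous K V).norm.pow 2)).aestronglyMeasurable
    · rw [Real.norm_of_nonneg (by positivity)]
      exact hpt t
  refine ⟨hint, ?_⟩
  calc _ ≤ ∫ t : ℝ, (3 * Real.exp 1) ^ 2 * A ^ 2 *
      ((1 + |t|) ^ (2 * δ + 2 * b) * ((1 + |t|)⁻¹ * Real.exp (-(t / V) ^ 2) *
        ‖H.L (ln (1 / 2) t)‖ ^ 2)) := integral_mono hint (i1.const_mul _) hpt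
    _ = (3 * Real.exp 1) ^ 2 * A ^ 2 * ∫ t : ℝ, ((1 + |t|) ^ (2 * δ + 2 * b) *
        ((1 + |t|)⁻¹ * Real.exp (-(t / V) ^ 2) * ‖H.L (ln (1 / 2) t)‖ ^ 2)) :=
        integral_const_mul _ _
    _ ≤ (3 * Real.exp 1) ^ 2 * A ^ 2 * (C₁ * V ^ (2 * δ + 2 * b + ε)) :=
        mul_le_mul_of_nonneg_left b1 (by positivity)
    _ = _ := by ring

/-- The regularised integrand is integrable. -/
theorem Lam_int (F : Sel) (hF : F.deg ≤ 2) {V : ℝ} (hV : 1 ≤ V) : Integrable (F.Lam V) := by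
  have hV0 : 0 < V := by linarith
  obtain ⟨C₁, hC₁, H₁⟩ := ms_half F hF one_pos
  obtain ⟨i1, -⟩ := H₁ V hV
  have hg : Integrable (fun t : ℝ => Real.exp (-(t / V) ^ 2)) := by
    have := integrable_exp_neg_mul_sq (b := (V ^ 2)⁻¹) (by positivity)
    refine this.congr (Filter.Eventually.of_forall fun t => ?_)
    simp only
    congr 1
    rw [div_pow]; ring
  refine ((i1.add hg).const_mul (3 * Real.exp 1)).mono' (Lam_continuous F V).aestronglyMeasurable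
    (Filter.Eventually.of_forall fun t => ?_)
  refine (Lam_pt F hV t).trans ?_
  refine mul_le_mul_of_nonneg_left ?_ (by positivity)
  show _ ≤ (1 + |t|)⁻¹ * Real.exp (-(t / V) ^ 2) * ‖F.L (ln (1 / 2) t)‖ ^ 2 +
    Real.exp (-(t / V) ^ 2)
  have h1 : (1 + |t|)⁻¹ ≤ 1 := inv_le_one_of_one_le₀ (by linarith [abs_nonneg t])
  have h2 : ‖F.L (ln (1 / 2) t)‖ ≤ ‖F.L (ln (1 / 2) t)‖ ^ 2 + 1 := by
    nlinarith [sq_nonneg (‖F.L (ln (1 / 2) t)‖ - 1), norm_nonneg (F.L (ln (1 / 2) t))]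
  have h0 : 0 ≤ (1 + |t|)⁻¹ * Real.exp (-(t / V) ^ 2) := by positivity
  calc _ ≤ (1 + |t|)⁻¹ * Real.exp (-(t / V) ^ 2) * (‖F.L (ln (1 / 2) t)‖ ^ 2 + 1) :=
        mul_le_mul_of_nonneg_left h2 h0
    _ = (1 + |t|)⁻¹ * Real.exp (-(t / V) ^ 2) * ‖F.L (ln (1 / 2) t)‖ ^ 2 +
        (1 + |t|)⁻¹ * Real.exp (-(t / V) ^ 2) := by ring
    _ ≤ _ := by
        refine add_le_add le_rfl ?_
        exact mul_le_of_le_one_left (Real.exp_pos _).le h1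

/-- The second moment of the part above the height `2^k`. -/
theorem Lam_diff (F : Sel) (hF : F.deg ≤ 2) {δ ε : ℝ} (hδ : 0 ≤ δ) (hε : 0 < ε) :
    ∃ C : ℝ, 0 < C ∧ ∀ V : ℝ, 1 ≤ V → ∀ k : ℕ, (2 : ℝ) ^ k ≤ V →
      Integrable (fun t : ℝ => (1 + |t|) ^ (2 * δ) * ‖F.Lam V t - F.Lam (2 ^ k) t‖ ^ 2) ∧
      ∫ t : ℝ, (1 + |t|) ^ (2 * δ) * ‖F.Lam V t - F.Lam (2 ^ k) t‖ ^ 2 ≤
        C * ((2 : ℝ) ^ k)⁻¹ * V ^ (2 * δ + ε) := by
  obtain ⟨C₁, hC₁, H₁⟩ := ms_pow F hF (q := 2 * δ) (by positivity) hε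
  refine ⟨9 * (4 * Real.exp (1 / 2)) * C₁, by positivity, fun V hV k hk => ?_⟩
  have hV0 : 0 < V := by linarith
  obtain ⟨i1, b1⟩ := H₁ V hV
  have hN0 : (0 : ℝ) < 2 ^ k := by positivity
  have hpt : ∀ t : ℝ, (1 + |t|) ^ (2 * δ) * ‖F.Lam V t - F.Lam (2 ^ k) t‖ ^ 2 ≤
      9 * (4 * Real.exp (1 / 2)) * ((2 : ℝ) ^ k)⁻¹ *
      ((1 + |t|) ^ (2 * δ) * ((1 + |t|)⁻¹ * Real.exp (-(t / V) ^ 2) *
        ‖F.L (ln (1 / 2) t)‖ ^ 2)) := by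
    intro t
    have ht : 0 < 1 + |t| := by positivity
    have hg : Real.exp (-(t / V) ^ 2) ≤ 1 := Real.exp_le_one_iff.2 (by
      have := sq_nonneg (t / V); linarith)
    have e1 : F.Lam V t - F.Lam (2 ^ k) t = F.L (ln (1 / 2) t) / ln (1 / 2) t *
        (cexp ((ln (1 / 2) t) ^ 2 / (V : ℂ) ^ 2) -
          cexp ((ln (1 / 2) t) ^ 2 / ((2 : ℂ) ^ k) ^ 2)) := by
      unfold Sel.Lam
      push_cast
      ring
    have h3 : ‖ln (1 / 2) t‖⁻¹ ≤ 3 * (1 + |t|)⁻¹ := by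
      have h1 := ln_half_norm t
      rw [inv_le_comm₀ (lt_of_lt_of_le (by positivity) h1) (by positivity), mul_inv, inv_inv]
      linarith
    have hD := D_bound hV hk t
    have hD2 : ‖cexp ((ln (1 / 2) t) ^ 2 / (V : ℂ) ^ 2) -
        cexp ((ln (1 / 2) t) ^ 2 / ((2 : ℂ) ^ k) ^ 2)‖ ^ 2 ≤
        4 * Real.exp (1 / 2) * Real.exp (-(t / V) ^ 2) * ((1 + |t|) / 2 ^ k) := by
      refine hD.trans ?_
      refine mul_le_mul ?_ (min_le_right _ _) (by positivity) (by positivity)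
      refine mul_le_mul_of_nonneg_left ?_ (by positivity)
      rw [pow_two]
      exact mul_le_of_le_one_left (Real.exp_pos _).le hg
    have h4 : ‖F.Lam V t - F.Lam (2 ^ k) t‖ ^ 2 ≤
        (‖F.L (ln (1 / 2) t)‖ ^ 2 * (3 * (1 + |t|)⁻¹) ^ 2) *
        (4 * Real.exp (1 / 2) * Real.exp (-(t / V) ^ 2) * ((1 + |t|) / 2 ^ k)) := by
      rw [e1, norm_mul, norm_div, mul_pow, div_eq_mul_inv, mul_pow]
      refine mul_le_mul ?_ hD2 (by positivity) (by positivity)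
      refine mul_le_mul_of_nonneg_left ?_ (by positivity)
      exact pow_le_pow_left₀ (by positivity) h3 2
    calc _ ≤ (1 + |t|) ^ (2 * δ) * ((‖F.L (ln (1 / 2) t)‖ ^ 2 * (3 * (1 + |t|)⁻¹) ^ 2) *
        (4 * Real.exp (1 / 2) * Real.exp (-(t / V) ^ 2) * ((1 + |t|) / 2 ^ k))) :=
          mul_le_mul_of_nonneg_left h4 (by positivity)
      _ = _ := by field_simp; ring
  have hint : Integrable
      (fun t : ℝ => (1 + |t|) ^ (2 * δ) * ‖F.Lam V t - F.Lam (2 ^ k) t‖ ^ 2) := by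
    refine (i1.const_mul (9 * (4 * Real.exp (1 / 2)) * ((2 : ℝ) ^ k)⁻¹)).mono' ?_
      (Filter.Eventually.of_forall fun t => ?_)
    · exact ((rpow_cont _).mul (((Lam_continuous F V).sub
        (Lam_continuous F (2 ^ k))).norm.pow 2)).aestronglyMeasurable
    · rw [Real.norm_of_nonneg (by positivity)]
      exact hpt t
  refine ⟨hint, ?_⟩
  calc _ ≤ ∫ t : ℝ, 9 * (4 * Real.exp (1 / 2)) * ((2 : ℝ) ^ k)⁻¹ *
      ((1 + |t|) ^ (2 * δ) * ((1 + |t|)⁻¹ * Real.exp (-(t / V) ^ 2) *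
        ‖F.L (ln (1 / 2) t)‖ ^ 2)) := integral_mono hint (i1.const_mul _) hpt
    _ = 9 * (4 * Real.exp (1 / 2)) * ((2 : ℝ) ^ k)⁻¹ * ∫ t : ℝ, ((1 + |t|) ^ (2 * δ) *
        ((1 + |t|)⁻¹ * Real.exp (-(t / V) ^ 2) * ‖F.L (ln (1 / 2) t)‖ ^ 2)) :=
        integral_const_mul _ _
    _ ≤ 9 * (4 * Real.exp (1 / 2)) * ((2 : ℝ) ^ k)⁻¹ * (C₁ * V ^ (2 * δ + ε)) :=
        mul_le_mul_of_nonneg_left b1 (by positivity)
    _ = _ := by ring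

end WYL
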