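import Pool.Agent.HYM.Defs

set_option autoImplicit false

/-!
# WYL/Smr: the residue term changes little
-/

open Complex MeasureTheory

namespace WYL

open HYM

/-- the integrand of the residue -/
noncomputable def rint (K : Sel) (x : ℝ) (z : ℂ) : ℂ := K.L z * (x : ℂ) ^ z / z

theorem rint_diff (K : Sel) {x : ℝ} (hx : 0 < x) {z : ℂ} (hz1 : z ≠ 1) (hz0 : z ≠ 0) :
    DifferentiableAt ℂ (rint K x) z := by
  have hxC : (x : ℂ) ≠ 0 := by exact_mod_cast hx.ne'
  have h1 : DifferentiableAt ℂ (fun z => K.P z / (z - 1) ^ K.m) z :=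
    (K.P_diff z).div ((differentiableAt_id.sub_const 1).pow _)
      (pow_ne_zero _ (sub_ne_zero.2 hz1))
  have h2 : DifferentiableAt ℂ (fun z => (x : ℂ) ^ z) z :=
    differentiableAt_id.const_cpow (Or.inl hxC)
  exact (h1.mul h2).div differentiableAt_id hz0

theorem rint_cont (K : Sel) {x : ℝ} (hx : 0 < x) (s : Set ℂ) (hs : ∀ z ∈ s, z ≠ 1 ∧ z ≠ 0) :
    ContinuousOn (rint K x) s :=
  fun z hz => (rint_diff K hx (hs z hz).1 (hs z hz).2).continuousAt.continuousWithinAt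

theorem ne_zero_of_near {z : ℂ} {ρ : ℝ} (hρ : ρ ≤ 1 / 2) (hz : dist z 1 ≤ ρ) : z ≠ 0 := by
  rintro rfl
  rw [dist_zero_left, norm_one] at hz
  linarith

theorem ne_one_of_far {z : ℂ} {ρ : ℝ} (hρ : 0 < ρ) (hz : ρ ≤ dist z 1) : z ≠ 1 := by
  rintro rfl
  rw [dist_self] at hz
  linarith

theorem res_eq (K : Sel) {x : ℝ} (hx : 0 < x) {ρ : ℝ} (hρ : 0 < ρ) (hρ2 : ρ ≤ 1 / 2) :
    K.res x = (2 * (Real.pi : ℂ) * I)⁻¹ * ∮ z in C(1, ρ), rint K x z := by
  unfold Sel.res
  congr 1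
  have h := Complex.circleIntegral_eq_of_differentiable_on_annulus_off_countable (c := (1 : ℂ))
    (r := ρ) (R := 1 / 2) hρ hρ2 (f := rint K x) (s := ∅) Set.countable_empty
    (rint_cont K hx _ (fun z hz => by
      have h1 : dist z 1 ≤ 1 / 2 := Metric.mem_closedBall.1 hz.1
      have h2 : ρ ≤ dist z 1 := not_lt.1 (fun h => hz.2 (Metric.mem_ball.2 h))
      exact ⟨ne_one_of_far hρ h2, ne_zero_of_near le_rfl h1⟩))
    (fun z hz => by
      have h1 : dist z 1 ≤ 1 / 2 := (Metric.mem_ball.1 hz.1.1).le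
      have h2 : ρ ≤ dist z 1 := (not_le.1 (fun h => hz.1.2 (Metric.mem_closedBall.2 h))).le
      exact rint_diff K hx (ne_one_of_far hρ h2) (ne_zero_of_near le_rfl h1))
  exact h

theorem norm_exp_sub_one_le' (w : ℂ) : ‖Complex.exp w - 1‖ ≤ ‖w‖ * Real.exp ‖w‖ := by
  have hconv : Convex ℝ (Metric.closedBall (0 : ℂ) ‖w‖) := convex_closedBall _ _
  have h := Convex.norm_image_sub_le_of_norm_deriv_le (𝕜 := ℂ) (f := Complex.exp)
    (s := Metric.closedBall (0 : ℂ) ‖w‖) (C := Real.exp ‖w‖) (x := 0) (y := w)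
    (fun z _ => Complex.differentiable_exp.differentiableAt)
    (fun z hz => by
      rw [Complex.deriv_exp, Complex.norm_exp]
      apply Real.exp_le_exp.2
      have h1 : ‖z‖ ≤ ‖w‖ := by simpa using hz
      exact (Complex.re_le_norm z).trans h1) hconv (by simp) (by simp)
  rw [Complex.exp_zero, sub_zero] at h
  rw [mul_comm]
  exact h

theorem res_small (K : Sel) {ε : ℝ} (hε : 0 < ε) : ∃ C : ℝ, 0 < C ∧ ∀ T : ℝ, 1 ≤ T →
    ∀ x : ℝ, 0 < x → x ≤ T → ∀ y : ℝ,
      ‖K.res x - K.res (x * Real.exp (-y))‖ ≤ C * T ^ (1 + ε) * |y| * Real.exp (3 * |y|) := by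
  obtain ⟨ρ, hρdef⟩ : ∃ ρ : ℝ, ρ = min ε (1 / 2) := ⟨_, rfl⟩
  have hρ : 0 < ρ := by rw [hρdef]; exact lt_min hε (by norm_num)
  have hρ2 : ρ ≤ 1 / 2 := by rw [hρdef]; exact min_le_right _ _
  have hρε : ρ ≤ ε := by rw [hρdef]; exact min_le_left _ _
  have hsph : ∀ z ∈ Metric.sphere (1 : ℂ) ρ, z ≠ 1 ∧ z ≠ 0 := by
    intro z hz
    have h1 : dist z 1 = ρ := Metric.mem_sphere.1 hz
    exact ⟨ne_one_of_far hρ h1.ge, ne_zero_of_near hρ2 h1.le⟩
  -- a bound for `L z / z`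
  obtain ⟨B, hB⟩ : ∃ B : ℝ, ∀ z ∈ Metric.sphere (1 : ℂ) ρ, ‖K.L z / z‖ ≤ B := by
    have hc : ContinuousOn (fun z : ℂ => K.L z / z) (Metric.sphere (1 : ℂ) ρ) := by
      intro z hz
      have h1 : DifferentiableAt ℂ (fun z => K.P z / (z - 1) ^ K.m) z :=
        (K.P_diff z).div ((differentiableAt_id.sub_const 1).pow _)
          (pow_ne_zero _ (sub_ne_zero.2 (hsph z hz).1))
      exact (h1.div differentiableAt_id (hsph z hz).2).continuousAt.continuousWithinAt
    exact (isCompact_sphere (1 : ℂ) ρ).exists_bound_of_continuousOn hc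
  have hB0 : 0 ≤ |B| := abs_nonneg _
  refine ⟨|B| + 1, by positivity, ?_⟩
  intro T hT x hx hxT y
  have hx' : 0 < x * Real.exp (-y) := mul_pos hx (Real.exp_pos _)
  have hT0 : 0 < T := by linarith
  rw [res_eq K hx hρ hρ2, res_eq K hx' hρ hρ2, ← mul_sub, ← circleIntegral.integral_sub
    ((rint_cont K hx _ hsph).circleIntegrable hρ.le)
    ((rint_cont K hx' _ hsph).circleIntegrable hρ.le)]
  have hxC : (x : ℂ) ≠ 0 := by exact_mod_cast hx.ne'
  have hbd : ∀ z ∈ Metric.sphere (1 : ℂ) ρ, ‖rint K x z - rint K (x * Real.exp (-y)) z‖ ≤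
      |B| * (T ^ (1 + ε) * (3 / 2 * |y| * Real.exp (3 / 2 * |y|))) := by
    intro z hz
    have hz1 : dist z 1 = ρ := Metric.mem_sphere.1 hz
    have hznorm : ‖z‖ ≤ 3 / 2 := by
      have h1 : ‖z‖ ≤ ‖z - 1‖ + ‖(1 : ℂ)‖ := by
        have := norm_add_le (z - 1) 1
        rwa [sub_add_cancel] at this
      rw [← dist_eq_norm, hz1, norm_one] at h1
      linarith
    have hre : |z.re - 1| ≤ ρ := by
      have h1 := Complex.abs_re_le_norm (z - 1)
      rw [← dist_eq_norm, hz1, Complex.sub_re, Complex.one_re] at h1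
      exact h1
    have hre1 := (abs_le.1 hre).1
    have hre2 := (abs_le.1 hre).2
    have hpow : ((x * Real.exp (-y) : ℝ) : ℂ) ^ z = (x : ℂ) ^ z * Complex.exp (-(y * z)) := by
      rw [Complex.cpow_def_of_ne_zero (by exact_mod_cast hx'.ne'),
        Complex.cpow_def_of_ne_zero hxC, ← Complex.exp_add, ← Complex.ofReal_log hx'.le,
        ← Complex.ofReal_log hx.le, Real.log_mul hx.ne' (Real.exp_pos _).ne', Real.log_exp]
      congr 1
      push_cast
      ring
    have hsplit : rint K x z - rint K (x * Real.exp (-y)) z =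
        (K.L z / z) * ((x : ℂ) ^ z * (1 - Complex.exp (-(y * z)))) := by
      unfold rint
      rw [hpow]
      ring
    rw [hsplit, norm_mul, norm_mul]
    have hb1 : ‖(x : ℂ) ^ z‖ ≤ T ^ (1 + ε) := by
      rw [Complex.norm_cpow_eq_rpow_re_of_pos hx]
      rcases le_total 1 x with h1 | h1
      · calc x ^ z.re ≤ x ^ (1 + ε) := Real.rpow_le_rpow_of_exponent_le h1 (by linarith)
          _ ≤ T ^ (1 + ε) := Real.rpow_le_rpow hx.le hxT (by linarith)
      · calc x ^ z.re ≤ 1 := Real.rpow_le_one hx.le h1 (by linarith)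
          _ ≤ T ^ (1 + ε) := Real.one_le_rpow hT (by linarith)
    have hb2 : ‖1 - Complex.exp (-(y * z))‖ ≤ 3 / 2 * |y| * Real.exp (3 / 2 * |y|) := by
      have h1 := norm_exp_sub_one_le' (-(y * z))
      rw [norm_sub_rev]
      have h2 : ‖-((y : ℂ) * z)‖ ≤ 3 / 2 * |y| := by
        rw [norm_neg, norm_mul, Complex.norm_real, Real.norm_eq_abs, mul_comm]
        exact mul_le_mul_of_nonneg_right hznorm (abs_nonneg _)
      refine h1.trans ?_
      exact mul_le_mul h2 (Real.exp_le_exp.2 h2) (Real.exp_pos _).le (by positivity)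
    have hb0 : ‖K.L z / z‖ ≤ |B| := (hB z hz).trans (le_abs_self _)
    exact mul_le_mul hb0 (mul_le_mul hb1 hb2 (norm_nonneg _) (by positivity))
      (by positivity) hB0
  have hfin := circleIntegral.norm_two_pi_i_inv_smul_integral_le_of_norm_le_const hρ.le hbd
  rw [smul_eq_mul] at hfin
  refine hfin.trans ?_
  have hy0 : 0 ≤ |y| := abs_nonneg _
  have he : Real.exp (3 / 2 * |y|) ≤ Real.exp (3 * |y|) := Real.exp_le_exp.2 (by linarith)
  have hP : 0 ≤ T ^ (1 + ε) * |y| * Real.exp (3 * |y|) := by positivity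
  calc ρ * (|B| * (T ^ (1 + ε) * (3 / 2 * |y| * Real.exp (3 / 2 * |y|))))
      ≤ ρ * (|B| * (T ^ (1 + ε) * (3 / 2 * |y| * Real.exp (3 * |y|)))) := by gcongr
    _ = (ρ * (3 / 2)) * (|B| * (T ^ (1 + ε) * |y| * Real.exp (3 * |y|))) := by ring
    _ ≤ 1 * (|B| * (T ^ (1 + ε) * |y| * Real.exp (3 * |y|))) := by
        apply mul_le_mul_of_nonneg_right (by linarith) (by positivity)
    _ ≤ (|B| + 1) * T ^ (1 + ε) * |y| * Real.exp (3 * |y|) := by
        have : (|B| + 1) * T ^ (1 + ε) * |y| * Real.exp (3 * |y|) =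
          |B| * (T ^ (1 + ε) * |y| * Real.exp (3 * |y|)) +
            T ^ (1 + ε) * |y| * Real.exp (3 * |y|) := by ring
        rw [this]
        linarith

end WYL
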