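import Pool.Agent.HYM.Apx
import Pool.Agent.WYL.Smr

set_option autoImplicit false

/-!
# WYL/Smo: pointwise smoothing error

`EV_eq` (HYM/EVq): `EV V x = ∫ kV V y * E (x e^(-y)) dy`, `∫ kV V = 1` (kV_integral). For `0 < x ≤ T` and all real `y`
`‖E x - E (x e^(-y))‖ ≤ C T^ε (1 + T |y|) e^((3+ε) |y|)`; then `kV_exp_integrable`, scaling (`Ka`).
(S) `‖S u - S v‖ ≤ C u^ε (u - v + 1)` for `v ≤ u` from `‖f n‖ ≤ C n^ε`; (res) `res_small`.
-/

open Complex MeasureTheory

namespace WYL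

open HYM

namespace Smo

theorem S_step (K : Sel) {ε : ℝ} (hε : 0 < ε) : ∃ C : ℝ, 0 < C ∧ ∀ u v : ℝ, 0 ≤ v → v ≤ u →
    ‖K.S u - K.S v‖ ≤ C * u ^ ε * (u - v + 1) := by
  obtain ⟨C, hC⟩ := K.ram ε hε
  refine ⟨|C| + 1, by positivity, fun u v hv hvu => ?_⟩
  have hu : 0 ≤ u := hv.trans hvu
  have hfl : ⌊v⌋₊ ≤ ⌊u⌋₊ := Nat.floor_mono hvu
  have hsub : Finset.Icc 1 ⌊v⌋₊ ⊆ Finset.Icc 1 ⌊u⌋₊ := Finset.Icc_subset_Icc_right hfl
  have h1 : K.S u - K.S v = ∑ n ∈ Finset.Icc 1 ⌊u⌋₊ \ Finset.Icc 1 ⌊v⌋₊, K.f n := by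
    unfold Sel.S
    rw [← Finset.sum_sdiff hsub, add_sub_cancel_right]
  have hcard : ((Finset.Icc 1 ⌊u⌋₊ \ Finset.Icc 1 ⌊v⌋₊).card : ℝ) ≤ u - v + 1 := by
    rw [Finset.card_sdiff_of_subset hsub, Nat.card_Icc, Nat.card_Icc, Nat.add_sub_cancel,
      Nat.add_sub_cancel, Nat.cast_sub hfl]
    have a1 := Nat.floor_le hu
    have a2 := Nat.lt_floor_add_one v
    linarith
  have hterm : ∀ n ∈ Finset.Icc 1 ⌊u⌋₊ \ Finset.Icc 1 ⌊v⌋₊, ‖K.f n‖ ≤ (|C| + 1) * u ^ ε := by
    intro n hn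
    rw [Finset.mem_sdiff, Finset.mem_Icc] at hn
    have hn1 : 1 ≤ n := hn.1.1
    have hnu : (n : ℝ) ≤ u := (Nat.cast_le.2 hn.1.2).trans (Nat.floor_le hu)
    have hp : (n : ℝ) ^ ε ≤ u ^ ε := Real.rpow_le_rpow (by positivity) hnu hε.le
    have hC1 : C ≤ |C| + 1 := (le_abs_self C).trans (by linarith)
    have hn0 : 0 ≤ (n : ℝ) ^ ε := by positivity
    calc ‖K.f n‖ ≤ C * (n : ℝ) ^ ε := hC n hn1
      _ ≤ (|C| + 1) * (n : ℝ) ^ ε := mul_le_mul_of_nonneg_right hC1 hn0
      _ ≤ (|C| + 1) * u ^ ε := mul_le_mul_of_nonneg_left hp (by positivity)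
  rw [h1]
  refine (norm_sum_le _ _).trans ((Finset.sum_le_sum hterm).trans ?_)
  rw [Finset.sum_const, nsmul_eq_mul, mul_comm]
  exact mul_le_mul_of_nonneg_left hcard (by positivity)

theorem one_sub_exp_le (t : ℝ) : 1 - Real.exp (-t) ≤ t := by
  have := Real.add_one_le_exp (-t)
  linarith

theorem exp_sub_one_le (t : ℝ) : Real.exp t - 1 ≤ t * Real.exp t := by
  have h1 := one_sub_exp_le t
  have h2 : (1 - Real.exp (-t)) * Real.exp t ≤ t * Real.exp t :=
    mul_le_mul_of_nonneg_right h1 (Real.exp_pos t).le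
  rw [sub_mul, ← Real.exp_add, neg_add_cancel, Real.exp_zero, one_mul] at h2
  exact h2

theorem S_shift (K : Sel) {ε : ℝ} (hε : 0 < ε) : ∃ C : ℝ, 0 < C ∧ ∀ T : ℝ, 1 ≤ T →
    ∀ x : ℝ, 0 < x → x ≤ T → ∀ y : ℝ, ‖K.S x - K.S (x * Real.exp (-y))‖ ≤
      C * T ^ ε * (1 + T * |y|) * Real.exp ((3 + ε) * |y|) := by
  obtain ⟨C, hC, hS⟩ := S_step K hε
  refine ⟨C, hC, fun T hT x hx hxT y => ?_⟩
  have hT0 : 0 < T := by linarith
  have hxe : x ^ ε ≤ T ^ ε := Real.rpow_le_rpow hx.le hxT hε.le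
  have hTe : 0 < T ^ ε := by positivity
  have hbig : 1 ≤ Real.exp ((3 + ε) * |y|) := Real.one_le_exp (by positivity)
  rcases le_total 0 y with hy | hy
  · have hv : x * Real.exp (-y) ≤ x := by
      have : Real.exp (-y) ≤ 1 := Real.exp_le_one_iff.2 (by linarith)
      nlinarith
    have h1 := hS x (x * Real.exp (-y)) (by positivity) hv
    have h2 : x - x * Real.exp (-y) + 1 ≤ 1 + T * |y| := by
      rw [abs_of_nonneg hy]
      have h3 := one_sub_exp_le y
      have h4 : x * (1 - Real.exp (-y)) ≤ x * y := mul_le_mul_of_nonneg_left h3 hx.le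
      have h5 : x * y ≤ T * y := mul_le_mul_of_nonneg_right hxT hy
      nlinarith
    have h3 : 0 ≤ x - x * Real.exp (-y) + 1 := by linarith
    calc _ ≤ C * x ^ ε * (x - x * Real.exp (-y) + 1) := h1
      _ ≤ C * T ^ ε * (1 + T * |y|) := by
          apply mul_le_mul _ h2 h3 (by positivity)
          exact mul_le_mul_of_nonneg_left hxe hC.le
      _ ≤ C * T ^ ε * (1 + T * |y|) * Real.exp ((3 + ε) * |y|) :=
          le_mul_of_one_le_right (by positivity) hbig
  · have hay : |y| = -y := abs_of_nonpos hy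
    have hv : x ≤ x * Real.exp (-y) := by
      have : 1 ≤ Real.exp (-y) := Real.one_le_exp (by linarith)
      nlinarith
    have h1 := hS (x * Real.exp (-y)) x hx.le hv
    rw [norm_sub_rev] at h1
    rw [← hay] at h1 hv ⊢
    have h2 : x * Real.exp |y| - x + 1 ≤ (1 + T * |y|) * Real.exp |y| := by
      have h3 := exp_sub_one_le |y|
      have h4 : x * (Real.exp |y| - 1) ≤ x * (|y| * Real.exp |y|) :=
        mul_le_mul_of_nonneg_left h3 hx.le
      have h5 : x * (|y| * Real.exp |y|) ≤ T * (|y| * Real.exp |y|) :=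
        mul_le_mul_of_nonneg_right hxT (by positivity)
      have h6 : 1 ≤ Real.exp |y| := Real.one_le_exp (abs_nonneg y)
      nlinarith
    have h3 : 0 ≤ x * Real.exp |y| - x + 1 := by linarith
    have h4 : (x * Real.exp |y|) ^ ε ≤ T ^ ε * Real.exp (ε * |y|) := by
      rw [Real.mul_rpow hx.le (Real.exp_pos _).le, ← Real.exp_mul, mul_comm |y| ε]
      exact mul_le_mul_of_nonneg_right hxe (Real.exp_pos _).le
    have h5 : Real.exp (ε * |y|) * Real.exp |y| ≤ Real.exp ((3 + ε) * |y|) := by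
      rw [← Real.exp_add]
      apply Real.exp_le_exp.2
      nlinarith [abs_nonneg y]
    calc _ ≤ C * (x * Real.exp |y|) ^ ε * (x * Real.exp |y| - x + 1) := h1
      _ ≤ C * (T ^ ε * Real.exp (ε * |y|)) * ((1 + T * |y|) * Real.exp |y|) := by
          apply mul_le_mul _ h2 h3 (by positivity)
          exact mul_le_mul_of_nonneg_left h4 hC.le
      _ = C * T ^ ε * (1 + T * |y|) * (Real.exp (ε * |y|) * Real.exp |y|) := by ring
      _ ≤ _ := mul_le_mul_of_nonneg_left h5 (by positivity)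

theorem E_shift (K : Sel) {ε : ℝ} (hε : 0 < ε) : ∃ C : ℝ, 0 < C ∧ ∀ T : ℝ, 1 ≤ T →
    ∀ x : ℝ, 0 < x → x ≤ T → ∀ y : ℝ, ‖K.E x - K.E (x * Real.exp (-y))‖ ≤
      C * T ^ ε * (1 + T * |y|) * Real.exp ((3 + ε) * |y|) := by
  obtain ⟨C₁, hC₁, h1⟩ := S_shift K hε
  obtain ⟨C₂, hC₂, h2⟩ := res_small K hε
  refine ⟨C₁ + C₂, by positivity, fun T hT x hx hxT y => ?_⟩
  have hT0 : 0 < T := by linarith
  have e : K.E x - K.E (x * Real.exp (-y)) = (K.S x - K.S (x * Real.exp (-y))) -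
      (K.res x - K.res (x * Real.exp (-y))) := by
    unfold Sel.E
    ring
  rw [e]
  refine (norm_sub_le _ _).trans ?_
  have h3 := h1 T hT x hx hxT y
  have h4 := h2 T hT x hx hxT y
  have h5 : C₂ * T ^ (1 + ε) * |y| * Real.exp (3 * |y|) ≤
      C₂ * T ^ ε * (1 + T * |y|) * Real.exp ((3 + ε) * |y|) := by
    rw [Real.rpow_add hT0, Real.rpow_one]
    have h6 : Real.exp (3 * |y|) ≤ Real.exp ((3 + ε) * |y|) := by
      apply Real.exp_le_exp.2
      nlinarith [abs_nonneg y]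
    calc C₂ * (T * T ^ ε) * |y| * Real.exp (3 * |y|)
        = C₂ * T ^ ε * (T * |y|) * Real.exp (3 * |y|) := by ring
      _ ≤ C₂ * T ^ ε * (1 + T * |y|) * Real.exp ((3 + ε) * |y|) := by
          apply mul_le_mul _ h6 (Real.exp_pos _).le (by positivity)
          apply mul_le_mul_of_nonneg_left _ (by positivity)
          linarith
  calc _ ≤ C₁ * T ^ ε * (1 + T * |y|) * Real.exp ((3 + ε) * |y|) +
        C₂ * T ^ ε * (1 + T * |y|) * Real.exp ((3 + ε) * |y|) := add_le_add h3 (h4.trans h5)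
    _ = _ := by ring

end Smo

open Smo in
theorem E_smooth (K : Sel) {ε : ℝ} (hε : 0 < ε) : ∃ C : ℝ, 0 < C ∧ ∀ T : ℝ, 1 ≤ T →
    ∀ V : ℝ, 1 ≤ V → ∀ x : ℝ, 0 < x → x ≤ T →
      ‖K.E x - K.EV V x‖ ≤ C * T ^ ε * (1 + T / V) := by
  obtain ⟨C, hC, hE⟩ := E_shift K hε
  obtain ⟨b, hb⟩ : ∃ b : ℝ, 3 + ε = b := ⟨_, rfl⟩
  have hb0 : 0 < b := by rw [← hb]; positivity
  have hKa := Ka_nonneg (1 + b)
  refine ⟨C * (Ka (1 + b) + 1), by positivity, fun T hT V hV x hx hxT => ?_⟩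
  have hV0 : 0 < V := by linarith
  have hT0 : 0 < T := by linarith
  have hint : Integrable fun y : ℝ => (kV V y : ℂ) * K.E (x * Real.exp (-y)) := by
    refine ((EVq_int_S K hV0 hx).sub (EVq_int_res K hV0 hx)).congr
      (Filter.Eventually.of_forall fun y => ?_)
    simp only [Pi.sub_apply]
    rw [Sel.E]
    ring
  have hintc : Integrable fun y : ℝ => (kV V y : ℂ) * K.E x :=
    ((kV_integrable hV0).ofReal).mul_const _
  have h1 : ∫ y : ℝ, (kV V y : ℂ) * K.E x = K.E x := by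
    rw [integral_mul_const, integral_complex_ofReal, kV_integral hV0, Complex.ofReal_one, one_mul]
  have h2 : K.E x - K.EV V x = ∫ y : ℝ, (kV V y : ℂ) * (K.E x - K.E (x * Real.exp (-y))) := by
    have h3 : ∀ y : ℝ, (kV V y : ℂ) * (K.E x - K.E (x * Real.exp (-y))) =
        (kV V y : ℂ) * K.E x - (kV V y : ℂ) * K.E (x * Real.exp (-y)) := fun y => by ring
    simp only [h3]
    rw [integral_sub hintc hint, h1, ← EV_eq K hV0 hx]
  rw [h2]
  have hbound : Integrable fun y : ℝ => C * T ^ ε * (1 + T / V) *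
      (kV V y * Real.exp ((1 + b) * V * |y|)) :=
    (kV_exp_integrable hV0 ((1 + b) * V)).const_mul _
  refine (norm_integral_le_of_norm_le hbound (Filter.Eventually.of_forall fun y => ?_)).trans ?_
  · rw [norm_mul, Complex.norm_real, Real.norm_eq_abs, abs_of_pos (kV_pos hV0 y)]
    have h3 := hE T hT x hx hxT y
    rw [hb] at h3
    have h4 : (1 + T * |y|) * Real.exp (b * |y|) ≤ (1 + T / V) * Real.exp ((1 + b) * V * |y|) := by
      have a1 : 1 + T * |y| ≤ (1 + T / V) * (1 + V * |y|) := by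
        have e1 : (1 + T / V) * (1 + V * |y|) = 1 + V * |y| + T / V + T * |y| := by
          field_simp
          ring
        rw [e1]
        have : 0 ≤ V * |y| := by positivity
        have : 0 ≤ T / V := by positivity
        linarith
      have a2 : 1 + V * |y| ≤ Real.exp (V * |y|) := by
        have := Real.add_one_le_exp (V * |y|)
        linarith
      have a3 : Real.exp (b * |y|) ≤ Real.exp (b * V * |y|) := by
        apply Real.exp_le_exp.2
        have : b * |y| ≤ b * |y| * V := le_mul_of_one_le_right (by positivity) hV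
        linarith
      calc (1 + T * |y|) * Real.exp (b * |y|)
          ≤ ((1 + T / V) * Real.exp (V * |y|)) * Real.exp (b * V * |y|) := by
            apply mul_le_mul _ a3 (Real.exp_pos _).le (by positivity)
            exact a1.trans (mul_le_mul_of_nonneg_left a2 (by positivity))
        _ = (1 + T / V) * Real.exp ((1 + b) * V * |y|) := by
            rw [mul_assoc, ← Real.exp_add]
            congr 2
            ring
    calc kV V y * ‖K.E x - K.E (x * Real.exp (-y))‖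
        ≤ kV V y * (C * T ^ ε * (1 + T * |y|) * Real.exp (b * |y|)) :=
          mul_le_mul_of_nonneg_left h3 (kV_pos hV0 y).le
      _ = C * T ^ ε * kV V y * ((1 + T * |y|) * Real.exp (b * |y|)) := by ring
      _ ≤ C * T ^ ε * kV V y * ((1 + T / V) * Real.exp ((1 + b) * V * |y|)) := by
          have := (kV_pos hV0 y).le
          exact mul_le_mul_of_nonneg_left h4 (by positivity)
      _ = _ := by ring
  · rw [integral_const_mul, kV_scale hV0 (1 + b)]
    have h5 : (∫ u : ℝ, kV 1 u * Real.exp ((1 + b) * |u|)) = Ka (1 + b) := rfl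
    rw [h5]
    have h6 : 0 < C * T ^ ε * (1 + T / V) := by positivity
    nlinarith

end WYL
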