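import Pool.Agent.WYL.Fm

set_option autoImplicit false

/-!
# WYL/Ltw: the part of the error term of degree 2 above the height `2^k` in mean square

Plan: `D x = F.EV V x - F.EV (2^k) x = vint (1/2) f x`, `f t = F.Lam V t - F.Lam (2^k) t`. With
`f* t = conj (f (-t))` one has `vint (1/2) f* x = conj (vint (1/2) f x)` for `x > 0`, so
`∫_0^T ‖D‖^2 = ∫_0^T vint f * vint f*`, and `HYM.bilin (c₁ := 1/2) (c₂ := 1/2) (p := 0) (δ := η)`
with `Lam_diff` gives `∫_0^T ‖D‖^2 ≤ C T^2 (2^k)^(-1) V^(3η)`. Cauchy-Schwarz in `x` gives the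
statement.
-/

open Complex MeasureTheory

namespace WYL

open HYM

private theorem EV_dif (F : Sel) (hF : F.deg ≤ 2) {V : ℝ} (hV : 1 ≤ V) (k : ℕ) {x : ℝ}
    (hx : 0 < x) :
    F.EV V x - F.EV (2 ^ k) x = vint (1 / 2) (fun t => F.Lam V t - F.Lam (2 ^ k) t) x := by
  have e1 : F.EV V x = vint (1 / 2) (F.Lam V) x := rfl
  have e2 : F.EV (2 ^ k) x = vint (1 / 2) (F.Lam (2 ^ k)) x := rfl
  have h2k : (1 : ℝ) ≤ 2 ^ k := one_le_pow₀ (by norm_num)
  rw [e1, e2]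
  unfold vint
  rw [← mul_sub, ← integral_sub (bil_integrable (Lam_int F hF hV) hx)
    (bil_integrable (Lam_int F hF h2k) hx)]
  congr 1
  refine integral_congr_ae (Filter.Eventually.of_forall fun t => ?_)
  simp only
  ring

private theorem vint_conj (c : ℝ) (f : ℝ → ℂ) {x : ℝ} (hx : 0 < x) :
    vint c (fun t => (starRingEnd ℂ) (f (-t))) x = (starRingEnd ℂ) (vint c f x) := by
  unfold vint
  rw [map_mul]
  have h1 : (starRingEnd ℂ) ((2 * (Real.pi : ℂ))⁻¹) = (2 * (Real.pi : ℂ))⁻¹ := by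
    rw [map_inv₀, map_mul, Complex.conj_ofReal]
    congr 2
    exact Complex.conj_ofNat 2
  rw [h1]
  congr 1
  rw [← integral_conj, ← integral_neg_eq_self]
  refine integral_congr_ae (Filter.Eventually.of_forall fun t => ?_)
  simp only
  rw [neg_neg, map_mul]
  congr 1
  have h2 : ln c (-t) = (starRingEnd ℂ) (ln c t) := by
    apply Complex.ext <;> simp [ln]
  rw [h2, Complex.cpow_conj _ _ (by rw [Complex.arg_ofReal_of_nonneg hx.le]; exact Real.pi_pos.ne),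
    Complex.conj_ofReal]

/-- Cauchy-Schwarz on an interval. -/
private theorem cs_interval {T : ℝ} (hT : 0 < T) {g : ℝ → ℝ} (h1 : IntervalIntegrable g volume 0 T)
    (h2 : IntervalIntegrable (fun x => g x ^ 2) volume 0 T) :
    (∫ x in (0 : ℝ)..T, g x) ^ 2 ≤ T * ∫ x in (0 : ℝ)..T, g x ^ 2 := by
  set J : ℝ := ∫ x in (0 : ℝ)..T, g x with hJ
  have h3 : 0 ≤ ∫ x in (0 : ℝ)..T, (g x - J / T) ^ 2 :=
    intervalIntegral.integral_nonneg hT.le fun x _ => sq_nonneg _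
  have h4 : ∫ x in (0 : ℝ)..T, (g x - J / T) ^ 2 =
      (∫ x in (0 : ℝ)..T, g x ^ 2) - 2 * (J / T) * J + T * (J / T) ^ 2 := by
    have e : ∀ x ∈ Set.uIcc 0 T, (g x - J / T) ^ 2 =
        g x ^ 2 - 2 * (J / T) * g x + (J / T) ^ 2 := fun x _ => by ring
    rw [intervalIntegral.integral_congr e, intervalIntegral.integral_add
      (h2.sub (h1.const_mul _)) intervalIntegrable_const,
      intervalIntegral.integral_sub h2 (h1.const_mul _), intervalIntegral.integral_const_mul,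
      intervalIntegral.integral_const, ← hJ]
    simp
  rw [h4] at h3
  have h5 : 2 * (J / T) * J - T * (J / T) ^ 2 = J ^ 2 / T := by
    field_simp
    ring
  have h6 : J ^ 2 / T ≤ ∫ x in (0 : ℝ)..T, g x ^ 2 := by linarith
  rw [div_le_iff₀ hT] at h6
  linarith

theorem EV_tail (F : Sel) (hF : F.deg ≤ 2) {η : ℝ} (hη : 0 < η) : ∃ C : ℝ, 0 < C ∧
    ∀ V : ℝ, 1 ≤ V → ∀ k : ℕ, (2 : ℝ) ^ k ≤ V → ∀ T : ℝ, 1 ≤ T →
      IntervalIntegrable (fun x => F.EV V x - F.EV (2 ^ k) x) volume 0 T ∧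
      ∫ x in (0 : ℝ)..T, ‖F.EV V x - F.EV (2 ^ k) x‖ ≤
        C * (T ^ (3 / 2 : ℝ) * √(((2 : ℝ) ^ k)⁻¹)) * V ^ (2 * η) := by
  obtain ⟨A, hA, HA⟩ := bilin (c₁ := 1 / 2) (c₂ := 1 / 2) (p := 0) (δ := η) (by norm_num)
    (by norm_num) hη
  obtain ⟨B, hB, HB⟩ := Lam_diff F hF hη.le hη
  refine ⟨√(A * B), by positivity, fun V hV k hk T hT => ?_⟩
  have hT0 : 0 < T := by linarith
  have hV0 : 0 < V := by linarith
  set U : ℝ := 2 ^ k with hUd
  have hU : 1 ≤ U := one_le_pow₀ (by norm_num)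
  have hU0 : 0 < U := by linarith
  obtain ⟨jd, bd⟩ := HB V hV k hk
  set f : ℝ → ℂ := fun t => F.Lam V t - F.Lam (2 ^ k) t with hf
  set g : ℝ → ℂ := fun t => (starRingEnd ℂ) (f (-t)) with hg
  have iff' : Integrable f := (Lam_int F hF hV).sub (Lam_int F hF hU)
  have igg : Integrable g := by
    have h1 : Integrable (fun t : ℝ => f (-t)) := iff'.comp_neg
    exact (Complex.conjCLE : ℂ →L[ℝ] ℂ).integrable_comp h1
  have m1 : IntervalIntegrable (vint (1 / 2) f) volume 0 T := vint_ii (by norm_num) hT0.le iff'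
  have m2 := vint_mul_ii (c₁ := 1 / 2) (c₂ := 1 / 2) (T := T) (by norm_num) hT0.le iff' igg
  have hEV : ∀ x ∈ Set.uIoc 0 T, vint (1 / 2) f x = F.EV V x - F.EV U x := by
    intro x hx
    rw [Set.uIoc_of_le hT0.le] at hx
    rw [hf, hUd, ← EV_dif F hF hV k hx.1]
  refine ⟨m1.congr hEV, ?_⟩
  have hprod : ∀ x ∈ Set.uIoc 0 T, vint (1 / 2) f x * vint (1 / 2) g x =
      ((‖vint (1 / 2) f x‖ ^ 2 : ℝ) : ℂ) := by
    intro x hx
    rw [Set.uIoc_of_le hT0.le] at hx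
    rw [hg, vint_conj _ _ hx.1, Complex.mul_conj, Complex.normSq_eq_norm_sq]
  have m3 : IntervalIntegrable (fun x => ((‖vint (1 / 2) f x‖ ^ 2 : ℝ) : ℂ)) volume 0 T :=
    m2.congr hprod
  have m4 : IntervalIntegrable (fun x => ‖vint (1 / 2) f x‖ ^ 2) volume 0 T := by
    have := m3.norm
    refine this.congr fun x _ => ?_
    rw [Complex.norm_real, Real.norm_of_nonneg (by positivity)]
  have m5 : IntervalIntegrable (fun x => ‖vint (1 / 2) f x‖) volume 0 T := m1.norm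
  have e1 : (2 : ℝ) * 0 + 2 * η = 2 * η := by ring
  have e2 : -((2 : ℝ) * 0) + 2 * η = 2 * η := by ring
  have e3 : (1 : ℝ) + 1 / 2 + 1 / 2 = 2 := by norm_num
  have hneg : (fun t : ℝ => (1 + |t|) ^ (2 * η) * ‖g t‖ ^ 2) =
      fun t : ℝ => (fun s : ℝ => (1 + |s|) ^ (2 * η) * ‖f s‖ ^ 2) (-t) := by
    funext t
    simp only [hg, abs_neg, RCLike.norm_conj]
  have jd' : Integrable (fun t : ℝ => (1 + |t|) ^ (2 * η) * ‖g t‖ ^ 2) := by
    rw [hneg]
    exact jd.comp_neg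
  have bd' : ∫ t : ℝ, (1 + |t|) ^ (2 * η) * ‖g t‖ ^ 2 =
      ∫ t : ℝ, (1 + |t|) ^ (2 * η) * ‖f t‖ ^ 2 := by
    rw [hneg]
    exact integral_neg_eq_self (fun s : ℝ => (1 + |s|) ^ (2 * η) * ‖f s‖ ^ 2) volume
  have h := HA T hT0 f g iff' igg (by rw [e1]; exact jd) (by rw [e2]; exact jd')
  rw [e1, e2, e3, bd'] at h
  have hA0 : 0 ≤ ∫ t : ℝ, (1 + |t|) ^ (2 * η) * ‖f t‖ ^ 2 :=
    integral_nonneg fun t => by positivity
  rw [mul_assoc (A * T ^ (2 : ℝ)), Real.mul_self_sqrt hA0] at h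
  have hS : ‖∫ x in (0 : ℝ)..T, vint (1 / 2) f x * vint (1 / 2) g x‖ =
      ∫ x in (0 : ℝ)..T, ‖vint (1 / 2) f x‖ ^ 2 := by
    rw [intervalIntegral.integral_congr_ae (Filter.Eventually.of_forall hprod),
      intervalIntegral.integral_ofReal, Complex.norm_real, Real.norm_of_nonneg]
    exact intervalIntegral.integral_nonneg hT0.le fun x _ => by positivity
  rw [hS] at h
  have hJ : ∫ x in (0 : ℝ)..T, ‖F.EV V x - F.EV U x‖ =
      ∫ x in (0 : ℝ)..T, ‖vint (1 / 2) f x‖ := by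
    refine intervalIntegral.integral_congr_ae (Filter.Eventually.of_forall fun x hx => ?_)
    rw [hEV x hx]
  rw [hJ]
  have hcs := cs_interval hT0 m5 m4
  have h7 : (∫ x in (0 : ℝ)..T, ‖vint (1 / 2) f x‖) ^ 2 ≤
      (√(A * B) * (T ^ (3 / 2 : ℝ) * √(U⁻¹)) * V ^ (2 * η)) ^ 2 := by
    have e4 : (T ^ (3 / 2 : ℝ)) ^ 2 = T * T ^ (2 : ℝ) := by
      rw [← Real.rpow_natCast, ← Real.rpow_mul hT0.le]
      nth_rewrite 2 [← Real.rpow_one T]
      rw [← Real.rpow_add hT0]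
      norm_num
    have e5 : V ^ (2 * η + η) ≤ (V ^ (2 * η)) ^ 2 := by
      rw [← Real.rpow_natCast, ← Real.rpow_mul hV0.le]
      refine Real.rpow_le_rpow_of_exponent_le hV ?_
      push_cast
      linarith
    calc _ ≤ T * ∫ x in (0 : ℝ)..T, ‖vint (1 / 2) f x‖ ^ 2 := hcs
      _ ≤ T * (A * T ^ (2 : ℝ) * (B * U⁻¹ * V ^ (2 * η + η))) := by
          refine mul_le_mul_of_nonneg_left (h.trans ?_) hT0.le
          exact mul_le_mul_of_nonneg_left bd (by positivity)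
      _ = (A * B) * (T * T ^ (2 : ℝ)) * U⁻¹ * V ^ (2 * η + η) := by ring
      _ ≤ (A * B) * (T * T ^ (2 : ℝ)) * U⁻¹ * (V ^ (2 * η)) ^ 2 :=
          mul_le_mul_of_nonneg_left e5 (by positivity)
      _ = _ := by
          rw [mul_pow, mul_pow, mul_pow, Real.sq_sqrt (by positivity), Real.sq_sqrt (by positivity),
            e4]
          ring
  exact le_of_sq_le_sq h7 (by positivity)

end WYL
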