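import Pool.Agent.HYM.Ms

set_option autoImplicit false

/-!
# WYL/Ms3: the mean square on the critical line for the degree at most 3

The proof of `HYM.ms_dyadic` (HYM/Ms.lean, degree at most 2) with the approximate functional
equation `HYM.afe` (valid for every degree) at the length `U = 2^L`, `L = (3K+1)/2`, in place of `2^K`; the Gaussian
weight keeps the width `T = 2^K`, `T^(3/2) ≤ U ≤ 2 T^(3/2)`. `Jop_ms` for a weight of width `T` and a length `U`: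
`‖Jop σ U G t‖ = (U/T)^σ ‖Jop σ T G' t‖`, `G' τ = G τ (U/T)^(iτ)`. The four parts are
`U^(1+4ε)`, `U^(1+4ε)`, `U^(1-2ε) T^(6ε)`, `T^(3+6ε) U^(-1-2ε)`, all `≤ C T^(3/2+6ε)`.
-/

open Complex MeasureTheory

namespace WYL

open HYM

private theorem ln_cont (c : ℝ) : Continuous (fun t : ℝ => ln c t) := by
  unfold ln
  fun_prop

private theorem ddir_norm (a : ℕ → ℂ) {c d : ℝ} (h : d = 1 - c) (t : ℝ) :
    ‖ddir a (ln c t)‖ = ‖dsum a (ln d t)‖ := by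
  have h1 : 1 - (starRingEnd ℂ) (ln c t) = ln d t := by
    rw [h]
    apply Complex.ext <;> simp [ln]
  unfold ddir
  rw [RCLike.norm_conj, h1]

private theorem ddir_cont (a : ℕ → ℂ) {c d : ℝ} (h : d = 1 - c)
    (hd : Continuous (fun t : ℝ => dsum a (ln d t))) :
    Continuous (fun t : ℝ => ddir a (ln c t)) := by
  have h1 : ∀ t : ℝ, 1 - (starRingEnd ℂ) (ln c t) = ln d t := by
    intro t
    rw [h]
    apply Complex.ext <;> simp [ln]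
  unfold ddir
  simp_rw [h1]
  exact Complex.continuous_conj.comp hd

private theorem rr_cont (F : Sel) {c : ℝ} (hc : -2 < c) :
    Continuous (fun t : ℝ => F.rr (ln c t)) := by
  unfold Sel.rr
  apply Continuous.pow
  apply Continuous.div
  · exact (ln_cont c).sub continuous_const
  · exact (ln_cont c).add continuous_const
  · intro t h
    have h1 := congrArg Complex.re h
    rw [Complex.add_re, ln_re] at h1
    simp at h1
    linarith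

private theorem chi_cont (F : Sel) {c : ℝ} (hc : c < 1) :
    Continuous (fun t : ℝ => F.chi (ln c t)) :=
  (chi_diff F).continuousOn.comp_continuous (ln_cont c) fun t => by
    change (ln c t).re < 1
    rw [ln_re]
    exact hc

private theorem L_cont (F : Sel) : Continuous (fun t : ℝ => F.L (ln (1 / 2) t)) := by
  unfold Sel.L
  apply Continuous.div
  · exact F.P_diff.continuous.comp (ln_cont _)
  · exact ((ln_cont _).sub continuous_const).pow _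
  · intro t
    apply pow_ne_zero
    intro h
    have h1 := congrArg Complex.re h
    rw [Complex.sub_re, ln_re] at h1
    norm_num at h1

private theorem dom {f g : ℝ → ℝ} (hf : Continuous f) (hf0 : ∀ t, 0 ≤ f t) (hg : Integrable g)
    (hfg : ∀ t, f t ≤ g t) : Integrable f ∧ ∫ t, f t ≤ ∫ t, g t := by
  have h1 : Integrable f := hg.mono' hf.aestronglyMeasurable (by
    filter_upwards with t
    rw [Real.norm_of_nonneg (hf0 t)]
    exact hfg t)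
  exact ⟨h1, integral_mono h1 hg hfg⟩

private def MSB (U X : ℝ) (J : ℝ → ℂ) : Prop :=
  Integrable (fun t : ℝ => Real.exp (-(t / U) ^ 2) * ‖J t‖ ^ 2) ∧
    ∫ t : ℝ, Real.exp (-(t / U) ^ 2) * ‖J t‖ ^ 2 ≤ X

private theorem jop_twist {σ U T : ℝ} (hU : 0 < U) (hT : 0 < T) (G : ℝ → ℂ) (t : ℝ) :
    ‖Jop σ U G t‖ = (U / T) ^ σ *
      ‖Jop σ T (fun τ => G τ * cexp (((τ * Real.log (U / T) : ℝ) : ℂ) * I)) t‖ := by
  have hUT : 0 < U / T := by positivity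
  have hU0 : (U : ℂ) ≠ 0 := by exact_mod_cast hU.ne'
  have hT0 : (T : ℂ) ≠ 0 := by exact_mod_cast hT.ne'
  have key : ∀ v : ℝ, G (t + v) * cexp ((((t + v) * Real.log (U / T) : ℝ) : ℂ) * I) *
      ((T : ℂ) ^ (ln σ v) * cexp ((ln σ v) ^ 2) / ln σ v) =
      (cexp (((t * Real.log (U / T) : ℝ) : ℂ) * I) * (((T / U) ^ σ : ℝ) : ℂ)) *
        (G (t + v) * ((U : ℂ) ^ (ln σ v) * cexp ((ln σ v) ^ 2) / ln σ v)) := by
    intro v
    have h1 : (T : ℂ) ^ (ln σ v) = cexp (((Real.log T : ℝ) : ℂ) * ln σ v) := by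
      rw [Complex.cpow_def_of_ne_zero hT0, ← Complex.ofReal_log hT.le]
    have h2 : (U : ℂ) ^ (ln σ v) = cexp (((Real.log U : ℝ) : ℂ) * ln σ v) := by
      rw [Complex.cpow_def_of_ne_zero hU0, ← Complex.ofReal_log hU.le]
    have h3 : (((T / U) ^ σ : ℝ) : ℂ) = cexp (((Real.log T - Real.log U : ℝ) : ℂ) * σ) := by
      rw [Real.rpow_def_of_pos (by positivity), Real.log_div hT.ne' hU.ne']
      push_cast
      ring_nf
    have h4 : cexp ((((t + v) * Real.log (U / T) : ℝ) : ℂ) * I) *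
        cexp (((Real.log T : ℝ) : ℂ) * ln σ v) =
        cexp (((t * Real.log (U / T) : ℝ) : ℂ) * I) *
          cexp (((Real.log T - Real.log U : ℝ) : ℂ) * σ) *
          cexp (((Real.log U : ℝ) : ℂ) * ln σ v) := by
      rw [← Complex.exp_add, ← Complex.exp_add, ← Complex.exp_add]
      congr 1
      rw [Real.log_div hU.ne' hT.ne']
      unfold ln
      push_cast
      ring
    rw [h1, h2, h3]
    calc G (t + v) * cexp ((((t + v) * Real.log (U / T) : ℝ) : ℂ) * I) *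
          (cexp (((Real.log T : ℝ) : ℂ) * ln σ v) * cexp ((ln σ v) ^ 2) / ln σ v)
        = (cexp ((((t + v) * Real.log (U / T) : ℝ) : ℂ) * I) *
          cexp (((Real.log T : ℝ) : ℂ) * ln σ v)) *
          (G (t + v) * (cexp ((ln σ v) ^ 2) / ln σ v)) := by ring
      _ = _ := by rw [h4]; ring
  have h5 : Jop σ T (fun τ => G τ * cexp (((τ * Real.log (U / T) : ℝ) : ℂ) * I)) t =
      (cexp (((t * Real.log (U / T) : ℝ) : ℂ) * I) * (((T / U) ^ σ : ℝ) : ℂ)) * Jop σ U G t := by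
    unfold Jop
    simp_rw [key]
    rw [integral_const_mul]
    ring
  rw [h5, norm_mul, norm_mul, Complex.norm_exp_ofReal_mul_I, one_mul, Complex.norm_real,
    Real.norm_of_nonneg (by positivity), ← mul_assoc, ← Real.mul_rpow hUT.le (by positivity)]
  have : U / T * (T / U) = 1 := by field_simp
  rw [this, Real.one_rpow, one_mul]

private theorem jop_ms2 {σ : ℝ} (hσ : σ ≠ 0) : ∃ C : ℝ, 0 < C ∧ ∀ U T : ℝ, 0 < U → 2 ≤ T →
    ∀ G : ℝ → ℂ,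
    Continuous G → Integrable (fun t : ℝ => Real.exp (-(t / T) ^ 2 / 2) * ‖G t‖ ^ 2) →
    Integrable (fun t : ℝ => Real.exp (-(t / T) ^ 2) * ‖Jop σ U G t‖ ^ 2) ∧
    ∫ t : ℝ, Real.exp (-(t / T) ^ 2) * ‖Jop σ U G t‖ ^ 2 ≤
      C * U ^ (2 * σ) * ∫ t : ℝ, Real.exp (-(t / T) ^ 2 / 2) * ‖G t‖ ^ 2 := by
  obtain ⟨C, hC, h⟩ := Jop_ms hσ
  refine ⟨C, hC, fun U T hU hT G hG hI => ?_⟩
  have hT0 : 0 < T := by linarith
  set G' : ℝ → ℂ := fun τ => G τ * cexp (((τ * Real.log (U / T) : ℝ) : ℂ) * I) with hG'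
  have hGn : ∀ τ, ‖G' τ‖ = ‖G τ‖ := by
    intro τ
    rw [hG']
    simp only [norm_mul]
    rw [Complex.norm_exp_ofReal_mul_I, mul_one]
  have hGc : Continuous G' := by
    rw [hG']
    fun_prop
  have hI' : Integrable (fun t : ℝ => Real.exp (-(t / T) ^ 2 / 2) * ‖G' t‖ ^ 2) := by
    simp_rw [hGn]
    exact hI
  obtain ⟨h1, h2⟩ := h T hT G' hGc hI'
  have hJ : ∀ t, ‖Jop σ U G t‖ = (U / T) ^ σ * ‖Jop σ T G' t‖ := fun t => jop_twist hU hT0 G t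
  have hf : (fun t : ℝ => Real.exp (-(t / T) ^ 2) * ‖Jop σ U G t‖ ^ 2) =
      fun t : ℝ => ((U / T) ^ σ) ^ 2 * (Real.exp (-(t / T) ^ 2) * ‖Jop σ T G' t‖ ^ 2) := by
    funext t
    rw [hJ t]
    ring
  rw [hf]
  refine ⟨h1.const_mul _, ?_⟩
  rw [integral_const_mul]
  have h3 := mul_le_mul_of_nonneg_left h2 (sq_nonneg ((U / T) ^ σ))
  refine h3.trans (le_of_eq ?_)
  simp_rw [hGn]
  have h4 : ((U / T) ^ σ) ^ 2 * T ^ (2 * σ) = U ^ (2 * σ) := by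
    rw [← Real.rpow_natCast ((U / T) ^ σ) 2, ← Real.rpow_mul (by positivity),
      show σ * ((2 : ℕ) : ℝ) = 2 * σ by push_cast; ring, ← Real.mul_rpow (by positivity) hT0.le]
    congr 1
    field_simp
  rw [← h4]
  ring

private theorem direct_core {σ : ℝ} (hσ : σ ≠ 0) : ∃ C : ℝ, 0 < C ∧ ∀ U T : ℝ, 0 < U → 2 ≤ T →
    ∀ G D : ℝ → ℂ, Continuous G → (∀ t, ‖G t‖ ≤ ‖D t‖) → ∀ X : ℝ,
    Integrable (fun t : ℝ => Real.exp (-(t / (√2 * T)) ^ 2) * ‖D t‖ ^ 2) →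
    ∫ t : ℝ, Real.exp (-(t / (√2 * T)) ^ 2) * ‖D t‖ ^ 2 ≤ X →
    MSB T (C * U ^ (2 * σ) * X) (Jop σ U G) := by
  obtain ⟨CJ, hCJ, hJ⟩ := jop_ms2 hσ
  refine ⟨CJ, hCJ, fun U T hU hT G D hG hGD X hI hX => ?_⟩
  have hT0 : 0 < T := by linarith
  have hexp : ∀ t : ℝ, Real.exp (-(t / T) ^ 2 / 2) = Real.exp (-(t / (√2 * T)) ^ 2) := by
    intro t
    congr 1
    have h2 : (√2 : ℝ) ^ 2 = 2 := Real.sq_sqrt (by norm_num)
    rw [div_pow, div_pow, mul_pow, h2]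
    field_simp
  obtain ⟨i1, i2⟩ := dom (f := fun t : ℝ => Real.exp (-(t / T) ^ 2 / 2) * ‖G t‖ ^ 2)
    (by fun_prop) (fun t => by positivity) hI (fun t => by
      rw [hexp t]
      have := hGD t
      gcongr)
  obtain ⟨j1, j2⟩ := hJ U T hU hT G hG i1
  refine ⟨j1, j2.trans ?_⟩
  have : 0 ≤ CJ * U ^ (2 * σ) := by positivity
  exact mul_le_mul_of_nonneg_left (i2.trans hX) this

private theorem dual_core (F : Sel) (hdeg : F.deg ≤ 3) {σ c : ℝ} (hσ : σ ≠ 0)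
    (hc : -(1 / 2) ≤ c) (hc2 : c ≤ 1 / 2) : ∃ C : ℝ, 0 < C ∧ ∀ U T : ℝ, 0 < U → 2 ≤ T →
    ∀ D : ℝ → ℂ, Continuous D → ∀ X : ℝ,
    Integrable (fun t : ℝ => Real.exp (-(t / (2 * T)) ^ 2) * ‖D t‖ ^ 2) →
    ∫ t : ℝ, Real.exp (-(t / (2 * T)) ^ 2) * ‖D t‖ ^ 2 ≤ X →
    MSB T (C * (U ^ (2 * σ) * T ^ (3 - 6 * c)) * X)
      (Jop σ U (fun τ => F.rr (ln c τ) * F.chi (ln c τ) * D τ)) := by
  obtain ⟨CJ, hCJ, hJ⟩ := jop_ms2 hσ
  obtain ⟨Cx, hCx, hx⟩ := chi_bound F c c (by linarith)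
  obtain ⟨P, hP, hp⟩ := pow_gauss (q := 3 - 6 * c) (by linarith)
  refine ⟨CJ * (Cx ^ 2 * P * 2 ^ (3 - 6 * c)), by positivity, fun U T hU hT D hD X hI hX => ?_⟩
  have hT0 : 0 < T := by linarith
  set G : ℝ → ℂ := fun τ => F.rr (ln c τ) * F.chi (ln c τ) * D τ with hGdef
  have hG : Continuous G := by
    have h1 := rr_cont F (c := c) (by linarith)
    have h2 := chi_cont F (c := c) (by linarith)
    exact (h1.mul h2).mul hD
  have hGn : ∀ t, ‖G t‖ ^ 2 ≤ Cx ^ 2 * (1 + |t|) ^ (3 - 6 * c) * ‖D t‖ ^ 2 := by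
    intro t
    have ht : 1 ≤ 1 + |t| := by linarith [abs_nonneg t]
    have ht0 : 0 < 1 + |t| := by linarith
    have h1 : ‖F.rr (ln c t)‖ ≤ 1 := rr_le F (by rw [ln_re]; exact hc)
    have h2 : ‖F.chi (ln c t)‖ ≤ Cx * (1 + |t|) ^ (3 / 2 - 3 * c) := by
      refine (hx c ⟨le_rfl, le_rfl⟩ t).trans (mul_le_mul_of_nonneg_left ?_ hCx.le)
      apply Real.rpow_le_rpow_of_exponent_le ht
      nlinarith
    have h3 : ‖G t‖ ≤ Cx * (1 + |t|) ^ (3 / 2 - 3 * c) * ‖D t‖ := by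
      rw [hGdef]
      simp only [norm_mul]
      have : ‖F.rr (ln c t)‖ * ‖F.chi (ln c t)‖ ≤ 1 * (Cx * (1 + |t|) ^ (3 / 2 - 3 * c)) :=
        mul_le_mul h1 h2 (norm_nonneg _) zero_le_one
      rw [one_mul] at this
      exact mul_le_mul_of_nonneg_right this (norm_nonneg _)
    have h4 : ((1 + |t|) ^ (3 / 2 - 3 * c)) ^ 2 = (1 + |t|) ^ (3 - 6 * c) := by
      rw [← Real.rpow_natCast, ← Real.rpow_mul ht0.le]
      congr 1
      push_cast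
      ring
    calc ‖G t‖ ^ 2 ≤ (Cx * (1 + |t|) ^ (3 / 2 - 3 * c) * ‖D t‖) ^ 2 :=
          pow_le_pow_left₀ (norm_nonneg _) h3 2
      _ = Cx ^ 2 * ((1 + |t|) ^ (3 / 2 - 3 * c)) ^ 2 * ‖D t‖ ^ 2 := by ring
      _ = _ := by rw [h4]
  have hexp : ∀ t : ℝ, Real.exp (-(t / T) ^ 2 / 2) =
      Real.exp (-(t / (2 * T)) ^ 2) * Real.exp (-(t / (2 * T)) ^ 2) := by
    intro t
    rw [← Real.exp_add]
    congr 1
    rw [div_pow, div_pow, mul_pow]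
    field_simp
    norm_num
  set A : ℝ := Cx ^ 2 * P * (2 * T) ^ (3 - 6 * c) with hA
  have hA0 : 0 < A := by positivity
  obtain ⟨i1, i2⟩ := dom (f := fun t : ℝ => Real.exp (-(t / T) ^ 2 / 2) * ‖G t‖ ^ 2)
    (by fun_prop) (fun t => by positivity) (hI.const_mul A) (fun t => by
      rw [hexp t]
      have h1 := hGn t
      have h2 := hp (2 * T) (by linarith) t
      calc Real.exp (-(t / (2 * T)) ^ 2) * Real.exp (-(t / (2 * T)) ^ 2) * ‖G t‖ ^ 2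
          ≤ Real.exp (-(t / (2 * T)) ^ 2) * Real.exp (-(t / (2 * T)) ^ 2) *
            (Cx ^ 2 * (1 + |t|) ^ (3 - 6 * c) * ‖D t‖ ^ 2) :=
            mul_le_mul_of_nonneg_left h1 (by positivity)
        _ = Cx ^ 2 * ((1 + |t|) ^ (3 - 6 * c) * Real.exp (-(t / (2 * T)) ^ 2)) *
            (Real.exp (-(t / (2 * T)) ^ 2) * ‖D t‖ ^ 2) := by ring
        _ ≤ Cx ^ 2 * (P * (2 * T) ^ (3 - 6 * c)) *
            (Real.exp (-(t / (2 * T)) ^ 2) * ‖D t‖ ^ 2) := by gcongr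
        _ = A * (Real.exp (-(t / (2 * T)) ^ 2) * ‖D t‖ ^ 2) := by rw [hA]; ring)
  rw [integral_const_mul] at i2
  obtain ⟨j1, j2⟩ := hJ U T hU hT G hG i1
  refine ⟨j1, j2.trans ?_⟩
  have h0 : 0 ≤ CJ * U ^ (2 * σ) := by positivity
  refine (mul_le_mul_of_nonneg_left (i2.trans (mul_le_mul_of_nonneg_left hX hA0.le)) h0).trans
    (le_of_eq ?_)
  rw [hA, Real.mul_rpow (by norm_num) hT0.le]
  ring

/-- the length -/
private def Ln (K : ℕ) : ℕ := (3 * K + 1) / 2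

private theorem U_bounds (K : ℕ) : ((2 : ℝ) ^ K) ^ (3 / 2 : ℝ) ≤ 2 ^ Ln K ∧
    (2 : ℝ) ^ Ln K ≤ 2 * ((2 : ℝ) ^ K) ^ (3 / 2 : ℝ) := by
  have h0 : ((2 : ℝ) ^ K) ^ (3 / 2 : ℝ) = (2 : ℝ) ^ ((K : ℝ) * (3 / 2)) := by
    rw [← Real.rpow_natCast 2 K, ← Real.rpow_mul (by norm_num)]
  have h1 : 3 * K ≤ 2 * Ln K := by unfold Ln; omega
  have h2 : 2 * Ln K ≤ 3 * K + 1 := by unfold Ln; omega
  have h1' : (3 : ℝ) * K ≤ 2 * Ln K := by exact_mod_cast h1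
  have h2' : (2 : ℝ) * Ln K ≤ 3 * K + 1 := by exact_mod_cast h2
  rw [h0, ← Real.rpow_natCast 2 (Ln K)]
  constructor
  · apply Real.rpow_le_rpow_of_exponent_le (by norm_num)
    linarith
  · calc (2 : ℝ) ^ (Ln K : ℝ) ≤ (2 : ℝ) ^ (1 + (K : ℝ) * (3 / 2)) := by
          apply Real.rpow_le_rpow_of_exponent_le (by norm_num)
          linarith
      _ = _ := by rw [Real.rpow_add (by norm_num), Real.rpow_one]

private theorem T_ge {K : ℕ} (hK : 1 ≤ K) : (2 : ℝ) ≤ 2 ^ K := by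
  calc (2 : ℝ) = 2 ^ 1 := by norm_num
    _ ≤ 2 ^ K := pow_le_pow_right₀ (by norm_num) hK

private theorem T_le_U (K : ℕ) : (2 : ℝ) ^ K ≤ 2 ^ Ln K :=
  pow_le_pow_right₀ (by norm_num) (by unfold Ln; omega)

private theorem sqrt2_bounds : 1 ≤ √(2 : ℝ) ∧ √(2 : ℝ) ≤ 2 := by
  constructor
  · rw [Real.one_le_sqrt]; norm_num
  · rw [Real.sqrt_le_left (by norm_num)]; norm_num

/-- powers of the length -/
private theorem U_pow {ε : ℝ} (hε : 0 < ε) (K : ℕ) :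
    ((2 : ℝ) ^ Ln K) ^ (1 + 4 * ε) ≤ 2 ^ (1 + 4 * ε) * ((2 : ℝ) ^ K) ^ (3 / 2 + 6 * ε) := by
  have h := (U_bounds K).2
  have hT0 : (0 : ℝ) < 2 ^ K := by positivity
  calc ((2 : ℝ) ^ Ln K) ^ (1 + 4 * ε) ≤ (2 * ((2 : ℝ) ^ K) ^ (3 / 2 : ℝ)) ^ (1 + 4 * ε) :=
        Real.rpow_le_rpow (by positivity) h (by positivity)
    _ = 2 ^ (1 + 4 * ε) * ((2 : ℝ) ^ K) ^ (3 / 2 + 6 * ε) := by
        rw [Real.mul_rpow (by norm_num) (by positivity), ← Real.rpow_mul hT0.le]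
        congr 2
        ring

private theorem ty1 (F : Sel) {ε : ℝ} (hε : 0 < ε) :
    ∃ C : ℝ, 0 < C ∧ ∀ K : ℕ, 1 ≤ K → ∀ k < Ln K,
    MSB (2 ^ K) (C * ((2 : ℝ) ^ K) ^ (3 / 2 + 6 * ε)) (Jop ε (2 ^ Ln K)
      (fun τ => F.rr (ln (1 / 2 + ε) τ) * ddir (F.blk k) (ln (1 / 2 + ε) τ))) := by
  obtain ⟨CJ, hCJ, hJ⟩ := direct_core (σ := ε) hε.ne'
  obtain ⟨CB, hCB, hB⟩ := blk_mean F (1 / 2 - ε) (2 * ε) (by positivity)
  refine ⟨CJ * (CB * 3) * 2 ^ (1 + 4 * ε), by positivity, fun K hK k hk => ?_⟩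
  have hT2 := T_ge hK
  have hTU := T_le_U K
  have hpow := U_pow hε K
  set T : ℝ := 2 ^ K with hT
  set U : ℝ := 2 ^ Ln K with hU
  have hU1 : 1 ≤ U := by linarith
  have hU0 : 0 < U := by linarith
  have hs := sqrt2_bounds
  have hkU : (2 : ℝ) ^ k ≤ U := by
    rw [hU]; exact pow_le_pow_right₀ (by norm_num) hk.le
  obtain ⟨b1, b2⟩ := hB k (√2 * T) (by nlinarith)
  have he : 1 / 2 - ε = 1 - (1 / 2 + ε) := by ring
  have hcont : Continuous (fun t : ℝ => dsum (F.blk k) (ln (1 / 2 - ε) t)) :=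
    (blk_diff F k).continuous.comp (ln_cont _)
  obtain ⟨j1, j2⟩ := hJ U T hU0 hT2 (fun τ => F.rr (ln (1 / 2 + ε) τ) *
      ddir (F.blk k) (ln (1 / 2 + ε) τ)) (fun t => dsum (F.blk k) (ln (1 / 2 - ε) t))
    ((rr_cont F (by linarith)).mul (ddir_cont _ he hcont)) (fun t => by
      rw [norm_mul, ddir_norm _ he]
      have := rr_le F (s := ln (1 / 2 + ε) t) (by rw [ln_re]; linarith)
      exact mul_le_of_le_one_left (norm_nonneg _) this) _ b1 b2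
  refine ⟨j1, j2.trans ?_⟩
  have e1 : (2 * (1 / 2 - ε) - 1 + 2 * ε : ℝ) = 0 := by ring
  rw [e1, Real.rpow_zero, mul_one]
  have h3 : √2 * T + 2 ^ k ≤ 3 * U := by nlinarith
  calc CJ * U ^ (2 * ε) * (CB * (√2 * T + 2 ^ k)) ≤ CJ * U ^ (2 * ε) * (CB * (3 * U)) := by gcongr
    _ = CJ * (CB * 3) * (U ^ (2 * ε) * U ^ (1 : ℝ)) := by rw [Real.rpow_one]; ring
    _ = CJ * (CB * 3) * U ^ (1 + 2 * ε) := by
        rw [← Real.rpow_add hU0]
        congr 2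
        ring
    _ ≤ CJ * (CB * 3) * U ^ (1 + 4 * ε) := by
        apply mul_le_mul_of_nonneg_left _ (by positivity)
        exact Real.rpow_le_rpow_of_exponent_le hU1 (by linarith)
    _ ≤ CJ * (CB * 3) * (2 ^ (1 + 4 * ε) * T ^ (3 / 2 + 6 * ε)) := by gcongr
    _ = _ := by ring

private theorem ty2 (F : Sel) {ε : ℝ} (hε : 0 < ε) :
    ∃ C : ℝ, 0 < C ∧ ∀ K : ℕ, 1 ≤ K →
    MSB (2 ^ K) (C * ((2 : ℝ) ^ K) ^ (3 / 2 + 6 * ε)) (Jop (1 / 2 + 2 * ε) (2 ^ Ln K)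
      (fun τ => F.rr (ln (1 + 2 * ε) τ) * ddir (F.tl (Ln K)) (ln (1 + 2 * ε) τ))) := by
  obtain ⟨CJ, hCJ, hJ⟩ := direct_core (σ := 1 / 2 + 2 * ε) (by positivity)
  obtain ⟨CB, hCB, hB⟩ := tl_mean F (ε := 2 * ε) (by positivity)
  refine ⟨CJ * CB * 2 ^ (1 + 4 * ε), by positivity, fun K hK => ?_⟩
  have hT2 := T_ge hK
  have hTU := T_le_U K
  have hpow := U_pow hε K
  set T : ℝ := 2 ^ K with hT
  set U : ℝ := 2 ^ Ln K with hU
  have hU0 : 0 < U := by linarith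
  have hs := sqrt2_bounds
  obtain ⟨b1, b2⟩ := hB (Ln K) (√2 * T) (by nlinarith) (by rw [← hU]; nlinarith)
  have he : -(2 * ε) = 1 - (1 + 2 * ε) := by ring
  have hcont := tl_continuous F (Ln K) (c := -(2 * ε)) (by linarith)
  obtain ⟨j1, j2⟩ := hJ U T hU0 hT2 (fun τ => F.rr (ln (1 + 2 * ε) τ) *
      ddir (F.tl (Ln K)) (ln (1 + 2 * ε) τ)) (fun t => dsum (F.tl (Ln K)) (ln (-(2 * ε)) t))
    ((rr_cont F (by linarith)).mul (ddir_cont _ he hcont)) (fun t => by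
      rw [norm_mul, ddir_norm _ he]
      have := rr_le F (s := ln (1 + 2 * ε) t) (by rw [ln_re]; linarith)
      exact mul_le_of_le_one_left (norm_nonneg _) this) _ b1 b2
  refine ⟨j1, j2.trans ?_⟩
  have e1 : 2 * (1 / 2 + 2 * ε) = 1 + 4 * ε := by ring
  rw [e1]
  calc CJ * U ^ (1 + 4 * ε) * CB = CJ * CB * U ^ (1 + 4 * ε) := by ring
    _ ≤ CJ * CB * (2 ^ (1 + 4 * ε) * T ^ (3 / 2 + 6 * ε)) := by gcongr
    _ = _ := by ring

private theorem ty3 (F : Sel) (hdeg : F.deg ≤ 3) {ε : ℝ} (hε : 0 < ε) (hε8 : ε ≤ 1 / 8) :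
    ∃ C : ℝ, 0 < C ∧ ∀ K : ℕ, 1 ≤ K → ∀ k < Ln K,
    MSB (2 ^ K) (C * ((2 : ℝ) ^ K) ^ (3 / 2 + 6 * ε)) (Jop (-ε) (2 ^ Ln K)
      (fun τ => F.rr (ln (1 / 2 - ε) τ) * F.chi (ln (1 / 2 - ε) τ) *
        dsum (F.blk k) (ln (1 / 2 - ε) τ))) := by
  obtain ⟨CJ, hCJ, hJ⟩ := dual_core F hdeg (σ := -ε) (c := 1 / 2 - ε) (by
    have := hε.ne'
    simpa using this) (by linarith) (by linarith)
  obtain ⟨CB, hCB, hB⟩ := blk_mean F (1 / 2 - ε) (2 * ε) (by positivity)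
  refine ⟨CJ * (CB * 6), by positivity, fun K hK k hk => ?_⟩
  have hT2 := T_ge hK
  have hTU := T_le_U K
  have hUT := (U_bounds K).2
  set T : ℝ := 2 ^ K with hT
  set U : ℝ := 2 ^ Ln K with hU
  have hU1 : 1 ≤ U := by linarith
  have hU0 : 0 < U := by linarith
  have hT0 : 0 < T := by linarith
  have hkU : (2 : ℝ) ^ k ≤ U := by
    rw [hU]; exact pow_le_pow_right₀ (by norm_num) hk.le
  obtain ⟨b1, b2⟩ := hB k (2 * T) (by linarith)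
  have hcont : Continuous (fun t : ℝ => dsum (F.blk k) (ln (1 / 2 - ε) t)) :=
    (blk_diff F k).continuous.comp (ln_cont _)
  obtain ⟨j1, j2⟩ := hJ U T hU0 hT2 (fun t => dsum (F.blk k) (ln (1 / 2 - ε) t)) hcont _ b1 b2
  refine ⟨j1, j2.trans ?_⟩
  have e1 : (2 * (1 / 2 - ε) - 1 + 2 * ε : ℝ) = 0 := by ring
  have e2 : 3 - 6 * (1 / 2 - ε) = 6 * ε := by ring
  rw [e1, Real.rpow_zero, mul_one, e2]
  have h3 : 2 * T + 2 ^ k ≤ 3 * U := by linarith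
  have h4 : U ^ (2 * -ε) ≤ 1 := Real.rpow_le_one_of_one_le_of_nonpos hU1 (by linarith)
  calc CJ * (U ^ (2 * -ε) * T ^ (6 * ε)) * (CB * (2 * T + 2 ^ k))
      ≤ CJ * (1 * T ^ (6 * ε)) * (CB * (3 * (2 * T ^ (3 / 2 : ℝ)))) := by
        gcongr
        linarith
    _ = CJ * (CB * 6) * (T ^ (3 / 2 : ℝ) * T ^ (6 * ε)) := by ring
    _ = _ := by rw [← Real.rpow_add hT0]

private theorem ty4 (F : Sel) (hdeg : F.deg ≤ 3) {ε : ℝ} (hε : 0 < ε) (hε8 : ε ≤ 1 / 8) :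
    ∃ C : ℝ, 0 < C ∧ ∀ K : ℕ, 1 ≤ K →
    MSB (2 ^ K) (C * ((2 : ℝ) ^ K) ^ (3 / 2 + 6 * ε)) (Jop (-(1 / 2) - ε) (2 ^ Ln K)
      (fun τ => F.rr (ln (-ε) τ) * F.chi (ln (-ε) τ) * dsum (F.tl (Ln K)) (ln (-ε) τ))) := by
  obtain ⟨CJ, hCJ, hJ⟩ := dual_core F hdeg (σ := -(1 / 2) - ε) (c := -ε) (by
    intro h
    linarith) (by linarith) (by linarith)
  obtain ⟨CB, hCB, hB⟩ := tl_mean F hε
  refine ⟨CJ * CB, by positivity, fun K hK => ?_⟩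
  have hT2 := T_ge hK
  have hTU := T_le_U K
  have hUT := (U_bounds K).1
  set T : ℝ := 2 ^ K with hT
  set U : ℝ := 2 ^ Ln K with hU
  have hU0 : 0 < U := by linarith
  have hT0 : 0 < T := by linarith
  obtain ⟨b1, b2⟩ := hB (Ln K) (2 * T) (by linarith) (by linarith)
  have hcont := tl_continuous F (Ln K) (c := -ε) (by linarith)
  obtain ⟨j1, j2⟩ := hJ U T hU0 hT2 (fun t => dsum (F.tl (Ln K)) (ln (-ε) t)) hcont _ b1 b2
  refine ⟨j1, j2.trans ?_⟩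
  have e2 : 3 - 6 * -ε = 3 + 6 * ε := by ring
  have h5 : U ^ (2 * (-(1 / 2) - ε)) ≤ T ^ (-(3 / 2) - 3 * ε) := by
    have h6 : U ^ (2 * (-(1 / 2) - ε)) ≤ (T ^ (3 / 2 : ℝ)) ^ (2 * (-(1 / 2) - ε)) :=
      Real.rpow_le_rpow_of_nonpos (by positivity) hUT (by linarith)
    refine h6.trans (le_of_eq ?_)
    rw [← Real.rpow_mul hT0.le]
    congr 1
    ring
  rw [e2]
  calc CJ * (U ^ (2 * (-(1 / 2) - ε)) * T ^ (3 + 6 * ε)) * CB
      ≤ CJ * (T ^ (-(3 / 2) - 3 * ε) * T ^ (3 + 6 * ε)) * CB := by gcongr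
    _ = CJ * CB * T ^ (3 / 2 + 3 * ε) := by
        rw [← Real.rpow_add hT0]
        have : (-(3 / 2) - 3 * ε + (3 + 6 * ε) : ℝ) = 3 / 2 + 3 * ε := by ring
        rw [this]
        ring
    _ ≤ CJ * CB * T ^ (3 / 2 + 6 * ε) := by
        apply mul_le_mul_of_nonneg_left _ (by positivity)
        exact Real.rpow_le_rpow_of_exponent_le (by linarith) (by linarith)

private theorem K_le {ε : ℝ} (hε : 0 < ε) : ∃ C : ℝ, 0 < C ∧ ∀ K : ℕ,
    (K : ℝ) + 1 ≤ C * ((2 : ℝ) ^ K) ^ ε := by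
  obtain ⟨C, hC, h⟩ := KT_le hε
  refine ⟨C, hC, fun K => ?_⟩
  have h1 := h (2 ^ K) (one_le_pow₀ (by norm_num))
  have h2 : KT ((2 : ℝ) ^ K) = K := by
    unfold KT
    have h3 : ((2 : ℝ) ^ K) = ((2 ^ K : ℕ) : ℝ) := by push_cast; rfl
    rw [h3, Nat.ceil_natCast, Nat.clog_pow _ _ (by norm_num)]
  rw [h2] at h1
  exact h1

private theorem four_sq (a b c d : ℂ) : ‖a + b - c - d‖ ^ 2 ≤
    4 * (‖a‖ ^ 2 + ‖b‖ ^ 2 + ‖c‖ ^ 2 + ‖d‖ ^ 2) := by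
  have h1 : ‖a + b - c - d‖ ≤ ‖a‖ + ‖b‖ + ‖c‖ + ‖d‖ := by
    have e1 := norm_sub_le (a + b - c) d
    have e2 := norm_sub_le (a + b) c
    have e3 := norm_add_le a b
    linarith
  have h2 := pow_le_pow_left₀ (norm_nonneg _) h1 2
  refine h2.trans ?_
  nlinarith [sq_nonneg (‖a‖ - ‖b‖), sq_nonneg (‖a‖ - ‖c‖), sq_nonneg (‖a‖ - ‖d‖),
    sq_nonneg (‖b‖ - ‖c‖), sq_nonneg (‖b‖ - ‖d‖), sq_nonneg (‖c‖ - ‖d‖)]

private theorem sum_norm_sq (K : ℕ) (f : ℕ → ℂ) : ‖∑ k ∈ Finset.range K, f k‖ ^ 2 ≤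
    K * ∑ k ∈ Finset.range K, ‖f k‖ ^ 2 := by
  have h1 : ‖∑ k ∈ Finset.range K, f k‖ ≤ ∑ k ∈ Finset.range K, ‖f k‖ := norm_sum_le _ _
  have h2 := pow_le_pow_left₀ (norm_nonneg _) h1 2
  refine h2.trans ?_
  have h3 := sq_sum_le_card_mul_sum_sq (s := Finset.range K) (f := fun k => ‖f k‖)
  rw [Finset.card_range] at h3
  exact h3

private theorem assemble {K : ℕ} {U X C1 C2 C3 C4 : ℝ} (hX : 0 ≤ X) (hC1 : 0 ≤ C1)
    (hC2 : 0 ≤ C2) (hC3 : 0 ≤ C3) (hC4 : 0 ≤ C4)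
    {A B : ℕ → ℝ → ℂ} {At Bt R : ℝ → ℂ} (hR : Continuous R)
    (hA : ∀ k < K, MSB U (C1 * X) (A k)) (hAt : MSB U (C2 * X) At)
    (hB : ∀ k < K, MSB U (C3 * X) (B k)) (hBt : MSB U (C4 * X) Bt) {M : ℝ} (hM : 0 ≤ M)
    (hRR : ∀ t, ‖R t‖ ^ 2 ≤ M * ‖(∑ k ∈ Finset.range K, A k t) + At t -
      (∑ k ∈ Finset.range K, B k t) - Bt t‖ ^ 2) :
    MSB U (4 * M * ((C1 + C2 + C3 + C4) * ((K : ℝ) + 1) ^ 2) * X) R := by
  set E : ℝ → ℝ := fun t => Real.exp (-(t / U) ^ 2) with hE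
  have hA' : ∀ k ∈ Finset.range K, Integrable (fun t => E t * ‖A k t‖ ^ 2) :=
    fun k hk => (hA k (Finset.mem_range.1 hk)).1
  have hB' : ∀ k ∈ Finset.range K, Integrable (fun t => E t * ‖B k t‖ ^ 2) :=
    fun k hk => (hB k (Finset.mem_range.1 hk)).1
  have iA := (integrable_finsetSum _ hA').const_mul (K : ℝ)
  have iB := (integrable_finsetSum _ hB').const_mul (K : ℝ)
  have i1 := ((iA.add hAt.1).add iB).add hBt.1
  have i2 := i1.const_mul (4 * M)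
  obtain ⟨j1, j2⟩ := dom (f := fun t : ℝ => Real.exp (-(t / U) ^ 2) * ‖R t‖ ^ 2)
    (by fun_prop) (fun t => by positivity) i2 (fun t => by
      have e1 := four_sq (∑ k ∈ Finset.range K, A k t) (At t) (∑ k ∈ Finset.range K, B k t) (Bt t)
      have e2 := sum_norm_sq K (fun k => A k t)
      have e3 := sum_norm_sq K (fun k => B k t)
      have e4 : 0 < E t := Real.exp_pos _
      have e5 : ‖R t‖ ^ 2 ≤ M * (4 * (K * ∑ k ∈ Finset.range K, ‖A k t‖ ^ 2 + ‖At t‖ ^ 2 +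
          K * ∑ k ∈ Finset.range K, ‖B k t‖ ^ 2 + ‖Bt t‖ ^ 2)) :=
        (hRR t).trans (mul_le_mul_of_nonneg_left (e1.trans (by linarith)) hM)
      have e6 := mul_le_mul_of_nonneg_left e5 e4.le
      refine e6.trans (le_of_eq ?_)
      simp only [Pi.add_apply, ← Finset.mul_sum]
      ring)
  refine ⟨j1, j2.trans ?_⟩
  have s1 : ∫ t, (K : ℝ) * ∑ k ∈ Finset.range K, E t * ‖A k t‖ ^ 2 ≤
      (K : ℝ) * (K * (C1 * X)) := by
    rw [integral_const_mul, integral_finsetSum _ hA']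
    apply mul_le_mul_of_nonneg_left _ (Nat.cast_nonneg K)
    have := Finset.sum_le_card_nsmul (Finset.range K) (fun k => ∫ t, E t * ‖A k t‖ ^ 2) (C1 * X)
      (fun k hk => (hA k (Finset.mem_range.1 hk)).2)
    rw [Finset.card_range, nsmul_eq_mul] at this
    exact this
  have s2 : ∫ t, (K : ℝ) * ∑ k ∈ Finset.range K, E t * ‖B k t‖ ^ 2 ≤
      (K : ℝ) * (K * (C3 * X)) := by
    rw [integral_const_mul, integral_finsetSum _ hB']
    apply mul_le_mul_of_nonneg_left _ (Nat.cast_nonneg K)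
    have := Finset.sum_le_card_nsmul (Finset.range K) (fun k => ∫ t, E t * ‖B k t‖ ^ 2) (C3 * X)
      (fun k hk => (hB k (Finset.mem_range.1 hk)).2)
    rw [Finset.card_range, nsmul_eq_mul] at this
    exact this
  have s3 : ∫ t, ((((fun t => (K : ℝ) * ∑ k ∈ Finset.range K, E t * ‖A k t‖ ^ 2) +
      fun t => Real.exp (-(t / U) ^ 2) * ‖At t‖ ^ 2) +
      fun t => (K : ℝ) * ∑ k ∈ Finset.range K, E t * ‖B k t‖ ^ 2) +
      fun t => Real.exp (-(t / U) ^ 2) * ‖Bt t‖ ^ 2) t ≤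
      (K : ℝ) * (K * (C1 * X)) + C2 * X + (K : ℝ) * (K * (C3 * X)) + C4 * X := by
    rw [integral_add' ((iA.add hAt.1).add iB) hBt.1, integral_add' (iA.add hAt.1) iB,
      integral_add' iA hAt.1]
    have := hAt.2
    have := hBt.2
    linarith
  have hK0 : (0 : ℝ) ≤ K := Nat.cast_nonneg K
  rw [integral_const_mul]
  refine (mul_le_mul_of_nonneg_left s3 (by positivity)).trans ?_
  have s4 : (K : ℝ) * (K * (C1 * X)) + C2 * X + (K : ℝ) * (K * (C3 * X)) + C4 * X ≤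
      (C1 + C2 + C3 + C4) * ((K : ℝ) + 1) ^ 2 * X := by
    have t1 : 0 ≤ C1 * X := by positivity
    have t2 : 0 ≤ C2 * X := by positivity
    have t3 : 0 ≤ C3 * X := by positivity
    have t4 : 0 ≤ C4 * X := by positivity
    have t5 : (K : ℝ) * K ≤ ((K : ℝ) + 1) ^ 2 := by nlinarith
    have t6 : (1 : ℝ) ≤ ((K : ℝ) + 1) ^ 2 := by nlinarith
    nlinarith
  calc 4 * M * ((K : ℝ) * (K * (C1 * X)) + C2 * X + (K : ℝ) * (K * (C3 * X)) + C4 * X)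
      ≤ 4 * M * ((C1 + C2 + C3 + C4) * ((K : ℝ) + 1) ^ 2 * X) :=
        mul_le_mul_of_nonneg_left s4 (by positivity)
    _ = _ := by ring

theorem ms3 (F : Sel) (hdeg : F.deg ≤ 3) {ε : ℝ} (hε : 0 < ε) :
    ∃ C : ℝ, 0 < C ∧ ∀ K : ℕ, 1 ≤ K →
    Integrable (fun t : ℝ => Real.exp (-(t / 2 ^ K) ^ 2) * ‖F.L (ln (1 / 2) t)‖ ^ 2) ∧
    ∫ t : ℝ, Real.exp (-(t / 2 ^ K) ^ 2) * ‖F.L (ln (1 / 2) t)‖ ^ 2 ≤
      C * ((2 : ℝ) ^ K) ^ (3 / 2 + ε) := by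
  set e : ℝ := min (1 / 8) (ε / 8) with he
  have he0 : 0 < e := lt_min (by norm_num) (by linarith)
  have he8 : e ≤ 1 / 8 := min_le_left _ _
  have he6 : 8 * e ≤ ε := by
    have := min_le_right (1 / 8 : ℝ) (ε / 8)
    linarith
  obtain ⟨C1, hC1, h1⟩ := ty1 F he0
  obtain ⟨C2, hC2, h2⟩ := ty2 F he0
  obtain ⟨C3, hC3, h3⟩ := ty3 F hdeg he0 he8
  obtain ⟨C4, hC4, h4⟩ := ty4 F hdeg he0 he8
  obtain ⟨C5, hC5, h5⟩ := K_le he0
  refine ⟨4 * (5 ^ F.m) ^ 2 * ((C1 + C2 + C3 + C4) * (2 * C5) ^ 2), by positivity,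
    fun K hK => ?_⟩
  have hT2 := T_ge hK
  have hT0 : (0 : ℝ) < 2 ^ K := by linarith
  have hU0 : (0 : ℝ) < 2 ^ Ln K := by positivity
  obtain ⟨j1, j2⟩ := assemble (K := Ln K) (U := 2 ^ K) (X := ((2 : ℝ) ^ K) ^ (3 / 2 + 6 * e))
    (by positivity)
    hC1.le hC2.le hC3.le hC4.le (L_cont F) (h1 K hK) (h2 K hK) (h3 K hK) (h4 K hK)
    (M := (5 ^ F.m) ^ 2) (by positivity) (fun t => by
      have e1 := L_le_RR F t
      rw [afe F he0 he8 (Ln K) hU0 t] at e1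
      have e2 := pow_le_pow_left₀ (norm_nonneg _) e1 2
      rw [mul_pow] at e2
      exact e2)
  refine ⟨j1, j2.trans ?_⟩
  have hLK : ((Ln K : ℕ) : ℝ) + 1 ≤ 2 * ((K : ℝ) + 1) := by
    have : Ln K + 1 ≤ 2 * (K + 1) := by unfold Ln; omega
    exact_mod_cast this
  have h6 : ((Ln K : ℝ) + 1) ^ 2 ≤ (2 * C5) ^ 2 * ((2 : ℝ) ^ K) ^ (2 * e) := by
    have h7 : (Ln K : ℝ) + 1 ≤ 2 * (C5 * ((2 : ℝ) ^ K) ^ e) := hLK.trans (by
      have := h5 K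
      linarith)
    have h8 := pow_le_pow_left₀ (by positivity) h7 2
    refine h8.trans (le_of_eq ?_)
    have h9 : ((2 : ℝ) ^ K) ^ (2 * e) = (((2 : ℝ) ^ K) ^ e) ^ 2 := by
      rw [← Real.rpow_natCast (((2 : ℝ) ^ K) ^ e) 2, ← Real.rpow_mul hT0.le]
      congr 1
      push_cast
      ring
    rw [h9]
    ring
  calc 4 * (5 ^ F.m) ^ 2 * ((C1 + C2 + C3 + C4) * ((Ln K : ℝ) + 1) ^ 2) *
        ((2 : ℝ) ^ K) ^ (3 / 2 + 6 * e)
      ≤ 4 * (5 ^ F.m) ^ 2 * ((C1 + C2 + C3 + C4) * ((2 * C5) ^ 2 * ((2 : ℝ) ^ K) ^ (2 * e))) *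
        ((2 : ℝ) ^ K) ^ (3 / 2 + 6 * e) := by gcongr
    _ = 4 * (5 ^ F.m) ^ 2 * ((C1 + C2 + C3 + C4) * (2 * C5) ^ 2) *
        (((2 : ℝ) ^ K) ^ (2 * e) * ((2 : ℝ) ^ K) ^ (3 / 2 + 6 * e)) := by ring
    _ = 4 * (5 ^ F.m) ^ 2 * ((C1 + C2 + C3 + C4) * (2 * C5) ^ 2) *
        ((2 : ℝ) ^ K) ^ (3 / 2 + 8 * e) := by
        rw [← Real.rpow_add hT0]
        congr 2
        ring
    _ ≤ _ := by
        apply mul_le_mul_of_nonneg_left _ (by positivity)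
        exact Real.rpow_le_rpow_of_exponent_le (by linarith) (by linarith)

end WYL
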