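import Pool.Agent.WYL.Kl

/-!
# WYL / Sdt: the second derivative test for sequences (proof as in PTH / Sd)

`g n = f (n+1) - f n`, `a ≤ n ≤ a + L - 2`, is increasing with increments in `[λ, c λ]`; so its values
lie in an interval of length `≤ c λ L` and meet `[ν, ν+1)` for at most `c λ L + 2` integers `ν`.  For
fixed `ν` the `n` with `g n ∈ [ν, ν+1)` are consecutive; with `θ = √λ / 2 ≤ 1/2` at most
`2 (θ/λ + 1)` of them have `g n` within `θ` of `ν` or `ν + 1` (trivial bound), the other ones are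
consecutive and contribute at most `2/θ` (`kl`).  Per `ν`: `≤ 2 (1/(2√λ) + 1) + 4/√λ ≤ 7/√λ`; the last
`n` contributes `1`.  Total `≤ (c λ L + 2) 7/√λ + 1 ≤ 7 c L √λ + 15/√λ`.
(Possible formalisation: induction on `L`: cut off the last class.)
-/

set_option autoImplicit false

namespace WYL

open Finset


/-- cutting an interval on which `g` is increasing -/
private theorem cut (g : ℕ → ℝ) (a : ℕ) (x : ℝ) : ∀ b, a ≤ b →
    (∀ n, a ≤ n → n + 1 < b → g n ≤ g (n + 1)) →
    ∃ p, a ≤ p ∧ p ≤ b ∧ (∀ n, a ≤ n → n < p → g n < x) ∧ (∀ n, p ≤ n → n < b → x ≤ g n) := by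
  intro b hab
  induction b, hab using Nat.le_induction with
  | base =>
    intro _
    exact ⟨a, le_rfl, le_rfl, fun n h1 h2 => by omega, fun n h1 h2 => by omega⟩
  | succ b hab ih =>
    intro hg
    obtain ⟨p, h1, h2, h3, h4⟩ := ih fun n hn hn' => hg n hn (by omega)
    rcases Nat.lt_or_ge p b with hp | hp
    · refine ⟨p, h1, by omega, h3, ?_⟩
      intro n hn hn'
      rcases Nat.lt_or_ge n b with h5 | h5
      · exact h4 n hn h5
      · have h6 : n = b := by omega
        subst h6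
        have h7 := h4 (n - 1) (by omega) (by omega)
        have h8 := hg (n - 1) (by omega) (by omega)
        rw [show n - 1 + 1 = n by omega] at h8
        linarith
    · have hpb : p = b := by omega
      subst hpb
      by_cases hx : g p < x
      · refine ⟨p + 1, by omega, le_rfl, ?_, fun n h5 h6 => by omega⟩
        intro n hn hn'
        rcases Nat.lt_or_ge n p with h5 | h5
        · exact h3 n hn h5
        · have : n = p := by omega
          rw [this]
          exact hx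
      · refine ⟨p, h1, by omega, h3, ?_⟩
        intro n hn hn'
        have : n = p := by omega
        rw [this]
        linarith

/-- the number of elements with values in a short interval -/
private theorem cnt (g : ℕ → ℝ) {lam θ x : ℝ} (hl : 0 < lam) (hθ : 0 ≤ θ) {p q : ℕ} (hpq : p ≤ q)
    (hg : ∀ n, p ≤ n → n + 1 < q → lam ≤ g (n + 1) - g n)
    (h1 : ∀ n, p ≤ n → n < q → x ≤ g n ∧ g n ≤ x + θ) :
    ((q - p : ℕ) : ℝ) ≤ θ / lam + 1 := by
  have hind : ∀ j : ℕ, p + j < q → j * lam ≤ g (p + j) - g p := by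
    intro j
    induction j with
    | zero => intro _; simp
    | succ j ih =>
      intro hj
      have h2 := ih (by omega)
      have h3 := hg (p + j) (by omega) (by omega)
      rw [show p + (j + 1) = p + j + 1 by ring]
      push_cast
      linarith
  rcases Nat.eq_zero_or_pos (q - p) with h0 | h0
  · rw [h0]
    have : 0 ≤ θ / lam := by positivity
    push_cast
    linarith
  · have h2 := hind (q - p - 1) (by omega)
    have h3 := (h1 p le_rfl (by omega)).1
    have h4 := (h1 (p + (q - p - 1)) (by omega) (by omega)).2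
    have h5 : ((q - p - 1 : ℕ) : ℝ) * lam ≤ θ := by linarith
    have h6 : ((q - p - 1 : ℕ) : ℝ) ≤ θ / lam := by
      rw [le_div_iff₀ hl]
      exact h5
    have h7 : ((q - p : ℕ) : ℝ) = ((q - p - 1 : ℕ) : ℝ) + 1 := by
      have : q - p = (q - p - 1) + 1 := by omega
      rw [this]
      push_cast
      simp
    linarith

private theorem triv (f : ℕ → ℝ) {p q : ℕ} :
    ‖∑ n ∈ Ico p q, ec (f n)‖ ≤ ((q - p : ℕ) : ℝ) := by
  refine (norm_sum_le _ _).trans ?_
  rw [sum_congr rfl fun n _ => norm_ec (f n), sum_const, Nat.card_Ico]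
  simp

/-- one class -/
private theorem cls (f : ℕ → ℝ) {lam : ℝ} (hl : 0 < lam) (hl1 : lam ≤ 1) {a b : ℕ} (hab : a ≤ b)
    (ν : ℤ) (hg : ∀ n, a ≤ n → n + 1 < b →
      lam ≤ (f (n + 2) - f (n + 1)) - (f (n + 1) - f n))
    (h1 : ∀ n, a ≤ n → n < b → (ν : ℝ) ≤ f (n + 1) - f n ∧ f (n + 1) - f n ≤ ν + 1) :
    ‖∑ n ∈ Ico a b, ec (f n)‖ ≤ 7 / √lam := by
  set g : ℕ → ℝ := fun n => f (n + 1) - f n with hgd
  have hs0 : 0 < √lam := Real.sqrt_pos.mpr hl
  have hs1 : √lam ≤ 1 := Real.sqrt_le_one.mpr hl1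
  have hss : √lam * √lam = lam := Real.mul_self_sqrt hl.le
  set θ : ℝ := √lam / 2 with hθ
  have hθ0 : 0 < θ := by positivity
  have hθ1 : θ ≤ 1 / 2 := by
    rw [hθ]
    linarith
  have hmono : ∀ n, a ≤ n → n + 1 < b → g n ≤ g (n + 1) := by
    intro n hn hn'
    have := hg n hn hn'
    simp only [hgd]
    linarith
  obtain ⟨p, hp1, hp2, hp3, hp4⟩ := cut g a (ν + θ) b hab hmono
  obtain ⟨q, hq1, hq2, hq3, hq4⟩ := cut g p (ν + 1 - θ) b hp2
    fun n hn hn' => hmono n (by omega) hn'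
  have e1 : ∑ n ∈ Ico a b, ec (f n) = ∑ n ∈ Ico a p, ec (f n) + ∑ n ∈ Ico p q, ec (f n) +
      ∑ n ∈ Ico q b, ec (f n) := by
    rw [sum_Ico_consecutive _ hp1 hq1, sum_Ico_consecutive _ (hp1.trans hq1) hq2]
  have n1 : ‖∑ n ∈ Ico a p, ec (f n)‖ ≤ θ / lam + 1 := by
    refine triv f |>.trans ?_
    refine cnt g (x := ν) hl hθ0.le hp1 ?_ ?_
    · intro n hn hn'
      exact hg n hn (by omega)
    · intro n hn hn'
      exact ⟨(h1 n hn (by omega)).1, (hp3 n hn hn').le⟩
  have n3 : ‖∑ n ∈ Ico q b, ec (f n)‖ ≤ θ / lam + 1 := by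
    refine triv f |>.trans ?_
    refine cnt g (x := ν + 1 - θ) hl hθ0.le hq2 ?_ ?_
    · intro n hn hn'
      exact hg n (by omega) hn'
    · intro n hn hn'
      refine ⟨hq4 n hn hn', ?_⟩
      have := (h1 n (by omega) hn').2
      simp only [hgd]
      linarith
  have n2 : ‖∑ n ∈ Ico p q, ec (f n)‖ ≤ 2 / θ := by
    have h2 := kl_ec f p (q - p) θ ν hθ0 hθ1 ?_ ?_
    · rwa [show p + (q - p) = q by omega] at h2
    · intro n hn hn'
      exact ⟨hp4 n hn (by omega), (hq3 n hn (by omega)).le⟩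
    · intro n hn hn'
      exact hmono n (by omega) (by omega)
  have e2 : θ / lam = 1 / √lam / 2 := by
    rw [hθ]
    field_simp
    linarith [hss, sq √lam]
  have e3 : 2 / θ = 4 * (1 / √lam) := by
    rw [hθ]
    field_simp
    norm_num
  have e4 : 1 ≤ 1 / √lam := by
    rw [le_div_iff₀ hs0]
    linarith
  have e5 : 7 / √lam = 7 * (1 / √lam) := by ring
  rw [e1, e5]
  rw [e2] at n1 n3
  rw [e3] at n2
  refine (norm_add₃_le).trans ?_
  linarith

/-- several classes -/
private theorem clss (f : ℕ → ℝ) {lam : ℝ} (hl : 0 < lam) (hl1 : lam ≤ 1) {a : ℕ} (ν : ℤ) :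
    ∀ k b : ℕ, a ≤ b → (∀ n, a ≤ n → n + 1 < b →
      lam ≤ (f (n + 2) - f (n + 1)) - (f (n + 1) - f n)) →
    (∀ n, a ≤ n → n < b → (ν : ℝ) ≤ f (n + 1) - f n ∧ f (n + 1) - f n < ν + k) →
    ‖∑ n ∈ Ico a b, ec (f n)‖ ≤ k * (7 / √lam) := by
  intro k
  induction k with
  | zero =>
    intro b hab hg h1
    have : a = b := by
      by_contra hne
      have h2 := h1 a le_rfl (by omega)
      have h3 := h2.1
      have h4 := h2.2
      push_cast at h4
      linarith
    subst this
    simp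
  | succ k ih =>
    intro b hab hg h1
    obtain ⟨p, hp1, hp2, hp3, hp4⟩ := cut (fun n => f (n + 1) - f n) a (ν + k) b hab (by
      intro n hn hn'
      have := hg n hn hn'
      linarith)
    have n1 := ih p hp1 (fun n hn hn' => hg n hn (by omega))
      (fun n hn hn' => ⟨(h1 n hn (by omega)).1, hp3 n hn hn'⟩)
    have n2 := cls f hl hl1 hp2 (ν + k) (fun n hn hn' => hg n (by omega) hn') (by
      intro n hn hn'
      have h2 := hp4 n hn hn'
      have h3 := (h1 n (by omega) hn').2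
      push_cast at h3 ⊢
      constructor <;> linarith)
    rw [← sum_Ico_consecutive _ hp1 hp2]
    refine (norm_add_le _ _).trans ?_
    push_cast
    linarith

theorem sd (f : ℕ → ℝ) (a L : ℕ) (lam c : ℝ) (hl : 0 < lam) (hl1 : lam ≤ 1) (hc : 1 ≤ c)
    (hd : ∀ n, a ≤ n → n + 2 < a + L → lam ≤ f (n + 2) - 2 * f (n + 1) + f n ∧
      f (n + 2) - 2 * f (n + 1) + f n ≤ c * lam) :
    ‖∑ n ∈ Ico a (a + L), ec (f n)‖ ≤ 20 * (c * L * √lam + 1 / √lam) := by
  have hs0 : 0 < √lam := Real.sqrt_pos.mpr hl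
  have hs1 : √lam ≤ 1 := Real.sqrt_le_one.mpr hl1
  have hss : √lam * √lam = lam := Real.mul_self_sqrt hl.le
  have e4 : 1 ≤ 1 / √lam := by
    rw [le_div_iff₀ hs0]
    linarith
  rcases Nat.lt_or_ge L 2 with hL | hL
  · have h2 := triv f (p := a) (q := a + L)
    have h3 : ((a + L - a : ℕ) : ℝ) ≤ 1 := by
      have : a + L - a ≤ 1 := by omega
      exact_mod_cast this
    have h4 : 0 ≤ c * L * √lam := by positivity
    linarith
  obtain ⟨m, rfl⟩ : ∃ m, L = m + 2 := ⟨L - 2, by omega⟩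
  -- the indices with a difference
  set b : ℕ := a + (m + 1) with hb
  have hg : ∀ n, a ≤ n → n + 1 < b → lam ≤ (f (n + 2) - f (n + 1)) - (f (n + 1) - f n) := by
    intro n hn hn'
    have := (hd n hn (by omega)).1
    linarith
  have hlow : ∀ j : ℕ, a + j < b → f (a + 1) - f a ≤ f (a + j + 1) - f (a + j) := by
    intro j
    induction j with
    | zero => intro _; simp
    | succ j ih =>
      intro hj
      have h2 := ih (by omega)
      have h3 := hg (a + j) (by omega) (by omega)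
      rw [show a + (j + 1) = a + j + 1 by ring]
      rw [show a + j + 1 + 1 = a + j + 2 by ring]
      linarith
  have hupp : ∀ j : ℕ, a + j < b → f (a + j + 1) - f (a + j) ≤
      f (a + 1) - f a + j * (c * lam) := by
    intro j
    induction j with
    | zero => intro _; simp
    | succ j ih =>
      intro hj
      have h2 := ih (by omega)
      have h3 := (hd (a + j) (by omega) (by omega)).2
      rw [show a + (j + 1) = a + j + 1 by ring]
      rw [show a + j + 1 + 1 = a + j + 2 by ring]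
      push_cast
      linarith
  have hcl : 0 ≤ c * lam := by positivity
  set ν : ℤ := ⌊f (a + 1) - f a⌋ with hν
  have hν1 : (ν : ℝ) ≤ f (a + 1) - f a := Int.floor_le _
  have hν2 : f (a + 1) - f a < ν + 1 := Int.lt_floor_add_one _
  set k : ℕ := ⌊(m : ℝ) * (c * lam)⌋₊ + 2 with hk
  have hk1 : (k : ℝ) ≤ m * (c * lam) + 2 := by
    rw [hk]
    push_cast
    have := Nat.floor_le (mul_nonneg (Nat.cast_nonneg m) hcl)
    linarith
  have hk2 : (m : ℝ) * (c * lam) + 1 ≤ k := by
    rw [hk]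
    push_cast
    have := (Nat.lt_floor_add_one ((m : ℝ) * (c * lam))).le
    linarith
  have h1 := clss f hl hl1 (a := a) ν k b (by omega) hg (by
    intro n hn hn'
    obtain ⟨j, rfl⟩ : ∃ j, n = a + j := ⟨n - a, by omega⟩
    have h2 := hlow j hn'
    have h3 := hupp j hn'
    have h4 : (j : ℝ) * (c * lam) ≤ m * (c * lam) := by
      refine mul_le_mul_of_nonneg_right ?_ hcl
      have : j ≤ m := by omega
      exact_mod_cast this
    constructor <;> linarith)
  have e1 : ∑ n ∈ Ico a (a + (m + 2)), ec (f n) = ∑ n ∈ Ico a b, ec (f n) + ec (f b) := by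
    rw [hb, show a + (m + 2) = a + (m + 1) + 1 by ring, sum_Ico_succ_top (by omega)]
  rw [e1]
  refine (norm_add_le _ _).trans ?_
  rw [norm_ec]
  have h5 : (k : ℝ) * (7 / √lam) ≤ (m * (c * lam) + 2) * (7 / √lam) :=
    mul_le_mul_of_nonneg_right hk1 (by positivity)
  have h6 : (m * (c * lam) + 2) * (7 / √lam) = 7 * (c * m * √lam) + 14 * (1 / √lam) := by
    have e2 : lam / √lam = √lam := by
      rw [div_eq_iff hs0.ne']
      exact hss.symm
    calc (m * (c * lam) + 2) * (7 / √lam) = 7 * (c * m * (lam / √lam)) + 14 * (1 / √lam) := by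
          ring
      _ = _ := by rw [e2]
  have h7 : c * m * √lam ≤ c * ((m + 2 : ℕ) : ℝ) * √lam := by
    refine mul_le_mul_of_nonneg_right ?_ hs0.le
    refine mul_le_mul_of_nonneg_left ?_ (by linarith)
    push_cast
    linarith
  have h8 : 0 ≤ c * m * √lam := by positivity
  linarith

theorem sdt : ∃ C : ℝ, 0 < C ∧ ∀ (g : ℕ → ℝ) (a b : ℕ) (lam A : ℝ), a ≤ b → 0 < lam → 1 ≤ A →
    (∀ n, a ≤ n → n + 2 < b → lam ≤ g (n + 2) - 2 * g (n + 1) + g n ∧
      g (n + 2) - 2 * g (n + 1) + g n ≤ A * lam) →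
    ‖∑ n ∈ Ico a b, Complex.exp (((2 * Real.pi * g n : ℝ) : ℂ) * Complex.I)‖ ≤
      C * A * (((b : ℝ) - a) * √lam + (√lam)⁻¹) := by
  refine ⟨20, by norm_num, fun g a b lam A hab hl hA h => ?_⟩
  obtain ⟨L, rfl⟩ := Nat.exists_eq_add_of_le hab
  have hs : 0 < √lam := Real.sqrt_pos.mpr hl
  have hL : (0 : ℝ) ≤ L := Nat.cast_nonneg _
  have e1 : ((a + L : ℕ) : ℝ) - a = L := by push_cast; ring
  rw [e1]
  have hi : 0 < (√lam)⁻¹ := inv_pos.2 hs
  rcases le_or_gt lam 1 with h1 | h1
  · have h2 := sd g a L lam A hl h1 hA h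
    refine le_trans h2 ?_
    have h3 : 1 / √lam ≤ A * (√lam)⁻¹ := by
      rw [one_div]
      exact le_mul_of_one_le_left hi.le hA
    nlinarith
  · have h2 : ‖∑ n ∈ Ico a (a + L), Complex.exp (((2 * Real.pi * g n : ℝ) : ℂ) * Complex.I)‖ ≤ L := by
      refine (norm_sum_le _ _).trans ?_
      simp only [Complex.norm_exp_ofReal_mul_I, sum_const, Nat.card_Ico, nsmul_eq_mul, mul_one]
      rw [Nat.add_sub_cancel_left]
    have h3 : 1 ≤ √lam := Real.one_le_sqrt.2 h1.le
    have h4 : (L : ℝ) ≤ L * √lam := le_mul_of_one_le_right hL h3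
    have h5 : (L : ℝ) ≤ 20 * A * (L * √lam) := by nlinarith [mul_nonneg hL hs.le]
    have h6 : 0 ≤ 20 * A * (√lam)⁻¹ := by positivity
    calc _ ≤ (L : ℝ) := h2
      _ ≤ 20 * A * (L * √lam) := h5
      _ ≤ 20 * A * (L * √lam + (√lam)⁻¹) := by linarith

end WYL
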