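import Mathlib

set_option autoImplicit false

/-!
# WYL/Wvc: the inequality of Weyl and van der Corput
-/

open Complex Finset

open scoped ComplexConjugate

namespace WYL

/-- the sequence cut off to `[a, b)`, on the integers -/
noncomputable def cut (z : ℕ → ℂ) (a b : ℕ) (m : ℤ) : ℂ :=
  if (a : ℤ) ≤ m ∧ m < b then z m.toNat else 0

theorem cut_sum (z : ℕ → ℂ) (a b : ℕ) {c d : ℤ} (hc : c ≤ a) (hd : (b : ℤ) ≤ d) :
    ∑ m ∈ Ico c d, cut z a b m = ∑ n ∈ Ico a b, z n := by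
  have h1 : ∑ m ∈ Ico (a : ℤ) b, cut z a b m = ∑ m ∈ Ico c d, cut z a b m := by
    refine Finset.sum_subset ?_ ?_
    · intro m hm
      rw [Finset.mem_Ico] at hm ⊢
      omega
    · intro m _ hm
      rw [Finset.mem_Ico] at hm
      rw [cut, if_neg hm]
  rw [← h1]
  symm
  refine Finset.sum_nbij' (fun n : ℕ => (n : ℤ)) (fun m : ℤ => m.toNat) ?_ ?_ ?_ ?_ ?_
  · intro n hn
    rw [Finset.mem_Ico] at hn ⊢
    omega
  · intro m hm
    rw [Finset.mem_Ico] at hm ⊢
    omega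
  · intro n _
    simp
  · intro m hm
    rw [Finset.mem_Ico] at hm
    exact Int.toNat_of_nonneg (by omega)
  · intro n hn
    rw [Finset.mem_Ico] at hn
    rw [cut, if_pos (by omega)]
    simp

/-- the correlation at distance `d` -/
noncomputable def corr (z : ℕ → ℂ) (a b d : ℕ) : ℝ :=
  ‖∑ n ∈ Ico a (b - d), z (n + d) * conj (z n)‖

theorem cut_corr (z : ℕ → ℂ) (a b k d : ℕ) {c e : ℤ} (hc : c + k ≤ a) (he : (b : ℤ) ≤ e + k) :
    ∑ m ∈ Ico c e, cut z a b (m + ((k + d : ℕ) : ℤ)) * conj (cut z a b (m + (k : ℤ))) =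
      ∑ n ∈ Ico a (b - d), z (n + d) * conj (z n) := by
  have h0 : ∑ m ∈ Ico c e, cut z a b (m + ((k + d : ℕ) : ℤ)) * conj (cut z a b (m + (k : ℤ))) =
      ∑ m ∈ Ico (c + k) (e + k), cut z a b (m + d) * conj (cut z a b m) := by
    rw [← Finset.sum_Ico_add' (fun m : ℤ => cut z a b (m + d) * conj (cut z a b m)) c e (k : ℤ)]
    refine Finset.sum_congr rfl fun m _ => ?_
    congr 2
    push_cast
    ring
  have h1 : ∑ m ∈ Ico (a : ℤ) ((b - d : ℕ) : ℤ), cut z a b (m + d) * conj (cut z a b m) =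
      ∑ m ∈ Ico (c + k) (e + k), cut z a b (m + d) * conj (cut z a b m) := by
    refine Finset.sum_subset ?_ ?_
    · intro m hm
      rw [Finset.mem_Ico] at hm ⊢
      omega
    · intro m _ hm
      rw [Finset.mem_Ico] at hm
      by_cases h : (a : ℤ) ≤ m
      · have : ¬ ((a : ℤ) ≤ m + d ∧ m + d < b) := by omega
        rw [cut, if_neg this, zero_mul]
      · have : ¬ ((a : ℤ) ≤ m ∧ m < b) := by omega
        rw [cut, cut, if_neg this, map_zero, mul_zero]
  rw [h0, ← h1]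
  symm
  refine Finset.sum_nbij' (fun n : ℕ => (n : ℤ)) (fun m : ℤ => m.toNat) ?_ ?_ ?_ ?_ ?_
  · intro n hn
    rw [Finset.mem_Ico] at hn ⊢
    omega
  · intro m hm
    rw [Finset.mem_Ico] at hm ⊢
    omega
  · intro n _
    simp
  · intro m hm
    rw [Finset.mem_Ico] at hm
    exact Int.toNat_of_nonneg (by omega)
  · intro n hn
    rw [Finset.mem_Ico] at hn
    rw [cut, cut, if_pos (by omega), if_pos (by omega)]
    congr 2

theorem corr_bound (z : ℕ → ℂ) (a b H h k : ℕ) (hh : h < H) (hk : k < H) :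
    ‖∑ m ∈ Ico ((a : ℤ) - H) (b : ℤ), cut z a b (m + (h : ℤ)) * conj (cut z a b (m + (k : ℤ)))‖ =
      corr z a b ((h - k) + (k - h)) := by
  rcases le_total k h with hkh | hkh
  · obtain ⟨d, rfl⟩ := Nat.exists_eq_add_of_le hkh
    have e : ((k + d) - k) + (k - (k + d)) = d := by omega
    rw [cut_corr z a b k d (by omega) (by omega), e, corr]
  · obtain ⟨d, rfl⟩ := Nat.exists_eq_add_of_le hkh
    rw [← RCLike.norm_conj, map_sum]
    have : ∀ m ∈ Ico ((a : ℤ) - H) (b : ℤ),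
        conj (cut z a b (m + (h : ℤ)) * conj (cut z a b (m + ((h + d : ℕ) : ℤ)))) =
          cut z a b (m + ((h + d : ℕ) : ℤ)) * conj (cut z a b (m + (h : ℤ))) := by
      intro m _
      rw [map_mul, Complex.conj_conj, mul_comm]
    have e : (h - (h + d)) + ((h + d) - h) = d := by omega
    rw [Finset.sum_congr rfl this, cut_corr z a b h d (by omega) (by omega), e, corr]

theorem sum_dist_le (ρ : ℕ → ℝ) (hρ : ∀ d, 0 ≤ ρ d) (H h : ℕ) (hh : h < H) :
    ∑ k ∈ range H, ρ ((h - k) + (k - h)) ≤ ρ 0 + 2 * ∑ d ∈ Ico 1 H, ρ d := by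
  have h1 : ∑ k ∈ range H, ρ ((h - k) + (k - h)) =
      ∑ k ∈ range h, ρ (h - k) + (ρ 0 + ∑ k ∈ Ico (h + 1) H, ρ (k - h)) := by
    rw [Finset.range_eq_Ico, ← Finset.sum_Ico_consecutive _ (Nat.zero_le h) hh.le,
      Finset.sum_eq_sum_Ico_succ_bot hh]
    congr 1
    · rw [Finset.range_eq_Ico]
      refine Finset.sum_congr rfl fun k hk => ?_
      rw [Finset.mem_Ico] at hk
      congr 1
      omega
    · congr 1
      · congr 1
        omega
      · refine Finset.sum_congr rfl fun k hk => ?_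
        rw [Finset.mem_Ico] at hk
        congr 1
        omega
  have h2 : ∑ k ∈ range h, ρ (h - k) ≤ ∑ d ∈ Ico 1 H, ρ d := by
    have : ∑ k ∈ range h, ρ (h - k) = ∑ d ∈ Ico 1 (h + 1), ρ d := by
      refine Finset.sum_nbij' (fun k => h - k) (fun k => h - k) ?_ ?_ ?_ ?_ ?_
      · intro k hk; rw [Finset.mem_range] at hk; rw [Finset.mem_Ico]; omega
      · intro k hk; rw [Finset.mem_Ico] at hk; rw [Finset.mem_range]; omega
      · intro k hk; rw [Finset.mem_range] at hk; omega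
      · intro k hk; rw [Finset.mem_Ico] at hk; omega
      · intro k _; rfl
    rw [this]
    exact Finset.sum_le_sum_of_subset_of_nonneg
      (Finset.Ico_subset_Ico le_rfl (by omega)) fun d _ _ => hρ d
  have h3 : ∑ k ∈ Ico (h + 1) H, ρ (k - h) ≤ ∑ d ∈ Ico 1 H, ρ d := by
    have : ∑ k ∈ Ico (h + 1) H, ρ (k - h) = ∑ d ∈ Ico 1 (H - h), ρ d := by
      refine Finset.sum_nbij' (fun k => k - h) (fun k => k + h) ?_ ?_ ?_ ?_ ?_
      · intro k hk; rw [Finset.mem_Ico] at hk ⊢; omega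
      · intro k hk; rw [Finset.mem_Ico] at hk ⊢; omega
      · intro k hk; rw [Finset.mem_Ico] at hk; omega
      · intro k hk; rw [Finset.mem_Ico] at hk; omega
      · intro k _; rfl
    rw [this]
    exact Finset.sum_le_sum_of_subset_of_nonneg
      (Finset.Ico_subset_Ico le_rfl (by omega)) fun d _ _ => hρ d
  rw [h1]
  linarith

theorem wvc (z : ℕ → ℂ) (hz : ∀ n, ‖z n‖ ≤ 1) (a b H : ℕ) (hH : 1 ≤ H) (hHb : a + H ≤ b) :
    ‖∑ n ∈ Ico a b, z n‖ ^ 2 ≤ 2 * ((b : ℝ) - a) ^ 2 / H +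
      4 * ((b : ℝ) - a) / H *
        ∑ h ∈ Ico 1 H, ‖∑ n ∈ Ico a (b - h), z (n + h) * conj (z n)‖ := by
  set S := ∑ n ∈ Ico a b, z n with hS
  set I : Finset ℤ := Ico ((a : ℤ) - H) (b : ℤ) with hI
  set T : ℤ → ℂ := fun m => ∑ h ∈ range H, cut z a b (m + (h : ℤ)) with hT
  set R : ℝ := ∑ d ∈ Ico 1 H, corr z a b d with hR
  have hN : (H : ℝ) ≤ (b : ℝ) - a := by
    have : (a : ℝ) + H ≤ b := by exact_mod_cast hHb
    linarith
  have hH0 : (1 : ℝ) ≤ H := by exact_mod_cast hH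
  -- the sum of `T`
  have h1 : ∑ m ∈ I, T m = H * S := by
    rw [hT, Finset.sum_comm]
    have : ∀ h ∈ range H, ∑ m ∈ I, cut z a b (m + (h : ℤ)) = S := by
      intro h hh
      rw [Finset.mem_range] at hh
      rw [hI, Finset.sum_Ico_add' (fun m : ℤ => cut z a b m)]
      exact cut_sum z a b (by omega) (by omega)
    rw [Finset.sum_congr rfl this, Finset.sum_const, Finset.card_range, nsmul_eq_mul]
  -- Cauchy-Schwarz
  have hcard : (I.card : ℝ) = ((b : ℝ) - a) + H := by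
    rw [hI, Int.card_Ico]
    have : ((b : ℤ) - ((a : ℤ) - H)).toNat = b - a + H := by omega
    rw [this, Nat.cast_add, Nat.cast_sub (by omega)]
  have h2 : ‖∑ m ∈ I, T m‖ ^ 2 ≤ (((b : ℝ) - a) + H) * ∑ m ∈ I, ‖T m‖ ^ 2 := by
    rw [← hcard]
    refine le_trans (pow_le_pow_left₀ (norm_nonneg _) (norm_sum_le _ _) 2) ?_
    exact sq_sum_le_card_mul_sum_sq
  -- expanding the square
  have h3 : ∑ m ∈ I, ‖T m‖ ^ 2 ≤ ∑ h ∈ range H, ∑ k ∈ range H, corr z a b ((h - k) + (k - h)) := by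
    have e : ((∑ m ∈ I, ‖T m‖ ^ 2 : ℝ) : ℂ) = ∑ h ∈ range H, ∑ k ∈ range H,
        ∑ m ∈ I, cut z a b (m + (h : ℤ)) * conj (cut z a b (m + (k : ℤ))) := by
      push_cast
      have e1 : ∀ m ∈ I, ((‖T m‖ : ℂ)) ^ 2 = ∑ h ∈ range H, ∑ k ∈ range H,
          cut z a b (m + (h : ℤ)) * conj (cut z a b (m + (k : ℤ))) := by
        intro m _
        rw [← Complex.mul_conj', hT, map_sum, Finset.sum_mul_sum]
      rw [Finset.sum_congr rfl e1, Finset.sum_comm]
      refine Finset.sum_congr rfl fun h _ => ?_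
      rw [Finset.sum_comm]
    have e2 : ∑ m ∈ I, ‖T m‖ ^ 2 = ‖((∑ m ∈ I, ‖T m‖ ^ 2 : ℝ) : ℂ)‖ := by
      rw [Complex.norm_real, Real.norm_eq_abs, abs_of_nonneg]
      exact Finset.sum_nonneg fun m _ => by positivity
    rw [e2, e]
    refine (norm_sum_le _ _).trans (Finset.sum_le_sum fun h hh => ?_)
    refine (norm_sum_le _ _).trans (Finset.sum_le_sum fun k hk => ?_)
    rw [Finset.mem_range] at hh hk
    rw [corr_bound z a b H h k hh hk]
  have h4 : ∑ h ∈ range H, ∑ k ∈ range H, corr z a b ((h - k) + (k - h)) ≤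
      H * (((b : ℝ) - a) + 2 * R) := by
    have hc0 : corr z a b 0 ≤ (b : ℝ) - a := by
      rw [corr]
      refine (norm_sum_le _ _).trans ?_
      have : ∀ n ∈ Ico a (b - 0), ‖z (n + 0) * conj (z n)‖ ≤ 1 := by
        intro n _
        rw [norm_mul, RCLike.norm_conj]
        exact mul_le_one₀ (hz _) (norm_nonneg _) (hz _)
      refine (Finset.sum_le_sum this).trans ?_
      rw [Finset.sum_const, Nat.card_Ico, nsmul_eq_mul, mul_one, Nat.sub_zero,
        Nat.cast_sub (by omega)]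
    have : ∀ h ∈ range H, ∑ k ∈ range H, corr z a b ((h - k) + (k - h)) ≤
        ((b : ℝ) - a) + 2 * R := by
      intro h hh
      rw [Finset.mem_range] at hh
      have := sum_dist_le (corr z a b) (fun d => norm_nonneg _) H h hh
      linarith
    refine (Finset.sum_le_sum this).trans ?_
    rw [Finset.sum_const, Finset.card_range, nsmul_eq_mul]
  have hR0 : 0 ≤ R := Finset.sum_nonneg fun d _ => norm_nonneg _
  rw [h1, norm_mul, mul_pow, Complex.norm_natCast] at h2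
  have h5 : (H : ℝ) ^ 2 * ‖S‖ ^ 2 ≤ (2 * ((b : ℝ) - a)) * (H * (((b : ℝ) - a) + 2 * R)) := by
    refine h2.trans ?_
    refine mul_le_mul (by linarith) (h3.trans h4) (Finset.sum_nonneg fun m _ => by positivity)
      (by linarith)
  have h6 : ‖S‖ ^ 2 ≤ 2 * ((b : ℝ) - a) ^ 2 / H + 4 * ((b : ℝ) - a) / H * R := by
    have hpos : (0 : ℝ) < H := by linarith
    have : 2 * ((b : ℝ) - a) ^ 2 / H + 4 * ((b : ℝ) - a) / H * R =
        ((2 * ((b : ℝ) - a)) * (H * (((b : ℝ) - a) + 2 * R))) / (H : ℝ) ^ 2 := by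
      field_simp
      ring
    rw [this, le_div_iff₀ (by positivity)]
    linarith
  exact h6

end WYL
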