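import Pool.Agent.WYL.Fm
import Pool.Agent.WYL.Ms3

set_option autoImplicit false

/-!
# WYL/Fmb: the two families of degree 5

`fm_two_three`: `‖K.Lam V t‖ ≤ 3e (1+|t|)^(-1) e^(-(t/V)^2) ‖G.L‖ ‖M.L‖` (`Lam_pt`), and
`x y ≤ λ x² + λ⁻¹ y²` with `λ = U^(1/4)`, the mean square `HYM.ms_half` of `G`, and the mean square
`ms_three` of `M` with the weight `(1+|t|)^(-3/2)` (dyadic blocks `dyad_s` and `ms3`);
`(1+|t|/U)^(-2) ≤ U^(1/2) (1+|t|)^(-1/2)`.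
`fm_zgh`: `WYL.Lam_one` with `a = 1/6 + η`.
-/

open Complex MeasureTheory

namespace WYL

open HYM

private theorem exp_third {t : ℝ} {j : ℕ} (h : |t| ≤ 2 ^ j) :
    1 / 3 ≤ Real.exp (-(t / 2 ^ j) ^ 2) := by
  have h0 : (1 / 3 : ℝ) ≤ Real.exp (-1) := by
    have h : Real.exp 1 ≤ 3 := by
      have := Real.exp_one_lt_d9
      linarith
    rw [Real.exp_neg, one_div]
    exact inv_anti₀ (Real.exp_pos _) h
  refine h0.trans (Real.exp_le_exp.2 ?_)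
  have h2 : (0 : ℝ) < 2 ^ j := by positivity
  have h1 : |t / 2 ^ j| ≤ 1 := by
    rw [abs_div, abs_of_pos h2, div_le_one h2]
    exact h
  have h3 : (t / 2 ^ j) ^ 2 ≤ 1 := by
    rw [← sq_abs]
    exact pow_le_one₀ (abs_nonneg _) h1
  linarith

/-- The gaussian of the height `T` is below the gaussian of the height `2^K`, `T ≤ 2^K`. -/
private theorem gauss_mono {T : ℝ} (hT : 1 ≤ T) {K : ℕ} (hK : T ≤ 2 ^ K) (t : ℝ) :
    Real.exp (-(t / T) ^ 2) ≤ Real.exp (-(t / 2 ^ K) ^ 2) := by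
  apply Real.exp_le_exp.2
  have hT0 : 0 < T := by linarith
  have : (t / 2 ^ K) ^ 2 ≤ (t / T) ^ 2 := by
    rw [div_pow, div_pow]
    apply div_le_div_of_nonneg_left (sq_nonneg _) (by positivity)
    exact pow_le_pow_left₀ hT0.le hK 2
  linarith

/-- Dyadic decomposition of the weight `(1+|t|)^(-s)`. -/
theorem dyad_s {s : ℝ} (hs : 0 ≤ s) {T : ℝ} (hT : 1 ≤ T) {K : ℕ} (hK : T ≤ 2 ^ K) (t : ℝ) :
    (1 + |t|) ^ (-s) * Real.exp (-(t / T) ^ 2) ≤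
      3 * 2 ^ s * ∑ j ∈ Finset.Icc 0 K, ((2 : ℝ) ^ j) ^ (-s) * Real.exp (-(t / 2 ^ j) ^ 2) := by
  have hu : 0 < 1 + |t| := by positivity
  have h2s : (1 : ℝ) ≤ 2 ^ s := Real.one_le_rpow (by norm_num) hs
  have hE1 : Real.exp (-(t / T) ^ 2) ≤ 1 := by
    rw [Real.exp_le_one_iff]
    have := sq_nonneg (t / T)
    linarith
  have hE0 := Real.exp_pos (-(t / T) ^ 2)
  have key : ∀ j ∈ Finset.Icc 0 K, ((2 : ℝ) ^ j) ^ (-s) * Real.exp (-(t / 2 ^ j) ^ 2) ≤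
      ∑ j ∈ Finset.Icc 0 K, ((2 : ℝ) ^ j) ^ (-s) * Real.exp (-(t / 2 ^ j) ^ 2) := fun j hj =>
    Finset.single_le_sum (f := fun j : ℕ => ((2 : ℝ) ^ j) ^ (-s) * Real.exp (-(t / 2 ^ j) ^ 2))
      (fun i _ => by positivity) hj
  by_cases h2 : |t| ≤ 2 ^ K
  · classical
    have hex : ∃ j : ℕ, |t| ≤ 2 ^ j := ⟨K, h2⟩
    set j := Nat.find hex with hj
    have hjs : |t| ≤ 2 ^ j := Nat.find_spec hex
    have hjK : j ≤ K := Nat.find_min' hex h2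
    have h3 := key j (Finset.mem_Icc.2 ⟨Nat.zero_le _, hjK⟩)
    have h4 := exp_third hjs
    have h5 : (2 : ℝ) ^ j ≤ 2 * (1 + |t|) := by
      rcases Nat.eq_zero_or_pos j with h0 | h0
      · rw [h0, pow_zero]
        linarith [abs_nonneg t]
      · have h6 := Nat.find_min hex (m := j - 1) (by omega)
        push Not at h6
        have hj2 : (2 : ℝ) ^ j = 2 * 2 ^ (j - 1) := by
          rw [← pow_succ']
          congr 1
          omega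
        rw [hj2]
        linarith
    have h6 : (1 + |t|) ^ (-s) ≤ 2 ^ s * ((2 : ℝ) ^ j) ^ (-s) := by
      have h7 : (2 * (1 + |t|)) ^ (-s) ≤ ((2 : ℝ) ^ j) ^ (-s) :=
        Real.rpow_le_rpow_of_nonpos (by positivity) h5 (by linarith)
      calc (1 + |t|) ^ (-s) = 2 ^ s * (2 * (1 + |t|)) ^ (-s) := by
            rw [Real.mul_rpow (by norm_num) hu.le, ← mul_assoc, ← Real.rpow_add (by norm_num)]
            simp
        _ ≤ _ := mul_le_mul_of_nonneg_left h7 (by positivity)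
    calc (1 + |t|) ^ (-s) * Real.exp (-(t / T) ^ 2) ≤ (2 ^ s * ((2 : ℝ) ^ j) ^ (-s)) * 1 :=
          mul_le_mul h6 hE1 hE0.le (by positivity)
      _ = 3 * 2 ^ s * (((2 : ℝ) ^ j) ^ (-s) * (1 / 3)) := by ring
      _ ≤ 3 * 2 ^ s * (((2 : ℝ) ^ j) ^ (-s) * Real.exp (-(t / 2 ^ j) ^ 2)) := by
          refine mul_le_mul_of_nonneg_left ?_ (by positivity)
          exact mul_le_mul_of_nonneg_left h4 (by positivity)
      _ ≤ _ := mul_le_mul_of_nonneg_left h3 (by positivity)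
  · push Not at h2
    have h3 := key K (Finset.mem_Icc.2 ⟨Nat.zero_le _, le_rfl⟩)
    have h6 : (1 + |t|) ^ (-s) ≤ ((2 : ℝ) ^ K) ^ (-s) :=
      Real.rpow_le_rpow_of_nonpos (by positivity) (by linarith) (by linarith)
    have h7 := gauss_mono hT hK t
    have hS : 0 ≤ ∑ j ∈ Finset.Icc 0 K, ((2 : ℝ) ^ j) ^ (-s) * Real.exp (-(t / 2 ^ j) ^ 2) :=
      Finset.sum_nonneg fun i _ => by positivity
    calc (1 + |t|) ^ (-s) * Real.exp (-(t / T) ^ 2) ≤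
          ((2 : ℝ) ^ K) ^ (-s) * Real.exp (-(t / 2 ^ K) ^ 2) :=
          mul_le_mul h6 h7 hE0.le (by positivity)
      _ ≤ 1 * ∑ j ∈ Finset.Icc 0 K, ((2 : ℝ) ^ j) ^ (-s) * Real.exp (-(t / 2 ^ j) ^ 2) := by
          rw [one_mul]
          exact h3
      _ ≤ _ := mul_le_mul_of_nonneg_right (by linarith) hS

private theorem dom' {f g : ℝ → ℝ} (hf : Continuous f) (hf0 : ∀ t, 0 ≤ f t) (hg : Integrable g)
    (hfg : ∀ t, f t ≤ g t) : Integrable f ∧ ∫ t, f t ≤ ∫ t, g t := by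
  have h1 : Integrable f := hg.mono' hf.aestronglyMeasurable (by
    filter_upwards with t
    rw [Real.norm_of_nonneg (hf0 t)]
    exact hfg t)
  exact ⟨h1, integral_mono h1 hg hfg⟩

private theorem two_KT {T : ℝ} (hT : 1 ≤ T) : (2 : ℝ) ^ KT T ≤ 2 * T := by
  obtain ⟨-, hKT2⟩ := KT_spec T hT
  rcases Nat.eq_zero_or_pos (KT T) with h0 | h0
  · rw [h0]
    norm_num
    linarith
  · have h1 := hKT2 (KT T - 1) (by omega)
    have h2 : (2 : ℝ) ^ KT T = 2 * 2 ^ (KT T - 1) := by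
      rw [← pow_succ']
      congr 1
      omega
    rw [h2]
    linarith

/-- The mean square in degree at most three with the weight `(1+|t|)^(-3/2)`. -/
theorem ms_three (F : Sel) (hdeg : F.deg ≤ 3) {ε : ℝ} (hε : 0 < ε) :
    ∃ C : ℝ, 0 < C ∧ ∀ T : ℝ, 1 ≤ T →
    Integrable (fun t : ℝ => (1 + |t|) ^ (-(3 / 2) : ℝ) * Real.exp (-(t / T) ^ 2) *
      ‖F.L (ln (1 / 2) t)‖ ^ 2) ∧
    ∫ t : ℝ, (1 + |t|) ^ (-(3 / 2) : ℝ) * Real.exp (-(t / T) ^ 2) *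
      ‖F.L (ln (1 / 2) t)‖ ^ 2 ≤ C * T ^ ε := by
  obtain ⟨C, hC, h⟩ := ms3 F hdeg (ε := ε / 2) (by positivity)
  obtain ⟨CK, hCK, hK⟩ := KT_le (ε := ε / 2) (by positivity)
  refine ⟨3 * 2 ^ (3 / 2 : ℝ) * (CK * (C * 2 ^ (3 / 2 + ε / 2) * 2 ^ (ε / 2))), by positivity,
    fun T hT => ?_⟩
  have hT0 : 0 < T := by linarith
  obtain ⟨hKT, -⟩ := KT_spec T hT
  have h2K := two_KT hT
  have hKl := hK T hT
  set K := KT T with hKdef
  have hL := L_half_continuous F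
  have hj : ∀ j : ℕ, Integrable (fun t : ℝ => Real.exp (-(t / 2 ^ j) ^ 2) *
      ‖F.L (ln (1 / 2) t)‖ ^ 2) ∧
      ∫ t : ℝ, Real.exp (-(t / 2 ^ j) ^ 2) * ‖F.L (ln (1 / 2) t)‖ ^ 2 ≤
        C * 2 ^ (3 / 2 + ε / 2) * ((2 : ℝ) ^ j) ^ (3 / 2 + ε / 2) := by
    intro j
    have hp : (1 : ℝ) ≤ 2 ^ (3 / 2 + ε / 2) := Real.one_le_rpow (by norm_num) (by positivity)
    rcases Nat.eq_zero_or_pos j with h0 | h0
    · obtain ⟨i1, i2⟩ := h 1 le_rfl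
      obtain ⟨j1, j2⟩ := dom' (f := fun t : ℝ => Real.exp (-(t / 2 ^ j) ^ 2) *
        ‖F.L (ln (1 / 2) t)‖ ^ 2) (by fun_prop) (fun t => by positivity) i1 (fun t => by
          apply mul_le_mul_of_nonneg_right _ (by positivity)
          rw [Real.exp_le_exp, h0, pow_zero, div_one, pow_one, div_pow]
          nlinarith [sq_nonneg t])
      refine ⟨j1, (j2.trans i2).trans (le_of_eq ?_)⟩
      rw [h0, pow_zero, pow_one, Real.one_rpow, mul_one]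
    · obtain ⟨i1, i2⟩ := h j h0
      refine ⟨i1, i2.trans ?_⟩
      have : 0 ≤ ((2 : ℝ) ^ j) ^ (3 / 2 + ε / 2) := by positivity
      calc C * ((2 : ℝ) ^ j) ^ (3 / 2 + ε / 2) = C * 1 * ((2 : ℝ) ^ j) ^ (3 / 2 + ε / 2) := by
            ring
        _ ≤ _ := by gcongr
  have hI : Integrable (fun t : ℝ => ∑ j ∈ Finset.Icc 0 K, ((2 : ℝ) ^ j) ^ (-(3 / 2) : ℝ) *
      (Real.exp (-(t / 2 ^ j) ^ 2) * ‖F.L (ln (1 / 2) t)‖ ^ 2)) :=
    integrable_finsetSum _ fun j _ => (hj j).1.const_mul _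
  have hcont : Continuous (fun t : ℝ => (1 + |t|) ^ (-(3 / 2) : ℝ) * Real.exp (-(t / T) ^ 2) *
      ‖F.L (ln (1 / 2) t)‖ ^ 2) :=
    ((rpow_cont _).mul (by fun_prop)).mul (by fun_prop)
  obtain ⟨j1, j2⟩ := dom' hcont (fun t => by positivity)
    (hI.const_mul (3 * 2 ^ (3 / 2 : ℝ))) (fun t => by
      have h1 := dyad_s (s := 3 / 2) (by norm_num) hT hKT t
      calc (1 + |t|) ^ (-(3 / 2) : ℝ) * Real.exp (-(t / T) ^ 2) * ‖F.L (ln (1 / 2) t)‖ ^ 2 ≤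
          (3 * 2 ^ (3 / 2 : ℝ) * ∑ j ∈ Finset.Icc 0 K, ((2 : ℝ) ^ j) ^ (-(3 / 2) : ℝ) *
            Real.exp (-(t / 2 ^ j) ^ 2)) * ‖F.L (ln (1 / 2) t)‖ ^ 2 :=
            mul_le_mul_of_nonneg_right h1 (by positivity)
        _ = _ := by
            rw [mul_assoc, Finset.sum_mul]
            congr 1
            exact Finset.sum_congr rfl fun j _ => by ring)
  refine ⟨j1, j2.trans ?_⟩
  rw [integral_const_mul, integral_finsetSum _ fun j _ => (hj j).1.const_mul _]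
  have hterm : ∀ j ∈ Finset.Icc 0 K, ∫ t : ℝ, ((2 : ℝ) ^ j) ^ (-(3 / 2) : ℝ) *
      (Real.exp (-(t / 2 ^ j) ^ 2) * ‖F.L (ln (1 / 2) t)‖ ^ 2) ≤
      C * 2 ^ (3 / 2 + ε / 2) * 2 ^ (ε / 2) * T ^ (ε / 2) := by
    intro j hjm
    have hjK : j ≤ K := (Finset.mem_Icc.1 hjm).2
    have hp0 : (0 : ℝ) < 2 ^ j := by positivity
    have hjT : (2 : ℝ) ^ j ≤ 2 * T := (pow_le_pow_right₀ (by norm_num) hjK).trans h2K
    rw [integral_const_mul]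
    calc ((2 : ℝ) ^ j) ^ (-(3 / 2) : ℝ) * ∫ t : ℝ, Real.exp (-(t / 2 ^ j) ^ 2) *
          ‖F.L (ln (1 / 2) t)‖ ^ 2
        ≤ ((2 : ℝ) ^ j) ^ (-(3 / 2) : ℝ) *
          (C * 2 ^ (3 / 2 + ε / 2) * ((2 : ℝ) ^ j) ^ (3 / 2 + ε / 2)) :=
          mul_le_mul_of_nonneg_left (hj j).2 (by positivity)
      _ = C * 2 ^ (3 / 2 + ε / 2) *
          (((2 : ℝ) ^ j) ^ (-(3 / 2) : ℝ) * ((2 : ℝ) ^ j) ^ (3 / 2 + ε / 2)) := by ring
      _ = C * 2 ^ (3 / 2 + ε / 2) * ((2 : ℝ) ^ j) ^ (ε / 2) := by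
          rw [← Real.rpow_add hp0]
          congr 2
          ring
      _ ≤ C * 2 ^ (3 / 2 + ε / 2) * (2 * T) ^ (ε / 2) := by
          refine mul_le_mul_of_nonneg_left ?_ (by positivity)
          exact Real.rpow_le_rpow hp0.le hjT (by positivity)
      _ = _ := by
          rw [Real.mul_rpow (by norm_num) hT0.le]
          ring
  have hcard : ((Finset.Icc 0 K).card : ℝ) = (K : ℝ) + 1 := by
    rw [Nat.card_Icc]
    push_cast
    ring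
  have hT2 : T ^ (ε / 2) * T ^ (ε / 2) = T ^ ε := by
    rw [← Real.rpow_add hT0]
    congr 1
    ring
  have hsum := Finset.sum_le_card_nsmul _ _ _ hterm
  rw [nsmul_eq_mul, hcard] at hsum
  calc 3 * 2 ^ (3 / 2 : ℝ) * _ ≤ 3 * 2 ^ (3 / 2 : ℝ) * (((K : ℝ) + 1) *
        (C * 2 ^ (3 / 2 + ε / 2) * 2 ^ (ε / 2) * T ^ (ε / 2))) :=
        mul_le_mul_of_nonneg_left hsum (by positivity)
    _ ≤ 3 * 2 ^ (3 / 2 : ℝ) * ((CK * T ^ (ε / 2)) *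
        (C * 2 ^ (3 / 2 + ε / 2) * 2 ^ (ε / 2) * T ^ (ε / 2))) := by
        refine mul_le_mul_of_nonneg_left ?_ (by positivity)
        exact mul_le_mul_of_nonneg_right hKl (by positivity)
    _ = 3 * 2 ^ (3 / 2 : ℝ) * (CK * (C * 2 ^ (3 / 2 + ε / 2) * 2 ^ (ε / 2))) *
        (T ^ (ε / 2) * T ^ (ε / 2)) := by ring
    _ = _ := by rw [hT2]

theorem fm_two_three (G M K : Sel) (hG : G.deg ≤ 2) (hM : M.deg ≤ 3)
    (hK : ∀ t : ℝ, K.L (ln (1 / 2) t) = G.L (ln (1 / 2) t) * M.L (ln (1 / 2) t)) :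
    FM K (1 / 4) := by
  intro ε hε
  obtain ⟨C₁, hC₁, H₁⟩ := ms_half G hG hε
  obtain ⟨C₂, hC₂, H₂⟩ := ms_three M hM hε
  obtain ⟨C₃, hC₃, H₃⟩ := ms3 M hM hε
  refine ⟨3 * Real.exp 1 * (C₁ + C₂), by positivity, fun V hV => ?_⟩
  have hV0 : 0 < V := by linarith
  obtain ⟨i1, b1⟩ := H₁ V hV
  obtain ⟨i2, b2⟩ := H₂ V hV
  obtain ⟨hKT, -⟩ := KT_spec V hV
  obtain ⟨i3, -⟩ := H₃ (KT V + 1) (by omega)
  have hKT1 : V ≤ 2 ^ (KT V + 1) :=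
    hKT.trans (pow_le_pow_right₀ (by norm_num) (Nat.le_succ _))
  have hpt : ∀ t : ℝ, ‖K.Lam V t‖ ≤ 3 * Real.exp 1 *
      ((1 + |t|)⁻¹ * Real.exp (-(t / V) ^ 2) *
        (‖G.L (ln (1 / 2) t)‖ * ‖M.L (ln (1 / 2) t)‖)) := by
    intro t
    refine (Lam_pt K hV t).trans (le_of_eq ?_)
    rw [hK t, norm_mul]
  have hint : Integrable (K.Lam V) := by
    refine ((i1.add i3).const_mul (3 * Real.exp 1)).mono' (Lam_continuous K V).aestronglyMeasurable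
      (Filter.Eventually.of_forall fun t => ?_)
    refine (hpt t).trans ?_
    refine mul_le_mul_of_nonneg_left ?_ (by positivity)
    show _ ≤ (1 + |t|)⁻¹ * Real.exp (-(t / V) ^ 2) * ‖G.L (ln (1 / 2) t)‖ ^ 2 +
      Real.exp (-(t / 2 ^ (KT V + 1)) ^ 2) * ‖M.L (ln (1 / 2) t)‖ ^ 2
    have h1 : (1 + |t|)⁻¹ ≤ 1 := inv_le_one_of_one_le₀ (by linarith [abs_nonneg t])
    have h2 : ‖G.L (ln (1 / 2) t)‖ * ‖M.L (ln (1 / 2) t)‖ ≤
        ‖G.L (ln (1 / 2) t)‖ ^ 2 + ‖M.L (ln (1 / 2) t)‖ ^ 2 := by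
      nlinarith [sq_nonneg (‖G.L (ln (1 / 2) t)‖ - ‖M.L (ln (1 / 2) t)‖),
        sq_nonneg (‖G.L (ln (1 / 2) t)‖), sq_nonneg (‖M.L (ln (1 / 2) t)‖)]
    have h0 : 0 ≤ (1 + |t|)⁻¹ * Real.exp (-(t / V) ^ 2) := by positivity
    calc _ ≤ (1 + |t|)⁻¹ * Real.exp (-(t / V) ^ 2) *
          (‖G.L (ln (1 / 2) t)‖ ^ 2 + ‖M.L (ln (1 / 2) t)‖ ^ 2) :=
          mul_le_mul_of_nonneg_left h2 h0
      _ = (1 + |t|)⁻¹ * Real.exp (-(t / V) ^ 2) * ‖G.L (ln (1 / 2) t)‖ ^ 2 +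
          (1 + |t|)⁻¹ * Real.exp (-(t / V) ^ 2) * ‖M.L (ln (1 / 2) t)‖ ^ 2 := by ring
      _ ≤ _ := by
          refine add_le_add le_rfl (mul_le_mul_of_nonneg_right ?_ (by positivity))
          calc (1 + |t|)⁻¹ * Real.exp (-(t / V) ^ 2) ≤ 1 * Real.exp (-(t / V) ^ 2) :=
                mul_le_mul_of_nonneg_right h1 (Real.exp_pos _).le
            _ = Real.exp (-(t / V) ^ 2) := one_mul _
            _ ≤ _ := gauss_mono hV hKT1 t
  refine ⟨hint, fun U hU => ?_⟩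
  have hU0 : 0 < U := by linarith
  have hV1 : (0 : ℝ) < V ^ ε := by positivity
  have hpt2 : ∀ t : ℝ, ‖K.Lam V t‖ * (1 + |t| / U)⁻¹ ≤ 3 * Real.exp 1 * U ^ (1 / 4 : ℝ) *
      ((1 + |t|)⁻¹ * Real.exp (-(t / V) ^ 2) * ‖G.L (ln (1 / 2) t)‖ ^ 2 +
        (1 + |t|) ^ (-(3 / 2) : ℝ) * Real.exp (-(t / V) ^ 2) *
          ‖M.L (ln (1 / 2) t)‖ ^ 2) := by
    intro t
    have hu : 0 < 1 + |t| := by positivity
    have hd : 0 < 1 + |t| / U := by positivity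
    have hd1 : 1 ≤ 1 + |t| / U := by
      have : 0 ≤ |t| / U := by positivity
      linarith
    -- the decay
    have e1 : ((1 + |t| / U)⁻¹) ^ 2 ≤ U ^ (1 / 2 : ℝ) * (1 + |t|) ^ (-(1 / 2) : ℝ) := by
      have h2 : 1 + |t| ≤ U * (1 + |t| / U) := by
        rw [mul_add, mul_one, mul_div_cancel₀ _ hU0.ne']
        linarith
      have h3 : (1 + |t| / U) ^ (-2 : ℝ) ≤ (1 + |t| / U) ^ (-(1 / 2) : ℝ) :=
        Real.rpow_le_rpow_of_exponent_le hd1 (by norm_num)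
      have h4 : (U * (1 + |t| / U)) ^ (-(1 / 2) : ℝ) ≤ (1 + |t|) ^ (-(1 / 2) : ℝ) :=
        Real.rpow_le_rpow_of_nonpos hu h2 (by norm_num)
      have h5 : ((1 + |t| / U)⁻¹) ^ 2 = (1 + |t| / U) ^ (-2 : ℝ) := by
        rw [Real.rpow_neg hd.le, inv_pow]
        norm_num
      rw [h5]
      refine h3.trans ?_
      calc (1 + |t| / U) ^ (-(1 / 2) : ℝ) =
            U ^ (1 / 2 : ℝ) * (U * (1 + |t| / U)) ^ (-(1 / 2) : ℝ) := by
            rw [Real.mul_rpow hU0.le hd.le, ← mul_assoc, ← Real.rpow_add hU0]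
            norm_num
        _ ≤ _ := mul_le_mul_of_nonneg_left h4 (by positivity)
    have e2 : (1 + |t|)⁻¹ * (1 + |t|) ^ (-(1 / 2) : ℝ) = (1 + |t|) ^ (-(3 / 2) : ℝ) := by
      rw [← Real.rpow_neg_one, ← Real.rpow_add hu]
      norm_num
    set lam : ℝ := U ^ (1 / 4 : ℝ) with hlam
    have hl0 : 0 < lam := by positivity
    have hl2 : U ^ (1 / 2 : ℝ) = lam ^ 2 := by
      rw [hlam, ← Real.rpow_natCast, ← Real.rpow_mul hU0.le]
      norm_num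
    set a := ‖G.L (ln (1 / 2) t)‖ with ha
    set b := ‖M.L (ln (1 / 2) t)‖ with hb
    set d := (1 + |t| / U)⁻¹ with hdd
    have ha0 : 0 ≤ a := norm_nonneg _
    have hb0 : 0 ≤ b := norm_nonneg _
    have hd0 : 0 < d := by positivity
    set w := (1 + |t|)⁻¹ * Real.exp (-(t / V) ^ 2) with hw
    have hw0 : 0 < w := by positivity
    have h6 : a * b * d ≤ lam * a ^ 2 + lam⁻¹ * (b ^ 2 * d ^ 2) := by
      have h7 : 0 ≤ lam * (a - lam⁻¹ * (b * d)) ^ 2 := by positivity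
      have h8 : lam * (a - lam⁻¹ * (b * d)) ^ 2 =
          lam * a ^ 2 + lam⁻¹ * (b ^ 2 * d ^ 2) - 2 * (a * b * d) := by
        field_simp
        ring
      have h9 : 0 ≤ a * b * d := by positivity
      linarith
    have h10 : lam⁻¹ * (b ^ 2 * d ^ 2) ≤ lam * (b ^ 2 * (1 + |t|) ^ (-(1 / 2) : ℝ)) := by
      have h11 : d ^ 2 ≤ lam ^ 2 * (1 + |t|) ^ (-(1 / 2) : ℝ) := by rw [← hl2]; exact e1
      calc lam⁻¹ * (b ^ 2 * d ^ 2) ≤
            lam⁻¹ * (b ^ 2 * (lam ^ 2 * (1 + |t|) ^ (-(1 / 2) : ℝ))) := by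
            refine mul_le_mul_of_nonneg_left ?_ (by positivity)
            exact mul_le_mul_of_nonneg_left h11 (by positivity)
        _ = _ := by field_simp
    calc ‖K.Lam V t‖ * d ≤ (3 * Real.exp 1 * (w * (a * b))) * d :=
          mul_le_mul_of_nonneg_right (hpt t) hd0.le
      _ = 3 * Real.exp 1 * (w * (a * b * d)) := by ring
      _ ≤ 3 * Real.exp 1 * (w * (lam * a ^ 2 +
          lam * (b ^ 2 * (1 + |t|) ^ (-(1 / 2) : ℝ)))) := by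
          refine mul_le_mul_of_nonneg_left ?_ (by positivity)
          refine mul_le_mul_of_nonneg_left ?_ hw0.le
          linarith
      _ = 3 * Real.exp 1 * lam * (w * a ^ 2 +
          ((1 + |t|)⁻¹ * (1 + |t|) ^ (-(1 / 2) : ℝ)) * Real.exp (-(t / V) ^ 2) * b ^ 2) := by
          rw [hw]
          ring
      _ = _ := by rw [e2]
  have hint2 : Integrable (fun t : ℝ => ‖K.Lam V t‖ * (1 + |t| / U)⁻¹) := by
    refine ((i1.add i2).const_mul (3 * Real.exp 1 * U ^ (1 / 4 : ℝ))).mono' ?_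
      (Filter.Eventually.of_forall fun t => ?_)
    · refine Continuous.aestronglyMeasurable ((Lam_continuous K V).norm.mul ?_)
      exact Continuous.inv₀ (by fun_prop) (fun t => by positivity)
    · rw [Real.norm_of_nonneg (by positivity)]
      exact hpt2 t
  calc _ ≤ ∫ t : ℝ, 3 * Real.exp 1 * U ^ (1 / 4 : ℝ) *
      ((1 + |t|)⁻¹ * Real.exp (-(t / V) ^ 2) * ‖G.L (ln (1 / 2) t)‖ ^ 2 +
        (1 + |t|) ^ (-(3 / 2) : ℝ) * Real.exp (-(t / V) ^ 2) * ‖M.L (ln (1 / 2) t)‖ ^ 2) :=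
        integral_mono hint2 ((i1.add i2).const_mul _) hpt2
    _ = 3 * Real.exp 1 * U ^ (1 / 4 : ℝ) * ((∫ t : ℝ, (1 + |t|)⁻¹ * Real.exp (-(t / V) ^ 2) *
        ‖G.L (ln (1 / 2) t)‖ ^ 2) + ∫ t : ℝ, (1 + |t|) ^ (-(3 / 2) : ℝ) *
        Real.exp (-(t / V) ^ 2) * ‖M.L (ln (1 / 2) t)‖ ^ 2) := by
        rw [integral_const_mul, integral_add i1 i2]
    _ ≤ 3 * Real.exp 1 * U ^ (1 / 4 : ℝ) * (C₁ * V ^ ε + C₂ * V ^ ε) :=
        mul_le_mul_of_nonneg_left (add_le_add b1 b2) (by positivity)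
    _ = 3 * Real.exp 1 * (C₁ + C₂) * U ^ (1 / 4 : ℝ) * V ^ ε := by ring
    _ ≤ 3 * Real.exp 1 * (C₁ + C₂) * U ^ (1 / 4 + ε) * V ^ ε := by
        refine mul_le_mul_of_nonneg_right ?_ hV1.le
        refine mul_le_mul_of_nonneg_left ?_ (by positivity)
        exact Real.rpow_le_rpow_of_exponent_le hU (by linarith)

theorem fm_zgh (Z G H K : Sel) (hG : G.deg ≤ 2) (hH : H.deg ≤ 2)
    (hK : ∀ t : ℝ, K.L (ln (1 / 2) t) =
      Z.L (ln (1 / 2) t) * (G.L (ln (1 / 2) t) * H.L (ln (1 / 2) t)))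
    (wZ : ∀ ε : ℝ, 0 < ε → ∃ C : ℝ, 0 < C ∧ ∀ t : ℝ,
      ‖Z.L (ln (1 / 2) t)‖ ≤ C * (1 + |t|) ^ (1 / 6 + ε)) :
    FM K (1 / 6) := by
  intro ε hε
  obtain ⟨η, hη, hη4, hηε⟩ : ∃ η : ℝ, 0 < η ∧ η ≤ 1 / 4 ∧ η ≤ ε :=
    ⟨min ε (1 / 4), lt_min hε (by norm_num), min_le_right _ _, min_le_left _ _⟩
  obtain ⟨CZ, hCZ, HZ⟩ := wZ η hη
  have k1 : ∀ t : ℝ, ‖K.L (ln (1 / 2) t)‖ ≤
      CZ * (1 + |t|) ^ (1 / 6 + η) * (‖G.L (ln (1 / 2) t)‖ ^ 2 + ‖H.L (ln (1 / 2) t)‖ ^ 2) := by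
    intro t
    rw [hK t, norm_mul, norm_mul]
    refine mul_le_mul (HZ t) ?_ (by positivity) (by positivity)
    nlinarith [sq_nonneg (‖G.L (ln (1 / 2) t)‖ - ‖H.L (ln (1 / 2) t)‖),
      norm_nonneg (G.L (ln (1 / 2) t)), norm_nonneg (H.L (ln (1 / 2) t)),
      mul_nonneg (norm_nonneg (G.L (ln (1 / 2) t))) (norm_nonneg (H.L (ln (1 / 2) t)))]
  obtain ⟨B, hB, HB⟩ := Lam_one G H K hG hH (a := 1 / 6 + η) (by positivity) (by linarith)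
    hCZ k1 hε
  refine ⟨B, hB, fun V hV => ⟨(HB V hV).1, fun U hU => ((HB V hV).2 U hU).trans ?_⟩⟩
  have hV1 : (0 : ℝ) ≤ V ^ ε := by positivity
  refine mul_le_mul_of_nonneg_right ?_ hV1
  refine mul_le_mul_of_nonneg_left ?_ hB.le
  exact Real.rpow_le_rpow_of_exponent_le hU (by linarith)

end WYL
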