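import Pool.Agent.WYL.Dir
import Pool.Agent.HYM.Afe
import Pool.Agent.HYM.Dyd
import Pool.Agent.HYM.Chi

set_option autoImplicit false

/-!
# WYL/Wey: the Weyl bound for members of degree one

PROOF. `HYM.afe Z` with `U = 2^K`, `2^(K-1) < √(1+|t|) ≤ 2^K` (so `√(1+|t|) ≤ U ≤ 2 √(1+|t|)`), `ε ≤ 1/8`; `HYM.L_le_RR`.
General lemma: `‖Jop σ U G t‖ ≤ C_σ U^σ ∫ ‖G (t+v)‖ exp (-v²) dv`, and if `‖G τ‖ ≤ B₁ (1+|τ|)^a + B₂ (1+|τ|)^b` then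
`‖Jop σ U G t‖ ≤ C U^σ (B₁ (1+|t|)^a + B₂ (1+|t|)^b)` (`(1+|t+v|)^a ≤ (1+|t|)^a (1+|v|)^|a|`).
(1) direct blocks, `‖ddir (blk k) (ln (1/2+ε) τ)‖ = ‖dsum (blk k) (ln (1/2-ε) τ)‖` (see `ddir_norm` in HYM/Ms, private):
`blk_bd` with `c = 1/2 + ε`, sum over `k < K` geometric: `(1+|t|)^(1/6) + U^(1/2-ε) (1+|t|)^(-1/6)`, times `U^ε`.
(2) direct tail: `c = 1 + 2ε`, `U^(1/2+2ε) (U^(-1/2-2ε) (1+|t|)^(1/6) + U^(-2ε) (1+|t|)^(-1/6))`.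
(3) dual blocks: `chi_bound` `‖chi (ln (1/2-ε) τ)‖ ≤ C (1+|τ|)^(deg ε)`, `c = 1/2 + ε`, times `U^(-ε)`.
(4) dual tail: `‖chi (ln (-ε) τ)‖ ≤ C (1+|τ|)^(deg (1/2+ε))`, `c = 1 + ε`, times `U^(-1/2-ε)`.
All are `≤ C (1+|t|)^(1/6 + 2ε)` as `√(1+|t|) ≤ U ≤ 2 √(1+|t|)`, `deg ≤ 1`.
-/

open Complex MeasureTheory

namespace WYL

private theorem ker_norm {σ U : ℝ} (hσ : σ ≠ 0) (hU : 0 < U) (v : ℝ) :
    ‖(U : ℂ) ^ (HYM.ln σ v) * cexp ((HYM.ln σ v) ^ 2) / HYM.ln σ v‖ ≤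
      U ^ σ * (Real.exp (σ ^ 2) / |σ|) * Real.exp (-v ^ 2) := by
  have h1 : ‖(U : ℂ) ^ (HYM.ln σ v)‖ = U ^ σ := by
    rw [Complex.norm_cpow_eq_rpow_re_of_pos hU, HYM.ln_re]
  have h2 : ‖cexp ((HYM.ln σ v) ^ 2)‖ = Real.exp (σ ^ 2) * Real.exp (-v ^ 2) := by
    rw [Complex.norm_exp, ← Real.exp_add]
    congr 1
    rw [pow_two, Complex.mul_re, HYM.ln_re, HYM.ln_im]
    ring
  have h3 : |σ| ≤ ‖HYM.ln σ v‖ := by
    have := Complex.abs_re_le_norm (HYM.ln σ v)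
    rwa [HYM.ln_re] at this
  have h4 : 0 < |σ| := abs_pos.2 hσ
  rw [norm_div, norm_mul, h1, h2]
  calc U ^ σ * (Real.exp (σ ^ 2) * Real.exp (-v ^ 2)) / ‖HYM.ln σ v‖
      ≤ U ^ σ * (Real.exp (σ ^ 2) * Real.exp (-v ^ 2)) / |σ| := by gcongr
    _ = _ := by ring

private theorem gint {q : ℝ} (hq : 0 ≤ q) :
    Integrable (fun v : ℝ => (1 + |v|) ^ q * Real.exp (-v ^ 2)) := by
  obtain ⟨C, hC, h⟩ := HYM.pow_gauss hq
  have hs : (1 : ℝ) ≤ √2 := by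
    rw [Real.one_le_sqrt]; norm_num
  have hI : Integrable (fun v : ℝ => C * √2 ^ q * Real.exp (-(1 / 2) * v ^ 2)) :=
    (integrable_exp_neg_mul_sq (by norm_num : (0 : ℝ) < 1 / 2)).const_mul _
  refine hI.mono' ?_ ?_
  · apply Continuous.aestronglyMeasurable
    apply Continuous.mul
    · apply Continuous.rpow_const (by fun_prop)
      intro v
      left
      positivity
    · fun_prop
  · refine Filter.Eventually.of_forall fun v => ?_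
    have h1 := h √2 hs v
    have e1 : (v / √2) ^ 2 = v ^ 2 / 2 := by
      rw [div_pow, Real.sq_sqrt (by norm_num)]
    rw [e1] at h1
    have e2 : Real.exp (-v ^ 2) = Real.exp (-(v ^ 2 / 2)) * Real.exp (-(1 / 2) * v ^ 2) := by
      rw [← Real.exp_add]; congr 1; ring
    rw [Real.norm_eq_abs, abs_of_nonneg (by positivity), e2, ← mul_assoc]
    exact mul_le_mul_of_nonneg_right h1 (Real.exp_pos _).le

private theorem shift_le (a t v : ℝ) : (1 + |t + v|) ^ a ≤ (1 + |t|) ^ a * (1 + |v|) ^ |a| := by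
  have ht := abs_nonneg t
  have hv := abs_nonneg v
  have htv := abs_nonneg (t + v)
  rcases le_total 0 a with h | h
  · rw [abs_of_nonneg h, ← Real.mul_rpow (by positivity) (by positivity)]
    apply Real.rpow_le_rpow (by positivity) _ h
    have := abs_add_le t v
    nlinarith
  · rw [abs_of_nonpos h]
    have h1 : (1 + |t|) ^ a * (1 + |v|) ^ (-a) = ((1 + |t|) / (1 + |v|)) ^ a := by
      rw [Real.div_rpow (by positivity) (by positivity), Real.rpow_neg (by positivity)]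
      field_simp
    rw [h1]
    apply Real.rpow_le_rpow_of_nonpos (by positivity) _ h
    rw [div_le_iff₀ (by positivity)]
    have h2 : |t| ≤ |t + v| + |v| := by
      have := abs_sub (t + v) v
      rwa [add_sub_cancel_right] at this
    nlinarith

private theorem jbd (σ a b : ℝ) (hσ : σ ≠ 0) : ∃ C : ℝ, 0 < C ∧
    ∀ (U : ℝ) (G : ℝ → ℂ) (B₁ B₂ t : ℝ), 0 < U → 0 ≤ B₁ → 0 ≤ B₂ →
    (∀ τ, ‖G τ‖ ≤ B₁ * (1 + |τ|) ^ a + B₂ * (1 + |τ|) ^ b) →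
    ‖HYM.Jop σ U G t‖ ≤ C * U ^ σ * (B₁ * (1 + |t|) ^ a + B₂ * (1 + |t|) ^ b) := by
  set D := Real.exp (σ ^ 2) / |σ| with hD
  have hσ' : 0 < |σ| := abs_pos.2 hσ
  have hD0 : 0 < D := by positivity
  have hia := gint (abs_nonneg a)
  have hib := gint (abs_nonneg b)
  set Ia := ∫ v : ℝ, (1 + |v|) ^ |a| * Real.exp (-v ^ 2) with hIa
  set Ib := ∫ v : ℝ, (1 + |v|) ^ |b| * Real.exp (-v ^ 2) with hIb
  have hIa0 : 0 ≤ Ia := integral_nonneg fun v => by positivity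
  have hIb0 : 0 ≤ Ib := integral_nonneg fun v => by positivity
  refine ⟨D * (Ia + Ib + 1), by positivity, ?_⟩
  intro U G B₁ B₂ t hU hB1 hB2 hG
  have hX : 0 < 1 + |t| := by positivity
  have hXa : 0 < (1 + |t|) ^ a := Real.rpow_pos_of_pos hX _
  have hXb : 0 < (1 + |t|) ^ b := Real.rpow_pos_of_pos hX _
  have hUσ : 0 < U ^ σ := Real.rpow_pos_of_pos hU _
  have hgi : Integrable (fun v : ℝ => U ^ σ * D * (B₁ * (1 + |t|) ^ a *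
      ((1 + |v|) ^ |a| * Real.exp (-v ^ 2)) + B₂ * (1 + |t|) ^ b *
      ((1 + |v|) ^ |b| * Real.exp (-v ^ 2)))) :=
    ((hia.const_mul _).add (hib.const_mul _)).const_mul _
  have hle : ∀ v : ℝ, ‖G (t + v) * ((U : ℂ) ^ (HYM.ln σ v) * cexp ((HYM.ln σ v) ^ 2) /
      HYM.ln σ v)‖ ≤ U ^ σ * D * (B₁ * (1 + |t|) ^ a *
      ((1 + |v|) ^ |a| * Real.exp (-v ^ 2)) + B₂ * (1 + |t|) ^ b *
      ((1 + |v|) ^ |b| * Real.exp (-v ^ 2))) := by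
    intro v
    rw [norm_mul]
    have h1 := hG (t + v)
    have h2 := ker_norm hσ hU v
    have h3 := shift_le a t v
    have h4 := shift_le b t v
    calc ‖G (t + v)‖ * ‖(U : ℂ) ^ (HYM.ln σ v) * cexp ((HYM.ln σ v) ^ 2) / HYM.ln σ v‖
        ≤ (B₁ * ((1 + |t|) ^ a * (1 + |v|) ^ |a|) + B₂ * ((1 + |t|) ^ b * (1 + |v|) ^ |b|)) *
          (U ^ σ * D * Real.exp (-v ^ 2)) := by
          apply mul_le_mul _ h2 (norm_nonneg _) (by positivity)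
          refine h1.trans ?_
          gcongr
      _ = _ := by ring
  have h5 := norm_integral_le_of_norm_le hgi (Filter.Eventually.of_forall hle)
  rw [integral_const_mul, integral_add (hia.const_mul _) (hib.const_mul _), integral_const_mul,
    integral_const_mul] at h5
  unfold HYM.Jop
  rw [norm_mul]
  have h6 : ‖(2 * (Real.pi : ℂ))⁻¹‖ ≤ 1 := by
    rw [norm_inv, norm_mul, Complex.norm_real, Real.norm_eq_abs, abs_of_pos Real.pi_pos,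
      Complex.norm_ofNat]
    apply inv_le_one_of_one_le₀
    have := Real.pi_gt_three
    linarith
  refine (mul_le_mul h6 h5 (norm_nonneg _) zero_le_one).trans ?_
  rw [one_mul]
  have h7 : B₁ * (1 + |t|) ^ a * Ia ≤ B₁ * (1 + |t|) ^ a * (Ia + Ib + 1) := by
    apply mul_le_mul_of_nonneg_left (by linarith) (by positivity)
  have h8 : B₂ * (1 + |t|) ^ b * Ib ≤ B₂ * (1 + |t|) ^ b * (Ia + Ib + 1) := by
    apply mul_le_mul_of_nonneg_left (by linarith) (by positivity)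
  calc U ^ σ * D * (B₁ * (1 + |t|) ^ a * Ia + B₂ * (1 + |t|) ^ b * Ib)
      ≤ U ^ σ * D * (B₁ * (1 + |t|) ^ a * (Ia + Ib + 1) +
          B₂ * (1 + |t|) ^ b * (Ia + Ib + 1)) := by gcongr
    _ = _ := by ring

private theorem pow_two_rpow (k : ℕ) (e : ℝ) : ((2 : ℝ) ^ k) ^ e = ((2 : ℝ) ^ e) ^ k := by
  rw [← Real.rpow_natCast, ← Real.rpow_mul (by norm_num), mul_comm,
    Real.rpow_mul (by norm_num), Real.rpow_natCast]

private theorem geo1 {e : ℝ} (he : e < 0) : ∃ C : ℝ, 0 < C ∧ ∀ K : ℕ,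
    ∑ k ∈ Finset.range K, ((2 : ℝ) ^ k) ^ e ≤ C := by
  have h1 : (2 : ℝ) ^ e < 1 := Real.rpow_lt_one_of_one_lt_of_neg (by norm_num) he
  have h0 : 0 < (2 : ℝ) ^ e := by positivity
  refine ⟨1 / (1 - 2 ^ e), by apply one_div_pos.2; linarith, fun K => ?_⟩
  simp only [pow_two_rpow]
  rw [geom_sum_eq h1.ne, ← neg_div_neg_eq, neg_sub, neg_sub]
  apply div_le_div_of_nonneg_right _ (by linarith)
  have : 0 < ((2 : ℝ) ^ e) ^ K := by positivity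
  linarith

private theorem geo2 {e : ℝ} (he : 0 < e) : ∃ C : ℝ, 0 < C ∧ ∀ K : ℕ,
    ∑ k ∈ Finset.range K, ((2 : ℝ) ^ k) ^ e ≤ C * ((2 : ℝ) ^ K) ^ e := by
  have h1 : 1 < (2 : ℝ) ^ e := Real.one_lt_rpow (by norm_num) he
  refine ⟨1 / (2 ^ e - 1), by apply one_div_pos.2; linarith, fun K => ?_⟩
  simp only [pow_two_rpow]
  rw [geom_sum_eq h1.ne', one_div_mul_eq_div]
  apply div_le_div_of_nonneg_right _ (by linarith)
  linarith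

private theorem ddir_norm (a : ℕ → ℂ) {c d : ℝ} (h : d = 1 - c) (t : ℝ) :
    ‖HYM.ddir a (HYM.ln c t)‖ = ‖HYM.dsum a (HYM.ln d t)‖ := by
  have h1 : 1 - (starRingEnd ℂ) (HYM.ln c t) = HYM.ln d t := by
    rw [h]
    apply Complex.ext <;> simp [HYM.ln]
  unfold HYM.ddir
  rw [RCLike.norm_conj, h1]

/-- powers of `U` against powers of `X` -/
private theorem upow {U X : ℝ} (hX : 1 ≤ X) (h1 : √X ≤ U) (h2 : U ≤ 2 * √X) (p : ℝ) :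
    U ^ p ≤ 2 ^ |p| * X ^ (p / 2) := by
  have hX0 : 0 < X := by linarith
  have hs : 0 < √X := Real.sqrt_pos.2 hX0
  have hU : 0 < U := by linarith
  have e1 : (√X) ^ p = X ^ (p / 2) := by
    rw [Real.sqrt_eq_rpow, ← Real.rpow_mul hX0.le]; congr 1; ring
  rcases le_total 0 p with h | h
  · rw [abs_of_nonneg h, ← e1, ← Real.mul_rpow (by norm_num) hs.le]
    exact Real.rpow_le_rpow hU.le h2 h
  · have h3 : U ^ p ≤ (√X) ^ p := Real.rpow_le_rpow_of_nonpos hs h1 h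
    rw [e1] at h3
    have h4 : (1 : ℝ) ≤ 2 ^ |p| := Real.one_le_rpow (by norm_num) (abs_nonneg _)
    have h5 : 0 < X ^ (p / 2) := Real.rpow_pos_of_pos hX0 _
    nlinarith

/-- one term `U^p X^e` -/
private theorem uterm {U X p e E : ℝ} (hX : 1 ≤ X) (h1 : √X ≤ U) (h2 : U ≤ 2 * √X)
    (he : p / 2 + e ≤ E) : U ^ p * X ^ e ≤ 2 ^ |p| * X ^ E := by
  have hX0 : 0 < X := by linarith
  have h3 := upow hX h1 h2 p
  have h4 : 0 < X ^ e := Real.rpow_pos_of_pos hX0 _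
  calc U ^ p * X ^ e ≤ (2 ^ |p| * X ^ (p / 2)) * X ^ e := by gcongr
    _ = 2 ^ |p| * X ^ (p / 2 + e) := by rw [Real.rpow_add hX0]; ring
    _ ≤ 2 ^ |p| * X ^ E := by
        apply mul_le_mul_of_nonneg_left _ (by positivity)
        exact Real.rpow_le_rpow_of_exponent_le hX he

/-- the sum over the blocks -/
private theorem blocks {σ a b e₁ e₂ E : ℝ} (hσ : σ ≠ 0) (he1 : e₁ < 0) (he2 : 0 < e₂)
    (h1 : σ / 2 + a ≤ E) (h2 : (σ + e₂) / 2 + b ≤ E) (C₀ : ℝ) (hC₀ : 0 < C₀) :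
    ∃ C : ℝ, 0 < C ∧ ∀ (K : ℕ) (G : ℕ → ℝ → ℂ) (t : ℝ), √(1 + |t|) ≤ 2 ^ K →
      (2 : ℝ) ^ K ≤ 2 * √(1 + |t|) →
      (∀ k τ, ‖G k τ‖ ≤ C₀ * ((2 : ℝ) ^ k) ^ e₁ * (1 + |τ|) ^ a +
        C₀ * ((2 : ℝ) ^ k) ^ e₂ * (1 + |τ|) ^ b) →
      ‖∑ k ∈ Finset.range K, HYM.Jop σ (2 ^ K) (G k) t‖ ≤ C * (1 + |t|) ^ E := by
  obtain ⟨CJ, hCJ, hJ⟩ := jbd σ a b hσ
  obtain ⟨S1, hS1, hs1⟩ := geo1 he1
  obtain ⟨S2, hS2, hs2⟩ := geo2 he2
  refine ⟨CJ * C₀ * (S1 * 2 ^ |σ| + S2 * 2 ^ |σ + e₂|), by positivity, ?_⟩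
  intro K G t hU1 hU2 hG
  set X := 1 + |t| with hX
  have hX1 : 1 ≤ X := by rw [hX]; linarith [abs_nonneg t]
  have hX0 : 0 < X := by linarith
  set U : ℝ := 2 ^ K with hU
  have hU0 : 0 < U := by positivity
  have hUσ : 0 < U ^ σ := Real.rpow_pos_of_pos hU0 _
  have hXa : 0 < X ^ a := Real.rpow_pos_of_pos hX0 _
  have hXb : 0 < X ^ b := Real.rpow_pos_of_pos hX0 _
  have hk : ∀ k ∈ Finset.range K, ‖HYM.Jop σ U (G k) t‖ ≤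
      CJ * U ^ σ * C₀ * X ^ a * ((2 : ℝ) ^ k) ^ e₁ +
        CJ * U ^ σ * C₀ * X ^ b * ((2 : ℝ) ^ k) ^ e₂ := by
    intro k _
    refine (hJ U (G k) (C₀ * ((2 : ℝ) ^ k) ^ e₁) (C₀ * ((2 : ℝ) ^ k) ^ e₂) t hU0 (by positivity)
      (by positivity) (hG k)).trans (le_of_eq ?_)
    ring
  refine (norm_sum_le_of_le _ hk).trans ?_
  rw [Finset.sum_add_distrib, ← Finset.mul_sum, ← Finset.mul_sum]
  have t1 := uterm (p := σ) (e := a) hX1 hU1 hU2 h1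
  have t2 := uterm (p := σ + e₂) (e := b) hX1 hU1 hU2 h2
  calc CJ * U ^ σ * C₀ * X ^ a * ∑ k ∈ Finset.range K, ((2 : ℝ) ^ k) ^ e₁ +
        CJ * U ^ σ * C₀ * X ^ b * ∑ k ∈ Finset.range K, ((2 : ℝ) ^ k) ^ e₂
      ≤ CJ * U ^ σ * C₀ * X ^ a * S1 + CJ * U ^ σ * C₀ * X ^ b * (S2 * U ^ e₂) := by
        apply add_le_add
        · exact mul_le_mul_of_nonneg_left (hs1 K) (by positivity)
        · exact mul_le_mul_of_nonneg_left (hs2 K) (by positivity)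
    _ = CJ * C₀ * S1 * (U ^ σ * X ^ a) + CJ * C₀ * S2 * (U ^ (σ + e₂) * X ^ b) := by
        rw [Real.rpow_add hU0]; ring
    _ ≤ CJ * C₀ * S1 * (2 ^ |σ| * X ^ E) + CJ * C₀ * S2 * (2 ^ |σ + e₂| * X ^ E) := by
        gcongr
    _ = _ := by ring

/-- the tail -/
private theorem tail {σ a b e₁ e₂ E : ℝ} (hσ : σ ≠ 0)
    (h1 : (σ + e₁) / 2 + a ≤ E) (h2 : (σ + e₂) / 2 + b ≤ E) (C₀ : ℝ) (hC₀ : 0 < C₀) :
    ∃ C : ℝ, 0 < C ∧ ∀ (K : ℕ) (G : ℝ → ℂ) (t : ℝ), √(1 + |t|) ≤ 2 ^ K →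
      (2 : ℝ) ^ K ≤ 2 * √(1 + |t|) →
      (∀ τ, ‖G τ‖ ≤ C₀ * ((2 : ℝ) ^ K) ^ e₁ * (1 + |τ|) ^ a +
        C₀ * ((2 : ℝ) ^ K) ^ e₂ * (1 + |τ|) ^ b) →
      ‖HYM.Jop σ (2 ^ K) G t‖ ≤ C * (1 + |t|) ^ E := by
  obtain ⟨CJ, hCJ, hJ⟩ := jbd σ a b hσ
  refine ⟨CJ * C₀ * (2 ^ |σ + e₁| + 2 ^ |σ + e₂|), by positivity, ?_⟩
  intro K G t hU1 hU2 hG
  set X := 1 + |t| with hX
  have hX1 : 1 ≤ X := by rw [hX]; linarith [abs_nonneg t]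
  have hX0 : 0 < X := by linarith
  set U : ℝ := 2 ^ K with hU
  have hU0 : 0 < U := by positivity
  refine (hJ U G (C₀ * U ^ e₁) (C₀ * U ^ e₂) t hU0 (by positivity)
      (by positivity) hG).trans ?_
  have t1 := uterm (p := σ + e₁) (e := a) hX1 hU1 hU2 h1
  have t2 := uterm (p := σ + e₂) (e := b) hX1 hU1 hU2 h2
  calc CJ * U ^ σ * (C₀ * U ^ e₁ * X ^ a + C₀ * U ^ e₂ * X ^ b)
      = CJ * C₀ * (U ^ (σ + e₁) * X ^ a) + CJ * C₀ * (U ^ (σ + e₂) * X ^ b) := by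
        rw [Real.rpow_add hU0, Real.rpow_add hU0]; ring
    _ ≤ CJ * C₀ * (2 ^ |σ + e₁| * X ^ E) + CJ * C₀ * (2 ^ |σ + e₂| * X ^ E) := by
        gcongr
    _ = _ := by ring

/-- `K` with `√(1+|t|) ≤ 2^K ≤ 2 √(1+|t|)` -/
private theorem exists_K (t : ℝ) : ∃ K : ℕ, √(1 + |t|) ≤ 2 ^ K ∧
    (2 : ℝ) ^ K ≤ 2 * √(1 + |t|) := by
  have h1 : 1 ≤ √(1 + |t|) := by
    rw [Real.one_le_sqrt]; linarith [abs_nonneg t]
  obtain ⟨h2, h3⟩ := HYM.KT_spec (√(1 + |t|)) h1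
  refine ⟨HYM.KT (√(1 + |t|)), h2, ?_⟩
  rcases Nat.eq_zero_or_pos (HYM.KT (√(1 + |t|))) with h0 | h0
  · rw [h0, pow_zero]; linarith
  · obtain ⟨j, hj⟩ : ∃ j, HYM.KT (√(1 + |t|)) = j + 1 :=
      ⟨HYM.KT (√(1 + |t|)) - 1, by omega⟩
    have h4 := h3 j (by omega)
    rw [hj, pow_succ]
    linarith

/-- a bound for `rr * chi * dsum` -/
private theorem dual_pt (Z : HYM.Sel) (hdeg : Z.deg ≤ 1) {c : ℝ} (hc : c < 1) (hc2 : -(1 / 2) ≤ c)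
    (hc3 : c ≤ 1 / 2) :
    ∃ C : ℝ, 0 < C ∧ ∀ (τ : ℝ) (d : ℂ) (M N : ℝ), 0 ≤ M → 0 ≤ N →
      ‖d‖ ≤ M * (1 + |τ|) ^ (1 / 6 : ℝ) + N * (1 + |τ|) ^ (-(1 / 6) : ℝ) →
      ‖Z.rr (HYM.ln c τ) * Z.chi (HYM.ln c τ) * d‖ ≤
        C * M * (1 + |τ|) ^ (1 / 6 + (1 / 2 - c)) + C * N * (1 + |τ|) ^ (-(1 / 6) + (1 / 2 - c)) := by
  obtain ⟨C, hC, h⟩ := HYM.chi_bound Z c c hc
  refine ⟨C, hC, fun τ d M N hM hN hd => ?_⟩
  have hX1 : 1 ≤ 1 + |τ| := by linarith [abs_nonneg τ]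
  have hX0 : 0 < 1 + |τ| := by linarith
  have h1 := HYM.rr_le Z (s := HYM.ln c τ) (by rw [HYM.ln_re]; exact hc2)
  have h2 := h c ⟨le_rfl, le_rfl⟩ τ
  have h3 : (1 + |τ|) ^ (Z.deg * (1 / 2 - c)) ≤ (1 + |τ|) ^ (1 / 2 - c) := by
    apply Real.rpow_le_rpow_of_exponent_le hX1
    have : 0 ≤ 1 / 2 - c := by linarith
    nlinarith
  rw [norm_mul, norm_mul]
  calc ‖Z.rr (HYM.ln c τ)‖ * ‖Z.chi (HYM.ln c τ)‖ * ‖d‖
      ≤ 1 * (C * (1 + |τ|) ^ (1 / 2 - c)) *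
        (M * (1 + |τ|) ^ (1 / 6 : ℝ) + N * (1 + |τ|) ^ (-(1 / 6) : ℝ)) := by
        apply mul_le_mul _ hd (norm_nonneg _) (by positivity)
        apply mul_le_mul h1 _ (norm_nonneg _) zero_le_one
        refine h2.trans ?_
        gcongr
    _ = _ := by
        rw [Real.rpow_add hX0, Real.rpow_add hX0]; ring

private theorem weyl_small (Z : HYM.Sel) (hZ : Lin Z) (hdeg : Z.deg ≤ 1) {ε : ℝ} (hε : 0 < ε)
    (hε8 : ε ≤ 1 / 8) :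
    ∃ C : ℝ, 0 < C ∧ ∀ t : ℝ, ‖Z.L (HYM.ln (1 / 2) t)‖ ≤ C * (1 + |t|) ^ (1 / 6 + ε) := by
  obtain ⟨Cb, hCb, hb⟩ := blk_bd Z hZ
  obtain ⟨Ct1, hCt1, ht1⟩ := tl_bd Z hZ (1 + 2 * ε) (by linarith)
  obtain ⟨Ct2, hCt2, ht2⟩ := tl_bd Z hZ (1 + ε) (by linarith)
  obtain ⟨Cd1, hCd1, hd1⟩ := dual_pt Z hdeg (c := 1 / 2 - ε) (by linarith) (by linarith)
    (by linarith)
  obtain ⟨Cd2, hCd2, hd2⟩ := dual_pt Z hdeg (c := -ε) (by linarith) (by linarith)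
    (by linarith)
  obtain ⟨C1, hC1, h1⟩ := blocks (σ := ε) (a := 1 / 6) (b := -(1 / 6)) (e₁ := -ε)
    (e₂ := 1 / 2 - ε) (E := 1 / 6 + ε) hε.ne' (by linarith) (by linarith) (by linarith)
    (by linarith) Cb hCb
  obtain ⟨C2, hC2, h2⟩ := tail (σ := 1 / 2 + 2 * ε) (a := 1 / 6) (b := -(1 / 6))
    (e₁ := 1 / 2 - (1 + 2 * ε)) (e₂ := 1 - (1 + 2 * ε)) (E := 1 / 6 + ε) (by linarith)
    (by linarith) (by linarith) Ct1 hCt1
  obtain ⟨C3, hC3, h3⟩ := blocks (σ := -ε) (a := 1 / 6 + ε) (b := -(1 / 6) + ε) (e₁ := -ε)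
    (e₂ := 1 / 2 - ε) (E := 1 / 6 + ε) (by linarith) (by linarith) (by linarith) (by linarith)
    (by linarith) (Cd1 * Cb) (by positivity)
  obtain ⟨C4, hC4, h4⟩ := tail (σ := -(1 / 2) - ε) (a := 1 / 6 + (1 / 2 + ε))
    (b := -(1 / 6) + (1 / 2 + ε)) (e₁ := 1 / 2 - (1 + ε)) (e₂ := 1 - (1 + ε)) (E := 1 / 6 + ε)
    (by linarith) (by linarith) (by linarith) (Cd2 * Ct2) (by positivity)
  refine ⟨5 ^ Z.m * (C1 + C2 + C3 + C4), by positivity, fun t => ?_⟩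
  obtain ⟨K, hK1, hK2⟩ := exists_K t
  have hX0 : 0 < 1 + |t| := by positivity
  -- (1)
  have g1 := h1 K (fun k τ => Z.rr (HYM.ln (1 / 2 + ε) τ) *
    HYM.ddir (Z.blk k) (HYM.ln (1 / 2 + ε) τ)) t hK1 hK2 (fun k τ => by
      rw [norm_mul, ddir_norm (d := 1 - (1 / 2 + ε)) _ rfl]
      have r1 := HYM.rr_le Z (s := HYM.ln (1 / 2 + ε) τ) (by rw [HYM.ln_re]; linarith)
      have r2 := hb (1 / 2 + ε) τ k (by linarith)
      refine (mul_le_of_le_one_left (norm_nonneg _) r1).trans (r2.trans (le_of_eq ?_))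
      have e1 : (1 / 2 - (1 / 2 + ε) : ℝ) = -ε := by ring
      have e2 : (1 - (1 / 2 + ε) : ℝ) = 1 / 2 - ε := by ring
      rw [e1, e2]; ring)
  -- (2)
  have g2 := h2 K (fun τ => Z.rr (HYM.ln (1 + 2 * ε) τ) *
    HYM.ddir (Z.tl K) (HYM.ln (1 + 2 * ε) τ)) t hK1 hK2 (fun τ => by
      rw [norm_mul, ddir_norm (d := 1 - (1 + 2 * ε)) _ rfl]
      have r1 := HYM.rr_le Z (s := HYM.ln (1 + 2 * ε) τ) (by rw [HYM.ln_re]; linarith)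
      have r2 := ht1 τ K
      refine (mul_le_of_le_one_left (norm_nonneg _) r1).trans (r2.trans (le_of_eq ?_))
      ring)
  -- (3)
  have g3 := h3 K (fun k τ => Z.rr (HYM.ln (1 / 2 - ε) τ) * Z.chi (HYM.ln (1 / 2 - ε) τ) *
    HYM.dsum (Z.blk k) (HYM.ln (1 / 2 - ε) τ)) t hK1 hK2 (fun k τ => by
      have r2 := hb (1 / 2 + ε) τ k (by linarith)
      have e1 : (1 / 2 - (1 / 2 + ε) : ℝ) = -ε := by ring
      have e2 : (1 - (1 / 2 + ε) : ℝ) = 1 / 2 - ε := by ring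
      rw [e1, e2] at r2
      have r3 := hd1 τ (HYM.dsum (Z.blk k) (HYM.ln (1 / 2 - ε) τ)) (Cb * ((2 : ℝ) ^ k) ^ (-ε))
        (Cb * ((2 : ℝ) ^ k) ^ (1 / 2 - ε)) (by positivity) (by positivity)
        (r2.trans (le_of_eq (by ring)))
      refine r3.trans (le_of_eq ?_)
      have e3 : (1 / 2 - (1 / 2 - ε) : ℝ) = ε := by ring
      rw [e3]; ring)
  -- (4)
  have g4 := h4 K (fun τ => Z.rr (HYM.ln (-ε) τ) * Z.chi (HYM.ln (-ε) τ) *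
    HYM.dsum (Z.tl K) (HYM.ln (-ε) τ)) t hK1 hK2 (fun τ => by
      have r2 := ht2 τ K
      have e2 : (1 - (1 + ε) : ℝ) = -ε := by ring
      have r2' : ‖HYM.dsum (Z.tl K) (HYM.ln (-ε) τ)‖ ≤
          Ct2 * (((2 : ℝ) ^ K) ^ (1 / 2 - (1 + ε)) * (1 + |τ|) ^ (1 / 6 : ℝ) +
        ((2 : ℝ) ^ K) ^ (1 - (1 + ε)) * (1 + |τ|) ^ (-(1 / 6) : ℝ)) := by
        rw [e2] at r2 ⊢
        exact r2
      have r3 := hd2 τ (HYM.dsum (Z.tl K) (HYM.ln (-ε) τ))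
        (Ct2 * ((2 : ℝ) ^ K) ^ (1 / 2 - (1 + ε)))
        (Ct2 * ((2 : ℝ) ^ K) ^ (1 - (1 + ε))) (by positivity) (by positivity)
        (r2'.trans (le_of_eq (by ring)))
      refine r3.trans (le_of_eq ?_)
      have e3 : (1 / 2 - (-ε) : ℝ) = 1 / 2 + ε := by ring
      rw [e3]; ring)
  have hU : (0 : ℝ) < 2 ^ K := by positivity
  have hafe := HYM.afe Z hε hε8 K hU t
  have hcast : (((2 : ℝ) ^ K : ℝ) : ℂ) = ((2 : ℝ) ^ K : ℝ) := rfl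
  have hn : ‖Z.RR (HYM.ln (1 / 2) t)‖ ≤ (C1 + C2 + C3 + C4) * (1 + |t|) ^ (1 / 6 + ε) := by
    rw [hafe]
    refine (norm_sub_le _ _).trans ?_
    refine (add_le_add (norm_sub_le _ _) le_rfl).trans ?_
    refine (add_le_add (add_le_add (norm_add_le _ _) le_rfl) le_rfl).trans ?_
    linarith
  refine (HYM.L_le_RR Z t).trans ?_
  rw [mul_assoc]
  exact mul_le_mul_of_nonneg_left hn (by positivity)

theorem weyl (Z : HYM.Sel) (hZ : Lin Z) (hdeg : Z.deg ≤ 1) (ε : ℝ) (hε : 0 < ε) :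
    ∃ C : ℝ, 0 < C ∧ ∀ t : ℝ, ‖Z.L (HYM.ln (1 / 2) t)‖ ≤ C * (1 + |t|) ^ (1 / 6 + ε) := by
  obtain ⟨C, hC, h⟩ := weyl_small Z hZ hdeg (ε := min ε (1 / 8)) (lt_min hε (by norm_num))
    (min_le_right _ _)
  refine ⟨C, hC, fun t => (h t).trans ?_⟩
  apply mul_le_mul_of_nonneg_left _ hC.le
  apply Real.rpow_le_rpow_of_exponent_le (by linarith [abs_nonneg t])
  have := min_le_left ε (1 / 8)
  linarith

end WYL
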