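import Mathlib

set_option autoImplicit false

/-!
# WYL/Pha: second differences of `log (x + h) - log x`

PROOF. `f x = log (x + h) - log x`, `d u = f (u+1) - f u`; `f (x+2) - 2 f (x+1) + f x = d (x+1) - d x = d' ξ` for some
`ξ` in `(x, x+1)` (mean value theorem), `d' ξ = h / (ξ (ξ+h)) - h / ((ξ+1) (ξ+1+h))`
`= h / ((ξ+h) (ξ+1) (ξ+1+h)) + h / (ξ (ξ+h) (ξ+1))`, and all the factors are in `[N, 3 N]`.
-/

namespace WYL

private lemma pha_rat (N h u : ℝ) (hN : 1 ≤ N) (hh : 1 ≤ h) (hu : N ≤ u)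
    (hu2 : u + 1 + h ≤ 3 * N) :
    h / (14 * N ^ 3) ≤ 1 / (u + 1 + h) - 1 / (u + 1) - (1 / (u + h) - 1 / u) ∧
      1 / (u + 1 + h) - 1 / (u + 1) - (1 / (u + h) - 1 / u) ≤ 2 * h / N ^ 3 := by
  have hN0 : 0 < N := by linarith
  have hu0 : 0 < u := by linarith
  have h0 : 0 < h := by linarith
  have e : 1 / (u + 1 + h) - 1 / (u + 1) - (1 / (u + h) - 1 / u) =
      h * (1 / ((u + h) * (u + 1) * (u + 1 + h)) + 1 / (u * (u + h) * (u + 1))) := by
    field_simp
    ring
  rw [e]
  constructor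
  · have h1 : (u + h) * (u + 1) * (u + 1 + h) ≤ (3 * N) * (3 * N) * (3 * N) := by
      gcongr <;> linarith
    have h2 : u * (u + h) * (u + 1) ≤ (3 * N) * (3 * N) * (3 * N) := by
      gcongr <;> linarith
    have h3 : 1 / ((3 * N) * (3 * N) * (3 * N)) ≤ 1 / ((u + h) * (u + 1) * (u + 1 + h)) :=
      one_div_le_one_div_of_le (by positivity) h1
    have h4 : 1 / ((3 * N) * (3 * N) * (3 * N)) ≤ 1 / (u * (u + h) * (u + 1)) :=
      one_div_le_one_div_of_le (by positivity) h2
    have h5 : 1 / (14 * N ^ 3) ≤ 1 / ((3 * N) * (3 * N) * (3 * N)) +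
        1 / ((3 * N) * (3 * N) * (3 * N)) := by
      have e2 : 1 / ((3 * N) * (3 * N) * (3 * N)) + 1 / ((3 * N) * (3 * N) * (3 * N)) =
          1 / (27 / 2 * N ^ 3) := by
        field_simp
        ring
      rw [e2]
      apply one_div_le_one_div_of_le (by positivity)
      have : 0 < N ^ 3 := by positivity
      nlinarith
    calc h / (14 * N ^ 3) = h * (1 / (14 * N ^ 3)) := by ring
      _ ≤ _ := mul_le_mul_of_nonneg_left (by linarith) h0.le
  · have h1 : N * N * N ≤ (u + h) * (u + 1) * (u + 1 + h) := by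
      gcongr <;> linarith
    have h2 : N * N * N ≤ u * (u + h) * (u + 1) := by
      gcongr <;> linarith
    have h3 : 1 / ((u + h) * (u + 1) * (u + 1 + h)) ≤ 1 / (N * N * N) :=
      one_div_le_one_div_of_le (by positivity) h1
    have h4 : 1 / (u * (u + h) * (u + 1)) ≤ 1 / (N * N * N) :=
      one_div_le_one_div_of_le (by positivity) h2
    calc h * (1 / ((u + h) * (u + 1) * (u + 1 + h)) + 1 / (u * (u + h) * (u + 1)))
        ≤ h * (1 / (N * N * N) + 1 / (N * N * N)) :=
          mul_le_mul_of_nonneg_left (by linarith) h0.le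
      _ = 2 * h / N ^ 3 := by
          field_simp
          ring

theorem pha (N h x : ℝ) (hN : 1 ≤ N) (hh : 1 ≤ h) (hx : N ≤ x) (hx2 : x + 2 + h ≤ 3 * N) :
    h / (14 * N ^ 3) ≤ (Real.log (x + 2 + h) - Real.log (x + 2)) -
        2 * (Real.log (x + 1 + h) - Real.log (x + 1)) + (Real.log (x + h) - Real.log x) ∧
      (Real.log (x + 2 + h) - Real.log (x + 2)) -
        2 * (Real.log (x + 1 + h) - Real.log (x + 1)) + (Real.log (x + h) - Real.log x) ≤
        2 * h / N ^ 3 := by
  have hd : ∀ u : ℝ, x ≤ u → HasDerivAt (fun v : ℝ => Real.log (v + 1 + h) - Real.log (v + 1) -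
      (Real.log (v + h) - Real.log v))
      (1 / (u + 1 + h) - 1 / (u + 1) - (1 / (u + h) - 1 / u)) u := by
    intro u hu
    have hu0 : 0 < u := by linarith
    have hh0 : 0 < h := by linarith
    have h1 : HasDerivAt (fun v : ℝ => v + 1 + h) 1 u :=
      ((hasDerivAt_id u).add_const 1).add_const h
    have h2 : HasDerivAt (fun v : ℝ => v + 1) 1 u := (hasDerivAt_id u).add_const 1
    have h3 : HasDerivAt (fun v : ℝ => v + h) 1 u := (hasDerivAt_id u).add_const h
    have h4 : HasDerivAt (fun v : ℝ => v) 1 u := hasDerivAt_id u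
    exact ((h1.log (show u + 1 + h ≠ 0 by positivity)).sub
      (h2.log (show u + 1 ≠ 0 by positivity))).sub
      ((h3.log (show u + h ≠ 0 by positivity)).sub (h4.log (show u ≠ 0 by positivity)))
  obtain ⟨c, hc, hc2⟩ := exists_hasDerivAt_eq_slope
    (fun v : ℝ => Real.log (v + 1 + h) - Real.log (v + 1) - (Real.log (v + h) - Real.log v))
    (fun u : ℝ => 1 / (u + 1 + h) - 1 / (u + 1) - (1 / (u + h) - 1 / u))
    (a := x) (b := x + 1) (by linarith)
    (fun u hu => (hd u hu.1).continuousAt.continuousWithinAt)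
    (fun u hu => hd u hu.1.le)
  have h1 := pha_rat N h c hN hh (by linarith [hc.1]) (by linarith [hc.2])
  have e : (Real.log (x + 2 + h) - Real.log (x + 2)) -
        2 * (Real.log (x + 1 + h) - Real.log (x + 1)) + (Real.log (x + h) - Real.log x) =
      1 / (c + 1 + h) - 1 / (c + 1) - (1 / (c + h) - 1 / c) := by
    have e1 : x + 1 + 1 + h = x + 2 + h := by ring
    have e2 : x + 1 + 1 = x + 2 := by ring
    rw [hc2, e1, e2]
    ring
  rw [e]
  exact h1

end WYL
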