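import Pool.Agent.WYL.Sdt
import Pool.Agent.WYL.Wvc
import Pool.Agent.WYL.Pha

set_option autoImplicit false

/-!
# WYL/Bl3: the third derivative test for `exp (i τ log (n + α))` on a dyadic block

With `T = |τ| ≥ 1`, `t = T^(1/6)`, `s = √N` and `H = ⌊N / t²⌋` the inequality of Weyl and van der Corput and
the second derivative test give `|S|² ≤ C (N t² + N² / t²)`.
-/

open Complex Finset

open scoped ComplexConjugate

namespace WYL

/-- `∑_{1 ≤ h < H} 1/√h ≤ 2 √H` -/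
theorem sum_inv_sqrt (H : ℕ) : ∑ h ∈ Ico 1 H, (√(h : ℝ))⁻¹ ≤ 2 * √(H : ℝ) := by
  have key : ∀ m : ℕ, ∑ i ∈ range m, (√(((1 + i : ℕ) : ℝ)))⁻¹ ≤ 2 * √(m : ℝ) := by
    intro m
    induction m with
    | zero => simp
    | succ m ih =>
      rw [Finset.sum_range_succ]
      have h1 : (0 : ℝ) ≤ √(m : ℝ) := Real.sqrt_nonneg _
      have e : ((1 + m : ℕ) : ℝ) = ((m + 1 : ℕ) : ℝ) := by push_cast; ring
      rw [e]
      have h2 : (0 : ℝ) < √((m + 1 : ℕ) : ℝ) := Real.sqrt_pos.2 (by positivity)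
      have h3 : √((m + 1 : ℕ) : ℝ) ^ 2 = (m : ℝ) + 1 := by
        rw [Real.sq_sqrt (by positivity)]; push_cast; ring
      have h4 : √(m : ℝ) ^ 2 = (m : ℝ) := Real.sq_sqrt (by positivity)
      have h5 : (√((m + 1 : ℕ) : ℝ))⁻¹ ≤ 2 * (√((m + 1 : ℕ) : ℝ) - √(m : ℝ)) := by
        rw [inv_le_iff_one_le_mul₀ h2]
        nlinarith [sq_nonneg (√((m + 1 : ℕ) : ℝ) - √(m : ℝ))]
      linarith
  rcases Nat.eq_zero_or_pos H with h0 | h0
  · subst h0; simp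
  · rw [Finset.sum_Ico_eq_sum_range]
    refine (key (H - 1)).trans ?_
    have : √((H - 1 : ℕ) : ℝ) ≤ √(H : ℝ) := Real.sqrt_le_sqrt (by exact_mod_cast Nat.sub_le H 1)
    linarith

theorem sum_sqrt_le (H : ℕ) : ∑ h ∈ Ico 1 H, √(h : ℝ) ≤ (H : ℝ) * √(H : ℝ) := by
  calc ∑ h ∈ Ico 1 H, √(h : ℝ) ≤ ∑ h ∈ Ico 1 H, √(H : ℝ) := by
        apply Finset.sum_le_sum
        intro h hh
        apply Real.sqrt_le_sqrt
        exact_mod_cast (Finset.mem_Ico.1 hh).2.le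
    _ = ((H - 1 : ℕ) : ℝ) * √(H : ℝ) := by
        rw [Finset.sum_const, Nat.card_Ico, nsmul_eq_mul]
    _ ≤ (H : ℝ) * √(H : ℝ) := by
        apply mul_le_mul_of_nonneg_right _ (Real.sqrt_nonneg _)
        exact_mod_cast Nat.sub_le H 1

/-- the terms -/
noncomputable def zz (α τ : ℝ) (n : ℕ) : ℂ := cexp (((τ * Real.log ((n : ℝ) + α) : ℝ) : ℂ) * I)

theorem norm_zz (α τ : ℝ) (n : ℕ) : ‖zz α τ n‖ = 1 := by
  unfold zz
  exact Complex.norm_exp_ofReal_mul_I _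

theorem norm_sum_zz (α τ : ℝ) (N M : ℕ) : ‖∑ n ∈ Ico N (N + M), zz α τ n‖ ≤ M := by
  refine (norm_sum_le _ _).trans ?_
  rw [Finset.sum_congr rfl (fun n _ => norm_zz α τ n), Finset.sum_const, Nat.card_Ico,
    nsmul_eq_mul, mul_one]
  simp

theorem zz_mul (α τ : ℝ) (n h : ℕ) : zz α τ (n + h) * conj (zz α τ n) =
    cexp (((2 * Real.pi * (τ / (2 * Real.pi) *
      (Real.log ((n : ℝ) + α + h) - Real.log ((n : ℝ) + α))) : ℝ) : ℂ) * I) := by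
  unfold zz
  rw [← Complex.exp_conj, map_mul, Complex.conj_ofReal, Complex.conj_I, ← Complex.exp_add]
  congr 1
  have e1 : (((n + h : ℕ) : ℝ) + α) = (n : ℝ) + α + h := by push_cast; ring
  have e2 : 2 * Real.pi * (τ / (2 * Real.pi) *
      (Real.log ((n : ℝ) + α + h) - Real.log ((n : ℝ) + α))) =
      τ * Real.log ((n : ℝ) + α + h) - τ * Real.log ((n : ℝ) + α) := by
    have := Real.pi_pos.ne'
    field_simp
  rw [e1, e2]
  push_cast
  ring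

/-- the estimate of one correlation -/
theorem inner_bd (C0 : ℝ) (hC0 : 0 < C0)
    (hC : ∀ (g : ℕ → ℝ) (a b : ℕ) (lam A : ℝ), a ≤ b → 0 < lam → 1 ≤ A →
    (∀ n, a ≤ n → n + 2 < b → lam ≤ g (n + 2) - 2 * g (n + 1) + g n ∧
      g (n + 2) - 2 * g (n + 1) + g n ≤ A * lam) →
    ‖∑ n ∈ Ico a b, cexp (((2 * Real.pi * g n : ℝ) : ℂ) * I)‖ ≤
      C0 * A * (((b : ℝ) - a) * √lam + (√lam)⁻¹))
    (α τ t s : ℝ) (N M h : ℕ) (hα : 0 ≤ α) (hα1 : α ≤ 1) (hN : 1 ≤ N) (hMN : M ≤ N) (hh : 1 ≤ h)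
    (hhM : h ≤ M) (ht : 0 < t) (hτ : τ = t ^ 6) (hs : 0 < s) (hsN : (N : ℝ) = s ^ 2) :
    ‖∑ n ∈ Ico N (N + M - h), zz α τ (n + h) * conj (zz α τ n)‖ ≤
      34 * C0 * (t ^ 3 / (10 * s) * √(h : ℝ) + 10 * s ^ 3 / t ^ 3 * (√(h : ℝ))⁻¹) := by
  have hh0 : (1 : ℝ) ≤ (h : ℝ) := by exact_mod_cast hh
  have hsh : 0 < √(h : ℝ) := Real.sqrt_pos.2 (by linarith)
  have hN1 : (1 : ℝ) ≤ (N : ℝ) := by exact_mod_cast hN
  rw [Finset.sum_congr rfl (fun n _ => zz_mul α τ n h)]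
  obtain ⟨lam, hlam⟩ : ∃ lam, lam = t ^ 6 * h / (100 * s ^ 6) := ⟨_, rfl⟩
  have hlam0 : 0 < lam := by rw [hlam]; positivity
  have hsq : √lam = t ^ 3 * √(h : ℝ) / (10 * s ^ 3) := by
    rw [hlam]
    have e : t ^ 6 * h / (100 * s ^ 6) = (t ^ 3 * √(h : ℝ) / (10 * s ^ 3)) ^ 2 := by
      rw [div_pow, mul_pow, mul_pow, Real.sq_sqrt (by linarith)]; ring
    rw [e, Real.sqrt_sq (by positivity)]
  have hN6 : (N : ℝ) ^ 3 = s ^ 6 := by rw [hsN]; ring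
  have hpi := Real.pi_gt_three
  have hpi2 := Real.pi_lt_d2
  have hmain := hC (fun n => τ / (2 * Real.pi) *
      (Real.log ((n : ℝ) + α + h) - Real.log ((n : ℝ) + α))) N (N + M - h) lam 34 (by omega) hlam0
      (by norm_num) (by
    intro n hn hn2
    have hnr : (N : ℝ) ≤ (n : ℝ) := by exact_mod_cast hn
    have hn3 : (n : ℝ) + 2 + h + 1 ≤ 2 * (N : ℝ) := by
      have : n + 2 + h + 1 ≤ 2 * N := by omega
      exact_mod_cast this
    obtain ⟨p1, p2⟩ := pha (N : ℝ) (h : ℝ) ((n : ℝ) + α) hN1 hh0 (by linarith) (by linarith)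
    have e2 : (((n + 2 : ℕ) : ℝ) + α) = (n : ℝ) + α + 2 := by push_cast; ring
    have e1 : (((n + 1 : ℕ) : ℝ) + α) = (n : ℝ) + α + 1 := by push_cast; ring
    simp only [e1, e2]
    set D := (Real.log ((n : ℝ) + α + 2 + h) - Real.log ((n : ℝ) + α + 2)) -
        2 * (Real.log ((n : ℝ) + α + 1 + h) - Real.log ((n : ℝ) + α + 1)) +
        (Real.log ((n : ℝ) + α + h) - Real.log ((n : ℝ) + α)) with hD
    have hcomb : τ / (2 * Real.pi) *
          (Real.log ((n : ℝ) + α + 2 + h) - Real.log ((n : ℝ) + α + 2)) -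
        2 * (τ / (2 * Real.pi) *
          (Real.log ((n : ℝ) + α + 1 + h) - Real.log ((n : ℝ) + α + 1))) +
        τ / (2 * Real.pi) *
          (Real.log ((n : ℝ) + α + h) - Real.log ((n : ℝ) + α)) = τ / (2 * Real.pi) * D := by
      rw [hD]; ring
    rw [hcomb]
    have hτ0 : 0 < τ := by rw [hτ]; positivity
    have hc0 : 0 < τ / (2 * Real.pi) := by positivity
    rw [hN6] at p1 p2
    constructor
    · calc lam ≤ τ / (2 * Real.pi) * (h / (14 * s ^ 6)) := by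
            rw [hlam, hτ, div_mul_div_comm]
            apply div_le_div_of_nonneg_left (by positivity) (by positivity)
            nlinarith [pow_pos hs 6]
        _ ≤ τ / (2 * Real.pi) * D := mul_le_mul_of_nonneg_left p1 hc0.le
    · calc τ / (2 * Real.pi) * D ≤ τ / (2 * Real.pi) * (2 * h / s ^ 6) :=
            mul_le_mul_of_nonneg_left p2 hc0.le
        _ ≤ 34 * lam := by
            rw [hlam, hτ, div_mul_div_comm, ← mul_div_assoc, div_le_div_iff₀ (by positivity)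
              (by positivity)]
            have h6 : 0 < t ^ 6 * h * s ^ 6 := by positivity
            nlinarith [mul_lt_mul_of_pos_left hpi h6])
  refine hmain.trans ?_
  have hcast : (((N + M - h : ℕ) : ℝ) - (N : ℝ)) ≤ s ^ 2 := by
    rw [← hsN]
    have h1 : ((N + M - h : ℕ) : ℝ) ≤ ((N + N : ℕ) : ℝ) := by
      exact_mod_cast (by omega : N + M - h ≤ N + N)
    push_cast at h1
    linarith
  have hfin : (((N + M - h : ℕ) : ℝ) - (N : ℝ)) * √lam + (√lam)⁻¹ ≤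
      t ^ 3 / (10 * s) * √(h : ℝ) + 10 * s ^ 3 / t ^ 3 * (√(h : ℝ))⁻¹ := by
    have hA : (((N + M - h : ℕ) : ℝ) - (N : ℝ)) * √lam ≤ t ^ 3 / (10 * s) * √(h : ℝ) := by
      calc (((N + M - h : ℕ) : ℝ) - (N : ℝ)) * √lam ≤ s ^ 2 * √lam :=
            mul_le_mul_of_nonneg_right hcast (Real.sqrt_nonneg _)
        _ = t ^ 3 / (10 * s) * √(h : ℝ) := by rw [hsq]; field_simp
    have hB : (√lam)⁻¹ = 10 * s ^ 3 / t ^ 3 * (√(h : ℝ))⁻¹ := by rw [hsq]; field_simp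
    rw [hB]
    linarith
  calc C0 * 34 * ((((N + M - h : ℕ) : ℝ) - (N : ℝ)) * √lam + (√lam)⁻¹)
      = 34 * C0 * ((((N + M - h : ℕ) : ℝ) - (N : ℝ)) * √lam + (√lam)⁻¹) := by ring
    _ ≤ _ := mul_le_mul_of_nonneg_left hfin (by positivity)

theorem first_bd (M s r t : ℝ) (hM0 : 0 ≤ M) (hMs : M ≤ s ^ 2) (hr0 : 0 < r)
    (hsr : s ^ 2 ≤ 2 * (r * t) ^ 2) : 2 * M ^ 2 / r ^ 2 ≤ 4 * (s ^ 2 * t ^ 2) := by
  rw [div_le_iff₀ (by positivity)]
  have h1 : M ^ 2 ≤ (s ^ 2) ^ 2 := pow_le_pow_left₀ hM0 hMs 2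
  have h2 : (s ^ 2) * (s ^ 2) ≤ s ^ 2 * (2 * (r * t) ^ 2) :=
    mul_le_mul_of_nonneg_left hsr (by positivity)
  nlinarith

theorem second_bd (C0 M s r t : ℝ) (hC0 : 0 < C0) (hMs : M ≤ s ^ 2) (hs : 0 < s) (hr0 : 0 < r)
    (ht0 : 0 < t) (hrs : r * t ≤ s) (hsr' : s ≤ 2 * (r * t)) :
    4 * M / r ^ 2 * (34 * C0 * (t ^ 3 / (10 * s) * r ^ 3 + 10 * s ^ 3 / t ^ 3 * (2 * r))) ≤
      C0 * (14 * (s ^ 2 * t ^ 2) + 5440 * (s ^ 4 / t ^ 2)) := by
  have h1 : 4 * M / r ^ 2 ≤ 4 * s ^ 2 / r ^ 2 := by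
    apply div_le_div_of_nonneg_right _ (by positivity)
    linarith
  have h2 : 4 * s ^ 2 / r ^ 2 *
      (34 * C0 * (t ^ 3 / (10 * s) * r ^ 3 + 10 * s ^ 3 / t ^ 3 * (2 * r))) =
      C0 * (136 / 10 * (s * t ^ 3 * r) + 2720 * (s ^ 5 / (t ^ 3 * r))) := by
    field_simp
    ring
  have h3 : 136 / 10 * (s * t ^ 3 * r) ≤ 14 * (s ^ 2 * t ^ 2) := by
    have h2 : s * t ^ 2 * (r * t) ≤ s * t ^ 2 * s :=
      mul_le_mul_of_nonneg_left hrs (by positivity)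
    have h3 : 0 ≤ s ^ 2 * t ^ 2 := by positivity
    nlinarith
  have h4 : s ^ 5 / (t ^ 3 * r) ≤ 2 * (s ^ 4 / t ^ 2) := by
    rw [← mul_div_assoc, div_le_div_iff₀ (by positivity) (by positivity)]
    have h3 : s ^ 4 * t ^ 2 * s ≤ s ^ 4 * t ^ 2 * (2 * (r * t)) :=
      mul_le_mul_of_nonneg_left hsr' (by positivity)
    nlinarith
  refine (mul_le_mul_of_nonneg_right h1 (by positivity)).trans ?_
  rw [h2]
  apply mul_le_mul_of_nonneg_left _ hC0.le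
  linarith

theorem fin_bd (C0 X Y : ℝ) (hC0 : 0 ≤ C0) (hX : 0 ≤ X) (hY : 0 ≤ Y) :
    4 * X + C0 * (14 * X + 5440 * Y) ≤ (4 + 5440 * C0) * (X + Y) := by
  have h1 := mul_nonneg hC0 hX
  have e : (4 + 5440 * C0) * (X + Y) =
      4 * X + C0 * (14 * X + 5440 * Y) + (4 * Y + 5426 * (C0 * X)) := by ring
  rw [e]
  linarith

/-- the core estimate -/
theorem core : ∃ C1 : ℝ, 1 ≤ C1 ∧ ∀ (α τ t : ℝ) (N M : ℕ), 0 ≤ α → α ≤ 1 → 1 ≤ t → τ = t ^ 6 →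
    1 ≤ N → M ≤ N → ‖∑ n ∈ Ico N (N + M), zz α τ n‖ ^ 2 ≤
      C1 * ((N : ℝ) * t ^ 2 + (N : ℝ) ^ 2 / t ^ 2) := by
  obtain ⟨C0, hC0, hC⟩ := sdt
  refine ⟨4 + 5440 * C0, by linarith, ?_⟩
  intro α τ t N M hα hα1 ht hτ hN hMN
  have ht0 : 0 < t := by linarith
  have hN1 : (1 : ℝ) ≤ (N : ℝ) := by exact_mod_cast hN
  have hMN' : (M : ℝ) ≤ (N : ℝ) := by exact_mod_cast hMN
  have htriv := norm_sum_zz α τ N M
  have hS0 : 0 ≤ ‖∑ n ∈ Ico N (N + M), zz α τ n‖ := norm_nonneg _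
  obtain ⟨s, hsdef⟩ : ∃ s, s = √(N : ℝ) := ⟨_, rfl⟩
  have hs : 0 < s := by rw [hsdef]; exact Real.sqrt_pos.2 (by linarith)
  have hsN : (N : ℝ) = s ^ 2 := by rw [hsdef, Real.sq_sqrt (by linarith)]
  have ht2 : 0 < t ^ 2 := by positivity
  have hX : 0 ≤ (N : ℝ) * t ^ 2 := by positivity
  have hY : 0 ≤ (N : ℝ) ^ 2 / t ^ 2 := by positivity
  by_cases hB1 : (N : ℝ) < t ^ 2
  · -- `N < T^(1/3)`
    calc ‖∑ n ∈ Ico N (N + M), zz α τ n‖ ^ 2 ≤ (N : ℝ) ^ 2 :=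
          pow_le_pow_left₀ hS0 (htriv.trans hMN') 2
      _ ≤ (N : ℝ) * t ^ 2 := by nlinarith
      _ ≤ (4 + 5440 * C0) * ((N : ℝ) * t ^ 2 + (N : ℝ) ^ 2 / t ^ 2) := by
          nlinarith [mul_nonneg hC0.le hX, mul_nonneg hC0.le hY]
  · push Not at hB1
    obtain ⟨H, hHdef⟩ : ∃ H, H = ⌊(N : ℝ) / t ^ 2⌋₊ := ⟨_, rfl⟩
    have hq1 : 1 ≤ (N : ℝ) / t ^ 2 := by rw [le_div_iff₀ ht2]; linarith
    have hH1 : 1 ≤ H := by rw [hHdef]; exact (Nat.one_le_floor_iff _).2 hq1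
    have hHle : (H : ℝ) ≤ (N : ℝ) / t ^ 2 := by rw [hHdef]; exact Nat.floor_le (by positivity)
    have hHge : (N : ℝ) / t ^ 2 < (H : ℝ) + 1 := by rw [hHdef]; exact Nat.lt_floor_add_one _
    have hH1' : (1 : ℝ) ≤ (H : ℝ) := by exact_mod_cast hH1
    by_cases hMH : M < H
    · have h1 : (M : ℝ) ≤ (H : ℝ) := by exact_mod_cast hMH.le
      have h2 : (N : ℝ) / t ^ 2 ≤ (N : ℝ) / t := by
        apply div_le_div_of_nonneg_left (by positivity) ht0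
        nlinarith
      calc ‖∑ n ∈ Ico N (N + M), zz α τ n‖ ^ 2 ≤ ((N : ℝ) / t) ^ 2 :=
            pow_le_pow_left₀ hS0 (by linarith) 2
        _ = (N : ℝ) ^ 2 / t ^ 2 := by rw [div_pow]
        _ ≤ (4 + 5440 * C0) * ((N : ℝ) * t ^ 2 + (N : ℝ) ^ 2 / t ^ 2) := by
            nlinarith [mul_nonneg hC0.le hX, mul_nonneg hC0.le hY]
    · push Not at hMH
      have hw := wvc (zz α τ) (fun n => (norm_zz α τ n).le) N (N + M) H hH1 (by omega)
      have e1 : (((N + M : ℕ) : ℝ) - (N : ℝ)) = (M : ℝ) := by push_cast; ring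
      rw [e1] at hw
      obtain ⟨r, hr⟩ : ∃ r, r = √(H : ℝ) := ⟨_, rfl⟩
      have hr0 : 0 < r := by rw [hr]; exact Real.sqrt_pos.2 (by linarith)
      have hrH : (H : ℝ) = r ^ 2 := by rw [hr, Real.sq_sqrt (by linarith)]
      have hsum : ∑ h ∈ Ico 1 H, ‖∑ n ∈ Ico N (N + M - h), zz α τ (n + h) * conj (zz α τ n)‖ ≤
          34 * C0 * (t ^ 3 / (10 * s) * r ^ 3 + 10 * s ^ 3 / t ^ 3 * (2 * r)) := by
        calc ∑ h ∈ Ico 1 H, ‖∑ n ∈ Ico N (N + M - h), zz α τ (n + h) * conj (zz α τ n)‖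
            ≤ ∑ h ∈ Ico 1 H, 34 * C0 * (t ^ 3 / (10 * s) * √(h : ℝ) +
                10 * s ^ 3 / t ^ 3 * (√(h : ℝ))⁻¹) := by
              apply Finset.sum_le_sum
              intro h hh
              have hh' := Finset.mem_Ico.1 hh
              exact inner_bd C0 hC0 hC α τ t s N M h hα hα1 hN hMN hh'.1 (by omega) ht0 hτ hs hsN
          _ = 34 * C0 * (t ^ 3 / (10 * s) * (∑ h ∈ Ico 1 H, √(h : ℝ)) +
                10 * s ^ 3 / t ^ 3 * (∑ h ∈ Ico 1 H, (√(h : ℝ))⁻¹)) := by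
              rw [← Finset.mul_sum, Finset.sum_add_distrib, ← Finset.mul_sum, ← Finset.mul_sum]
          _ ≤ 34 * C0 * (t ^ 3 / (10 * s) * r ^ 3 + 10 * s ^ 3 / t ^ 3 * (2 * r)) := by
              apply mul_le_mul_of_nonneg_left _ (by positivity)
              apply add_le_add
              · apply mul_le_mul_of_nonneg_left _ (by positivity)
                have := sum_sqrt_le H
                rw [← hr, hrH] at this
                calc _ ≤ r ^ 2 * r := this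
                  _ = r ^ 3 := by ring
              · apply mul_le_mul_of_nonneg_left _ (by positivity)
                have := sum_inv_sqrt H
                rw [← hr] at this
                exact this
      -- bounds for `r`
      have hrs : r * t ≤ s := by
        have h1 : (r * t) ^ 2 ≤ s ^ 2 := by
          rw [mul_pow, ← hrH, ← hsN]
          rwa [le_div_iff₀ ht2] at hHle
        exact le_of_sq_le_sq h1 hs.le
      have hsr : s ^ 2 ≤ 2 * (r * t) ^ 2 := by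
        rw [div_lt_iff₀ ht2, hsN, hrH] at hHge
        rw [hrH] at hH1'
        nlinarith
      have hsr' : s ≤ 2 * (r * t) := by
        apply le_of_sq_le_sq _ (by positivity)
        nlinarith [sq_nonneg (r * t)]
      have hM0 : (0 : ℝ) ≤ (M : ℝ) := Nat.cast_nonneg _
      have hMs : (M : ℝ) ≤ s ^ 2 := by rw [← hsN]; exact hMN'
      have hfirst : 2 * (M : ℝ) ^ 2 / H ≤ 4 * (s ^ 2 * t ^ 2) := by
        rw [hrH]; exact first_bd _ s r t hM0 hMs hr0 hsr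
      have hsecond : 4 * (M : ℝ) / H *
          (34 * C0 * (t ^ 3 / (10 * s) * r ^ 3 + 10 * s ^ 3 / t ^ 3 * (2 * r))) ≤
          C0 * (14 * (s ^ 2 * t ^ 2) + 5440 * (s ^ 4 / t ^ 2)) := by
        rw [hrH]; exact second_bd C0 _ s r t hC0 hMs hs hr0 ht0 hrs hsr'
      have h3 : 4 * (M : ℝ) / H *
          ∑ h ∈ Ico 1 H, ‖∑ n ∈ Ico N (N + M - h), zz α τ (n + h) * conj (zz α τ n)‖ ≤
          4 * (M : ℝ) / H *
          (34 * C0 * (t ^ 3 / (10 * s) * r ^ 3 + 10 * s ^ 3 / t ^ 3 * (2 * r))) :=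
        mul_le_mul_of_nonneg_left hsum (by positivity)
      have h4 : ‖∑ n ∈ Ico N (N + M), zz α τ n‖ ^ 2 ≤
          4 * (s ^ 2 * t ^ 2) + C0 * (14 * (s ^ 2 * t ^ 2) + 5440 * (s ^ 4 / t ^ 2)) := by
        linarith
      refine h4.trans ?_
      have e3 : (N : ℝ) ^ 2 / t ^ 2 = s ^ 4 / t ^ 2 := by rw [hsN]; ring
      rw [e3, hsN]
      exact fin_bd C0 _ _ hC0.le (by positivity) (by positivity)

theorem bl3_pos : ∃ C : ℝ, 0 < C ∧ ∀ (α τ : ℝ) (N M : ℕ), 0 ≤ τ → 0 ≤ α → α ≤ 1 → 1 ≤ N → M ≤ N →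
    ‖∑ n ∈ Ico N (N + M), zz α τ n‖ ≤
      C * ((N : ℝ) ^ (1 / 2 : ℝ) * (1 + |τ|) ^ (1 / 6 : ℝ) +
        (N : ℝ) * (1 + |τ|) ^ (-(1 / 6) : ℝ)) := by
  obtain ⟨C1, hC1, hC⟩ := core
  refine ⟨2 * C1, by linarith, ?_⟩
  intro α τ N M hτ hα hα1 hN hMN
  have hN1 : (1 : ℝ) ≤ (N : ℝ) := by exact_mod_cast hN
  have hMN' : (M : ℝ) ≤ (N : ℝ) := by exact_mod_cast hMN
  have htriv := (norm_sum_zz α τ N M).trans hMN'
  have hS0 : 0 ≤ ‖∑ n ∈ Ico N (N + M), zz α τ n‖ := norm_nonneg _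
  rw [abs_of_nonneg hτ]
  obtain ⟨u, hu⟩ : ∃ u, u = (1 + τ) ^ (1 / 6 : ℝ) := ⟨_, rfl⟩
  have hu1 : 1 ≤ u := by rw [hu]; exact Real.one_le_rpow (by linarith) (by norm_num)
  have hu6 : u ^ 6 = 1 + τ := by
    rw [hu, ← Real.rpow_natCast, ← Real.rpow_mul (by linarith)]
    norm_num
  have hui : (1 + τ) ^ (-(1 / 6) : ℝ) = u⁻¹ := by
    rw [hu, Real.rpow_neg (by linarith)]
  obtain ⟨s, hsdef⟩ : ∃ s, s = (N : ℝ) ^ (1 / 2 : ℝ) := ⟨_, rfl⟩
  have hsdef' : s = √(N : ℝ) := by rw [hsdef, Real.sqrt_eq_rpow]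
  have hs : 0 < s := by rw [hsdef']; exact Real.sqrt_pos.2 (by linarith)
  have hsN : (N : ℝ) = s ^ 2 := by rw [hsdef', Real.sq_sqrt (by linarith)]
  rw [hui, ← hu, ← hsdef]
  have hu0 : 0 < u := by linarith
  rcases le_total τ 1 with h1 | h1
  · have hu2 : u ≤ 2 := by
      by_contra hcon
      push Not at hcon
      have : (2 : ℝ) ^ 6 < u ^ 6 := pow_lt_pow_left₀ hcon (by norm_num) (by norm_num)
      rw [hu6] at this
      linarith
    have h3 : (1 : ℝ) / 2 ≤ u⁻¹ := by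
      rw [one_div]
      exact inv_anti₀ hu0 hu2
    have h4 : 0 ≤ s * u := by positivity
    have h5 : (N : ℝ) ≤ 2 * ((N : ℝ) * u⁻¹) := by nlinarith
    have h6 : 0 ≤ (N : ℝ) * u⁻¹ := by positivity
    nlinarith [mul_nonneg (sub_nonneg.2 hC1) h4, mul_nonneg (sub_nonneg.2 hC1) h6]
  · obtain ⟨t, ht⟩ : ∃ t, t = τ ^ (1 / 6 : ℝ) := ⟨_, rfl⟩
    have ht1 : 1 ≤ t := by rw [ht]; exact Real.one_le_rpow h1 (by norm_num)
    have ht6 : τ = t ^ 6 := by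
      rw [ht, ← Real.rpow_natCast, ← Real.rpow_mul (by linarith)]
      norm_num
    have ht0 : 0 < t := by linarith
    have htu : t ≤ u := by
      rw [ht, hu]
      exact Real.rpow_le_rpow (by linarith) (by linarith) (by norm_num)
    have hut : u ≤ 2 * t := by
      by_contra hcon
      push Not at hcon
      have h2 : (2 * t) ^ 6 < u ^ 6 := pow_lt_pow_left₀ hcon (by positivity) (by norm_num)
      rw [hu6, mul_pow, ← ht6] at h2
      linarith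
    have h2 := hC α τ t N M hα hα1 ht1 ht6 hN hMN
    have h3 : ‖∑ n ∈ Ico N (N + M), zz α τ n‖ ≤ C1 * (s * t + s ^ 2 / t) := by
      apply le_of_sq_le_sq _ (by positivity)
      refine h2.trans ?_
      have e1 : (N : ℝ) * t ^ 2 + (N : ℝ) ^ 2 / t ^ 2 = (s * t) ^ 2 + (s ^ 2 / t) ^ 2 := by
        rw [hsN]; ring
      rw [e1]
      have h5 : 0 ≤ s * t * (s ^ 2 / t) := by positivity
      have h6 : (s * t) ^ 2 + (s ^ 2 / t) ^ 2 ≤ (s * t + s ^ 2 / t) ^ 2 := by nlinarith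
      have h7 : C1 ≤ C1 ^ 2 := by nlinarith
      have h8 : 0 ≤ (s * t + s ^ 2 / t) ^ 2 := sq_nonneg _
      calc C1 * ((s * t) ^ 2 + (s ^ 2 / t) ^ 2) ≤ C1 * (s * t + s ^ 2 / t) ^ 2 :=
            mul_le_mul_of_nonneg_left h6 (by linarith)
        _ ≤ C1 ^ 2 * (s * t + s ^ 2 / t) ^ 2 := mul_le_mul_of_nonneg_right h7 h8
        _ = (C1 * (s * t + s ^ 2 / t)) ^ 2 := by ring
    refine h3.trans ?_
    have h4 : s * t ≤ s * u := mul_le_mul_of_nonneg_left htu hs.le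
    have h5 : s ^ 2 / t ≤ 2 * ((N : ℝ) * u⁻¹) := by
      rw [hsN, ← div_eq_mul_inv, ← mul_div_assoc, div_le_div_iff₀ ht0 hu0]
      nlinarith [mul_le_mul_of_nonneg_left hut (by positivity : (0 : ℝ) ≤ s ^ 2)]
    have h6 : 0 ≤ s * u := by positivity
    have h7 : s * t + s ^ 2 / t ≤ 2 * (s * u + (N : ℝ) * u⁻¹) := by linarith
    calc C1 * (s * t + s ^ 2 / t) ≤ C1 * (2 * (s * u + (N : ℝ) * u⁻¹)) :=
          mul_le_mul_of_nonneg_left h7 (by linarith)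
      _ = 2 * C1 * (s * u + (N : ℝ) * u⁻¹) := by ring

theorem bl3 : ∃ C : ℝ, 0 < C ∧ ∀ (α τ : ℝ) (N M : ℕ), 0 ≤ α → α ≤ 1 → 1 ≤ N → M ≤ N →
    ‖∑ n ∈ Ico N (N + M), cexp (((τ * Real.log ((n : ℝ) + α) : ℝ) : ℂ) * I)‖ ≤
      C * ((N : ℝ) ^ (1 / 2 : ℝ) * (1 + |τ|) ^ (1 / 6 : ℝ) +
        (N : ℝ) * (1 + |τ|) ^ (-(1 / 6) : ℝ)) := by
  obtain ⟨C, hC0, hC⟩ := bl3_pos
  refine ⟨C, hC0, ?_⟩
  intro α τ N M hα hα1 hN hMN
  rcases le_total 0 τ with h | h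
  · exact hC α τ N M h hα hα1 hN hMN
  · have h1 := hC α (-τ) N M (by linarith) hα hα1 hN hMN
    rw [abs_neg] at h1
    have e : ‖∑ n ∈ Ico N (N + M), cexp (((τ * Real.log ((n : ℝ) + α) : ℝ) : ℂ) * I)‖ =
        ‖∑ n ∈ Ico N (N + M), zz α (-τ) n‖ := by
      rw [← Complex.norm_conj, map_sum]
      congr 1
      apply Finset.sum_congr rfl
      intro n _
      unfold zz
      rw [← Complex.exp_conj, map_mul, Complex.conj_ofReal, Complex.conj_I]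
      congr 1
      push_cast
      ring
    rw [e]
    exact h1

end WYL
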