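import Pool.Agent.WYL.Per
import Pool.Agent.HYM.Blk

set_option autoImplicit false

/-!
# WYL/Dir: Dirichlet blocks of a function of degree one

`dsum (Z.blk k) (ln (1 - c) τ) = ∑_{2^k ≤ n < 2^(k+1)} conj (g n) n^(-c) n^(i (τ - θ))`; partial
summation with the decreasing weights `n^(-c)`, `per` for `conj g`, and `(1+|τ-θ|)` against
`(1+|τ|)` up to the factor `1 + |θ|`. The tail (`c > 1`): `tl K = ∑_{K ≤ k < L} blk k + tl L`,
geometric series, and `‖dsum (tl L) (ln (1-c) τ)‖ → 0` as `L → ∞`.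
-/

open Complex Finset

open scoped ComplexConjugate

namespace WYL

/-- Periodic coefficients up to a twist `n^(iθ)`: the members of degree one are of this form. -/
def Lin (Z : HYM.Sel) : Prop :=
  ∃ (q : ℕ) (g : ℕ → ℂ) (θ : ℝ), 1 ≤ q ∧ (∀ n, g (n + q) = g n) ∧
    ∀ n, 1 ≤ n → Z.f n = g n * (n : ℂ) ^ ((θ : ℂ) * I)

namespace Dir

/-- Abel's inequality with decreasing weights. -/
theorem abel (w : ℕ → ℝ) (z : ℕ → ℂ) (B : ℝ) (L : ℕ) (hw : ∀ m, m < L → w (m + 1) ≤ w m)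
    (hw0 : 0 ≤ w L) (hz : ∀ M, M ≤ L → ‖∑ m ∈ range M, z m‖ ≤ B) :
    ‖∑ m ∈ range L, (w m : ℂ) * z m‖ ≤ w 0 * B := by
  have key : ∀ M, M ≤ L → ‖∑ m ∈ range M, (w m : ℂ) * z m - (w M : ℂ) * ∑ m ∈ range M, z m‖ ≤
      (w 0 - w M) * B := by
    intro M
    induction M with
    | zero => simp
    | succ M ih =>
      intro hM
      have h1 := ih (by omega)
      have e : ∑ m ∈ range (M + 1), (w m : ℂ) * z m - (w (M + 1) : ℂ) * ∑ m ∈ range (M + 1), z m =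
          (∑ m ∈ range M, (w m : ℂ) * z m - (w M : ℂ) * ∑ m ∈ range M, z m) +
            ((w M - w (M + 1) : ℝ) : ℂ) * ∑ m ∈ range (M + 1), z m := by
        rw [sum_range_succ, sum_range_succ]
        push_cast
        ring
      rw [e]
      have h2 := hw M (by omega)
      have h3 : ‖((w M - w (M + 1) : ℝ) : ℂ) * ∑ m ∈ range (M + 1), z m‖ ≤ (w M - w (M + 1)) * B := by
        rw [norm_mul, Complex.norm_real, Real.norm_of_nonneg (by linarith)]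
        exact mul_le_mul_of_nonneg_left (hz (M + 1) hM) (by linarith)
      calc _ ≤ _ := norm_add_le _ _
        _ ≤ (w 0 - w M) * B + (w M - w (M + 1)) * B := add_le_add h1 h3
        _ = _ := by ring
  have h := key L le_rfl
  have h2 : ‖(w L : ℂ) * ∑ m ∈ range L, z m‖ ≤ w L * B := by
    rw [norm_mul, Complex.norm_real, Real.norm_of_nonneg hw0]
    exact mul_le_mul_of_nonneg_left (hz L le_rfl) hw0
  calc ‖∑ m ∈ range L, (w m : ℂ) * z m‖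
      = ‖(∑ m ∈ range L, (w m : ℂ) * z m - (w L : ℂ) * ∑ m ∈ range L, z m) +
          (w L : ℂ) * ∑ m ∈ range L, z m‖ := by rw [sub_add_cancel]
    _ ≤ (w 0 - w L) * B + w L * B := (norm_add_le _ _).trans (add_le_add h h2)
    _ = _ := by ring

theorem shift_le (θ τ : ℝ) : 1 + |τ - θ| ≤ (1 + |θ|) * (1 + |τ|) := by
  have h1 : |τ - θ| ≤ |τ| + |θ| := abs_sub _ _
  nlinarith [abs_nonneg τ, abs_nonneg θ]

theorem shift_pos (θ τ : ℝ) : (1 + |τ - θ|) ^ (1 / 6 : ℝ) ≤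
    (1 + |θ|) ^ (1 / 6 : ℝ) * (1 + |τ|) ^ (1 / 6 : ℝ) := by
  rw [← Real.mul_rpow (by positivity) (by positivity)]
  exact Real.rpow_le_rpow (by positivity) (shift_le θ τ) (by norm_num)

theorem shift_neg (θ τ : ℝ) : (1 + |τ - θ|) ^ (-(1 / 6) : ℝ) ≤
    (1 + |θ|) ^ (1 / 6 : ℝ) * (1 + |τ|) ^ (-(1 / 6) : ℝ) := by
  have h0 : (0 : ℝ) < 1 + |τ - θ| := by positivity
  have h1 : (0 : ℝ) < 1 + |τ| := by positivity
  have h2 : (0 : ℝ) < 1 + |θ| := by positivity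
  have h := shift_pos (-θ) (τ - θ)
  rw [abs_neg, sub_neg_eq_add, sub_add_cancel] at h
  rw [Real.rpow_neg h0.le, Real.rpow_neg h1.le]
  rw [← div_eq_mul_inv, le_div_iff₀ (by positivity), inv_mul_le_iff₀ (by positivity)]
  linarith

/-- the block as a finite sum -/
theorem dsum_blk (Z : HYM.Sel) (k : ℕ) (s : ℂ) :
    HYM.dsum (Z.blk k) s =
      ∑ m ∈ range (2 ^ k), conj (Z.f (2 ^ k + m)) * ((2 ^ k + m : ℕ) : ℂ) ^ (s - 1) := by
  have h1 : HYM.dsum (Z.blk k) s =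
      ∑ n ∈ Ico (2 ^ k) (2 ^ k + 2 ^ k), conj (Z.f n) * (n : ℂ) ^ (s - 1) := by
    unfold HYM.dsum
    rw [tsum_eq_sum (s := Ico (2 ^ k) (2 ^ k + 2 ^ k))]
    · apply sum_congr rfl
      intro n hn
      rw [mem_Ico] at hn
      unfold HYM.Sel.blk
      rw [if_pos ⟨hn.1, by rw [pow_succ]; omega⟩]
    · intro n hn
      rw [mem_Ico] at hn
      unfold HYM.Sel.blk
      rw [if_neg (by rw [pow_succ]; omega), zero_mul]
  rw [h1, sum_Ico_eq_sum_range, Nat.add_sub_cancel]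

theorem term (Z : HYM.Sel) {g : ℕ → ℂ} {θ : ℝ}
    (hf : ∀ n, 1 ≤ n → Z.f n = g n * (n : ℂ) ^ ((θ : ℂ) * I)) (c τ : ℝ) {n : ℕ} (hn : 1 ≤ n) :
    conj (Z.f n) * (n : ℂ) ^ (HYM.ln (1 - c) τ - 1) =
      (((n : ℝ) ^ (-c) : ℝ) : ℂ) * (conj (g n) * (n : ℂ) ^ (((τ - θ : ℝ) : ℂ) * I)) := by
  have hn0 : (n : ℂ) ≠ 0 := by
    exact_mod_cast (show n ≠ 0 by omega)
  have h1 : conj ((n : ℂ) ^ ((θ : ℂ) * I)) = (n : ℂ) ^ (-((θ : ℂ) * I)) := by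
    have h := Complex.cpow_conj (n : ℂ) ((θ : ℂ) * I) (by
      rw [Complex.natCast_arg]
      exact Real.pi_pos.ne)
    rw [map_mul, Complex.conj_ofReal, Complex.conj_I, Complex.conj_natCast] at h
    rw [← h]
    congr 1
    ring
  rw [hf n hn, map_mul, h1, Complex.ofReal_cpow (by positivity), Complex.ofReal_natCast]
  have e : HYM.ln (1 - c) τ - 1 = ((-c : ℝ) : ℂ) + (τ : ℂ) * I := by
    unfold HYM.ln
    push_cast
    ring
  have e2 : (((τ - θ : ℝ) : ℂ) * I) = -((θ : ℂ) * I) + (τ : ℂ) * I := by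
    push_cast
    ring
  rw [e, e2, Complex.cpow_add _ _ hn0, Complex.cpow_add _ _ hn0]
  ring

/-- partial sums of a geometric series -/
theorem geo {e d : ℝ} (hd : d < 0) (hed : e ≤ d) (K L : ℕ) :
    ∑ k ∈ Ico K L, ((2 : ℝ) ^ k) ^ e ≤ (1 - 2 ^ d)⁻¹ * ((2 : ℝ) ^ K) ^ e := by
  have hr : ∀ k : ℕ, ((2 : ℝ) ^ k) ^ e = ((2 : ℝ) ^ e) ^ k := by
    intro k
    rw [← Real.rpow_natCast, ← Real.rpow_natCast, ← Real.rpow_mul (by norm_num),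
      ← Real.rpow_mul (by norm_num), mul_comm]
  have h0 : (0 : ℝ) < (2 : ℝ) ^ e := by positivity
  have h1 : (2 : ℝ) ^ e ≤ (2 : ℝ) ^ d := Real.rpow_le_rpow_of_exponent_le (by norm_num) hed
  have h2 : (2 : ℝ) ^ d < 1 := Real.rpow_lt_one_of_one_lt_of_neg (by norm_num) hd
  rw [hr K, sum_Ico_eq_sum_range]
  have h3 : ∑ k ∈ range (L - K), ((2 : ℝ) ^ (K + k)) ^ e =
      ((2 : ℝ) ^ e) ^ K * ∑ k ∈ range (L - K), ((2 : ℝ) ^ e) ^ k := by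
    rw [mul_sum]
    apply sum_congr rfl
    intro k _
    rw [hr, pow_add]
  rw [h3, mul_comm (1 - (2 : ℝ) ^ d)⁻¹]
  apply mul_le_mul_of_nonneg_left _ (by positivity)
  calc ∑ k ∈ range (L - K), ((2 : ℝ) ^ e) ^ k ≤ ∑' k : ℕ, ((2 : ℝ) ^ e) ^ k :=
        (summable_geometric_of_lt_one h0.le (by linarith)).sum_le_tsum _ (fun k _ => by positivity)
    _ = (1 - (2 : ℝ) ^ e)⁻¹ := tsum_geometric_of_lt_one h0.le (by linarith)
    _ ≤ (1 - (2 : ℝ) ^ d)⁻¹ := inv_anti₀ (by linarith) (by linarith)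

theorem tl_tendsto (Z : HYM.Sel) {s : ℂ} (hs : s.re < 0) :
    Filter.Tendsto (fun L : ℕ => HYM.dsum (Z.tl L) s) Filter.atTop (nhds 0) := by
  have h := tendsto_tsum_of_dominated_convergence (𝓕 := Filter.atTop)
    (f := fun (L n : ℕ) => Z.tl L n * (n : ℂ) ^ (s - 1)) (g := fun _ : ℕ => (0 : ℂ))
    (HYM.tl_summable Z 0 hs) (fun n => ?_) (Filter.Eventually.of_forall fun L n => ?_)
  · rwa [tsum_zero] at h
  · apply tendsto_const_nhds.congr'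
    filter_upwards [Filter.eventually_ge_atTop n] with L hL
    unfold HYM.Sel.tl
    rw [if_neg, zero_mul]
    have := hL.trans_lt (Nat.lt_two_pow_self)
    omega
  · rw [norm_mul, norm_mul]
    apply mul_le_mul_of_nonneg_right _ (norm_nonneg _)
    unfold HYM.Sel.tl
    by_cases h1 : 2 ^ L ≤ n
    · rw [if_pos h1, if_pos (by
        have : 0 < 2 ^ L := by positivity
        rw [pow_zero]
        omega)]
    · rw [if_neg h1, norm_zero]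
      exact norm_nonneg _

theorem tl_split (Z : HYM.Sel) {s : ℂ} (hs : s.re < 0) {K L : ℕ} (hKL : K ≤ L) :
    HYM.dsum (Z.tl K) s = (∑ k ∈ Ico K L, HYM.dsum (Z.blk k) s) + HYM.dsum (Z.tl L) s := by
  have h1 := HYM.dsum_split Z K hs
  have h2 := HYM.dsum_split Z L hs
  rw [h1, ← Finset.sum_range_add_sum_Ico _ hKL, add_assoc] at h2
  exact add_left_cancel h2

end Dir

open Dir in
theorem blk_bd (Z : HYM.Sel) (hZ : Lin Z) : ∃ C : ℝ, 0 < C ∧ ∀ (c τ : ℝ) (k : ℕ), 0 ≤ c →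
    ‖HYM.dsum (Z.blk k) (HYM.ln (1 - c) τ)‖ ≤
      C * (((2 : ℝ) ^ k) ^ (1 / 2 - c) * (1 + |τ|) ^ (1 / 6 : ℝ) +
        ((2 : ℝ) ^ k) ^ (1 - c) * (1 + |τ|) ^ (-(1 / 6) : ℝ)) := by
  obtain ⟨q, g, θ, hq, hg, hf⟩ := hZ
  obtain ⟨C, hC, hper⟩ := per (fun n => conj (g n)) q hq (fun n => by rw [hg])
  have hθ : (0 : ℝ) < (1 + |θ|) ^ (1 / 6 : ℝ) := by positivity
  refine ⟨C * (1 + |θ|) ^ (1 / 6 : ℝ), by positivity, fun c τ k hc => ?_⟩
  obtain ⟨N, hN⟩ : ∃ N : ℕ, 2 ^ k = N := ⟨_, rfl⟩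
  have hN1 : 1 ≤ N := by
    rw [← hN]
    exact Nat.one_le_two_pow
  have hNr : ((2 : ℝ) ^ k) = (N : ℝ) := by
    rw [← hN]
    push_cast
    rfl
  have hN0 : (0 : ℝ) < N := by exact_mod_cast hN1
  rw [dsum_blk, hN, hNr]
  have h1 : ∑ m ∈ range N, conj (Z.f (N + m)) * ((N + m : ℕ) : ℂ) ^ (HYM.ln (1 - c) τ - 1) =
      ∑ m ∈ range N, ((((N + m : ℕ) : ℝ) ^ (-c) : ℝ) : ℂ) *
        (conj (g (N + m)) * ((N + m : ℕ) : ℂ) ^ (((τ - θ : ℝ) : ℂ) * I)) := by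
    apply sum_congr rfl
    intro m _
    exact term Z hf c τ (by omega)
  rw [h1]
  refine (abel (fun m => ((N + m : ℕ) : ℝ) ^ (-c))
    (fun m => conj (g (N + m)) * ((N + m : ℕ) : ℂ) ^ (((τ - θ : ℝ) : ℂ) * I))
    (C * ((N : ℝ) ^ (1 / 2 : ℝ) * (1 + |τ - θ|) ^ (1 / 6 : ℝ) +
        (N : ℝ) * (1 + |τ - θ|) ^ (-(1 / 6) : ℝ))) N ?_ (by positivity) ?_).trans ?_
  · intro m _
    apply Real.rpow_le_rpow_of_nonpos (by push_cast; positivity) (by push_cast; linarith)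
      (by linarith)
  · intro M hM
    have h := hper (τ - θ) N M hN1 hM
    rwa [sum_Ico_eq_sum_range, Nat.add_sub_cancel_left] at h
  · have e1 : (N : ℝ) ^ (-c) * (N : ℝ) ^ (1 / 2 : ℝ) = (N : ℝ) ^ (1 / 2 - c) := by
      rw [← Real.rpow_add hN0]
      congr 1
      ring
    have e2 : (N : ℝ) ^ (-c) * (N : ℝ) = (N : ℝ) ^ (1 - c) := by
      nth_rewrite 2 [← Real.rpow_one (N : ℝ)]
      rw [← Real.rpow_add hN0]
      congr 1
      ring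
    have e3 := shift_pos θ τ
    have e4 := shift_neg θ τ
    have p1 : 0 < (N : ℝ) ^ (1 / 2 - c) := by positivity
    have p2 : 0 < (N : ℝ) ^ (1 - c) := by positivity
    rw [Nat.add_zero]
    calc (N : ℝ) ^ (-c) * (C * ((N : ℝ) ^ (1 / 2 : ℝ) * (1 + |τ - θ|) ^ (1 / 6 : ℝ) +
          (N : ℝ) * (1 + |τ - θ|) ^ (-(1 / 6) : ℝ)))
        = C * (((N : ℝ) ^ (-c) * (N : ℝ) ^ (1 / 2 : ℝ)) * (1 + |τ - θ|) ^ (1 / 6 : ℝ) +
          ((N : ℝ) ^ (-c) * (N : ℝ)) * (1 + |τ - θ|) ^ (-(1 / 6) : ℝ)) := by ring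
      _ = C * ((N : ℝ) ^ (1 / 2 - c) * (1 + |τ - θ|) ^ (1 / 6 : ℝ) +
          (N : ℝ) ^ (1 - c) * (1 + |τ - θ|) ^ (-(1 / 6) : ℝ)) := by rw [e1, e2]
      _ ≤ C * ((N : ℝ) ^ (1 / 2 - c) * ((1 + |θ|) ^ (1 / 6 : ℝ) * (1 + |τ|) ^ (1 / 6 : ℝ)) +
          (N : ℝ) ^ (1 - c) * ((1 + |θ|) ^ (1 / 6 : ℝ) * (1 + |τ|) ^ (-(1 / 6) : ℝ))) := by
          apply mul_le_mul_of_nonneg_left _ hC.le
          exact add_le_add (mul_le_mul_of_nonneg_left e3 p1.le)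
            (mul_le_mul_of_nonneg_left e4 p2.le)
      _ = _ := by ring

open Dir in
theorem tl_bd (Z : HYM.Sel) (hZ : Lin Z) (c : ℝ) (hc : 1 < c) :
    ∃ C : ℝ, 0 < C ∧ ∀ (τ : ℝ) (K : ℕ),
    ‖HYM.dsum (Z.tl K) (HYM.ln (1 - c) τ)‖ ≤
      C * (((2 : ℝ) ^ K) ^ (1 / 2 - c) * (1 + |τ|) ^ (1 / 6 : ℝ) +
        ((2 : ℝ) ^ K) ^ (1 - c) * (1 + |τ|) ^ (-(1 / 6) : ℝ)) := by
  obtain ⟨C, hC, hblk⟩ := blk_bd Z hZ
  have hd : (1 - c) < 0 := by linarith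
  have h2 : (2 : ℝ) ^ (1 - c) < 1 := Real.rpow_lt_one_of_one_lt_of_neg (by norm_num) hd
  have hD : 0 < (1 - (2 : ℝ) ^ (1 - c))⁻¹ := inv_pos.2 (by linarith)
  refine ⟨C * (1 - (2 : ℝ) ^ (1 - c))⁻¹, by positivity, fun τ K => ?_⟩
  have hs : (HYM.ln (1 - c) τ).re < 0 := by
    rw [HYM.ln_re]
    exact hd
  have hb : ∀ L, K ≤ L → ‖HYM.dsum (Z.tl K) (HYM.ln (1 - c) τ)‖ ≤
      C * (1 - (2 : ℝ) ^ (1 - c))⁻¹ * (((2 : ℝ) ^ K) ^ (1 / 2 - c) * (1 + |τ|) ^ (1 / 6 : ℝ) +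
        ((2 : ℝ) ^ K) ^ (1 - c) * (1 + |τ|) ^ (-(1 / 6) : ℝ)) +
        ‖HYM.dsum (Z.tl L) (HYM.ln (1 - c) τ)‖ := by
    intro L hL
    rw [tl_split Z hs hL]
    refine (norm_add_le _ _).trans (add_le_add_left ?_ _)
    refine (norm_sum_le _ _).trans ?_
    refine (sum_le_sum fun k _ => hblk c τ k (by linarith)).trans ?_
    rw [← mul_sum, sum_add_distrib, ← sum_mul, ← sum_mul, mul_assoc]
    apply mul_le_mul_of_nonneg_left _ hC.le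
    rw [mul_add, ← mul_assoc, ← mul_assoc]
    exact add_le_add
      (mul_le_mul_of_nonneg_right (geo hd (by linarith) K L) (by positivity))
      (mul_le_mul_of_nonneg_right (geo hd le_rfl K L) (by positivity))
  have ht := (tl_tendsto Z hs).norm
  rw [norm_zero] at ht
  have ht2 := (tendsto_const_nhds (x := C * (1 - (2 : ℝ) ^ (1 - c))⁻¹ *
    (((2 : ℝ) ^ K) ^ (1 / 2 - c) * (1 + |τ|) ^ (1 / 6 : ℝ) +
        ((2 : ℝ) ^ K) ^ (1 - c) * (1 + |τ|) ^ (-(1 / 6) : ℝ)))).add ht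
  rw [add_zero] at ht2
  exact ge_of_tendsto ht2 (Filter.eventually_atTop.2 ⟨K, hb⟩)

end WYL
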