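import Pool.Agent.WYL.Mvl

set_option autoImplicit false

/-!
# WYL/Fm: first moments of exponent `a`
-/

open Complex MeasureTheory

namespace WYL

open HYM

/-- The first moment on the critical line has the exponent `1 + a`. -/
def FM (K : Sel) (a : ℝ) : Prop :=
  ∀ ε : ℝ, 0 < ε → ∃ B : ℝ, 0 < B ∧ ∀ V : ℝ, 1 ≤ V → Integrable (K.Lam V) ∧ ∀ U : ℝ, 1 ≤ U →
    ∫ t : ℝ, ‖K.Lam V t‖ * (1 + |t| / U)⁻¹ ≤ B * U ^ (a + ε) * V ^ ε

end WYL
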