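import Pool.Agent.HYM.MainB

set_option autoImplicit false

/-!
# WYL/Ks2: the shifted kernel with decay

PROOF. `1 + |u|/U ≤ (1 + |t|/U) + |u+t|/U`, so `(1 + |u|/U) (1+|u+t|)⁻¹ ≤ (1+|t|/U) (1+|u+t|)⁻¹ + U⁻¹`;
`(1 + |t|/U) exp (-(t/U)²) ≤ 3 exp (-(t/(√2 U))²)`, then `HYM.kernel_shift` with `V = √2 U`, and
`∫ (1+|t|)^(2ε) exp (-(t/U)²) dt ≤ C U^(1+2ε)` (see `HYM.pow_gauss` and the proof of `kernel_shift`).
-/

open Complex MeasureTheory

namespace WYL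

theorem kernel_shift2 {ε : ℝ} (hε : 0 < ε) : ∃ C : ℝ, 0 < C ∧ ∀ U : ℝ, 1 ≤ U → ∀ u : ℝ,
    Integrable (fun t : ℝ => (1 + |t|) ^ (2 * ε) * Real.exp (-(t / U) ^ 2) *
      (1 + |u + t|)⁻¹) ∧
    (1 + |u| / U) * ∫ t : ℝ, (1 + |t|) ^ (2 * ε) * Real.exp (-(t / U) ^ 2) * (1 + |u + t|)⁻¹ ≤
      C * U ^ (3 * ε) := by
  obtain ⟨C₁, hC₁, H₁⟩ := HYM.kernel_shift hε
  obtain ⟨C₀, hC₀, H₀⟩ := HYM.pow_gauss (q := 2 * ε) (by positivity)
  refine ⟨(3 * C₁ + C₀ * √(2 * Real.pi)) * (2 : ℝ) ^ (3 * ε), by positivity, fun U hU u => ?_⟩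
  refine ⟨(H₁ U hU u).1, ?_⟩
  have hU0 : 0 < U := by linarith
  set W : ℝ := √2 * U with hW
  have hs2 : √2 ^ 2 = (2 : ℝ) := Real.sq_sqrt (by norm_num)
  have hs1 : 1 ≤ √2 := by
    rw [Real.le_sqrt (by norm_num) (by norm_num)]; norm_num
  have hs3 : √2 ≤ 2 := by
    rw [Real.sqrt_le_left (by norm_num)]; norm_num
  have hW1 : 1 ≤ W := by nlinarith
  have hW2 : W ≤ 2 * U := by nlinarith
  have hsplit : ∀ t : ℝ, Real.exp (-(t / U) ^ 2) =
      Real.exp (-(t / W) ^ 2) * Real.exp (-(t / W) ^ 2) := by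
    intro t
    rw [← Real.exp_add]
    congr 1
    rw [hW, div_pow, div_pow, mul_pow, hs2]
    field_simp
    ring
  have hg : Integrable (fun t : ℝ => Real.exp (-(t / W) ^ 2)) := by
    have := integrable_exp_neg_mul_sq (b := (W ^ 2)⁻¹) (by positivity)
    refine this.congr (Filter.Eventually.of_forall fun t => ?_)
    simp only
    congr 1
    rw [div_pow]; ring
  have hgi : ∫ t : ℝ, Real.exp (-(t / W) ^ 2) = √(2 * Real.pi) * U := by
    have h1 : ∀ t : ℝ, Real.exp (-(t / W) ^ 2) = Real.exp (-(W ^ 2)⁻¹ * t ^ 2) := by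
      intro t; congr 1; rw [div_pow]; ring
    simp_rw [h1]
    rw [integral_gaussian, hW, mul_pow, hs2]
    rw [show Real.pi / (2 * U ^ 2)⁻¹ = (2 * Real.pi) * U ^ 2 by field_simp,
      Real.sqrt_mul (by positivity), Real.sqrt_sq hU0.le]
  have hG : ∀ t : ℝ, Real.exp (-(t / W) ^ 2) * (1 + |t| / U) ≤ 3 := by
    intro t
    have h1 : (t / W) ^ 2 = (|t| / U) ^ 2 / 2 := by
      rw [hW, div_pow, div_pow, mul_pow, hs2, sq_abs]
      field_simp
    have h2 : 1 + (|t| / U) ^ 2 / 2 ≤ Real.exp ((t / W) ^ 2) := by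
      rw [h1]
      have := Real.add_one_le_exp ((|t| / U) ^ 2 / 2)
      linarith
    have h3 : 1 + |t| / U ≤ 3 * Real.exp ((t / W) ^ 2) := by
      nlinarith [sq_nonneg (|t| / U - 1)]
    rw [Real.exp_neg, inv_mul_le_iff₀ (Real.exp_pos _)]
    linarith
  have hpt : ∀ t : ℝ, (1 + |u| / U) * ((1 + |t|) ^ (2 * ε) * Real.exp (-(t / U) ^ 2) * (1 + |u + t|)⁻¹) ≤
      3 * ((1 + |t|) ^ (2 * ε) * Real.exp (-(t / W) ^ 2) * (1 + |u + t|)⁻¹) +
        U⁻¹ * (C₀ * W ^ (2 * ε)) * Real.exp (-(t / W) ^ 2) := by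
    intro t
    have h1 := H₀ W hW1 t
    have h2 := hG t
    rw [hsplit]
    set P : ℝ := (1 + |t|) ^ (2 * ε) with hP
    set G : ℝ := Real.exp (-(t / W) ^ 2) with hGd
    have hP0 : 0 ≤ P := by positivity
    have hG0 : 0 < G := Real.exp_pos _
    have hR0 : 0 < (1 + |u + t|)⁻¹ := by positivity
    have h3 : |u| ≤ |t| + |u + t| := by
      have := abs_sub (u + t) t
      rw [add_sub_cancel_right] at this
      linarith
    have h4 : 1 + |u| / U ≤ (1 + |t| / U) + |u + t| * U⁻¹ := by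
      rw [div_eq_mul_inv, div_eq_mul_inv]
      nlinarith [inv_pos.2 hU0]
    have h5 : |u + t| * (1 + |u + t|)⁻¹ ≤ 1 := by
      rw [← div_eq_mul_inv, div_le_one (by positivity)]
      linarith
    have hU1 : 0 < U⁻¹ := inv_pos.2 hU0
    calc (1 + |u| / U) * (P * (G * G) * (1 + |u + t|)⁻¹)
        ≤ ((1 + |t| / U) + |u + t| * U⁻¹) * (P * (G * G) * (1 + |u + t|)⁻¹) :=
          mul_le_mul_of_nonneg_right h4 (by positivity)
      _ = (G * (1 + |t| / U)) * (P * G * (1 + |u + t|)⁻¹) +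
          (|u + t| * (1 + |u + t|)⁻¹) * (U⁻¹ * ((P * G) * G)) := by ring
      _ ≤ 3 * (P * G * (1 + |u + t|)⁻¹) + 1 * (U⁻¹ * ((C₀ * W ^ (2 * ε)) * G)) := by
          refine add_le_add (mul_le_mul_of_nonneg_right h2 (by positivity)) ?_
          refine mul_le_mul h5 ?_ (by positivity) (by norm_num)
          exact mul_le_mul_of_nonneg_left (mul_le_mul_of_nonneg_right h1 hG0.le) hU1.le
      _ = _ := by ring
  obtain ⟨i1, b1⟩ := H₁ W hW1 u
  have hpow : ∀ r : ℝ, 0 ≤ r → r ≤ 3 * ε → W ^ r ≤ (2 : ℝ) ^ (3 * ε) * U ^ (3 * ε) := by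
    intro r hr hr2
    rw [← Real.mul_rpow (by norm_num) hU0.le]
    calc W ^ r ≤ (2 * U) ^ r := Real.rpow_le_rpow (by linarith) hW2 hr
      _ ≤ (2 * U) ^ (3 * ε) := Real.rpow_le_rpow_of_exponent_le (by linarith) hr2
  rw [← integral_const_mul]
  calc ∫ t : ℝ, (1 + |u| / U) * ((1 + |t|) ^ (2 * ε) * Real.exp (-(t / U) ^ 2) * (1 + |u + t|)⁻¹)
      ≤ ∫ t : ℝ, (3 * ((1 + |t|) ^ (2 * ε) * Real.exp (-(t / W) ^ 2) * (1 + |u + t|)⁻¹) +
        U⁻¹ * (C₀ * W ^ (2 * ε)) * Real.exp (-(t / W) ^ 2)) :=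
        integral_mono ((H₁ U hU u).1.const_mul _) ((i1.const_mul _).add (hg.const_mul _)) hpt
    _ = 3 * (∫ t : ℝ, (1 + |t|) ^ (2 * ε) * Real.exp (-(t / W) ^ 2) * (1 + |u + t|)⁻¹) +
        U⁻¹ * (C₀ * W ^ (2 * ε)) * (√(2 * Real.pi) * U) := by
        rw [integral_add (i1.const_mul _) (hg.const_mul _), integral_const_mul, integral_const_mul, hgi]
    _ ≤ 3 * (C₁ * W ^ (3 * ε)) + C₀ * √(2 * Real.pi) * W ^ (2 * ε) := by
        have e : U⁻¹ * (C₀ * W ^ (2 * ε)) * (√(2 * Real.pi) * U) = C₀ * √(2 * Real.pi) * W ^ (2 * ε) := by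
          field_simp
        rw [e]
        linarith
    _ ≤ 3 * (C₁ * ((2 : ℝ) ^ (3 * ε) * U ^ (3 * ε))) +
        C₀ * √(2 * Real.pi) * ((2 : ℝ) ^ (3 * ε) * U ^ (3 * ε)) := by
        have h1 := hpow (3 * ε) (by positivity) le_rfl
        have h2 := hpow (2 * ε) (by positivity) (by linarith)
        exact add_le_add (mul_le_mul_of_nonneg_left (mul_le_mul_of_nonneg_left h1 hC₁.le) (by norm_num))
          (mul_le_mul_of_nonneg_left h2 (by positivity))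
    _ = _ := by ring

end WYL
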