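import Pool.Agent.HYM.Bil

set_option autoImplicit false

/-!
# WYL/Sng: the integral of a single inverse Mellin integral
-/

open Complex MeasureTheory

namespace WYL

open HYM

theorem sng_ln (c t : ℝ) : ln c t + ln 0 0 = ln c t := by
  unfold ln
  simp

theorem vint_single {c : ℝ} (hc : 0 < 1 + c) :
    ∃ C : ℝ, 0 < C ∧ ∀ T : ℝ, 0 < T → ∀ Lam : ℝ → ℂ, Integrable Lam →
    ‖∫ x in (0 : ℝ)..T, vint c Lam x‖ ≤ C * T ^ (1 + c) * ∫ t : ℝ, ‖Lam t‖ * (1 + |t|)⁻¹ := by
  have hc' : 0 < 1 + c + 0 := by linarith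
  have hm : 0 < min 1 (1 + c + 0) := lt_min one_pos hc'
  refine ⟨2 / min 1 (1 + c + 0), by positivity, fun T hT Lam h₁ => ?_⟩
  have hker : ∀ t : ℝ, ‖(T : ℂ) ^ (1 + ln c t + ln 0 0) / (1 + ln c t + ln 0 0)‖ ≤
      T ^ (1 + c) * (2 / min 1 (1 + c + 0)) * (1 + |t|)⁻¹ := by
    intro t
    have := bil_kernel_bound hc' hT t 0
    simp only [add_zero] at this ⊢
    exact this
  have hinv : Continuous fun t : ℝ => (1 + |t|)⁻¹ :=
    Continuous.inv₀ (by fun_prop) (fun t => by positivity)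
  have hint1 : Integrable (fun t : ℝ => ‖Lam t‖ * (1 + |t|)⁻¹) := by
    refine h₁.norm.mul_bdd (c := 1) hinv.aestronglyMeasurable
      (Filter.Eventually.of_forall fun t => ?_)
    rw [Real.norm_of_nonneg (by positivity)]
    exact inv_le_one_of_one_le₀ (by linarith [abs_nonneg t])
  have hint : Integrable (fun q : ℝ × ℝ => Lam q.2 * (q.1 : ℂ) ^ (ln c q.2))
      ((volume.restrict (Set.Ioc 0 T)).prod volume) := by
    have h4 : Integrable (fun x : ℝ => ((x ^ c : ℝ) : ℂ))
        (volume.restrict (Set.Ioc 0 T)) := by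
      have := (intervalIntegral.intervalIntegrable_rpow' (a := 0) (b := T)
        (show -1 < c by linarith)).1
      exact this.ofReal
    have h5 := h4.mul_prod h₁
    have h6 : Measurable fun q : ℝ × ℝ => cexp ((q.2 : ℂ) * I * (Real.log q.1 : ℂ)) := by
      fun_prop
    have h7 := h5.mul_bdd (c := 1) h6.aestronglyMeasurable
      (Filter.Eventually.of_forall fun q => (bil_exp_norm q.2 (Real.log q.1)).le)
    refine h7.congr ?_
    have h8 : ∀ᵐ q : ℝ × ℝ ∂((volume.restrict (Set.Ioc 0 T)).prod volume),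
        q.1 ∈ Set.Ioc 0 T := by
      have := (Measure.quasiMeasurePreserving_fst (μ := (volume : Measure ℝ).restrict (Set.Ioc 0 T))
        (ν := (volume : Measure ℝ))).ae (ae_restrict_mem (measurableSet_Ioc))
      exact this
    filter_upwards [h8] with q hq
    rw [bil_cpow hq.1]
    ring
  have hmain : ∫ x in (0 : ℝ)..T, vint c Lam x = (2 * (Real.pi : ℂ))⁻¹ *
      ∫ t : ℝ, Lam t * ((T : ℂ) ^ (1 + ln c t + ln 0 0) / (1 + ln c t + ln 0 0)) := by
    rw [intervalIntegral.integral_of_le hT.le]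
    unfold vint
    rw [integral_const_mul]
    congr 1
    rw [integral_integral_swap hint]
    refine integral_congr_ae (Filter.Eventually.of_forall fun t => ?_)
    change ∫ x in Set.Ioc 0 T, Lam t * (x : ℂ) ^ (ln c t) =
      Lam t * ((T : ℂ) ^ (1 + ln c t + ln 0 0) / (1 + ln c t + ln 0 0))
    rw [integral_const_mul, ← intervalIntegral.integral_of_le hT.le, ← bil_inner hc' t 0, sng_ln]
  rw [hmain, norm_mul]
  have h2 : ‖(2 * (Real.pi : ℂ))⁻¹‖ ≤ 1 := by
    rw [norm_inv, norm_mul, Complex.norm_real, Real.norm_of_nonneg Real.pi_pos.le,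
      Complex.norm_ofNat]
    have := Real.pi_gt_three
    exact inv_le_one_of_one_le₀ (by linarith)
  have h3 : ‖∫ t : ℝ, Lam t * ((T : ℂ) ^ (1 + ln c t + ln 0 0) / (1 + ln c t + ln 0 0))‖ ≤
      2 / min 1 (1 + c + 0) * T ^ (1 + c) * ∫ t : ℝ, ‖Lam t‖ * (1 + |t|)⁻¹ := by
    rw [← integral_const_mul]
    refine norm_integral_le_of_norm_le (hint1.const_mul _)
      (Filter.Eventually.of_forall fun t => ?_)
    rw [norm_mul]
    refine (mul_le_mul_of_nonneg_left (hker t) (by positivity)).trans (le_of_eq ?_)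
    ring
  exact (mul_le_mul h2 h3 (norm_nonneg _) zero_le_one).trans (one_mul _).le

end WYL
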