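import Pool.Agent.WYL.Fm
import Pool.Agent.WYL.Ks2
import Pool.Agent.WYL.Sng

set_option autoImplicit false

/-!
# WYL/Low: pairs of frequencies, one of them at most `U`
-/

open Complex MeasureTheory

namespace WYL

open HYM

theorem Lam_sqrt2 (K : Sel) {V : ℝ} (hV : 1 ≤ V) (t : ℝ) :
    ‖K.Lam V t‖ ≤ 3 * (‖K.Lam (√2 * V) t‖ * (1 + |t| / V)⁻¹) := by
  have hV0 : 0 < V := by linarith
  have h2 : (√2 * V) ^ 2 = 2 * V ^ 2 := by
    rw [mul_pow, Real.sq_sqrt (by norm_num)]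
  have hre : ∀ W : ℝ, ‖cexp ((ln (1 / 2) t) ^ 2 / (W : ℂ) ^ 2)‖ =
      Real.exp ((1 / 4 - t ^ 2) / W ^ 2) := by
    intro W
    rw [Complex.norm_exp]
    congr 1
    have e : (ln (1 / 2) t) ^ 2 / (W : ℂ) ^ 2 =
        (((1 / 4 - t ^ 2) / W ^ 2 : ℝ) : ℂ) + ((t / W ^ 2 : ℝ) : ℂ) * I := by
      unfold ln
      push_cast
      have hI : I ^ 2 = -1 := I_sq
      by_cases hW : (W : ℂ) = 0
      · simp [hW]
      · field_simp
        ring_nf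
        rw [hI]
        ring
    rw [e, Complex.add_re, Complex.ofReal_re, Complex.re_ofReal_mul, Complex.I_re, mul_zero,
      add_zero]
  unfold Sel.Lam
  rw [norm_mul, norm_mul, hre, hre, h2]
  have hy : 0 ≤ |t| / V := by positivity
  have hd : 0 < 1 + |t| / V := by positivity
  have hs : (|t| / V) ^ 2 = t ^ 2 / V ^ 2 := by rw [div_pow, sq_abs]
  have e1 : Real.exp ((1 / 4 - t ^ 2) / V ^ 2) = Real.exp ((1 / 4 - t ^ 2) / (2 * V ^ 2)) *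
      Real.exp ((1 / 4 - t ^ 2) / (2 * V ^ 2)) := by
    rw [← Real.exp_add]
    congr 1
    field_simp
    ring
  have e2 : Real.exp ((1 / 4 - t ^ 2) / (2 * V ^ 2)) ≤ 3 * (1 + |t| / V)⁻¹ := by
    have h3 : (1 / 4 - t ^ 2) / (2 * V ^ 2) ≤ 1 / 8 - (|t| / V) ^ 2 / 2 := by
      rw [hs]
      have hV2 : 1 ≤ V ^ 2 := by nlinarith
      have h4 : (1 / 4 - t ^ 2) / (2 * V ^ 2) = 1 / 8 / V ^ 2 - t ^ 2 / V ^ 2 / 2 := by
        field_simp
        ring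
      rw [h4]
      have h5 : (1 / 8 : ℝ) / V ^ 2 ≤ 1 / 8 := by
        rw [div_le_iff₀ (by positivity)]
        nlinarith
      linarith
    have h6 : Real.exp (1 / 8) ≤ 3 / 2 := by
      have h7 : Real.exp (1 / 8) ≤ Real.exp (1 / 4) := Real.exp_le_exp.2 (by norm_num)
      have h8 : Real.exp (1 / 4) ^ 4 ≤ (3 / 2 : ℝ) ^ 4 := by
        rw [← Real.exp_nat_mul]
        norm_num
        have := Real.exp_one_lt_d9
        linarith
      have h9 : Real.exp (1 / 4) ≤ 3 / 2 := by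
        by_contra hc
        push Not at hc
        have : (3 / 2 : ℝ) ^ 4 < Real.exp (1 / 4) ^ 4 := by
          gcongr
        linarith
      linarith
    have h10 : Real.exp (-((|t| / V) ^ 2 / 2)) ≤ 2 * (1 + |t| / V)⁻¹ := by
      rw [Real.exp_neg, ← div_eq_mul_inv, le_div_iff₀ hd, inv_mul_eq_div,
        div_le_iff₀ (Real.exp_pos _)]
      have := Real.add_one_le_exp ((|t| / V) ^ 2 / 2)
      nlinarith [sq_nonneg (|t| / V - 1)]
    calc Real.exp ((1 / 4 - t ^ 2) / (2 * V ^ 2)) ≤ Real.exp (1 / 8 - (|t| / V) ^ 2 / 2) :=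
          Real.exp_le_exp.2 h3
      _ = Real.exp (1 / 8) * Real.exp (-((|t| / V) ^ 2 / 2)) := by
          rw [← Real.exp_add]
          congr 1
      _ ≤ 3 / 2 * (2 * (1 + |t| / V)⁻¹) :=
          mul_le_mul h6 h10 (Real.exp_pos _).le (by norm_num)
      _ = _ := by ring
  rw [e1]
  calc ‖K.L (ln (1 / 2) t) / ln (1 / 2) t‖ * (Real.exp ((1 / 4 - t ^ 2) / (2 * V ^ 2)) *
        Real.exp ((1 / 4 - t ^ 2) / (2 * V ^ 2)))
      = (‖K.L (ln (1 / 2) t) / ln (1 / 2) t‖ * Real.exp ((1 / 4 - t ^ 2) / (2 * V ^ 2))) *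
        Real.exp ((1 / 4 - t ^ 2) / (2 * V ^ 2)) := by ring
    _ ≤ (‖K.L (ln (1 / 2) t) / ln (1 / 2) t‖ * Real.exp ((1 / 4 - t ^ 2) / (2 * V ^ 2))) *
        (3 * (1 + |t| / V)⁻¹) := mul_le_mul_of_nonneg_left e2 (by positivity)
    _ = _ := by ring

theorem FM_pair {K : Sel} {a : ℝ} (ha : 0 ≤ a) (hK : FM K a) {η : ℝ} (hη : 0 < η)
    (hη4 : η ≤ 1 / 4) : ∃ B : ℝ, 0 < B ∧ ∀ V₁ V₂ U : ℝ, 1 ≤ V₁ → 1 ≤ V₂ → 1 ≤ U →
      (V₁ ≤ U ∨ V₂ ≤ U) →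
      ∫ t : ℝ, ‖K.Lam V₂ t‖ * (1 + |t| / V₁)⁻¹ ≤ B * U ^ (a + η) * V₂ ^ η := by
  obtain ⟨B, hB, HB⟩ := hK η hη
  refine ⟨6 * B, by positivity, fun V₁ V₂ U h1 h2 hU h => ?_⟩
  have h10 : 0 < V₁ := by linarith
  have h20 : 0 < V₂ := by linarith
  have hU0 : 0 < U := by linarith
  rcases h with h | h
  · refine ((HB V₂ h2).2 V₁ h1).trans ?_
    have e : V₁ ^ (a + η) ≤ U ^ (a + η) := Real.rpow_le_rpow h10.le h (by linarith)
    have p1 : 0 ≤ V₂ ^ η := by positivity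
    calc B * V₁ ^ (a + η) * V₂ ^ η ≤ B * U ^ (a + η) * V₂ ^ η := by gcongr
      _ ≤ 6 * B * U ^ (a + η) * V₂ ^ η := by
          have : 0 ≤ B * U ^ (a + η) * V₂ ^ η := by positivity
          nlinarith
  · have hs1 := sqrt2_ge
    have hs2 := sqrt2_le
    have hW : 1 ≤ √2 * V₂ := by nlinarith
    obtain ⟨iW, bW⟩ := HB (√2 * V₂) hW
    have hw : Integrable (fun t : ℝ => 3 * (‖K.Lam (√2 * V₂) t‖ * (1 + |t| / V₂)⁻¹)) := by
      refine Integrable.const_mul ?_ _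
      refine iW.norm.mul_bdd (c := 1) (Continuous.aestronglyMeasurable ?_)
        (Filter.Eventually.of_forall fun t => ?_)
      · exact Continuous.inv₀ (by fun_prop) (fun t => by positivity)
      · have : 0 ≤ |t| / V₂ := by positivity
        rw [Real.norm_of_nonneg (by positivity)]
        exact inv_le_one_of_one_le₀ (by linarith)
    calc ∫ t : ℝ, ‖K.Lam V₂ t‖ * (1 + |t| / V₁)⁻¹
        ≤ ∫ t : ℝ, 3 * (‖K.Lam (√2 * V₂) t‖ * (1 + |t| / V₂)⁻¹) := by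
          refine integral_mono_of_nonneg (Filter.Eventually.of_forall fun t => by positivity) hw
            (Filter.Eventually.of_forall fun t => ?_)
          refine le_trans ?_ (Lam_sqrt2 K h2 t)
          refine mul_le_of_le_one_right (norm_nonneg _) (inv_le_one_of_one_le₀ ?_)
          have : 0 ≤ |t| / V₁ := by positivity
          linarith
      _ = 3 * ∫ t : ℝ, ‖K.Lam (√2 * V₂) t‖ * (1 + |t| / V₂)⁻¹ := integral_const_mul _ _
      _ ≤ 3 * (B * V₂ ^ (a + η) * (√2 * V₂) ^ η) :=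
          mul_le_mul_of_nonneg_left (bW V₂ h2) (by norm_num)
      _ ≤ 3 * (B * U ^ (a + η) * (2 * V₂ ^ η)) := by
          have e1 : V₂ ^ (a + η) ≤ U ^ (a + η) := Real.rpow_le_rpow h20.le h (by linarith)
          have e2 : (√2 * V₂) ^ η ≤ 2 * V₂ ^ η := by
            rw [Real.mul_rpow (by positivity) h20.le]
            refine mul_le_mul_of_nonneg_right ?_ (by positivity)
            calc √2 ^ η ≤ √2 ^ (1 : ℝ) := Real.rpow_le_rpow_of_exponent_le hs1 (by linarith)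
              _ = √2 := Real.rpow_one _
              _ ≤ 2 := hs2
          gcongr
      _ = _ := by ring

theorem low (F K : Sel) (hF : F.deg ≤ 2) {a : ℝ} (ha : 0 ≤ a) (hK : FM K a)
    {η : ℝ} (hη : 0 < η) (hη4 : η ≤ 1 / 4) : ∃ C : ℝ, 0 < C ∧
    ∀ V₁ V₂ U : ℝ, 1 ≤ V₁ → 1 ≤ V₂ → 1 ≤ U → (V₁ ≤ U ∨ V₂ ≤ U) → ∀ T : ℝ, 1 ≤ T →
      IntervalIntegrable (fun x => F.EV V₁ x * K.EV V₂ x) volume 0 T ∧
      ‖∫ x in (0 : ℝ)..T, F.EV V₁ x * K.EV V₂ x‖ ≤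
        C * (T ^ (3 / 2 : ℝ) * U ^ a) * (V₁ ^ (4 * η) * V₂ ^ (4 * η) * U ^ (4 * η)) := by
  obtain ⟨A, hA, HA⟩ := vint_mul_bound (c₁ := 1 / 2) (c₂ := -η) (by linarith)
  obtain ⟨B, hB, HB⟩ := hK η hη
  obtain ⟨B₁, hB₁, HB₁⟩ := FM_pair ha hK hη hη4
  obtain ⟨B₂, hB₂, HB₂⟩ := full_bound F hη hF
  obtain ⟨B₃, hB₃, HB₃⟩ := kernel_shift2 hη
  obtain ⟨B₄, hB₄, HB₄⟩ := vint_single (c := 1 / 2) (by norm_num)
  refine ⟨‖F.L 0‖ * B₄ * B + A * B₁ * B₂ * B₃, by positivity,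
    fun V₁ V₂ U hV₁ hV₂ hU h T hT => ?_⟩
  have hT0 : 0 < T := by linarith
  have hV₁0 : 0 < V₁ := by linarith
  have hV₂0 : 0 < V₂ := by linarith
  have hU0 : 0 < U := by linarith
  obtain ⟨iL, bL⟩ := HB V₂ hV₂
  have iF := full_integrable F hη hV₁ (T := V₁)
  have m0 := vint_ii (c := 1 / 2) (T := T) (by norm_num) hT0.le iL
  have m1 := vint_mul_ii (c₁ := 1 / 2) (c₂ := -η) (T := T) (by linarith) hT0.le iL iF
  have hfun : ∀ x ∈ Set.uIoc 0 T, F.EV V₁ x * K.EV V₂ x =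
      F.L 0 * vint (1 / 2) (K.Lam V₂) x +
        vint (1 / 2) (K.Lam V₂) x * vint (-η) (F.full η V₁) x := by
    intro x hx
    rw [Set.uIoc_of_le hT0.le] at hx
    have h1 := EV_left F hη (by linarith) hV₁0 hx.1
    have h3 : K.EV V₂ x = vint (1 / 2) (K.Lam V₂) x := rfl
    rw [h3, h1]
    ring
  have i1 := m0.const_mul (F.L 0)
  refine ⟨(i1.add m1).congr fun x hx => (hfun x hx).symm, ?_⟩
  rw [intervalIntegral.integral_congr_ae (Filter.Eventually.of_forall hfun),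
    intervalIntegral.integral_add i1 m1, intervalIntegral.integral_const_mul]
  have g1 : 1 ≤ V₁ ^ (4 * η) := Real.one_le_rpow hV₁ (by linarith)
  have g2 : V₂ ^ η ≤ V₂ ^ (4 * η) := Real.rpow_le_rpow_of_exponent_le hV₂ (by linarith)
  have g3 : 1 ≤ U ^ (4 * η) := Real.one_le_rpow hU (by linarith)
  have g4 : U ^ η ≤ U ^ (4 * η) := Real.rpow_le_rpow_of_exponent_le hU (by linarith)
  have g5 : V₁ ^ (3 * η) ≤ V₁ ^ (4 * η) := Real.rpow_le_rpow_of_exponent_le hV₁ (by linarith)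
  have g6 : 1 ≤ U ^ a := Real.one_le_rpow hU ha
  have n1 : ‖F.L 0 * ∫ x in (0 : ℝ)..T, vint (1 / 2) (K.Lam V₂) x‖ ≤
      ‖F.L 0‖ * B₄ * B * (T ^ (3 / 2 : ℝ) * U ^ a) *
        (V₁ ^ (4 * η) * V₂ ^ (4 * η) * U ^ (4 * η)) := by
    rw [norm_mul]
    have h1 := HB₄ T hT0 (K.Lam V₂) iL
    have h2 : ∫ t : ℝ, ‖K.Lam V₂ t‖ * (1 + |t|)⁻¹ ≤ B * V₂ ^ η := by
      have := bL 1 le_rfl
      simp only [div_one, Real.one_rpow, mul_one] at this
      exact this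
    have e1 : (1 : ℝ) + 1 / 2 = 3 / 2 := by norm_num
    rw [e1] at h1
    calc _ ≤ ‖F.L 0‖ * (B₄ * T ^ (3 / 2 : ℝ) * (B * V₂ ^ η)) := by
          refine mul_le_mul_of_nonneg_left (h1.trans ?_) (norm_nonneg _)
          exact mul_le_mul_of_nonneg_left h2 (by positivity)
      _ = ‖F.L 0‖ * B₄ * B * (T ^ (3 / 2 : ℝ) * 1) * (1 * V₂ ^ η * 1) := by ring
      _ ≤ _ := by gcongr
  have n2 : ‖∫ x in (0 : ℝ)..T, vint (1 / 2) (K.Lam V₂) x * vint (-η) (F.full η V₁) x‖ ≤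
      A * B₁ * B₂ * B₃ * (T ^ (3 / 2 : ℝ) * U ^ a) *
        (V₁ ^ (4 * η) * V₂ ^ (4 * η) * U ^ (4 * η)) := by
    have h1 := HA T hT0 (K.Lam V₂) (F.full η V₁) iL iF
    have hin : ∀ t₁ : ℝ, ∫ t₂ : ℝ, ‖K.Lam V₂ t₁‖ * ‖F.full η V₁ t₂‖ * (1 + |t₁ + t₂|)⁻¹ ≤
        ‖K.Lam V₂ t₁‖ * (1 + |t₁| / V₁)⁻¹ * (B₂ * B₃ * V₁ ^ (3 * η)) := by
      intro t₁
      obtain ⟨ki, kb⟩ := HB₃ V₁ hV₁ t₁
      have hd : 0 < 1 + |t₁| / V₁ := by positivity
      have kb' : ∫ t : ℝ, (1 + |t|) ^ (2 * η) * Real.exp (-(t / V₁) ^ 2) * (1 + |t₁ + t|)⁻¹ ≤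
          (1 + |t₁| / V₁)⁻¹ * (B₃ * V₁ ^ (3 * η)) := by
        rw [inv_mul_eq_div, le_div_iff₀ hd, mul_comm]
        exact kb
      calc _ ≤ ∫ t₂ : ℝ, (‖K.Lam V₂ t₁‖ * B₂) * ((1 + |t₂|) ^ (2 * η) *
            Real.exp (-(t₂ / V₁) ^ 2) * (1 + |t₁ + t₂|)⁻¹) := by
            refine integral_mono_of_nonneg (Filter.Eventually.of_forall fun t₂ => by positivity)
              (ki.const_mul _) (Filter.Eventually.of_forall fun t₂ => ?_)
            have := HB₂ V₁ hV₁ t₂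
            calc _ = ‖F.full η V₁ t₂‖ * (‖K.Lam V₂ t₁‖ * (1 + |t₁ + t₂|)⁻¹) := by ring
              _ ≤ (B₂ * (1 + |t₂|) ^ (2 * η) * Real.exp (-(t₂ / V₁) ^ 2)) *
                  (‖K.Lam V₂ t₁‖ * (1 + |t₁ + t₂|)⁻¹) :=
                  mul_le_mul_of_nonneg_right this (by positivity)
              _ = _ := by ring
        _ = (‖K.Lam V₂ t₁‖ * B₂) * ∫ t₂ : ℝ, ((1 + |t₂|) ^ (2 * η) *
            Real.exp (-(t₂ / V₁) ^ 2) * (1 + |t₁ + t₂|)⁻¹) := by rw [integral_const_mul]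
        _ ≤ (‖K.Lam V₂ t₁‖ * B₂) * ((1 + |t₁| / V₁)⁻¹ * (B₃ * V₁ ^ (3 * η))) :=
            mul_le_mul_of_nonneg_left kb' (by positivity)
        _ = _ := by ring
    have iW : Integrable (fun t : ℝ => ‖K.Lam V₂ t‖ * (1 + |t| / V₁)⁻¹) := by
      refine iL.norm.mul_bdd (c := 1) (Continuous.aestronglyMeasurable ?_)
        (Filter.Eventually.of_forall fun t => ?_)
      · exact Continuous.inv₀ (by fun_prop) (fun t => by positivity)
      · have : 0 ≤ |t| / V₁ := by positivity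
        rw [Real.norm_of_nonneg (by positivity)]
        exact inv_le_one_of_one_le₀ (by linarith)
    have hout : ∫ t₁ : ℝ, ∫ t₂ : ℝ, ‖K.Lam V₂ t₁‖ * ‖F.full η V₁ t₂‖ * (1 + |t₁ + t₂|)⁻¹ ≤
        (B₁ * U ^ (a + η) * V₂ ^ η) * (B₂ * B₃ * V₁ ^ (3 * η)) := by
      calc _ ≤ ∫ t₁ : ℝ, ‖K.Lam V₂ t₁‖ * (1 + |t₁| / V₁)⁻¹ * (B₂ * B₃ * V₁ ^ (3 * η)) := by
            refine integral_mono_of_nonneg (Filter.Eventually.of_forall fun t₁ => ?_)
              (iW.mul_const _) (Filter.Eventually.of_forall hin)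
            exact integral_nonneg fun t₂ => by positivity
        _ = (∫ t₁ : ℝ, ‖K.Lam V₂ t₁‖ * (1 + |t₁| / V₁)⁻¹) * (B₂ * B₃ * V₁ ^ (3 * η)) := by
            rw [integral_mul_const]
        _ ≤ _ := mul_le_mul_of_nonneg_right (HB₁ V₁ V₂ U hV₁ hV₂ hU h) (by positivity)
    calc _ ≤ _ := h1
      _ ≤ A * T ^ (1 + 1 / 2 + -η) *
          ((B₁ * U ^ (a + η) * V₂ ^ η) * (B₂ * B₃ * V₁ ^ (3 * η))) :=
          mul_le_mul_of_nonneg_left hout (by positivity)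
      _ = A * B₁ * B₂ * B₃ * (T ^ (1 + 1 / 2 + -η) * U ^ a) *
          (V₁ ^ (3 * η) * V₂ ^ η * U ^ η) := by
          rw [Real.rpow_add hU0]
          generalize T ^ (1 + 1 / 2 + -η) = y
          ring
      _ ≤ _ := by
          have hTT : T ^ (1 + 1 / 2 + -η) ≤ T ^ (3 / 2 : ℝ) :=
            Real.rpow_le_rpow_of_exponent_le hT (by linarith)
          gcongr
  refine (norm_add_le _ _).trans ((add_le_add n1 n2).trans (le_of_eq ?_))
  ring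

end WYL
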