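import Pool.Agent.WYL.Ks2
import Pool.Agent.WYL.Mvl
import Pool.Agent.WYL.Sng

set_option autoImplicit false

/-!
# WYL/Main: the hybrid first moment for the degrees 2 and 5
-/

open Complex MeasureTheory

namespace WYL

open HYM

theorem EV_diff (F : Sel) (hF : F.deg ≤ 2) {V : ℝ} (hV : 1 ≤ V) (k : ℕ) {x : ℝ} (hx : 0 < x) :
    F.EV V x - F.EV (2 ^ k) x = vint (1 / 2) (fun t => F.Lam V t - F.Lam (2 ^ k) t) x := by
  have e1 : F.EV V x = vint (1 / 2) (F.Lam V) x := rfl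
  have e2 : F.EV (2 ^ k) x = vint (1 / 2) (F.Lam (2 ^ k)) x := rfl
  have h2k : (1 : ℝ) ≤ 2 ^ k := one_le_pow₀ (by norm_num)
  rw [e1, e2]
  unfold vint
  rw [← mul_sub, ← integral_sub (bil_integrable (Lam_int F hF hV) hx)
    (bil_integrable (Lam_int F hF h2k) hx)]
  congr 1
  refine integral_congr_ae (Filter.Eventually.of_forall fun t => ?_)
  simp only
  ring

/-- The main estimate for the regularised error terms. -/
theorem EVEV_boundC (F G H K : Sel) (hF : F.deg ≤ 2) (hG : G.deg ≤ 2) (hH : H.deg ≤ 2)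
    {η A₁ A₂ : ℝ} (hη : 0 < η) (hη4 : η ≤ 1 / 4) (hA₁ : 0 < A₁) (hA₂ : 0 < A₂)
    (k1 : ∀ t : ℝ, ‖K.L (ln (1 / 2) t)‖ ≤
      A₁ * (1 + |t|) ^ (1 / 6 + η) * (‖G.L (ln (1 / 2) t)‖ ^ 2 + ‖H.L (ln (1 / 2) t)‖ ^ 2))
    (k2 : ∀ t : ℝ, ‖K.L (ln (1 / 2) t)‖ ≤
      A₂ * (1 + |t|) ^ (1 / 2 + 2 * η) * ‖H.L (ln (1 / 2) t)‖) :
    ∃ C : ℝ, 0 < C ∧ ∀ V : ℝ, 1 ≤ V → ∀ k : ℕ, (2 : ℝ) ^ k ≤ V → ∀ T : ℝ, 1 ≤ T →
      IntervalIntegrable (fun x => F.EV V x * K.EV V x) volume 0 T ∧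
      ‖∫ x in (0 : ℝ)..T, F.EV V x * K.EV V x‖ ≤
        C * (T ^ (3 / 2 : ℝ) * ((2 : ℝ) ^ k) ^ (1 / 6 : ℝ) + T ^ (2 : ℝ) * √(((2 : ℝ) ^ k)⁻¹)) *
          V ^ (5 * η) := by
  obtain ⟨A, hA, HA⟩ := vint_mul_bound (c₁ := 1 / 2) (c₂ := -η) (by linarith)
  obtain ⟨B₁, hB₁, HB₁⟩ := Lam_one G H K hG hH (a := 1 / 6 + η) (by positivity) (by linarith)
    hA₁ k1 hη
  obtain ⟨B₂, hB₂, HB₂⟩ := full_bound F hη hF
  obtain ⟨B₃, hB₃, HB₃⟩ := kernel_shift2 hη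
  obtain ⟨B₄, hB₄, HB₄⟩ := vint_single (c := 1 / 2) (by norm_num)
  obtain ⟨B₅, hB₅, HB₅⟩ := bilin (c₁ := 1 / 2) (c₂ := 1 / 2) (p := 0) (δ := η) (by norm_num)
    (by norm_num) hη
  obtain ⟨B₆, hB₆, HB₆⟩ := Lam_diff F hF hη.le hη
  obtain ⟨B₇, hB₇, HB₇⟩ := Lam_two H K hH (b := 2 * η) (by positivity) hA₂ hη.le k2 hη
  refine ⟨‖F.L 0‖ * B₄ * B₁ + A * B₁ * B₂ * B₃ + B₅ * √(B₆ * B₇), by positivity,
    fun V hV k hk T hT => ?_⟩
  have hT0 : 0 < T := by linarith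
  have hV0 : 0 < V := by linarith
  set U : ℝ := 2 ^ k with hUd
  have hU : 1 ≤ U := one_le_pow₀ (by norm_num)
  have hU0 : 0 < U := by linarith
  obtain ⟨iL, bL⟩ := HB₁ V hV
  have iF := full_integrable F hη hU (T := U)
  obtain ⟨jd, bd⟩ := HB₆ V hV k hk
  obtain ⟨j2, b2⟩ := HB₇ V hV
  set f : ℝ → ℂ := fun t => F.Lam V t - F.Lam (2 ^ k) t with hf
  have iff' : Integrable f := (Lam_int F hF hV).sub (Lam_int F hF hU)
  have m0 := vint_ii (c := 1 / 2) (T := T) (by norm_num) hT0.le iL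
  have m1 := vint_mul_ii (c₁ := 1 / 2) (c₂ := -η) (T := T) (by linarith) hT0.le iL iF
  have m2 := vint_mul_ii (c₁ := 1 / 2) (c₂ := 1 / 2) (T := T) (by norm_num) hT0.le iff' iL
  have hfun : ∀ x ∈ Set.uIoc 0 T, F.EV V x * K.EV V x =
      F.L 0 * vint (1 / 2) (K.Lam V) x + vint (1 / 2) (K.Lam V) x * vint (-η) (F.full η U) x +
        vint (1 / 2) f x * vint (1 / 2) (K.Lam V) x := by
    intro x hx
    rw [Set.uIoc_of_le hT0.le] at hx
    have h1 := EV_left F hη (by linarith) hU0 hx.1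
    have h2 := EV_diff F hF hV k hx.1
    have h3 : K.EV V x = vint (1 / 2) (K.Lam V) x := rfl
    have h4 : F.EV V x = F.EV U x + vint (1 / 2) f x := by
      rw [hf, ← h2, hUd]
      ring
    rw [h3, h4, h1]
    ring
  have i1 := m0.const_mul (F.L 0)
  refine ⟨((i1.add m1).add m2).congr fun x hx => (hfun x hx).symm, ?_⟩
  rw [intervalIntegral.integral_congr_ae (Filter.Eventually.of_forall hfun),
    intervalIntegral.integral_add (i1.add m1) m2, intervalIntegral.integral_add i1 m1,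
    intervalIntegral.integral_const_mul]
  have hU6 : 1 ≤ U ^ (1 / 6 : ℝ) := Real.one_le_rpow hU (by norm_num)
  have hVη : V ^ η ≤ V ^ (5 * η) := Real.rpow_le_rpow_of_exponent_le hV (by linarith)
  -- the constant term
  have n1 : ‖F.L 0 * ∫ x in (0 : ℝ)..T, vint (1 / 2) (K.Lam V) x‖ ≤
      ‖F.L 0‖ * B₄ * B₁ * (T ^ (3 / 2 : ℝ) * U ^ (1 / 6 : ℝ)) * V ^ (5 * η) := by
    rw [norm_mul]
    have h1 := HB₄ T hT0 (K.Lam V) iL
    have h2 : ∫ t : ℝ, ‖K.Lam V t‖ * (1 + |t|)⁻¹ ≤ B₁ * V ^ η := by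
      have := bL 1 le_rfl
      simp only [div_one, Real.one_rpow, mul_one] at this
      exact this
    have e1 : (1 : ℝ) + 1 / 2 = 3 / 2 := by norm_num
    rw [e1] at h1
    calc _ ≤ ‖F.L 0‖ * (B₄ * T ^ (3 / 2 : ℝ) * (B₁ * V ^ η)) := by
          refine mul_le_mul_of_nonneg_left (h1.trans ?_) (norm_nonneg _)
          exact mul_le_mul_of_nonneg_left h2 (by positivity)
      _ = ‖F.L 0‖ * B₄ * B₁ * (T ^ (3 / 2 : ℝ) * 1) * V ^ η := by ring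
      _ ≤ ‖F.L 0‖ * B₄ * B₁ * (T ^ (3 / 2 : ℝ) * U ^ (1 / 6 : ℝ)) * V ^ (5 * η) := by
          gcongr
  -- the low part
  have n2 : ‖∫ x in (0 : ℝ)..T, vint (1 / 2) (K.Lam V) x * vint (-η) (F.full η U) x‖ ≤
      A * B₁ * B₂ * B₃ * (T ^ (3 / 2 : ℝ) * U ^ (1 / 6 : ℝ)) * V ^ (5 * η) := by
    have h1 := HA T hT0 (K.Lam V) (F.full η U) iL iF
    have hin : ∀ t₁ : ℝ, ∫ t₂ : ℝ, ‖K.Lam V t₁‖ * ‖F.full η U t₂‖ * (1 + |t₁ + t₂|)⁻¹ ≤
        ‖K.Lam V t₁‖ * (1 + |t₁| / U)⁻¹ * (B₂ * B₃ * U ^ (3 * η)) := by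
      intro t₁
      obtain ⟨ki, kb⟩ := HB₃ U hU t₁
      have hd : 0 < 1 + |t₁| / U := by positivity
      have kb' : ∫ t : ℝ, (1 + |t|) ^ (2 * η) * Real.exp (-(t / U) ^ 2) * (1 + |t₁ + t|)⁻¹ ≤
          (1 + |t₁| / U)⁻¹ * (B₃ * U ^ (3 * η)) := by
        rw [inv_mul_eq_div, le_div_iff₀ hd, mul_comm]
        exact kb
      calc _ ≤ ∫ t₂ : ℝ, (‖K.Lam V t₁‖ * B₂) * ((1 + |t₂|) ^ (2 * η) *
            Real.exp (-(t₂ / U) ^ 2) * (1 + |t₁ + t₂|)⁻¹) := by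
            refine integral_mono_of_nonneg (Filter.Eventually.of_forall fun t₂ => by positivity)
              (ki.const_mul _) (Filter.Eventually.of_forall fun t₂ => ?_)
            have := HB₂ U hU t₂
            calc _ = ‖F.full η U t₂‖ * (‖K.Lam V t₁‖ * (1 + |t₁ + t₂|)⁻¹) := by ring
              _ ≤ (B₂ * (1 + |t₂|) ^ (2 * η) * Real.exp (-(t₂ / U) ^ 2)) *
                  (‖K.Lam V t₁‖ * (1 + |t₁ + t₂|)⁻¹) :=
                  mul_le_mul_of_nonneg_right this (by positivity)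
              _ = _ := by ring
        _ = (‖K.Lam V t₁‖ * B₂) * ∫ t₂ : ℝ, ((1 + |t₂|) ^ (2 * η) *
            Real.exp (-(t₂ / U) ^ 2) * (1 + |t₁ + t₂|)⁻¹) := by rw [integral_const_mul]
        _ ≤ (‖K.Lam V t₁‖ * B₂) * ((1 + |t₁| / U)⁻¹ * (B₃ * U ^ (3 * η))) :=
            mul_le_mul_of_nonneg_left kb' (by positivity)
        _ = _ := by ring
    have iW : Integrable (fun t : ℝ => ‖K.Lam V t‖ * (1 + |t| / U)⁻¹) := by
      refine iL.norm.mul_bdd (c := 1) (Continuous.aestronglyMeasurable ?_)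
        (Filter.Eventually.of_forall fun t => ?_)
      · exact Continuous.inv₀ (by fun_prop) (fun t => by positivity)
      · have : 0 ≤ |t| / U := by positivity
        rw [Real.norm_of_nonneg (by positivity)]
        exact inv_le_one_of_one_le₀ (by linarith)
    have hout : ∫ t₁ : ℝ, ∫ t₂ : ℝ, ‖K.Lam V t₁‖ * ‖F.full η U t₂‖ * (1 + |t₁ + t₂|)⁻¹ ≤
        (B₁ * U ^ (1 / 6 + η) * V ^ η) * (B₂ * B₃ * U ^ (3 * η)) := by
      calc _ ≤ ∫ t₁ : ℝ, ‖K.Lam V t₁‖ * (1 + |t₁| / U)⁻¹ * (B₂ * B₃ * U ^ (3 * η)) := by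
            refine integral_mono_of_nonneg (Filter.Eventually.of_forall fun t₁ => ?_)
              (iW.mul_const _) (Filter.Eventually.of_forall hin)
            exact integral_nonneg fun t₂ => by positivity
        _ = (∫ t₁ : ℝ, ‖K.Lam V t₁‖ * (1 + |t₁| / U)⁻¹) * (B₂ * B₃ * U ^ (3 * η)) := by
            rw [integral_mul_const]
        _ ≤ _ := mul_le_mul_of_nonneg_right (bL U hU) (by positivity)
    have hUV : U ^ (1 / 6 + η) * U ^ (3 * η) ≤ U ^ (1 / 6 : ℝ) * V ^ (4 * η) := by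
      rw [← Real.rpow_add hU0]
      have e : (1 / 6 + η + 3 * η : ℝ) = 1 / 6 + 4 * η := by ring
      rw [e, Real.rpow_add hU0]
      exact mul_le_mul_of_nonneg_left (Real.rpow_le_rpow hU0.le hk (by positivity)) (by positivity)
    calc _ ≤ _ := h1
      _ ≤ A * T ^ (1 + 1 / 2 + -η) *
          ((B₁ * U ^ (1 / 6 + η) * V ^ η) * (B₂ * B₃ * U ^ (3 * η))) :=
          mul_le_mul_of_nonneg_left hout (by positivity)
      _ = A * B₁ * B₂ * B₃ * T ^ (1 + 1 / 2 + -η) *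
          ((U ^ (1 / 6 + η) * U ^ (3 * η)) * V ^ η) := by
          generalize T ^ (1 + 1 / 2 + -η) = y
          ring
      _ ≤ A * B₁ * B₂ * B₃ * T ^ (3 / 2 : ℝ) * ((U ^ (1 / 6 : ℝ) * V ^ (4 * η)) * V ^ η) := by
          have hTT : T ^ (1 + 1 / 2 + -η) ≤ T ^ (3 / 2 : ℝ) :=
            Real.rpow_le_rpow_of_exponent_le hT (by linarith)
          gcongr
      _ = A * B₁ * B₂ * B₃ * (T ^ (3 / 2 : ℝ) * U ^ (1 / 6 : ℝ)) * (V ^ (4 * η) * V ^ η) := by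
          ring
      _ = _ := by
          rw [← Real.rpow_add hV0]
          congr 2
          ring
  -- the high part
  have n3 : ‖∫ x in (0 : ℝ)..T, vint (1 / 2) f x * vint (1 / 2) (K.Lam V) x‖ ≤
      B₅ * √(B₆ * B₇) * (T ^ (2 : ℝ) * √(U⁻¹)) * V ^ (5 * η) := by
    have e1 : (2 : ℝ) * 0 + 2 * η = 2 * η := by ring
    have e2 : -((2 : ℝ) * 0) + 2 * η = 2 * η := by ring
    have e3 : (1 : ℝ) + 1 / 2 + 1 / 2 = 2 := by norm_num
    have h := HB₅ T hT0 f (K.Lam V) iff' iL (by rw [e1]; exact jd) (by rw [e2]; exact j2)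
    rw [e1, e2, e3] at h
    have h1 : √(∫ t : ℝ, (1 + |t|) ^ (2 * η) * ‖f t‖ ^ 2) ≤
        √(B₆ * U⁻¹ * V ^ (2 * η + η)) := Real.sqrt_le_sqrt bd
    have h2 : √(∫ t : ℝ, (1 + |t|) ^ (2 * η) * ‖K.Lam V t‖ ^ 2) ≤
        √(B₇ * V ^ (2 * η + 2 * (2 * η) + η)) := Real.sqrt_le_sqrt b2
    have h3 : √(B₆ * U⁻¹ * V ^ (2 * η + η)) * √(B₇ * V ^ (2 * η + 2 * (2 * η) + η)) =
        √(B₆ * B₇) * √(U⁻¹) * V ^ (5 * η) := by
      rw [← Real.sqrt_mul (by positivity), ← Real.sqrt_mul (by positivity)]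
      have e4 : B₆ * U⁻¹ * V ^ (2 * η + η) * (B₇ * V ^ (2 * η + 2 * (2 * η) + η)) =
          (B₆ * B₇ * U⁻¹) * (V ^ (5 * η)) ^ 2 := by
        have e5 : V ^ (2 * η + η) * V ^ (2 * η + 2 * (2 * η) + η) = (V ^ (5 * η)) ^ 2 := by
          rw [← Real.rpow_add hV0, ← Real.rpow_natCast (V ^ (5 * η)) 2, ← Real.rpow_mul hV0.le]
          congr 1
          push_cast
          ring
        rw [← e5]
        ring
      rw [e4, Real.sqrt_mul (by positivity), Real.sqrt_sq (by positivity)]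
    calc _ ≤ _ := h
      _ = B₅ * T ^ (2 : ℝ) * (√(∫ t : ℝ, (1 + |t|) ^ (2 * η) * ‖f t‖ ^ 2) *
          √(∫ t : ℝ, (1 + |t|) ^ (2 * η) * ‖K.Lam V t‖ ^ 2)) := by ring
      _ ≤ B₅ * T ^ (2 : ℝ) * (√(B₆ * U⁻¹ * V ^ (2 * η + η)) *
          √(B₇ * V ^ (2 * η + 2 * (2 * η) + η))) := by
          refine mul_le_mul_of_nonneg_left ?_ (by positivity)
          exact mul_le_mul h1 h2 (Real.sqrt_nonneg _) (Real.sqrt_nonneg _)
      _ = _ := by rw [h3]; ring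
  have p1 : 0 ≤ T ^ (3 / 2 : ℝ) * U ^ (1 / 6 : ℝ) := by positivity
  have p2 : 0 ≤ T ^ (2 : ℝ) * √(U⁻¹) := by positivity
  have p3 : 0 ≤ V ^ (5 * η) := by positivity
  refine (norm_add_le _ _).trans ((add_le_add ((norm_add_le _ _).trans (add_le_add n1 n2))
    n3).trans ?_)
  have q1 : 0 ≤ B₅ * √(B₆ * B₇) * (T ^ (3 / 2 : ℝ) * U ^ (1 / 6 : ℝ)) * V ^ (5 * η) := by
    positivity
  have q2 : 0 ≤ (‖F.L 0‖ * B₄ * B₁ + A * B₁ * B₂ * B₃) * (T ^ (2 : ℝ) * √(U⁻¹)) *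
      V ^ (5 * η) := by positivity
  nlinarith [q1, q2]

/-- Main theorem with the pointwise bounds as hypotheses. -/
theorem mainC (F Z G H K : HYM.Sel) (hF : F.deg ≤ 2) (hG : G.deg ≤ 2) (hH : H.deg ≤ 2)
    (hK : ∀ t : ℝ, K.L (HYM.ln (1 / 2) t) =
      Z.L (HYM.ln (1 / 2) t) * (G.L (HYM.ln (1 / 2) t) * H.L (HYM.ln (1 / 2) t)))
    (wZ : ∀ ε : ℝ, 0 < ε → ∃ C : ℝ, 0 < C ∧ ∀ t : ℝ,
      ‖Z.L (HYM.ln (1 / 2) t)‖ ≤ C * (1 + |t|) ^ (1 / 6 + ε))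
    (wG : ∀ ε : ℝ, 0 < ε → ∃ C : ℝ, 0 < C ∧ ∀ t : ℝ,
      ‖G.L (HYM.ln (1 / 2) t)‖ ≤ C * (1 + |t|) ^ (1 / 3 + ε))
    (ε : ℝ) (hε : 0 < ε) :
    ∃ C : ℝ, ∀ T : ℝ, 1 ≤ T →
      ‖∫ x in (1 : ℝ)..T, F.E x * K.E x‖ ≤ C * T ^ (13 / 8 + ε) := by
  obtain ⟨η, hη, hη4, hηε⟩ : ∃ η : ℝ, 0 < η ∧ η ≤ 1 / 4 ∧ 25 * η ≤ ε :=
    ⟨min (ε / 25) (1 / 4), lt_min (by positivity) (by norm_num), min_le_right _ _, by
      have := min_le_left (ε / 25) (1 / 4)
      linarith⟩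
  obtain ⟨CZ, hCZ, HZ⟩ := wZ η hη
  obtain ⟨CG, hCG, HG⟩ := wG η hη
  have k1 : ∀ t : ℝ, ‖K.L (ln (1 / 2) t)‖ ≤
      CZ * (1 + |t|) ^ (1 / 6 + η) * (‖G.L (ln (1 / 2) t)‖ ^ 2 + ‖H.L (ln (1 / 2) t)‖ ^ 2) := by
    intro t
    rw [hK t, norm_mul, norm_mul]
    refine mul_le_mul (HZ t) ?_ (by positivity) (by positivity)
    nlinarith [sq_nonneg (‖G.L (ln (1 / 2) t)‖ - ‖H.L (ln (1 / 2) t)‖),
      norm_nonneg (G.L (ln (1 / 2) t)), norm_nonneg (H.L (ln (1 / 2) t)),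
      mul_nonneg (norm_nonneg (G.L (ln (1 / 2) t))) (norm_nonneg (H.L (ln (1 / 2) t)))]
  have k2 : ∀ t : ℝ, ‖K.L (ln (1 / 2) t)‖ ≤
      (CZ * CG) * (1 + |t|) ^ (1 / 2 + 2 * η) * ‖H.L (ln (1 / 2) t)‖ := by
    intro t
    have ht : 0 < 1 + |t| := by positivity
    rw [hK t, norm_mul, norm_mul, ← mul_assoc]
    refine mul_le_mul_of_nonneg_right ?_ (norm_nonneg _)
    calc _ ≤ (CZ * (1 + |t|) ^ (1 / 6 + η)) * (CG * (1 + |t|) ^ (1 / 3 + η)) :=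
          mul_le_mul (HZ t) (HG t) (norm_nonneg _) (by positivity)
      _ = (CZ * CG) * ((1 + |t|) ^ (1 / 6 + η) * (1 + |t|) ^ (1 / 3 + η)) := by ring
      _ = _ := by
          rw [← Real.rpow_add ht]
          congr 2
          ring
  obtain ⟨C₁, hC₁, H₁⟩ := EVEV_boundC F G H K hF hG hH hη hη4 hCZ (by positivity) k1 k2
  obtain ⟨D₁, hD₁, K₁⟩ := E_L1 F
  obtain ⟨D₂, hD₂, K₂⟩ := E_L1 K
  obtain ⟨M₁, hM₁, N₁⟩ := EV_crude F
  obtain ⟨M₂, hM₂, N₂⟩ := EV_crude K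
  obtain ⟨M₃, hM₃, N₃⟩ := E_crude K
  obtain ⟨B₁, hB₁, HB₁⟩ := Lam_one G H K hG hH (a := 1 / 6 + η) (by positivity) (by linarith)
    hCZ k1 hη
  refine ⟨3 * C₁ + 4 * M₁ * M₂ + 2 * M₃ * D₁ + 2 * M₁ * D₂, fun T hT => ?_⟩
  have hT0 : 0 < T := by linarith
  set V : ℝ := T ^ 5 with hVd
  have hV : 1 ≤ V := one_le_pow₀ hT
  have hV0 : 0 < V := by linarith
  have hT34 : 1 ≤ T ^ (3 / 4 : ℝ) := Real.one_le_rpow hT (by norm_num)
  obtain ⟨k, hk1, hk2⟩ := exists_nat_pow_near hT34 (by norm_num : (1 : ℝ) < 2)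
  have hkV : (2 : ℝ) ^ k ≤ V := by
    refine hk1.trans ?_
    rw [hVd, ← Real.rpow_natCast]
    exact Real.rpow_le_rpow_of_exponent_le hT (by norm_num)
  have hk0 : (0 : ℝ) < 2 ^ k := by positivity
  obtain ⟨ii, b1⟩ := H₁ V hV k hkV T hT
  have ii1 : IntervalIntegrable (fun x => F.EV V x * K.EV V x) volume 0 1 :=
    ii.mono_set (by rw [Set.uIcc_of_le hT0.le, Set.uIcc_of_le zero_le_one]; exact Set.Icc_subset_Icc le_rfl hT)
  have ii2 : IntervalIntegrable (fun x => F.EV V x * K.EV V x) volume 1 T :=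
    ii.mono_set (by rw [Set.uIcc_of_le hT, Set.uIcc_of_le hT0.le]; exact Set.Icc_subset_Icc (by norm_num) le_rfl)
  -- integrability of the single functions on [1, T]
  have iEVF : IntervalIntegrable (F.EV V) volume 1 T := by
    have iF := full_integrable F hη hV (T := V)
    have m : IntervalIntegrable (vint (-η) (F.full η V)) volume 0 T :=
      vint_ii (by linarith) hT0.le iF
    have m' : IntervalIntegrable (vint (-η) (F.full η V)) volume 1 T :=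
      m.mono_set (by rw [Set.uIcc_of_le hT, Set.uIcc_of_le hT0.le]; exact Set.Icc_subset_Icc (by norm_num) le_rfl)
    refine ((intervalIntegrable_const (c := F.L 0)).add m').congr fun x hx => ?_
    rw [Set.uIoc_of_le hT] at hx
    exact (EV_left F hη (by linarith) hV0 (by linarith [hx.1])).symm
  have iEVK : IntervalIntegrable (K.EV V) volume 1 T := by
    have m : IntervalIntegrable (vint (1 / 2) (K.Lam V)) volume 0 T :=
      vint_ii (by norm_num) hT0.le (HB₁ V hV).1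
    exact m.mono_set (by rw [Set.uIcc_of_le hT, Set.uIcc_of_le hT0.le]; exact Set.Icc_subset_Icc (by norm_num) le_rfl)
  have ae1 : ∀ (P : ℝ → Prop), (∀ x, 1 ≤ x → x ≤ T → P x) →
      ∀ᵐ x ∂(volume.restrict (Set.uIoc 1 T)), P x := by
    intro P hP
    rw [Set.uIoc_of_le hT]
    exact (ae_restrict_iff' measurableSet_Ioc).2
      (Filter.Eventually.of_forall fun x hx => hP x hx.1.le hx.2)
  have iE : ∀ A : Sel, IntervalIntegrable A.E volume 1 T := by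
    intro A
    obtain ⟨M, hM, N⟩ := E_crude A
    refine (intervalIntegrable_const (c := M * (1 + T ^ 2))).mono_fun' ?_ ?_
    · exact (E_measurable A).aestronglyMeasurable
    · refine ae1 _ fun x h1 h2 => (N x (by linarith)).trans ?_
      refine mul_le_mul_of_nonneg_left ?_ hM.le
      nlinarith
  set rF : ℝ → ℂ := fun x => F.E x - F.EV V x with hrF
  set rK : ℝ → ℂ := fun x => K.E x - K.EV V x with hrK
  have irF : IntervalIntegrable rF volume 1 T := (iE F).sub iEVF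
  have irK : IntervalIntegrable rK volume 1 T := (iE K).sub iEVK
  have bK : ∀ x, 1 ≤ x → x ≤ T → ‖K.E x‖ ≤ 2 * M₃ * T ^ 2 := by
    intro x h1 h2
    refine (N₃ x (by linarith)).trans ?_
    have : 1 + x ^ 2 ≤ 2 * T ^ 2 := by nlinarith
    nlinarith
  have bF : ∀ x, 1 ≤ x → x ≤ T → ‖F.EV V x‖ ≤ 2 * M₁ * T ^ 2 := by
    intro x h1 h2
    refine (N₁ V hV x (by linarith)).trans ?_
    have : 1 + x ^ 2 ≤ 2 * T ^ 2 := by nlinarith
    nlinarith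
  have mK : AEStronglyMeasurable K.E (volume.restrict (Set.uIoc 1 T)) :=
    (E_measurable K).aestronglyMeasurable
  have mrF : AEStronglyMeasurable rF (volume.restrict (Set.uIoc 1 T)) := by
    rw [Set.uIoc_of_le hT]; exact irF.1.aestronglyMeasurable
  have mrK : AEStronglyMeasurable rK (volume.restrict (Set.uIoc 1 T)) := by
    rw [Set.uIoc_of_le hT]; exact irK.1.aestronglyMeasurable
  have mEVF : AEStronglyMeasurable (F.EV V) (volume.restrict (Set.uIoc 1 T)) := by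
    rw [Set.uIoc_of_le hT]; exact iEVF.1.aestronglyMeasurable
  have j1 : IntervalIntegrable (fun x => rF x * K.E x) volume 1 T := by
    refine (irF.norm.mul_const (2 * M₃ * T ^ 2)).mono_fun' (mrF.mul mK) ?_
    refine ae1 _ fun x h1 h2 => ?_
    show ‖rF x * K.E x‖ ≤ ‖rF x‖ * (2 * M₃ * T ^ 2)
    rw [norm_mul]
    exact mul_le_mul_of_nonneg_left (bK x h1 h2) (norm_nonneg _)
  have j2 : IntervalIntegrable (fun x => F.EV V x * rK x) volume 1 T := by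
    refine (irK.norm.const_mul (2 * M₁ * T ^ 2)).mono_fun' (mEVF.mul mrK) ?_
    refine ae1 _ fun x h1 h2 => ?_
    show ‖F.EV V x * rK x‖ ≤ (2 * M₁ * T ^ 2) * ‖rK x‖
    rw [norm_mul]
    exact mul_le_mul_of_nonneg_right (bF x h1 h2) (norm_nonneg _)
  have split : ∫ x in (1 : ℝ)..T, F.E x * K.E x =
      ((∫ x in (0 : ℝ)..T, F.EV V x * K.EV V x) - ∫ x in (0 : ℝ)..1, F.EV V x * K.EV V x) +
      (∫ x in (1 : ℝ)..T, rF x * K.E x) + (∫ x in (1 : ℝ)..T, F.EV V x * rK x) := by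
    rw [← intervalIntegral.integral_add_adjacent_intervals ii1 ii2, add_sub_cancel_left,
      ← intervalIntegral.integral_add ii2 j1, ← intervalIntegral.integral_add (ii2.add j1) j2]
    refine intervalIntegral.integral_congr fun x _ => ?_
    simp only [hrF, hrK]
    ring
  have hone : 1 ≤ T ^ (13 / 8 + ε) := Real.one_le_rpow hT (by linarith)
  have n1 : ‖∫ x in (0 : ℝ)..T, F.EV V x * K.EV V x‖ ≤ 3 * C₁ * T ^ (13 / 8 + ε) := by
    refine b1.trans ?_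
    have e1 : V ^ (5 * η) = T ^ (25 * η) := by
      rw [hVd, ← Real.rpow_natCast, ← Real.rpow_mul hT0.le]
      congr 1; push_cast; ring
    have e2 : T ^ (3 / 2 : ℝ) * ((2 : ℝ) ^ k) ^ (1 / 6 : ℝ) ≤ T ^ (13 / 8 : ℝ) := by
      have h1 : ((2 : ℝ) ^ k) ^ (1 / 6 : ℝ) ≤ T ^ (1 / 8 : ℝ) := by
        have h2 := Real.rpow_le_rpow hk0.le hk1 (by norm_num : (0 : ℝ) ≤ 1 / 6)
        rw [← Real.rpow_mul hT0.le] at h2
        have h3 : (3 / 4 * (1 / 6) : ℝ) = 1 / 8 := by norm_num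
        rwa [h3] at h2
      have h4 : T ^ (13 / 8 : ℝ) = T ^ (3 / 2 : ℝ) * T ^ (1 / 8 : ℝ) := by
        rw [← Real.rpow_add hT0]; norm_num
      rw [h4]
      exact mul_le_mul_of_nonneg_left h1 (by positivity)
    have e3 : T ^ (2 : ℝ) * √(((2 : ℝ) ^ k)⁻¹) ≤ 2 * T ^ (13 / 8 : ℝ) := by
      have h1 : ((2 : ℝ) ^ k)⁻¹ ≤ 2 * T ^ (-(3 / 4) : ℝ) := by
        rw [Real.rpow_neg hT0.le, ← div_eq_mul_inv, inv_le_comm₀ hk0 (by positivity), inv_div,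
          div_le_iff₀ (by norm_num)]
        rw [pow_succ] at hk2
        exact hk2.le
      have h2 : √(((2 : ℝ) ^ k)⁻¹) ≤ 2 * T ^ (-(3 / 8) : ℝ) := by
        rw [Real.sqrt_le_left (by positivity)]
        refine h1.trans ?_
        have h3 : (2 * T ^ (-(3 / 8) : ℝ)) ^ 2 = 4 * T ^ (-(3 / 4) : ℝ) := by
          rw [mul_pow, ← Real.rpow_natCast (T ^ (-(3 / 8) : ℝ)) 2, ← Real.rpow_mul hT0.le]
          norm_num
        rw [h3]
        have : 0 < T ^ (-(3 / 4) : ℝ) := by positivity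
        linarith
      have h4 : T ^ (13 / 8 : ℝ) = T ^ (2 : ℝ) * T ^ (-(3 / 8) : ℝ) := by
        rw [← Real.rpow_add hT0]; norm_num
      rw [h4]
      calc _ ≤ T ^ (2 : ℝ) * (2 * T ^ (-(3 / 8) : ℝ)) :=
            mul_le_mul_of_nonneg_left h2 (by positivity)
        _ = _ := by ring
    rw [e1]
    calc _ ≤ C₁ * (T ^ (13 / 8 : ℝ) + 2 * T ^ (13 / 8 : ℝ)) * T ^ (25 * η) := by gcongr
      _ = 3 * C₁ * (T ^ (13 / 8 : ℝ) * T ^ (25 * η)) := by ring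
      _ = 3 * C₁ * T ^ (13 / 8 + 25 * η) := by rw [← Real.rpow_add hT0]
      _ ≤ _ := by
          refine mul_le_mul_of_nonneg_left ?_ (by positivity)
          exact Real.rpow_le_rpow_of_exponent_le hT (by linarith)
  have n2 : ‖∫ x in (0 : ℝ)..1, F.EV V x * K.EV V x‖ ≤ 4 * M₁ * M₂ * T ^ (13 / 8 + ε) := by
    have h := intervalIntegral.norm_integral_le_of_norm_le_const
      (a := (0 : ℝ)) (b := 1) (f := fun x => F.EV V x * K.EV V x) (C := (M₁ * 2) * (M₂ * 2))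
      (fun x hx => by
        rw [Set.uIoc_of_le zero_le_one] at hx
        rw [norm_mul]
        have h1 : 1 + x ^ 2 ≤ 2 := by nlinarith [hx.1, hx.2]
        refine mul_le_mul ((N₁ V hV x hx.1).trans ?_) ((N₂ V hV x hx.1).trans ?_)
          (norm_nonneg _) (by positivity)
        · exact mul_le_mul_of_nonneg_left h1 hM₁.le
        · exact mul_le_mul_of_nonneg_left h1 hM₂.le)
    calc _ ≤ _ := h
      _ = 4 * M₁ * M₂ * 1 := by norm_num; ring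
      _ ≤ _ := mul_le_mul_of_nonneg_left hone (by positivity)
  have hTV : T ^ 2 * (T ^ 3 / V) = 1 := by
    rw [hVd]; field_simp
  have n3 : ‖∫ x in (1 : ℝ)..T, rF x * K.E x‖ ≤ 2 * M₃ * D₁ * T ^ (13 / 8 + ε) := by
    have h : ‖∫ x in (1 : ℝ)..T, rF x * K.E x‖ ≤
        ∫ x in (1 : ℝ)..T, ‖rF x‖ * (2 * M₃ * T ^ 2) := by
      refine (intervalIntegral.norm_integral_le_integral_norm hT).trans ?_
      refine intervalIntegral.integral_mono_on hT j1.norm (irF.norm.mul_const _) fun x hx => ?_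
      rw [norm_mul]
      exact mul_le_mul_of_nonneg_left (bK x hx.1 hx.2) (norm_nonneg _)
    rw [intervalIntegral.integral_mul_const] at h
    calc _ ≤ _ := h
      _ ≤ (D₁ * T ^ 3 / V) * (2 * M₃ * T ^ 2) :=
          mul_le_mul_of_nonneg_right (K₁ T hT V hV) (by positivity)
      _ = 2 * M₃ * D₁ * (T ^ 2 * (T ^ 3 / V)) := by ring
      _ = 2 * M₃ * D₁ * 1 := by rw [hTV]
      _ ≤ _ := mul_le_mul_of_nonneg_left hone (by positivity)
  have n4 : ‖∫ x in (1 : ℝ)..T, F.EV V x * rK x‖ ≤ 2 * M₁ * D₂ * T ^ (13 / 8 + ε) := by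
    have h : ‖∫ x in (1 : ℝ)..T, F.EV V x * rK x‖ ≤
        ∫ x in (1 : ℝ)..T, (2 * M₁ * T ^ 2) * ‖rK x‖ := by
      refine (intervalIntegral.norm_integral_le_integral_norm hT).trans ?_
      refine intervalIntegral.integral_mono_on hT j2.norm (irK.norm.const_mul _) fun x hx => ?_
      rw [norm_mul]
      exact mul_le_mul_of_nonneg_right (bF x hx.1 hx.2) (norm_nonneg _)
    rw [intervalIntegral.integral_const_mul] at h
    calc _ ≤ _ := h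
      _ ≤ (2 * M₁ * T ^ 2) * (D₂ * T ^ 3 / V) :=
          mul_le_mul_of_nonneg_left (K₂ T hT V hV) (by positivity)
      _ = 2 * M₁ * D₂ * (T ^ 2 * (T ^ 3 / V)) := by ring
      _ = 2 * M₁ * D₂ * 1 := by rw [hTV]
      _ ≤ _ := mul_le_mul_of_nonneg_left hone (by positivity)
  rw [split]
  calc _ ≤ ((‖∫ x in (0 : ℝ)..T, F.EV V x * K.EV V x‖ +
        ‖∫ x in (0 : ℝ)..1, F.EV V x * K.EV V x‖) +
        ‖∫ x in (1 : ℝ)..T, rF x * K.E x‖) + ‖∫ x in (1 : ℝ)..T, F.EV V x * rK x‖ := by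
        refine (norm_add_le _ _).trans (add_le_add ?_ le_rfl)
        refine (norm_add_le _ _).trans (add_le_add ?_ le_rfl)
        exact norm_sub_le _ _
    _ ≤ ((3 * C₁ * T ^ (13 / 8 + ε) + 4 * M₁ * M₂ * T ^ (13 / 8 + ε)) +
        2 * M₃ * D₁ * T ^ (13 / 8 + ε)) + 2 * M₁ * D₂ * T ^ (13 / 8 + ε) :=
        add_le_add (add_le_add (add_le_add n1 n2) n3) n4
    _ = _ := by ring

end WYL
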