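import Pool.Agent.WYL.Smo
import Pool.Agent.WYL.Ltw
import Pool.Agent.WYL.Low

set_option autoImplicit false

/-!
# WYL/MainD: the hybrid moment from a first moment

Plan: model = `WYL.mainC` in WYL/Main.lean (same reduction to `∫_0^T F.EV V * K.EV V`, `V = T^5`, by
`E_L1`, `EV_crude`, `E_crude`). Take `k` with `2^k ≤ T^(1/(3/2+a)) < 2^(k+1)`, `U = 2^k`, and
`∫ F_V K_V = ∫ F_U K_V + ∫ F_V K_U - ∫ F_U K_U + ∫ (F_V - F_U)(K_V - K_U)`.
The first three are `≤ C T^(3/2) U^a T^(c η)` (`low`); the last is at most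
`sup_{0<x≤T} ‖K_V - K_U‖ * ∫_0^T ‖F_V - F_U‖ ≤ C T^(1+ε) U^(-1) * T^(3/2) U^(-1/2) T^(c η)`
(`E_smooth` twice, `EV_tail`), and `U ≈ T^(1/(3/2+a))` makes both `T^(3/2 + a/(3/2+a) + c η)`.
-/

open Complex MeasureTheory

namespace WYL

open HYM

/-- The part of all frequencies: `∫_0^T F_V K_V` for `V = T^5`. -/
private theorem md_low (F K : Sel) (hF : F.deg ≤ 2) {a : ℝ} (ha : 0 ≤ a)
    (hK : FM K a) {η : ℝ} (hη : 0 < η) (hη4 : η ≤ 1 / 4) :
    ∃ C : ℝ, 0 < C ∧ ∀ V : ℝ, 1 ≤ V → ∀ k : ℕ, (2 : ℝ) ^ k ≤ V → ∀ T : ℝ, 1 ≤ T →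
      (2 : ℝ) ^ k ≤ T →
      IntervalIntegrable (fun x => F.EV V x * K.EV V x) volume 0 T ∧
      ‖∫ x in (0 : ℝ)..T, F.EV V x * K.EV V x‖ ≤
        C * (T ^ (3 / 2 : ℝ) * ((2 : ℝ) ^ k) ^ a +
          T ^ (5 / 2 : ℝ) * (((2 : ℝ) ^ k)⁻¹ * √(((2 : ℝ) ^ k)⁻¹))) * (V ^ (12 * η) * T ^ η) := by
  obtain ⟨C₁, hC₁, H₁⟩ := low F K hF ha hK hη hη4
  obtain ⟨C₂, hC₂, H₂⟩ := E_smooth K hη
  obtain ⟨C₃, hC₃, H₃⟩ := EV_tail F hF hη
  refine ⟨3 * C₁ + 4 * C₂ * C₃, by positivity, fun V hV k hk T hT hkT => ?_⟩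
  have hT0 : 0 < T := by linarith
  have hV0 : 0 < V := by linarith
  set U : ℝ := 2 ^ k with hUd
  have hU : 1 ≤ U := one_le_pow₀ (by norm_num)
  have hU0 : 0 < U := by linarith
  obtain ⟨i1, b1⟩ := H₁ U V U hU hV hU (Or.inl le_rfl) T hT
  obtain ⟨i2, b2⟩ := H₁ V U U hV hU hU (Or.inr le_rfl) T hT
  obtain ⟨i3, b3⟩ := H₁ U U U hU hU hU (Or.inl le_rfl) T hT
  obtain ⟨i4, -⟩ := H₁ V V V hV hV hV (Or.inl le_rfl) T hT
  obtain ⟨i5, b5⟩ := H₃ V hV k hk T hT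
  rw [← hUd] at i5 b5
  refine ⟨i4, ?_⟩
  have hfun : ∀ x : ℝ, F.EV V x * K.EV V x = (F.EV U x * K.EV V x + F.EV V x * K.EV U x -
      F.EV U x * K.EV U x) + (F.EV V x - F.EV U x) * (K.EV V x - K.EV U x) := by
    intro x
    ring
  have i6 : IntervalIntegrable (fun x => (F.EV V x - F.EV U x) * (K.EV V x - K.EV U x))
      volume 0 T := by
    have h := ((i4.sub i1).sub i2).add i3
    refine h.congr fun x _ => ?_
    show F.EV V x * K.EV V x - F.EV U x * K.EV V x - F.EV V x * K.EV U x + F.EV U x * K.EV U x = _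
    ring
  have hsplit : ∫ x in (0 : ℝ)..T, F.EV V x * K.EV V x =
      ((∫ x in (0 : ℝ)..T, F.EV U x * K.EV V x) + (∫ x in (0 : ℝ)..T, F.EV V x * K.EV U x) -
        ∫ x in (0 : ℝ)..T, F.EV U x * K.EV U x) +
        ∫ x in (0 : ℝ)..T, (F.EV V x - F.EV U x) * (K.EV V x - K.EV U x) := by
    rw [← intervalIntegral.integral_add i1 i2, ← intervalIntegral.integral_sub (i1.add i2) i3,
      ← intervalIntegral.integral_add ((i1.add i2).sub i3) i6]
    exact intervalIntegral.integral_congr fun x _ => hfun x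
  -- the last part
  have hUV : ∀ x : ℝ, 0 < x → x ≤ T → ‖K.EV V x - K.EV U x‖ ≤ 4 * C₂ * T ^ η * (T * U⁻¹) := by
    intro x h1 h2
    have e1 := H₂ T hT V hV x h1 h2
    have e2 := H₂ T hT U hU x h1 h2
    have e3 : ‖K.EV V x - K.EV U x‖ ≤ ‖K.E x - K.EV U x‖ + ‖K.E x - K.EV V x‖ := by
      have : K.EV V x - K.EV U x = (K.E x - K.EV U x) - (K.E x - K.EV V x) := by ring
      rw [this]
      exact norm_sub_le _ _
    have e4 : 1 + T / V ≤ 2 * (T * U⁻¹) := by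
      have : T / V ≤ T * U⁻¹ := by
        rw [div_eq_mul_inv]
        exact mul_le_mul_of_nonneg_left (inv_anti₀ hU0 hk) hT0.le
      have h3 : 1 ≤ T * U⁻¹ := by
        rw [← div_eq_mul_inv, one_le_div hU0]
        exact hkT
      linarith
    have e5 : 1 + T / U ≤ 2 * (T * U⁻¹) := by
      have h3 : 1 ≤ T * U⁻¹ := by
        rw [← div_eq_mul_inv, one_le_div hU0]
        exact hkT
      rw [div_eq_mul_inv]
      linarith
    have e6 : 0 ≤ C₂ * T ^ η := by positivity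
    calc _ ≤ _ := e3
      _ ≤ C₂ * T ^ η * (1 + T / U) + C₂ * T ^ η * (1 + T / V) := add_le_add e2 e1
      _ ≤ C₂ * T ^ η * (2 * (T * U⁻¹)) + C₂ * T ^ η * (2 * (T * U⁻¹)) :=
          add_le_add (mul_le_mul_of_nonneg_left e5 e6) (mul_le_mul_of_nonneg_left e4 e6)
      _ = _ := by ring
  have n4 : ‖∫ x in (0 : ℝ)..T, (F.EV V x - F.EV U x) * (K.EV V x - K.EV U x)‖ ≤
      4 * C₂ * C₃ * (T ^ (5 / 2 : ℝ) * (U⁻¹ * √(U⁻¹))) * (V ^ (12 * η) * T ^ η) := by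
    have h := intervalIntegral.norm_integral_le_of_norm_le hT0.le
      (f := fun x => (F.EV V x - F.EV U x) * (K.EV V x - K.EV U x))
      (g := fun x => ‖F.EV V x - F.EV U x‖ * (4 * C₂ * T ^ η * (T * U⁻¹)))
      (Filter.Eventually.of_forall fun x hx => by
        rw [norm_mul]
        exact mul_le_mul_of_nonneg_left (hUV x hx.1 hx.2) (norm_nonneg _))
      (i5.norm.mul_const _)
    rw [intervalIntegral.integral_mul_const] at h
    have h52 : T ^ (5 / 2 : ℝ) = T ^ (3 / 2 : ℝ) * T := by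
      nth_rewrite 3 [← Real.rpow_one T]
      rw [← Real.rpow_add hT0]
      norm_num
    have hVη : V ^ (2 * η) ≤ V ^ (12 * η) :=
      Real.rpow_le_rpow_of_exponent_le hV (by linarith)
    calc _ ≤ _ := h
      _ ≤ (C₃ * (T ^ (3 / 2 : ℝ) * √(U⁻¹)) * V ^ (2 * η)) * (4 * C₂ * T ^ η * (T * U⁻¹)) :=
          mul_le_mul_of_nonneg_right b5 (by positivity)
      _ = 4 * C₂ * C₃ * ((T ^ (3 / 2 : ℝ) * T) * (U⁻¹ * √(U⁻¹))) * (V ^ (2 * η) * T ^ η) := by
          ring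
      _ = 4 * C₂ * C₃ * (T ^ (5 / 2 : ℝ) * (U⁻¹ * √(U⁻¹))) * (V ^ (2 * η) * T ^ η) := by
          rw [← h52]
      _ ≤ _ := by gcongr
  -- the low parts
  have hTη : 1 ≤ T ^ η := Real.one_le_rpow hT hη.le
  have hU4 : U ^ (4 * η) ≤ V ^ (4 * η) := Real.rpow_le_rpow hU0.le hk (by positivity)
  have hV12 : V ^ (4 * η) * V ^ (4 * η) * V ^ (4 * η) = V ^ (12 * η) := by
    rw [← Real.rpow_add hV0, ← Real.rpow_add hV0]
    congr 1
    ring
  have hlow : ∀ X Y Z : ℝ, 0 ≤ X → 0 ≤ Y → 0 ≤ Z → X ≤ V ^ (4 * η) → Y ≤ V ^ (4 * η) →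
      Z ≤ V ^ (4 * η) → C₁ * (T ^ (3 / 2 : ℝ) * U ^ a) * (X * Y * Z) ≤
      C₁ * (T ^ (3 / 2 : ℝ) * U ^ a) * (V ^ (12 * η) * T ^ η) := by
    intro X Y Z x0 y0 z0 x1 y1 z1
    refine mul_le_mul_of_nonneg_left ?_ (by positivity)
    calc X * Y * Z ≤ V ^ (4 * η) * V ^ (4 * η) * V ^ (4 * η) := by gcongr
      _ = V ^ (12 * η) * 1 := by rw [hV12, mul_one]
      _ ≤ _ := mul_le_mul_of_nonneg_left hTη (by positivity)
  have pU : 0 ≤ U ^ (4 * η) := by positivity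
  have pV : 0 ≤ V ^ (4 * η) := by positivity
  have c1 := b1.trans (hlow _ _ _ pU pV pU hU4 le_rfl hU4)
  have c2 := b2.trans (hlow _ _ _ pV pU pU le_rfl hU4 hU4)
  have c3 := b3.trans (hlow _ _ _ pU pU pU hU4 hU4 hU4)
  rw [hsplit]
  have q0 : 0 ≤ V ^ (12 * η) * T ^ η := by positivity
  have q1 : 0 ≤ 4 * C₂ * C₃ * (T ^ (3 / 2 : ℝ) * U ^ a) * (V ^ (12 * η) * T ^ η) := by
    positivity
  have q2 : 0 ≤ 3 * C₁ * (T ^ (5 / 2 : ℝ) * (U⁻¹ * √(U⁻¹))) * (V ^ (12 * η) * T ^ η) := by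
    positivity
  calc _ ≤ ((‖∫ x in (0 : ℝ)..T, F.EV U x * K.EV V x‖ +
        ‖∫ x in (0 : ℝ)..T, F.EV V x * K.EV U x‖) +
        ‖∫ x in (0 : ℝ)..T, F.EV U x * K.EV U x‖) +
        ‖∫ x in (0 : ℝ)..T, (F.EV V x - F.EV U x) * (K.EV V x - K.EV U x)‖ := by
        refine (norm_add_le _ _).trans (add_le_add ?_ le_rfl)
        refine (norm_sub_le _ _).trans (add_le_add ?_ le_rfl)
        exact norm_add_le _ _
    _ ≤ _ := add_le_add (add_le_add (add_le_add c1 c2) c3) n4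
    _ ≤ _ := by nlinarith [q1, q2]

theorem mainD (F K : Sel) (hF : F.deg ≤ 2) {a : ℝ} (ha : 0 ≤ a) (ha1 : a ≤ 1 / 2)
    (hK : FM K a) (ε : ℝ) (hε : 0 < ε) :
    ∃ C : ℝ, ∀ T : ℝ, 1 ≤ T →
      ‖∫ x in (1 : ℝ)..T, F.E x * K.E x‖ ≤ C * T ^ (3 / 2 + a / (3 / 2 + a) + ε) := by
  obtain ⟨η, hη, hη4, hηε⟩ : ∃ η : ℝ, 0 < η ∧ η ≤ 1 / 4 ∧ 61 * η ≤ ε :=
    ⟨min (ε / 61) (1 / 4), lt_min (by positivity) (by norm_num), min_le_right _ _, by
      have := min_le_left (ε / 61) (1 / 4)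
      linarith⟩
  obtain ⟨b, hb⟩ : ∃ b : ℝ, b = 3 / 2 + a := ⟨_, rfl⟩
  have hb0 : 0 < b := by rw [hb]; linarith
  have hb1 : 1 ≤ b := by rw [hb]; linarith
  obtain ⟨θ, hθ⟩ : ∃ θ : ℝ, θ = 3 / 2 + a / b + ε := ⟨_, rfl⟩
  have hab : 0 ≤ a / b := by positivity
  rw [← hb, ← hθ]
  obtain ⟨C₁, hC₁, H₁⟩ := md_low F K hF ha hK hη hη4
  obtain ⟨D₁, hD₁, K₁⟩ := E_L1 F
  obtain ⟨D₂, hD₂, K₂⟩ := E_L1 K
  obtain ⟨M₁, hM₁, N₁⟩ := EV_crude F
  obtain ⟨M₂, hM₂, N₂⟩ := EV_crude K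
  obtain ⟨M₃, hM₃, N₃⟩ := E_crude K
  obtain ⟨B, hB, HB⟩ := hK 1 one_pos
  obtain ⟨C₅, hC₅⟩ : ∃ C₅ : ℝ, C₅ = 5 * C₁ := ⟨_, rfl⟩
  refine ⟨C₅ + 4 * M₁ * M₂ + 2 * M₃ * D₁ + 2 * M₁ * D₂, fun T hT => ?_⟩
  have hT0 : 0 < T := by linarith
  set V : ℝ := T ^ 5 with hVd
  have hV : 1 ≤ V := one_le_pow₀ hT
  have hV0 : 0 < V := by linarith
  have hTb : 1 ≤ T ^ (1 / b) := Real.one_le_rpow hT (by positivity)
  obtain ⟨k, hk1, hk2⟩ := exists_nat_pow_near hTb (by norm_num : (1 : ℝ) < 2)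
  have hb1' : 1 / b ≤ 1 := by rw [div_le_one hb0]; exact hb1
  have hkT : (2 : ℝ) ^ k ≤ T := by
    refine hk1.trans ?_
    nth_rewrite 2 [← Real.rpow_one T]
    exact Real.rpow_le_rpow_of_exponent_le hT hb1'
  have hkV : (2 : ℝ) ^ k ≤ V := by
    refine hkT.trans ?_
    rw [hVd]
    exact le_self_pow₀ hT (by norm_num)
  have hk0 : (0 : ℝ) < 2 ^ k := by positivity
  obtain ⟨ii, b1⟩ := H₁ V hV k hkV T hT hkT
  have ii1 : IntervalIntegrable (fun x => F.EV V x * K.EV V x) volume 0 1 :=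
    ii.mono_set (by rw [Set.uIcc_of_le hT0.le, Set.uIcc_of_le zero_le_one]; exact Set.Icc_subset_Icc le_rfl hT)
  have ii2 : IntervalIntegrable (fun x => F.EV V x * K.EV V x) volume 1 T :=
    ii.mono_set (by rw [Set.uIcc_of_le hT, Set.uIcc_of_le hT0.le]; exact Set.Icc_subset_Icc (by norm_num) le_rfl)
  -- integrability of the single functions on [1, T]
  have iEVF : IntervalIntegrable (F.EV V) volume 1 T := by
    have iF := full_integrable F hη hV (T := V)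
    have m : IntervalIntegrable (vint (-η) (F.full η V)) volume 0 T :=
      vint_ii (by linarith) hT0.le iF
    have m' : IntervalIntegrable (vint (-η) (F.full η V)) volume 1 T :=
      m.mono_set (by rw [Set.uIcc_of_le hT, Set.uIcc_of_le hT0.le]; exact Set.Icc_subset_Icc (by norm_num) le_rfl)
    refine ((intervalIntegrable_const (c := F.L 0)).add m').congr fun x hx => ?_
    rw [Set.uIoc_of_le hT] at hx
    exact (EV_left F hη (by linarith) hV0 (by linarith [hx.1])).symm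
  have iEVK : IntervalIntegrable (K.EV V) volume 1 T := by
    have m : IntervalIntegrable (vint (1 / 2) (K.Lam V)) volume 0 T :=
      vint_ii (by norm_num) hT0.le (HB V hV).1
    exact m.mono_set (by rw [Set.uIcc_of_le hT, Set.uIcc_of_le hT0.le]; exact Set.Icc_subset_Icc (by norm_num) le_rfl)
  have ae1 : ∀ (P : ℝ → Prop), (∀ x, 1 ≤ x → x ≤ T → P x) →
      ∀ᵐ x ∂(volume.restrict (Set.uIoc 1 T)), P x := by
    intro P hP
    rw [Set.uIoc_of_le hT]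
    exact (ae_restrict_iff' measurableSet_Ioc).2
      (Filter.Eventually.of_forall fun x hx => hP x hx.1.le hx.2)
  have iE : ∀ A : Sel, IntervalIntegrable A.E volume 1 T := by
    intro A
    obtain ⟨M, hM, N⟩ := E_crude A
    refine (intervalIntegrable_const (c := M * (1 + T ^ 2))).mono_fun' ?_ ?_
    · exact (E_measurable A).aestronglyMeasurable
    · refine ae1 _ fun x h1 h2 => (N x (by linarith)).trans ?_
      refine mul_le_mul_of_nonneg_left ?_ hM.le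
      nlinarith
  set rF : ℝ → ℂ := fun x => F.E x - F.EV V x with hrF
  set rK : ℝ → ℂ := fun x => K.E x - K.EV V x with hrK
  have irF : IntervalIntegrable rF volume 1 T := (iE F).sub iEVF
  have irK : IntervalIntegrable rK volume 1 T := (iE K).sub iEVK
  have bK : ∀ x, 1 ≤ x → x ≤ T → ‖K.E x‖ ≤ 2 * M₃ * T ^ 2 := by
    intro x h1 h2
    refine (N₃ x (by linarith)).trans ?_
    have : 1 + x ^ 2 ≤ 2 * T ^ 2 := by nlinarith
    nlinarith
  have bF : ∀ x, 1 ≤ x → x ≤ T → ‖F.EV V x‖ ≤ 2 * M₁ * T ^ 2 := by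
    intro x h1 h2
    refine (N₁ V hV x (by linarith)).trans ?_
    have : 1 + x ^ 2 ≤ 2 * T ^ 2 := by nlinarith
    nlinarith
  have mK : AEStronglyMeasurable K.E (volume.restrict (Set.uIoc 1 T)) :=
    (E_measurable K).aestronglyMeasurable
  have mrF : AEStronglyMeasurable rF (volume.restrict (Set.uIoc 1 T)) := by
    rw [Set.uIoc_of_le hT]; exact irF.1.aestronglyMeasurable
  have mrK : AEStronglyMeasurable rK (volume.restrict (Set.uIoc 1 T)) := by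
    rw [Set.uIoc_of_le hT]; exact irK.1.aestronglyMeasurable
  have mEVF : AEStronglyMeasurable (F.EV V) (volume.restrict (Set.uIoc 1 T)) := by
    rw [Set.uIoc_of_le hT]; exact iEVF.1.aestronglyMeasurable
  have j1 : IntervalIntegrable (fun x => rF x * K.E x) volume 1 T := by
    refine (irF.norm.mul_const (2 * M₃ * T ^ 2)).mono_fun' (mrF.mul mK) ?_
    refine ae1 _ fun x h1 h2 => ?_
    show ‖rF x * K.E x‖ ≤ ‖rF x‖ * (2 * M₃ * T ^ 2)
    rw [norm_mul]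
    exact mul_le_mul_of_nonneg_left (bK x h1 h2) (norm_nonneg _)
  have j2 : IntervalIntegrable (fun x => F.EV V x * rK x) volume 1 T := by
    refine (irK.norm.const_mul (2 * M₁ * T ^ 2)).mono_fun' (mEVF.mul mrK) ?_
    refine ae1 _ fun x h1 h2 => ?_
    show ‖F.EV V x * rK x‖ ≤ (2 * M₁ * T ^ 2) * ‖rK x‖
    rw [norm_mul]
    exact mul_le_mul_of_nonneg_right (bF x h1 h2) (norm_nonneg _)
  have split : ∫ x in (1 : ℝ)..T, F.E x * K.E x =
      ((∫ x in (0 : ℝ)..T, F.EV V x * K.EV V x) - ∫ x in (0 : ℝ)..1, F.EV V x * K.EV V x) +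
      (∫ x in (1 : ℝ)..T, rF x * K.E x) + (∫ x in (1 : ℝ)..T, F.EV V x * rK x) := by
    rw [← intervalIntegral.integral_add_adjacent_intervals ii1 ii2, add_sub_cancel_left,
      ← intervalIntegral.integral_add ii2 j1, ← intervalIntegral.integral_add (ii2.add j1) j2]
    refine intervalIntegral.integral_congr fun x _ => ?_
    simp only [hrF, hrK]
    ring
  have hone : 1 ≤ T ^ θ := Real.one_le_rpow hT (by rw [hθ]; linarith)
  have n1 : ‖∫ x in (0 : ℝ)..T, F.EV V x * K.EV V x‖ ≤ C₅ * T ^ θ := by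
    refine b1.trans ?_
    have e1 : V ^ (12 * η) * T ^ η = T ^ (61 * η) := by
      rw [hVd, ← Real.rpow_natCast, ← Real.rpow_mul hT0.le, ← Real.rpow_add hT0]
      congr 1; push_cast; ring
    have e2 : T ^ (3 / 2 : ℝ) * ((2 : ℝ) ^ k) ^ a ≤ T ^ (3 / 2 + a / b) := by
      have h1 : ((2 : ℝ) ^ k) ^ a ≤ T ^ (a / b) := by
        have h2 := Real.rpow_le_rpow hk0.le hk1 ha
        rw [← Real.rpow_mul hT0.le] at h2
        have h3 : 1 / b * a = a / b := by ring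
        rwa [h3] at h2
      rw [Real.rpow_add hT0]
      exact mul_le_mul_of_nonneg_left h1 (by positivity)
    have e3 : T ^ (5 / 2 : ℝ) * (((2 : ℝ) ^ k)⁻¹ * √(((2 : ℝ) ^ k)⁻¹)) ≤
        4 * T ^ (3 / 2 + a / b) := by
      have h1 : ((2 : ℝ) ^ k)⁻¹ ≤ 2 * T ^ (-(1 / b)) := by
        rw [Real.rpow_neg hT0.le, ← div_eq_mul_inv, inv_le_comm₀ hk0 (by positivity), inv_div,
          div_le_iff₀ (by norm_num)]
        rw [pow_succ] at hk2
        exact hk2.le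
      have h2 : √(((2 : ℝ) ^ k)⁻¹) ≤ 2 * T ^ (-(1 / (2 * b))) := by
        rw [Real.sqrt_le_left (by positivity)]
        refine h1.trans ?_
        have h3 : (2 * T ^ (-(1 / (2 * b)))) ^ 2 = 4 * T ^ (-(1 / b)) := by
          rw [mul_pow, ← Real.rpow_natCast (T ^ (-(1 / (2 * b)))) 2, ← Real.rpow_mul hT0.le]
          have h5 : -(1 / (2 * b)) * ((2 : ℕ) : ℝ) = -(1 / b) := by
            push_cast
            field_simp
          rw [h5]
          norm_num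
        rw [h3]
        have : 0 < T ^ (-(1 / b)) := by positivity
        linarith
      have h4 : T ^ (3 / 2 + a / b) =
          T ^ (5 / 2 : ℝ) * (T ^ (-(1 / b)) * T ^ (-(1 / (2 * b)))) := by
        rw [← Real.rpow_add hT0, ← Real.rpow_add hT0]
        congr 1
        have ha' : a = b - 3 / 2 := by rw [hb]; ring
        rw [ha']
        field_simp
        ring
      rw [h4]
      calc _ ≤ T ^ (5 / 2 : ℝ) * ((2 * T ^ (-(1 / b))) * (2 * T ^ (-(1 / (2 * b))))) :=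
            mul_le_mul_of_nonneg_left (mul_le_mul h1 h2 (Real.sqrt_nonneg _) (by positivity))
              (by positivity)
        _ = _ := by ring
    rw [e1]
    calc _ ≤ C₁ * (T ^ (3 / 2 + a / b) + 4 * T ^ (3 / 2 + a / b)) * T ^ (61 * η) := by gcongr
      _ = 5 * C₁ * (T ^ (3 / 2 + a / b) * T ^ (61 * η)) := by ring
      _ = C₅ * T ^ (3 / 2 + a / b + 61 * η) := by rw [← Real.rpow_add hT0, hC₅]
      _ ≤ _ := by
          refine mul_le_mul_of_nonneg_left ?_ (by rw [hC₅]; positivity)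
          rw [hθ]
          exact Real.rpow_le_rpow_of_exponent_le hT (by linarith)
  have n2 : ‖∫ x in (0 : ℝ)..1, F.EV V x * K.EV V x‖ ≤ 4 * M₁ * M₂ * T ^ θ := by
    have h := intervalIntegral.norm_integral_le_of_norm_le_const
      (a := (0 : ℝ)) (b := 1) (f := fun x => F.EV V x * K.EV V x) (C := (M₁ * 2) * (M₂ * 2))
      (fun x hx => by
        rw [Set.uIoc_of_le zero_le_one] at hx
        rw [norm_mul]
        have h1 : 1 + x ^ 2 ≤ 2 := by nlinarith [hx.1, hx.2]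
        refine mul_le_mul ((N₁ V hV x hx.1).trans ?_) ((N₂ V hV x hx.1).trans ?_)
          (norm_nonneg _) (by positivity)
        · exact mul_le_mul_of_nonneg_left h1 hM₁.le
        · exact mul_le_mul_of_nonneg_left h1 hM₂.le)
    calc _ ≤ _ := h
      _ = 4 * M₁ * M₂ * 1 := by norm_num; ring
      _ ≤ _ := mul_le_mul_of_nonneg_left hone (by positivity)
  have hTV : T ^ 2 * (T ^ 3 / V) = 1 := by
    rw [hVd]; field_simp
  have n3 : ‖∫ x in (1 : ℝ)..T, rF x * K.E x‖ ≤ 2 * M₃ * D₁ * T ^ θ := by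
    have h : ‖∫ x in (1 : ℝ)..T, rF x * K.E x‖ ≤
        ∫ x in (1 : ℝ)..T, ‖rF x‖ * (2 * M₃ * T ^ 2) := by
      refine (intervalIntegral.norm_integral_le_integral_norm hT).trans ?_
      refine intervalIntegral.integral_mono_on hT j1.norm (irF.norm.mul_const _) fun x hx => ?_
      rw [norm_mul]
      exact mul_le_mul_of_nonneg_left (bK x hx.1 hx.2) (norm_nonneg _)
    rw [intervalIntegral.integral_mul_const] at h
    calc _ ≤ _ := h
      _ ≤ (D₁ * T ^ 3 / V) * (2 * M₃ * T ^ 2) :=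
          mul_le_mul_of_nonneg_right (K₁ T hT V hV) (by positivity)
      _ = 2 * M₃ * D₁ * (T ^ 2 * (T ^ 3 / V)) := by ring
      _ = 2 * M₃ * D₁ * 1 := by rw [hTV]
      _ ≤ _ := mul_le_mul_of_nonneg_left hone (by positivity)
  have n4 : ‖∫ x in (1 : ℝ)..T, F.EV V x * rK x‖ ≤ 2 * M₁ * D₂ * T ^ θ := by
    have h : ‖∫ x in (1 : ℝ)..T, F.EV V x * rK x‖ ≤
        ∫ x in (1 : ℝ)..T, (2 * M₁ * T ^ 2) * ‖rK x‖ := by
      refine (intervalIntegral.norm_integral_le_integral_norm hT).trans ?_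
      refine intervalIntegral.integral_mono_on hT j2.norm (irK.norm.const_mul _) fun x hx => ?_
      rw [norm_mul]
      exact mul_le_mul_of_nonneg_right (bF x hx.1 hx.2) (norm_nonneg _)
    rw [intervalIntegral.integral_const_mul] at h
    calc _ ≤ _ := h
      _ ≤ (2 * M₁ * T ^ 2) * (D₂ * T ^ 3 / V) :=
          mul_le_mul_of_nonneg_left (K₂ T hT V hV) (by positivity)
      _ = 2 * M₁ * D₂ * (T ^ 2 * (T ^ 3 / V)) := by ring
      _ = 2 * M₁ * D₂ * 1 := by rw [hTV]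
      _ ≤ _ := mul_le_mul_of_nonneg_left hone (by positivity)
  rw [split]
  calc _ ≤ ((‖∫ x in (0 : ℝ)..T, F.EV V x * K.EV V x‖ +
        ‖∫ x in (0 : ℝ)..1, F.EV V x * K.EV V x‖) +
        ‖∫ x in (1 : ℝ)..T, rF x * K.E x‖) + ‖∫ x in (1 : ℝ)..T, F.EV V x * rK x‖ := by
        refine (norm_add_le _ _).trans (add_le_add ?_ le_rfl)
        refine (norm_add_le _ _).trans (add_le_add ?_ le_rfl)
        exact norm_sub_le _ _
    _ ≤ ((C₅ * T ^ θ + 4 * M₁ * M₂ * T ^ θ) +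
        2 * M₃ * D₁ * T ^ θ) + 2 * M₁ * D₂ * T ^ θ :=
        add_le_add (add_le_add (add_le_add n1 n2) n3) n4
    _ = _ := by ring

end WYL
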