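import Pool.Agent.WYL.Bl3

set_option autoImplicit false

/-!
# WYL/Per: the block bound for periodic coefficients

PROOF. If `N < 2 q` the trivial bound `M max|g| ≤ 2 q max|g|` is enough (the right side is `≥ C`). If `N ≥ 2 q` split
`[N, N+M)` into residue classes `n = q m + a`, `0 ≤ a < q`; for each `a` the `m` run through an interval
`[m0, m1)`, `m0 = ⌈(N - a)/q⌉ ≥ 1`, `m1 - m0 ≤ M/q + 1`, so `m1 - m0 ≤ m0 + 1` (drop one term if necessary) and
`n^(iτ) = q^(iτ) exp (i τ log (m + a/q))`: `bl3` with `α = a/q`, `N/(2q) ≤ m0 ≤ 2N/q`.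
-/

open Complex Finset

namespace WYL

/-- `n^(iτ) = exp (i τ log n)`. -/
private lemma per_cpow (τ : ℝ) (n : ℕ) (hn : 1 ≤ n) :
    (n : ℂ) ^ ((τ : ℂ) * I) = cexp (((τ * Real.log (n : ℝ) : ℝ) : ℂ) * I) := by
  have hn0 : (n : ℂ) ≠ 0 := by exact_mod_cast (by omega : n ≠ 0)
  rw [Complex.cpow_def_of_ne_zero hn0, ← Complex.natCast_log]
  congr 1
  push_cast
  ring

/-- one more term in a block. -/
private lemma per_class (C : ℝ) (α τ : ℝ)
    (h3 : ∀ (N M : ℕ), 1 ≤ N → M ≤ N →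
      ‖∑ n ∈ Ico N (N + M), cexp (((τ * Real.log ((n : ℝ) + α) : ℝ) : ℂ) * I)‖ ≤
      C * ((N : ℝ) ^ (1 / 2 : ℝ) * (1 + |τ|) ^ (1 / 6 : ℝ) +
        (N : ℝ) * (1 + |τ|) ^ (-(1 / 6) : ℝ))) (N M : ℕ) (hN : 1 ≤ N) (hM : M ≤ N + 1) :
    ‖∑ n ∈ Ico N (N + M), cexp (((τ * Real.log ((n : ℝ) + α) : ℝ) : ℂ) * I)‖ ≤
      C * ((N : ℝ) ^ (1 / 2 : ℝ) * (1 + |τ|) ^ (1 / 6 : ℝ) +
        (N : ℝ) * (1 + |τ|) ^ (-(1 / 6) : ℝ)) + 1 := by
  rcases Nat.lt_or_ge N M with h | h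
  · have hMN : M = N + 1 := by omega
    subst hMN
    rw [show N + (N + 1) = (N + N) + 1 by ring, Finset.sum_Ico_succ_top (by omega)]
    refine (norm_add_le _ _).trans (add_le_add (h3 N N hN le_rfl) ?_)
    rw [Complex.norm_exp_ofReal_mul_I]
  · have := h3 N M hN h
    linarith

/-- the members of a residue class in an interval. -/
private lemma per_filter (q N K a b : ℕ) (hab : a + b + 1 = q) :
    (Ico N K).filter (fun n => n % q = a) =
      (Ico ((N + b) / q) ((K + b) / q)).image (fun m => q * m + a) := by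
  have hq : 0 < q := by omega
  ext n
  rw [Finset.mem_filter, Finset.mem_image, Finset.mem_Ico]
  constructor
  · rintro ⟨⟨h1, h2⟩, h3⟩
    refine ⟨n / q, ?_, ?_⟩
    · rw [Finset.mem_Ico]
      have h4 := Nat.div_add_mod n q
      rw [h3] at h4
      constructor
      · have : (N + b) / q < n / q + 1 := by
          rw [Nat.div_lt_iff_lt_mul hq]
          nlinarith
        omega
      · have : n / q + 1 ≤ (K + b) / q := by
          rw [Nat.le_div_iff_mul_le hq]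
          nlinarith
        omega
    · have h4 := Nat.div_add_mod n q
      rw [h3] at h4
      exact h4
  · rintro ⟨m, hm, rfl⟩
    rw [Finset.mem_Ico] at hm
    obtain ⟨h1, h2⟩ := hm
    have h3 : N + b < (m + 1) * q := by
      rw [← Nat.div_lt_iff_lt_mul hq]
      omega
    have h4 : (m + 1) * q ≤ K + b := by
      rw [← Nat.le_div_iff_mul_le hq]
      omega
    refine ⟨⟨by nlinarith, by nlinarith⟩, ?_⟩
    rw [Nat.mul_add_mod, Nat.mod_eq_of_lt (by omega)]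

/-- one residue class. -/
private lemma per_res (C : ℝ) (hC : 0 < C) (τ : ℝ)
    (h3 : ∀ (α : ℝ) (N M : ℕ), 0 ≤ α → α ≤ 1 → 1 ≤ N → M ≤ N →
      ‖∑ n ∈ Ico N (N + M), cexp (((τ * Real.log ((n : ℝ) + α) : ℝ) : ℂ) * I)‖ ≤
      C * ((N : ℝ) ^ (1 / 2 : ℝ) * (1 + |τ|) ^ (1 / 6 : ℝ) +
        (N : ℝ) * (1 + |τ|) ^ (-(1 / 6) : ℝ)))
    (q N M a : ℕ) (ha : a < q) (hN : 2 * q ≤ N) (hM : M ≤ N) :
    ‖∑ n ∈ (Ico N (N + M)).filter (fun n => n % q = a), (n : ℂ) ^ ((τ : ℂ) * I)‖ ≤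
      C * ((N : ℝ) ^ (1 / 2 : ℝ) * (1 + |τ|) ^ (1 / 6 : ℝ) +
        (N : ℝ) * (1 + |τ|) ^ (-(1 / 6) : ℝ)) + 1 := by
  obtain ⟨b, hb⟩ : ∃ b, a + b + 1 = q := ⟨q - 1 - a, by omega⟩
  have hq : 0 < q := by omega
  have hq0 : (0 : ℝ) < q := by exact_mod_cast hq
  rw [per_filter q N (N + M) a b hb]
  rw [Finset.sum_image (by
    intro x _ y _ hxy
    have h1 : q * x = q * y := by simpa using hxy
    exact Nat.eq_of_mul_eq_mul_left hq h1)]
  set m0 := (N + b) / q with hm0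
  set m1 := (N + M + b) / q with hm1
  have hle : m0 ≤ m1 := Nat.div_le_div_right (by omega)
  have h1 : N + b < (m0 + 1) * q := by
    rw [← Nat.div_lt_iff_lt_mul hq]
    exact Nat.lt_succ_self _
  have h1' : m0 * q ≤ N + b := Nat.div_mul_le_self _ _
  have h2 : m1 * q ≤ N + M + b := Nat.div_mul_le_self _ _
  have hm01 : 1 ≤ m0 := by
    by_contra h
    have h5 : m0 = 0 := Nat.eq_zero_of_not_pos h
    rw [h5, zero_add, one_mul] at h1
    omega
  obtain ⟨k, hk⟩ := Nat.exists_eq_add_of_le hle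
  have hkm : k ≤ m0 + 1 := by
    rw [hk] at h2
    by_contra h
    have h5 : m0 + 2 ≤ k := by omega
    have h6 : (m0 + (m0 + 2)) * q ≤ (m0 + k) * q := Nat.mul_le_mul_right q (by omega)
    nlinarith
  have hm0N : m0 ≤ N := by
    have h5 : m0 * q < (N + 1) * q := by nlinarith
    have := Nat.lt_of_mul_lt_mul_right h5
    omega
  have hterm : ∀ m ∈ Ico m0 m1, (((q * m + a : ℕ) : ℂ)) ^ ((τ : ℂ) * I) =
      cexp (((τ * Real.log (q : ℝ) : ℝ) : ℂ) * I) *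
        cexp (((τ * Real.log ((m : ℝ) + (a : ℝ) / q) : ℝ) : ℂ) * I) := by
    intro m hm
    rw [Finset.mem_Ico] at hm
    have hm1 : 1 ≤ m := by omega
    have hmr : (1 : ℝ) ≤ m := by exact_mod_cast hm1
    rw [per_cpow τ _ (by nlinarith), ← Complex.exp_add]
    congr 1
    have h5 : Real.log (((q * m + a : ℕ)) : ℝ) =
        Real.log (q : ℝ) + Real.log ((m : ℝ) + (a : ℝ) / q) := by
      rw [← Real.log_mul hq0.ne' (by positivity)]
      congr 1
      push_cast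
      field_simp
    rw [h5]
    push_cast
    ring
  rw [Finset.sum_congr rfl hterm, ← Finset.mul_sum, norm_mul, Complex.norm_exp_ofReal_mul_I,
    one_mul, hk]
  have hα0 : (0 : ℝ) ≤ (a : ℝ) / q := by positivity
  have hα1 : (a : ℝ) / q ≤ 1 := by
    rw [div_le_one hq0]
    exact_mod_cast ha.le
  refine (per_class C ((a : ℝ) / q) τ (fun N M hN hM => h3 _ N M hα0 hα1 hN hM) m0 k hm01
    hkm).trans ?_
  have hm0R : (m0 : ℝ) ≤ N := by exact_mod_cast hm0N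
  have hτ : 0 ≤ |τ| := abs_nonneg τ
  gcongr

theorem per (g : ℕ → ℂ) (q : ℕ) (hq : 1 ≤ q) (hg : ∀ n, g (n + q) = g n) :
    ∃ C : ℝ, 0 < C ∧ ∀ (τ : ℝ) (N M : ℕ), 1 ≤ N → M ≤ N →
    ‖∑ n ∈ Ico N (N + M), g n * (n : ℂ) ^ ((τ : ℂ) * I)‖ ≤
      C * ((N : ℝ) ^ (1 / 2 : ℝ) * (1 + |τ|) ^ (1 / 6 : ℝ) +
        (N : ℝ) * (1 + |τ|) ^ (-(1 / 6) : ℝ)) := by
  obtain ⟨C, hC, h3⟩ := bl3
  set G : ℝ := ∑ a ∈ range q, ‖g a‖ with hG
  have hG0 : 0 ≤ G := Finset.sum_nonneg fun a _ => norm_nonneg _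
  have hmod : ∀ n, g n = g (n % q) := fun n =>
    (Function.Periodic.map_mod_nat hg n).symm
  have hgG : ∀ n, ‖g n‖ ≤ G := by
    intro n
    rw [hmod n]
    exact Finset.single_le_sum (f := fun a => ‖g a‖) (fun a _ => norm_nonneg _)
      (Finset.mem_range.2 (Nat.mod_lt n hq))
  refine ⟨(G + 1) * (C + 1 + 2 * q), by positivity, fun τ N M hN hM => ?_⟩
  set X : ℝ := (N : ℝ) ^ (1 / 2 : ℝ) * (1 + |τ|) ^ (1 / 6 : ℝ) +
        (N : ℝ) * (1 + |τ|) ^ (-(1 / 6) : ℝ) with hX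
  have hτ : 0 ≤ |τ| := abs_nonneg τ
  have hNR : (1 : ℝ) ≤ N := by exact_mod_cast hN
  have hX1 : 1 ≤ X := by
    have h1 : 1 ≤ (N : ℝ) ^ (1 / 2 : ℝ) := Real.one_le_rpow hNR (by norm_num)
    have h2 : 1 ≤ (1 + |τ|) ^ (1 / 6 : ℝ) := Real.one_le_rpow (by linarith) (by norm_num)
    have h3 : 0 ≤ (N : ℝ) * (1 + |τ|) ^ (-(1 / 6) : ℝ) := by positivity
    nlinarith
  rcases Nat.lt_or_ge N (2 * q) with h | h
  · -- trivial bound
    have h1 : ‖∑ n ∈ Ico N (N + M), g n * (n : ℂ) ^ ((τ : ℂ) * I)‖ ≤ M * G := by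
      refine (norm_sum_le _ _).trans ?_
      have h2 : ∀ n ∈ Ico N (N + M), ‖g n * (n : ℂ) ^ ((τ : ℂ) * I)‖ ≤ G := by
        intro n hn
        rw [Finset.mem_Ico] at hn
        rw [norm_mul, per_cpow τ n (by omega), Complex.norm_exp_ofReal_mul_I, mul_one]
        exact hgG n
      refine (Finset.sum_le_sum h2).trans ?_
      simp
    have h2 : (M : ℝ) ≤ 2 * q := by
      have : M ≤ 2 * q := by omega
      exact_mod_cast this
    have h4 : (M : ℝ) * G ≤ 2 * q * G := mul_le_mul_of_nonneg_right h2 hG0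
    have h5 : 2 * (q : ℝ) * G ≤ (G + 1) * (C + 1 + 2 * q) := by
      have : 0 ≤ (q : ℝ) := Nat.cast_nonneg q
      nlinarith
    have h6 : (G + 1) * (C + 1 + 2 * q) ≤ (G + 1) * (C + 1 + 2 * q) * X := by
      have : 0 ≤ (G + 1) * (C + 1 + 2 * (q : ℝ)) := by positivity
      nlinarith
    linarith
  · have h1 : ∑ n ∈ Ico N (N + M), g n * (n : ℂ) ^ ((τ : ℂ) * I) =
        ∑ a ∈ range q, g a *
          ∑ n ∈ (Ico N (N + M)).filter (fun n => n % q = a), (n : ℂ) ^ ((τ : ℂ) * I) := by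
      rw [← Finset.sum_fiberwise_of_maps_to (s := Ico N (N + M)) (t := range q)
        (g := fun n => n % q) (fun n _ => Finset.mem_range.2 (Nat.mod_lt n hq))]
      refine Finset.sum_congr rfl fun a _ => ?_
      rw [Finset.mul_sum]
      refine Finset.sum_congr rfl fun n hn => ?_
      rw [Finset.mem_filter] at hn
      rw [hmod n, hn.2]
    rw [h1]
    refine (norm_sum_le _ _).trans ?_
    have h2 : ∀ a ∈ range q, ‖g a *
        ∑ n ∈ (Ico N (N + M)).filter (fun n => n % q = a), (n : ℂ) ^ ((τ : ℂ) * I)‖ ≤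
        ‖g a‖ * (C * X + 1) := by
      intro a ha
      rw [norm_mul]
      refine mul_le_mul_of_nonneg_left ?_ (norm_nonneg _)
      exact per_res C hC τ (fun α N M => h3 α τ N M) q N M a (Finset.mem_range.1 ha) h hM
    refine (Finset.sum_le_sum h2).trans ?_
    rw [← Finset.sum_mul, ← hG]
    have h5 : C * X + 1 ≤ (C + 1) * X := by nlinarith
    have h6 : G * (C * X + 1) ≤ G * ((C + 1) * X) := mul_le_mul_of_nonneg_left h5 hG0
    have h7 : G * ((C + 1) * X) ≤ (G + 1) * (C + 1 + 2 * q) * X := by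
      have h8 : G * (C + 1) ≤ (G + 1) * (C + 1 + 2 * q) := by
        have : 0 ≤ (q : ℝ) := Nat.cast_nonneg q
        nlinarith [mul_nonneg hG0 this]
      have := mul_le_mul_of_nonneg_right h8 (by linarith : (0 : ℝ) ≤ X)
      linarith
    linarith

end WYL
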