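import Pool.Agent.HYM.Defs

set_option autoImplicit false

/-!
# WYL/Tri: the product theorem for three factors
-/

open Complex MeasureTheory

namespace WYL

/-- If `K.f` is the Dirichlet convolution of `Z.f`, `G.f` and `H.f` then `K.L = Z.L * (G.L * H.L)`. -/
theorem L_mul3 (Z G H K : HYM.Sel)
    (hK : ∀ n : ℕ, 1 ≤ n → K.f n = ∑ p ∈ n.divisorsAntidiagonal, Z.f p.1 *
      ∑ q ∈ p.2.divisorsAntidiagonal, G.f q.1 * H.f q.2) {s : ℂ} (hs : s ≠ 1) :
    K.L s = Z.L s * (G.L s * H.L s) := by
  have hA : ∀ s : ℂ, 1 < s.re → K.P s * (s - 1) ^ (Z.m + (G.m + H.m)) =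
      Z.P s * (G.P s * H.P s) * (s - 1) ^ K.m := by
    intro s hs
    have hs1 : s - 1 ≠ 0 := by
      intro h
      have : s = 1 := by linear_combination h
      rw [this] at hs
      simp at hs
    have h1 : LSeries K.f s = LSeries Z.f s * (LSeries G.f s * LSeries H.f s) := by
      rw [← LSeries_convolution' (G.summable s hs) (H.summable s hs),
        ← LSeries_convolution' (Z.summable s hs)
        (LSeriesSummable.convolution (G.summable s hs) (H.summable s hs))]
      refine LSeries_congr (fun {n} hn => ?_) s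
      rw [hK n (Nat.one_le_iff_ne_zero.2 hn), LSeries.convolution_def, LSeries.convolution_def]
    rw [K.series s hs, Z.series s hs, G.series s hs, H.series s hs] at h1
    have h2 : K.P s = Z.P s / (s - 1) ^ Z.m *
        (G.P s / (s - 1) ^ G.m * (H.P s / (s - 1) ^ H.m)) * (s - 1) ^ K.m := by
      rw [← h1]
      field_simp
    rw [h2, pow_add, pow_add]
    field_simp
  have hall : (fun s : ℂ => K.P s * (s - 1) ^ (Z.m + (G.m + H.m))) =
      fun s : ℂ => Z.P s * (G.P s * H.P s) * (s - 1) ^ K.m := by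
    have e1 : AnalyticOnNhd ℂ (fun s : ℂ => K.P s * (s - 1) ^ (Z.m + (G.m + H.m))) Set.univ := by
      have h : Differentiable ℂ (fun s : ℂ => K.P s * (s - 1) ^ (Z.m + (G.m + H.m))) :=
        K.P_diff.mul ((differentiable_id.sub_const 1).pow _)
      exact h.differentiableOn.analyticOnNhd isOpen_univ
    have e2 : AnalyticOnNhd ℂ (fun s : ℂ => Z.P s * (G.P s * H.P s) * (s - 1) ^ K.m)
        Set.univ := by
      have h : Differentiable ℂ (fun s : ℂ => Z.P s * (G.P s * H.P s) * (s - 1) ^ K.m) :=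
        (Z.P_diff.mul (G.P_diff.mul H.P_diff)).mul ((differentiable_id.sub_const 1).pow _)
      exact h.differentiableOn.analyticOnNhd isOpen_univ
    refine e1.eq_of_eventuallyEq e2 (z₀ := 2) ?_
    have ho : IsOpen {s : ℂ | 1 < s.re} := isOpen_lt continuous_const continuous_re
    filter_upwards [ho.mem_nhds (show (2 : ℂ) ∈ {s : ℂ | 1 < s.re} by simp)] with s hs
    exact hA s hs
  have h : K.P s * (s - 1) ^ (Z.m + (G.m + H.m)) = Z.P s * (G.P s * H.P s) * (s - 1) ^ K.m :=
    congrFun hall s
  have hs1 : s - 1 ≠ 0 := sub_ne_zero.2 hs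
  unfold HYM.Sel.L
  rw [pow_add, pow_add] at h
  field_simp
  linear_combination h

end WYL
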